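import Pool.Agent.Lib.MP_bcd198_co.G.Fin3

/-!
# MP_bcd198_co, stream G, file `Walk` (job G_Walk)

Walks to the boundary of a face set.
-/

set_option autoImplicit false

namespace MPbcd198.G

open Equiv

variable {p q : ℕ} {X : Type}

/-- a vertex meeting `S` but not contained in `S` contains a boundary flag: otherwise, by
`Subgroup.closure_induction_left`, `ρ g y ∈ S` for all `g ∈ vSub` (step `B`: face set; step `C`:
the flag is not in `bd S`) -/
theorem exists_bd_in_vertex {ρ : Tri p q →* Perm X} {S : Finset X} (hS : FaceSet ρ S) {y : X}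
    (hy : y ∈ S) (hy' : y ∉ Sv ρ S) : ∃ g ∈ vSub p q, ρ g y ∈ bd ρ S := by
  classical
  by_contra hcon
  have hno : ∀ g ∈ vSub p q, ρ g y ∉ bd ρ S := fun g hg h => hcon ⟨g, hg, h⟩
  apply hy'
  rw [Sv, Finset.mem_filter]
  refine ⟨hy, ?_⟩
  have step : ∀ (x : Tri p q), x ∈ ({gen p q 1, gen p q 2} : Set (Tri p q)) →
      ∀ g ∈ vSub p q, ρ g y ∈ S → ρ (x * g) y ∈ S := by
    intro x hx g hg h
    rw [act_mul]
    rcases hx with rfl | rfl
    · exact (hS _ h).2
    · by_contra hc
      apply hno g hg
      rw [bd, Finset.mem_filter]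
      exact ⟨h, hc⟩
  intro g hg
  induction hg using Subgroup.closure_induction_left with
  | one =>
    rw [map_one]
    exact hy
  | mul_left x hx g hg ih => exact step x hx g hg ih
  | inv_mul_cancel x hx g hg ih =>
    have h1 : x⁻¹ = x := by
      rcases hx with rfl | rfl
      · exact gen_inv p q 1
      · exact gen_inv p q 2
    rw [h1]
    exact step x hx g hg ih

/-- The steps used in the disc lemma: `B`, `C` everywhere, `A` at flags outside `S_c`. -/
def VStep (ρ : Tri p q →* Perm X) (S : Finset X) (x y : X) : Prop :=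
  y = ρ (gen p q 1) x ∨ y = ρ (gen p q 2) x ∨ (y = ρ (gen p q 0) x ∧ x ∉ Sc ρ S)

/-- joined by such steps -/
def VJoin (ρ : Tri p q →* Perm X) (S : Finset X) (x y : X) : Prop :=
  Relation.ReflTransGen (VStep ρ S) x y

/-- `VStep` is symmetric (`S_c` is closed under `A`) -/
theorem VJoin_symm {ρ : Tri p q →* Perm X} {S : Finset X} (hS : FaceSet ρ S) {x y : X}
    (h : VJoin ρ S x y) : VJoin ρ S y x := by
  have h1 : ∀ a b : X, VStep ρ S a b → VStep ρ S b a := by
    rintro a b (rfl | rfl | ⟨rfl, ha⟩)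
    · exact Or.inl (act_gen_gen ρ 1 a).symm
    · exact Or.inr (Or.inl (act_gen_gen ρ 2 a).symm)
    · refine Or.inr (Or.inr ⟨(act_gen_gen ρ 0 a).symm, ?_⟩)
      rwa [Sc_iff hS (A_mem_eSub p q)]
  induction h with
  | refl => exact Relation.ReflTransGen.refl
  | tail _ hbc ih => exact Relation.ReflTransGen.head (h1 _ _ hbc) ih

/-- `Subgroup.closure_induction_left` -/
theorem VJoin_vertex (ρ : Tri p q →* Perm X) (S : Finset X) (x : X) {g : Tri p q}
    (hg : g ∈ vSub p q) : VJoin ρ S x (ρ g x) := by
  have step : ∀ (y : Tri p q), y ∈ ({gen p q 1, gen p q 2} : Set (Tri p q)) →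
      ∀ g, VJoin ρ S x (ρ g x) → VJoin ρ S x (ρ (y * g) x) := by
    intro y hy g h
    rw [act_mul]
    rcases hy with rfl | rfl
    · exact Relation.ReflTransGen.tail h (Or.inl rfl)
    · exact Relation.ReflTransGen.tail h (Or.inr (Or.inl rfl))
  induction hg using Subgroup.closure_induction_left with
  | one =>
    rw [map_one]
    exact Relation.ReflTransGen.refl
  | mul_left y hy g hg ih => exact step y hy g ih
  | inv_mul_cancel y hy g hg ih =>
    have h1 : y⁻¹ = y := by
      rcases hy with rfl | rfl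
      · exact gen_inv p q 1
      · exact gen_inv p q 2
    rw [h1]
    exact step y hy g ih

/-- WALK TO THE BOUNDARY.  In the regular action every flag outside `S_v` is joined to `bd S`.
Let `Q x := ∃ r ∈ bd S, VJoin x r` and `P x := x ∈ Sv S ∨ Q x`.  (iv) every `y ∈ S` satisfies `P y`
(`exists_bd_in_vertex`, `VJoin_vertex`).  `P x → P (Bx)`, `P x → P (Cx)`: `Sv_iff`, and `VStep`
from `Bx` to `x`.  `P x → P (Ax)`: if `x ∈ Sc S` then `Ax ∈ S` and (iv); if `x ∉ Sc S` then
`x ∉ Sv S`, so `Q x`, and `Ax → x` is a step.  `S` is nonempty, so `P s` for some `s`; by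
`tri_induction` `P (g s)` for all `g`. -/
theorem walk_to_bd {S : Finset (Tri p q)} (hS : FaceSet (selfHom p q) S) (hne : S.Nonempty)
    (x : Tri p q) (hx : x ∉ Sv (selfHom p q) S) :
    ∃ r ∈ bd (selfHom p q) S, VJoin (selfHom p q) S x r := by
  obtain ⟨s, hs⟩ := hne
  let Q : Tri p q → Prop := fun x => ∃ r ∈ bd (selfHom p q) S, VJoin (selfHom p q) S x r
  have hiv : ∀ y ∈ S, y ∈ Sv (selfHom p q) S ∨ Q y := by
    intro y hy
    by_cases h : y ∈ Sv (selfHom p q) S
    · exact Or.inl h
    · obtain ⟨g, hg, hgb⟩ := exists_bd_in_vertex hS hy h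
      exact Or.inr ⟨_, hgb, VJoin_vertex _ _ _ hg⟩
  have hQ : ∀ a b : Tri p q, VStep (selfHom p q) S b a → Q a → Q b := by
    rintro a b h ⟨r, hr, hj⟩
    exact ⟨r, hr, Relation.ReflTransGen.head h hj⟩
  have hP : ∀ g : Tri p q, g * s ∈ Sv (selfHom p q) S ∨ Q (g * s) := by
    apply tri_induction
    · rw [one_mul]
      exact hiv s hs
    · intro i g hg
      rw [mul_assoc]
      generalize g * s = z at hg
      have hinv : ∀ i, gen p q i * (gen p q i * z) = z := fun i => act_gen_gen (selfHom p q) i z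
      have h0 : gen p q 0 * z ∈ Sv (selfHom p q) S ∨ Q (gen p q 0 * z) := by
        by_cases hc : z ∈ Sc (selfHom p q) S
        · exact hiv _ (hS z (Sc_subset _ _ hc)).1
        · have hv : z ∉ Sv (selfHom p q) S := fun h => hc (Sv_subset_Sc _ _ h)
          right
          refine hQ z _ (Or.inr (Or.inr ⟨(hinv 0).symm, ?_⟩)) (hg.resolve_left hv)
          have h3 := Sc_iff (ρ := selfHom p q) hS (A_mem_eSub p q) z
          rw [selfHom_apply] at h3
          rwa [h3]
      have h1 : gen p q 1 * z ∈ Sv (selfHom p q) S ∨ Q (gen p q 1 * z) := by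
        rcases hg with hg | hg
        · left
          have h3 := Sv_iff (ρ := selfHom p q) (S := S) (B_mem_vSub p q) z
          rw [selfHom_apply] at h3
          rwa [h3]
        · right
          exact hQ z _ (Or.inl (hinv 1).symm) hg
      have h2 : gen p q 2 * z ∈ Sv (selfHom p q) S ∨ Q (gen p q 2 * z) := by
        rcases hg with hg | hg
        · left
          have h3 := Sv_iff (ρ := selfHom p q) (S := S) (C_mem_vSub p q) z
          rw [selfHom_apply] at h3
          rwa [h3]
        · right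
          exact hQ z _ (Or.inr (Or.inl (hinv 2).symm)) hg
      fin_cases i
      · exact h0
      · exact h1
      · exact h2
  have h := hP (x * s⁻¹)
  rw [inv_mul_cancel_right] at h
  exact h.resolve_left hx

end MPbcd198.G
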