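import Pool.Agent.Lib.MP_bcd198_co.G.Euler
import Pool.Agent.Lib.MP_bcd198_co.G.Walk

/-!
# MP_bcd198_co, stream G, file `ChiA` (job G_ChiA)

[5.1] number of boundary vertices.
-/

set_option autoImplicit false

namespace MPbcd198.G

open Equiv

variable {p q : ℕ} {X : Type}

private theorem ChiA_bd {ρ : Tri p q →* Perm X} {S : Finset X} {z : X} :
    z ∈ bd ρ S ↔ z ∈ S ∧ ρ (gen p q 2) z ∉ S := by
  classical
  unfold bd
  rw [Finset.mem_filter]

/-- A vertex meeting `S` and not contained in `S` contains at least two boundary flags.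

PROOF.  Let `b ∈ bd S` (`exists_bd_in_vertex`).  If `b` is the only boundary flag of its vertex then
by induction `(CB)^j b ∈ S` for all `j`: `z = B (CB)^j b ∈ S`, and `z ≠ b` (`dihedral_free`), so
`z ∉ bd S`, `C z ∈ S`.  For `j = q - 1`: `B (CB)^{q-1} b ∈ S`, and this is `C b`
(`(CB)^q = 1`), contradiction with `b ∈ bd S`. -/
theorem two_bd (hyp : Hyp p q) {ρ : Tri p q →* Perm X} (hρ : IsMapHom ρ) {S : Finset X}
    (hS : FaceSet ρ S) {y : X} (hy : y ∈ S) (hy' : y ∉ Sv ρ S) :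
    ∃ g ∈ vSub p q, ∃ h ∈ vSub p q, ρ g y ∈ bd ρ S ∧ ρ h y ∈ bd ρ S ∧ ρ g y ≠ ρ h y := by
  obtain ⟨g, hg, hb⟩ := exists_bd_in_vertex hS hy hy'
  by_contra hcon
  push Not at hcon
  have huniq : ∀ h ∈ vSub p q, ρ h y ∈ bd ρ S → ρ g y = ρ h y := fun h hh hbd => hcon g hg h hh hb hbd
  have hCB : gen p q 2 * gen p q 1 ∈ vSub p q := mul_mem (C_mem_vSub p q) (B_mem_vSub p q)
  have hsgn : ∀ j : ℕ, sgn p q (gen p q 1 * (gen p q 2 * gen p q 1) ^ j) = -1 := by
    intro j
    rw [map_mul, map_pow, map_mul, sgn_gen, sgn_gen]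
    simp
  have hne : ∀ j : ℕ, ρ (gen p q 1 * (gen p q 2 * gen p q 1) ^ j) (ρ g y) ≠ ρ g y := by
    intro j h
    have h1 := free_v hyp hρ (mul_mem (B_mem_vSub p q) (pow_mem hCB j)) (ρ g y) h
    have h2 := hsgn j
    rw [h1, map_one] at h2
    exact absurd h2 (by decide)
  have hin : ∀ j : ℕ, ρ ((gen p q 2 * gen p q 1) ^ j) (ρ g y) ∈ S := by
    intro j
    induction j with
    | zero =>
      rw [pow_zero, map_one]
      exact (ChiA_bd.1 hb).1
    | succ j ih =>
      have h1 : ρ (gen p q 1 * (gen p q 2 * gen p q 1) ^ j) (ρ g y) ∈ S := by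
        rw [act_mul]
        exact (hS _ ih).2
      have h2 : ρ (gen p q 1 * (gen p q 2 * gen p q 1) ^ j) (ρ g y) ∉ bd ρ S := by
        intro h3
        rw [← act_mul] at h3
        have h4 := huniq _ (mul_mem (mul_mem (B_mem_vSub p q) (pow_mem hCB j)) hg) h3
        rw [act_mul ρ _ g] at h4
        exact hne j h4.symm
      rw [ChiA_bd, not_and, not_not] at h2
      have h5 := h2 h1
      rw [← act_mul, ← mul_assoc, ← pow_succ'] at h5
      exact h5
  have hq : q - 1 + 1 = q := Nat.sub_add_cancel (by have := hyp.hq; omega)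
  have h1 : ρ (gen p q 1 * (gen p q 2 * gen p q 1) ^ (q - 1)) (ρ g y) ∈ S := by
    rw [act_mul]
    exact (hS _ (hin (q - 1))).2
  have h2 : gen p q 1 * (gen p q 2 * gen p q 1) ^ (q - 1) = gen p q 2 := by
    have h3 := cb_pow p q
    rw [← hq, pow_succ', mul_assoc, hq] at h3
    have h4 := eq_inv_of_mul_eq_one_right h3
    rw [h4, gen_inv]
  rw [h2] at h1
  exact (ChiA_bd.1 hb).2 h1

/-- `|Shat \ S_v| ≤ q |bd S|`: count the pairs `(z, b)`, `z ∈ Shat \ S_v`, `b ∈ bd S` in the vertex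
of `z`: every `z` has at least two `b` (`two_bd`; `z ∈ Shat`, not in `S_v`: some flag `y ∈ S` of its
vertex, `y ∉ S_v`), every `b` has `2q` flags `z`.  (`hat ρ S` is finite: image of `S` under the
finite group `vSub`; `Sv ⊆ hat`.) -/
theorem card_hat (hyp : Hyp p q) {ρ : Tri p q →* Perm X} (hρ : IsMapHom ρ) (S : Finset X)
    (hS : FaceSet ρ S) : Nat.card (hat ρ S) ≤ (Sv ρ S).card + q * (bd ρ S).card := by
  classical
  by_cases hfin : (hat ρ S).Finite
  · have hcard : Nat.card (hat ρ S) = hfin.toFinset.card := by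
      rw [Nat.card_coe_set_eq, Set.ncard_eq_toFinset_card _ hfin]
    rw [hcard]
    have hsub : hfin.toFinset ⊆ Sv ρ S ∪ hfin.toFinset \ Sv ρ S := by
      intro x hx
      rw [Finset.mem_union, Finset.mem_sdiff]
      by_cases h : x ∈ Sv ρ S
      · exact Or.inl h
      · exact Or.inr ⟨hx, h⟩
    refine (Finset.card_le_card hsub).trans ((Finset.card_union_le _ _).trans (Nat.add_le_add_left ?_ _))
    have hv := finite_vSub hyp
    have := Fintype.ofFinite (vSub p q)
    have key := Finset.card_mul_le_card_mul (s := hfin.toFinset \ Sv ρ S) (t := bd ρ S)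
      (r := fun z b => ∃ g ∈ vSub p q, ρ g z = b) (m := 2) (n := 2 * q) ?_ ?_
    · nlinarith
    · intro z hz
      rw [Finset.mem_sdiff, Set.Finite.mem_toFinset] at hz
      obtain ⟨⟨g, hg, hgz⟩, hzv⟩ := hz
      have hgv : ρ g z ∉ Sv ρ S := fun h => hzv ((Sv_iff hg z).1 h)
      obtain ⟨g1, hg1, g2, hg2, hb1, hb2, hne⟩ := two_bd hyp hρ hS hgz hgv
      have : 1 < (Finset.bipartiteAbove (fun z b => ∃ g ∈ vSub p q, ρ g z = b) (bd ρ S) z).card := by
        rw [Finset.one_lt_card]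
        refine ⟨ρ g1 (ρ g z), ?_, ρ g2 (ρ g z), ?_, hne⟩
        · rw [Finset.mem_bipartiteAbove]
          exact ⟨hb1, g1 * g, mul_mem hg1 hg, act_mul _ _ _ _⟩
        · rw [Finset.mem_bipartiteAbove]
          exact ⟨hb2, g2 * g, mul_mem hg2 hg, act_mul _ _ _ _⟩
      exact this
    · intro b hb
      have h1 : Finset.bipartiteBelow (fun z b => ∃ g ∈ vSub p q, ρ g z = b) (hfin.toFinset \ Sv ρ S) b ⊆
          (Finset.univ : Finset (vSub p q)).image (fun g : vSub p q => (ρ ((g : Tri p q)⁻¹)) b) := by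
        intro z hz
        rw [Finset.mem_bipartiteBelow] at hz
        obtain ⟨-, g, hg, hgz⟩ := hz
        rw [Finset.mem_image]
        refine ⟨⟨g, hg⟩, Finset.mem_univ _, ?_⟩
        rw [← hgz, ← act_mul, inv_mul_cancel, map_one]
        rfl
      refine (Finset.card_le_card h1).trans (Finset.card_image_le.trans ?_)
      rw [Finset.card_univ, ← Nat.card_eq_fintype_card, card_vSub hyp hρ b]
  · have h0 : Nat.card (hat ρ S) = 0 := by
      have : Infinite (hat ρ S) := Set.infinite_coe_iff.2 hfin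
      exact Nat.card_eq_zero_of_infinite
    rw [h0]
    exact Nat.zero_le _

/-- `chiBar - chiInt = -|bd|/2 + (|Shat| - |S_v|)/2q ≤ 0` -/
theorem chiBar_le_chiInt (hyp : Hyp p q) {ρ : Tri p q →* Perm X} (hρ : IsMapHom ρ)
    (S : Finset X) (hS : FaceSet ρ S) : chiBar ρ S ≤ chiInt ρ S := by
  have h1 : (Nat.card (hat ρ S) : ℝ) ≤ ((Sv ρ S).card : ℝ) + q * ((bd ρ S).card : ℝ) := by
    exact_mod_cast card_hat hyp hρ S hS
  have hq : (0 : ℝ) < 2 * q := by
    have := hyp.hq
    have h2 : (0 : ℝ) < q := by exact_mod_cast (by omega : 0 < q)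
    positivity
  have hq' : (q : ℝ) ≠ 0 := by
    intro h
    rw [h] at hq
    norm_num at hq
  have h3 : (Nat.card (hat ρ S) : ℝ) / (2 * q) ≤ ((Sv ρ S).card : ℝ) / (2 * q) + ((bd ρ S).card : ℝ) / 2 := by
    rw [div_le_iff₀ hq]
    have h4 : (((Sv ρ S).card : ℝ) / (2 * q) + ((bd ρ S).card : ℝ) / 2) * (2 * q) =
        ((Sv ρ S).card : ℝ) + q * ((bd ρ S).card : ℝ) := by
      field_simp
    rw [h4]
    exact h1
  unfold chiBar chiInt
  linarith

end MPbcd198.G
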