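import Pool.Agent.Lib.MP_bcd198_co.G.RkC
import Pool.Agent.Lib.MP_bcd198_co.G.ChiA

/-!
# MP_bcd198_co, stream G, file `ChiB` (job G_ChiB)

[5.1 + 5.11] Euler characteristic of the closed complex.
-/

set_option autoImplicit false

namespace MPbcd198.G

open Equiv

variable {p q : ℕ} {X : Type}

open Classical in
/-- the component of `x` in `S` -/
noncomputable def compo (ρ : Tri p q →* Perm X) (S : Finset X) (x : X) : Finset X :=
  S.filter fun y => SConn ρ S x y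

/-- `T ⊆ S` is closed under the steps inside `S`. -/
private def Clo (ρ : Tri p q →* Perm X) (S T : Finset X) : Prop :=
  T ⊆ S ∧ ∀ y ∈ T, ∀ i : Fin 3, ρ (gen p q i) y ∈ S → ρ (gen p q i) y ∈ T

private theorem ChiB_step {ρ : Tri p q →* Perm X} {S : Finset X} {y : X} (hy : y ∈ S) (i : Fin 3)
    (h : ρ (gen p q i) y ∈ S) : SStep ρ S y (ρ (gen p q i) y) := by
  refine ⟨hy, h, ?_⟩
  fin_cases i
  · exact Or.inl rfl
  · exact Or.inr (Or.inl rfl)
  · exact Or.inr (Or.inr rfl)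

private theorem ChiB_step' {ρ : Tri p q →* Perm X} {S : Finset X} {y z : X} (h : SStep ρ S y z) :
    y ∈ S ∧ z ∈ S ∧ ∃ i : Fin 3, z = ρ (gen p q i) y := by
  obtain ⟨h1, h2, h3 | h3 | h3⟩ := h
  · exact ⟨h1, h2, 0, h3⟩
  · exact ⟨h1, h2, 1, h3⟩
  · exact ⟨h1, h2, 2, h3⟩

private theorem ChiB_face {ρ : Tri p q →* Perm X} {S T : Finset X} (hS : FaceSet ρ S)
    (hT : Clo ρ S T) : FaceSet ρ T := fun y hy =>
  ⟨hT.2 y hy 0 (hS y (hT.1 hy)).1, hT.2 y hy 1 (hS y (hT.1 hy)).2⟩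

private theorem ChiB_conn {ρ : Tri p q →* Perm X} {S T : Finset X} (hT : Clo ρ S T) {x y : X}
    (hx : x ∈ T) (h : SConn ρ S x y) : y ∈ T ∧ SConn ρ T x y := by
  unfold SConn at h ⊢
  induction h with
  | refl => exact ⟨hx, Relation.ReflTransGen.refl⟩
  | tail _ hbc ih =>
    obtain ⟨hb, hc, i, rfl⟩ := ChiB_step' hbc
    have h1 := hT.2 _ ih.1 i hc
    exact ⟨h1, ih.2.tail (ChiB_step ih.1 i h1)⟩

private theorem ChiB_sv {ρ : Tri p q →* Perm X} {S T : Finset X} (hT : Clo ρ S T) {y : X}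
    (hy : y ∈ T) (h : ∀ g ∈ vSub p q, ρ g y ∈ S) (g : Tri p q) (hg : g ∈ vSub p q) :
    ρ g y ∈ T := by
  unfold vSub at hg
  refine Subgroup.closure_induction_left (p := fun g _ => ρ g y ∈ T) ?_ ?_ ?_ hg
  · rw [map_one]
    exact hy
  · intro s hs g hg ih
    have h1 : ρ (s * g) y ∈ S := h _ (mul_mem (Subgroup.subset_closure hs) hg)
    rw [act_mul] at h1 ⊢
    rcases hs with rfl | rfl
    · exact hT.2 _ ih 1 h1
    · exact hT.2 _ ih 2 h1
  · intro s hs g hg ih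
    have h1 : ρ (s⁻¹ * g) y ∈ S := h _ (mul_mem (inv_mem (Subgroup.subset_closure hs)) hg)
    rw [act_mul] at h1 ⊢
    rcases hs with rfl | rfl
    · rw [gen_inv] at h1 ⊢
      exact hT.2 _ ih 1 h1
    · rw [gen_inv] at h1 ⊢
      exact hT.2 _ ih 2 h1

private theorem ChiB_stays {ρ : Tri p q →* Perm X} {S T : Finset X} (hT : Clo ρ S T) {x : X}
    (hx : x ∈ T) (w : List (Fin 3)) :
    (StaysIn ρ S x w → StaysIn ρ T x w ∧ ρ (w.map (gen p q)).prod x ∈ T) ∧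
      (StaysIn ρ T x w → StaysIn ρ S x w) := by
  induction w with
  | nil =>
    refine ⟨fun _ => ⟨hx, ?_⟩, fun _ => hT.1 hx⟩
    simpa using hx
  | cons s w ih =>
    refine ⟨fun h => ?_, fun h => ⟨ih.2 h.1, hT.1 h.2⟩⟩
    obtain ⟨h1, h2⟩ := h
    obtain ⟨h3, h4⟩ := ih.1 h1
    have h5 : ρ ((s :: w).map (gen p q)).prod x ∈ T := by
      rw [List.map_cons, List.prod_cons, act_mul] at h2 ⊢
      exact hT.2 _ h4 s h2
    exact ⟨⟨h3, h5⟩, h5⟩

private theorem ChiB_pi {ρ : Tri p q →* Perm X} {S T : Finset X} (hT : Clo ρ S T) {x : X}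
    (hx : x ∈ T) : piSet ρ T x = piSet ρ S x := by
  ext g
  constructor
  · rintro ⟨w, h1, h2, h3⟩
    exact ⟨w, (ChiB_stays hT hx w).2 h1, h2, h3⟩
  · rintro ⟨w, h1, h2, h3⟩
    exact ⟨w, ((ChiB_stays hT hx w).1 h1).1, h2, h3⟩

private theorem ChiB_mem_Sc {ρ : Tri p q →* Perm X} {S : Finset X} {z : X} :
    z ∈ Sc ρ S ↔ z ∈ S ∧ ρ (gen p q 2) z ∈ S := by
  classical
  unfold Sc
  rw [Finset.mem_filter]

private theorem ChiB_mem_Sv {ρ : Tri p q →* Perm X} {S : Finset X} {z : X} :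
    z ∈ Sv ρ S ↔ z ∈ S ∧ ∀ g ∈ vSub p q, ρ g z ∈ S := by
  classical
  unfold Sv
  rw [Finset.mem_filter]

/-- Counting for a partition into two closed subsets. -/
private theorem ChiB_card {ρ : Tri p q →* Perm X} {S T T' : Finset X} (hT : Clo ρ S T)
    (hT' : Clo ρ S T') (hd : ∀ y ∈ T, y ∉ T') (hu : ∀ y ∈ S, y ∈ T ∨ y ∈ T') :
    chiInt ρ S = chiInt ρ T + chiInt ρ T' := by
  classical
  have hc : ∀ (U V W : Finset X), (∀ y, y ∈ U ↔ y ∈ V ∨ y ∈ W) → (∀ y ∈ V, y ∉ W) →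
      (U.card : ℝ) = V.card + W.card := by
    intro U V W h1 h2
    have h3 : U = V ∪ W := by
      ext y
      rw [Finset.mem_union, h1]
    have h4 : Disjoint V W := Finset.disjoint_left.2 h2
    rw [h3, Finset.card_union_of_disjoint h4]
    push_cast
    rfl
  have h1 := hc S T T' (fun y => ⟨hu y, fun h => h.elim (fun h => hT.1 h) (fun h => hT'.1 h)⟩) hd
  have h2 := hc (Sc ρ S) (Sc ρ T) (Sc ρ T') (fun y => by
    rw [ChiB_mem_Sc, ChiB_mem_Sc, ChiB_mem_Sc]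
    constructor
    · rintro ⟨hy, hy'⟩
      rcases hu y hy with h | h
      · exact Or.inl ⟨h, hT.2 y h 2 hy'⟩
      · exact Or.inr ⟨h, hT'.2 y h 2 hy'⟩
    · rintro (⟨h, h'⟩ | ⟨h, h'⟩)
      · exact ⟨hT.1 h, hT.1 h'⟩
      · exact ⟨hT'.1 h, hT'.1 h'⟩) (fun y hy hy' => hd y (ChiB_mem_Sc.1 hy).1 (ChiB_mem_Sc.1 hy').1)
  have h3 := hc (Sv ρ S) (Sv ρ T) (Sv ρ T') (fun y => by
    rw [ChiB_mem_Sv, ChiB_mem_Sv, ChiB_mem_Sv]
    constructor
    · rintro ⟨hy, hy'⟩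
      rcases hu y hy with h | h
      · exact Or.inl ⟨h, ChiB_sv hT h hy'⟩
      · exact Or.inr ⟨h, ChiB_sv hT' h hy'⟩
    · rintro (⟨h, h'⟩ | ⟨h, h'⟩)
      · exact ⟨hT.1 h, fun g hg => hT.1 (h' g hg)⟩
      · exact ⟨hT'.1 h, fun g hg => hT'.1 (h' g hg)⟩) (fun y hy hy' => hd y (ChiB_mem_Sv.1 hy).1 (ChiB_mem_Sv.1 hy').1)
  unfold chiInt
  rw [h1, h2, h3]
  ring

/-- Splitting off a component: `T = compo x`, `S' = S \ T`; both are face sets, `T` is connected,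
`chiInt` is additive (`S_c`, `S_v` split), and `piSet` does not change. -/
theorem split_compo {ρ : Tri p q →* Perm X} (S : Finset X) (hS : FaceSet ρ S)
    (x : X) (hx : x ∈ S) :
    ∃ S' : Finset X, FaceSet ρ (compo ρ S x) ∧ FaceSet ρ S' ∧ S'.card < S.card ∧
      x ∈ compo ρ S x ∧ (∀ y ∈ compo ρ S x, SConn ρ (compo ρ S x) x y) ∧
      chiInt ρ S = chiInt ρ (compo ρ S x) + chiInt ρ S' ∧
      (∀ y, y ∈ S' ↔ y ∈ S ∧ y ∉ compo ρ S x) ∧
      (∀ y ∈ compo ρ S x, piSet ρ (compo ρ S x) y = piSet ρ S y) ∧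
      (∀ y ∈ S', piSet ρ S' y = piSet ρ S y) ∧
      (∀ y ∈ S', ∀ z ∈ S, SConn ρ S z y → z ∈ S' ∧ SConn ρ S' z y) := by
  classical
  have hmem : ∀ y, y ∈ compo ρ S x ↔ y ∈ S ∧ SConn ρ S x y := by
    intro y
    unfold compo
    rw [Finset.mem_filter]
  have hT : Clo ρ S (compo ρ S x) := by
    refine ⟨fun y hy => ((hmem y).1 hy).1, fun y hy i hi => ?_⟩
    obtain ⟨h1, h2⟩ := (hmem y).1 hy
    exact (hmem _).2 ⟨hi, Relation.ReflTransGen.tail h2 (ChiB_step h1 i hi)⟩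
  have hxT : x ∈ compo ρ S x := (hmem x).2 ⟨hx, Relation.ReflTransGen.refl⟩
  have hT' : Clo ρ S (S \ compo ρ S x) := by
    refine ⟨Finset.sdiff_subset, fun y hy i hi => ?_⟩
    rw [Finset.mem_sdiff] at hy ⊢
    refine ⟨hi, fun h => hy.2 ?_⟩
    have h1 := hT.2 _ h i (by rw [act_gen_gen]; exact hy.1)
    rwa [act_gen_gen] at h1
  have hd : ∀ y ∈ compo ρ S x, y ∉ S \ compo ρ S x := fun y hy h => (Finset.mem_sdiff.1 h).2 hy
  have hu : ∀ y ∈ S, y ∈ compo ρ S x ∨ y ∈ S \ compo ρ S x := by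
    intro y hy
    by_cases h : y ∈ compo ρ S x
    · exact Or.inl h
    · exact Or.inr (Finset.mem_sdiff.2 ⟨hy, h⟩)
  refine ⟨S \ compo ρ S x, ChiB_face hS hT, ChiB_face hS hT', ?_, hxT, ?_, ChiB_card hT hT' hd hu, ?_,
    fun y hy => ChiB_pi hT hy, fun y hy => ChiB_pi hT' hy, ?_⟩
  · apply Finset.card_lt_card
    rw [Finset.ssubset_iff_of_subset Finset.sdiff_subset]
    exact ⟨x, hx, hd x hxT⟩
  · intro y hy
    exact (ChiB_conn hT hxT ((hmem y).1 hy).2).2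
  · intro y
    rw [Finset.mem_sdiff]
  · intro y hy z hz hzy
    unfold SConn at hzy ⊢
    induction hzy using Relation.ReflTransGen.head_induction_on with
    | refl => exact ⟨hy, Relation.ReflTransGen.refl⟩
    | head hab _ ih =>
      obtain ⟨ha, hb, i, rfl⟩ := ChiB_step' hab
      obtain ⟨h1, h2⟩ := ih hb
      have h3 := hT'.2 _ h1 i (by rw [act_gen_gen]; exact ha)
      rw [act_gen_gen] at h3
      exact ⟨h3, Relation.ReflTransGen.head (ChiB_step h3 i h1) h2⟩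

private theorem ChiB_main (hyp : Hyp p q) {ρ : Tri p q →* Perm X}
    (hρ : IsMapHom ρ) (n : ℕ) : ∀ S : Finset X, S.card = n → FaceSet ρ S →
    (∀ y ∈ S, ∃ x ∈ S, SConn ρ S x y ∧ ∃ g ∈ piSet ρ S x, g ≠ 1) →
    chiInt ρ S ≤ 0 ∧ ((∃ x ∈ S, ¬ InCyclic (piSet ρ S x)) → chiInt ρ S ≤ -1) := by
  classical
  induction n using Nat.strong_induction_on with
  | _ n ih =>
    intro S hn hS hc
    have hmain : ∀ x ∈ S, ∃ S' : Finset X, chiInt ρ S = chiInt ρ (compo ρ S x) + chiInt ρ S' ∧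
        chiInt ρ S' ≤ 0 ∧ ((∃ g ∈ piSet ρ S x, g ≠ 1) → chiInt ρ (compo ρ S x) ≤ 0) ∧
        (¬ InCyclic (piSet ρ S x) → chiInt ρ (compo ρ S x) ≤ -1) := by
      intro x hx
      obtain ⟨S', h1, h2, h3, h4, h5, h6, h7, h8, h9, h10⟩ := split_compo S hS x hx
      have hr := rank_lemma hyp ρ hρ (compo ρ S x) h1 x h4 h5
      rw [h8 x h4] at hr
      have hI := ih S'.card (hn ▸ h3) S' rfl h2 (by
        intro y hy
        obtain ⟨x', hx', hconn, g, hg, hg1⟩ := hc y ((h7 y).1 hy).1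
        obtain ⟨h11, h12⟩ := h10 y hy x' hx' hconn
        exact ⟨x', h11, h12, g, by rw [h9 x' h11]; exact hg, hg1⟩)
      exact ⟨S', h6, hI.1, hr.1, hr.2⟩
    refine ⟨?_, ?_⟩
    · rcases S.eq_empty_or_nonempty with hemp | ⟨y, hy⟩
      · subst hemp
        have h1 : Sc ρ (∅ : Finset X) = ∅ := Finset.subset_empty.1 (Sc_subset ρ ∅)
        have h2 : Sv ρ (∅ : Finset X) = ∅ := Finset.subset_empty.1 ((Sv_subset_Sc ρ ∅).trans (Sc_subset ρ ∅))
        unfold chiInt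
        rw [h1, h2]
        simp
      · obtain ⟨x, hx, -, hg⟩ := hc y hy
        obtain ⟨S', h1, h2, h3, -⟩ := hmain x hx
        have := h3 hg
        linarith
    · rintro ⟨x, hx, hcyc⟩
      obtain ⟨S', h1, h2, -, h4⟩ := hmain x hx
      have := h4 hcyc
      linarith

/-- If every component of `S` has a nontrivial loop group then `chiInt ≤ 0` (strong induction on
`S.card`, `split_compo`, `rank_lemma`), and `≤ -1` if moreover some loop group is not cyclic (split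
off the component of that point). -/
theorem chiInt_le (hyp : Hyp p q) {ρ : Tri p q →* Perm X}
    (hρ : IsMapHom ρ) (S : Finset X) (hS : FaceSet ρ S)
    (hc : ∀ y ∈ S, ∃ x ∈ S, SConn ρ S x y ∧ ∃ g ∈ piSet ρ S x, g ≠ 1) :
    chiInt ρ S ≤ 0 ∧ ((∃ x ∈ S, ¬ InCyclic (piSet ρ S x)) → chiInt ρ S ≤ -1) :=
  ChiB_main hyp hρ _ S rfl hS hc

/-- [5.1 + 5.11] -/
theorem chiBar_le (hyp : Hyp p q) (ρ : Tri p q →* Perm X)
    (hρ : IsMapHom ρ) (S : Finset X) (hS : FaceSet ρ S)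
    (hc : ∀ y ∈ S, ∃ x ∈ S, SConn ρ S x y ∧ ∃ g ∈ piSet ρ S x, g ≠ 1) :
    chiBar ρ S ≤ 0 ∧ ((∃ x ∈ S, ¬ InCyclic (piSet ρ S x)) → chiBar ρ S ≤ -1) := by
  have h1 := chiBar_le_chiInt hyp hρ S hS
  have h2 := chiInt_le hyp hρ S hS hc
  exact ⟨h1.trans h2.1, fun h => h1.trans (h2.2 h)⟩

end MPbcd198.G
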