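import Pool.Agent.Lib.MP_bcd198_co.G.PolyL

/-!
# MP_bcd198_co, stream G, file `PolyB` (job G_PolyB)

[5.6] polygons of length `p` are faces.
-/

set_option autoImplicit false

namespace MPbcd198.G

open Equiv

variable {p q : ℕ} {X : Type}

/-- A polygon of length `p` bounds a face.

PROOF.  `T` from `poly_region`; `|T| = 2p = |bd T|` (`poly_len`, `poly_chi`), so `bd T = T`: every
flag of `T` is in `Z` (the union of the `p` edges).  For each `i`, exactly one of `x i`, `C x i` is
in `T` (`ζ (x i) = 1` by `poly_edges`); let `y i` be that one.  `y i, B y i ∈ T` are in the vertex of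
`x i`; the `2p` flags `y i, B y i` (`i < p`) are distinct (`dist`, `B y ≠ y`), so
`T = {y i, B y i : i < p}`.  `A y i ∈ T` is in the vertex of `x (i+1)`, hence
`A y i ∈ {y (i+1), B y (i+1)}` (indices mod `p`; `y` is periodic because `x` is).  If
`A y i = y (i+1)`, then `x (i+1) ∈ {A y i, C A y i} ⊆ {A x i, C A x i}` contradicts `poly_edges`
(`p ≥ 3`, reduce `i`, `i+1` mod `p`).  So `A y i = B y (i+1)`, i.e. `y (i+1) = B A y i`. -/
theorem polygon' (hyp : Hyp p q) (hmap : IsMapHom (selfHom p q)) {x : ℕ → Tri p q}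
    (h : IsPoly p q p x) : ∃ y : ℕ → Tri p q, (∀ i, y i = x i ∨ y i = gen p q 2 * x i) ∧
      ∀ i, y (i + 1) = gen p q 1 * gen p q 0 * y i := by
  classical
  have hp := hyp.hp
  have hp0 : 0 < p := by omega
  obtain ⟨T, hT, hζ⟩ := poly_region hyp hmap h
  obtain ⟨_, hbd, _⟩ := poly_chi hyp hmap h T hT hζ
  have hTc : T.card = 2 * p := (poly_len hyp hmap h T hT hζ).2 rfl
  have hCC : ∀ z : Tri p q, gen p q 2 * (gen p q 2 * z) = z := fun z => by
    rw [← mul_assoc, gen_sq, one_mul]
  have hBB : ∀ z : Tri p q, gen p q 1 * (gen p q 1 * z) = z := fun z => by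
    rw [← mul_assoc, gen_sq, one_mul]
  have hAC : ∀ z : Tri p q, gen p q 0 * (gen p q 2 * z) = gen p q 2 * (gen p q 0 * z) :=
    fun z => by rw [← mul_assoc, ac_comm, mul_assoc]
  -- periodicity
  have hper : Function.Periodic x p := h.per
  have hxmod : ∀ i, x (i % p) = x i := hper.map_mod_nat
  have hdist : ∀ i j, i % p ≠ j % p → ∀ g ∈ vSub p q, x j ≠ g * x i := by
    intro i j hij g hg
    rw [← hxmod i, ← hxmod j]
    exact h.dist _ (Nat.mod_lt _ hp0) _ (Nat.mod_lt _ hp0) hij g hg
  have hedge : ∀ i j, i % p ≠ j % p → edgeInd (x i) (x j) = 0 := by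
    intro i j hij
    rw [← hxmod i, ← hxmod j]
    exact poly_edges h _ _ (Nat.mod_lt _ hp0) (Nat.mod_lt _ hp0) hij
  have hone : ∀ i, ind T (x i) + ind T (gen p q 2 * x i) = 1 := by
    intro i
    rw [hζ, Finset.sum_eq_single (i % p)]
    · rw [hxmod]
      unfold edgeInd
      rw [if_pos (Or.inl rfl)]
    · intro j hj hji
      apply hedge
      rw [Nat.mod_eq_of_lt (Finset.mem_range.1 hj)]
      exact hji
    · intro hni
      exact absurd (Finset.mem_range.2 (Nat.mod_lt _ hp0)) hni
  have hmem : ∀ i, x i ∉ T → gen p q 2 * x i ∈ T := by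
    intro i hi
    by_contra hc
    have h1 := hone i
    unfold ind at h1
    rw [if_neg hi, if_neg hc, add_zero] at h1
    exact absurd h1 (by decide)
  obtain ⟨f, hf⟩ : ∃ f : Tri p q → Tri p q, f = fun z => if z ∈ T then z else gen p q 2 * z :=
    ⟨_, rfl⟩
  have hfT : ∀ i, f (x i) ∈ T := by
    intro i
    rw [hf]
    beta_reduce
    by_cases hi : x i ∈ T
    · rw [if_pos hi]
      exact hi
    · rw [if_neg hi]
      exact hmem i hi
  have hfc : ∀ z, ∃ c : Tri p q, (c = 1 ∨ c = gen p q 2) ∧ c ∈ vSub p q ∧ f z = c * z ∧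
      z = c * f z := by
    intro z
    rw [hf]
    beta_reduce
    by_cases hi : z ∈ T
    · rw [if_pos hi]
      exact ⟨1, Or.inl rfl, one_mem _, (one_mul z).symm, (one_mul z).symm⟩
    · rw [if_neg hi]
      exact ⟨gen p q 2, Or.inr rfl, C_mem_vSub p q, rfl, (hCC z).symm⟩
  have hinj : ∀ i j, ∀ g ∈ vSub p q, f (x j) = g * f (x i) → i % p = j % p := by
    intro i j g hg he
    by_contra hij
    obtain ⟨c, _, hc, hc1, _⟩ := hfc (x i)
    obtain ⟨d, _, hd, _, hd2⟩ := hfc (x j)
    refine hdist i j hij (d * (g * c)) (mul_mem hd (mul_mem hg hc)) ?_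
    rw [hd2, he, hc1]
    simp only [mul_assoc]
  have hBne : ∀ z : Tri p q, gen p q 1 * z ≠ z := fun z => (hmap.pb z).1
  have hTB : ∀ z ∈ T, gen p q 1 * z ∈ T := fun z hz => (hT z hz).2
  have hTA : ∀ z ∈ T, gen p q 0 * z ∈ T := fun z hz => (hT z hz).1
  have hcov : ∀ t ∈ T, ∃ k < p, ∃ g ∈ vSub p q, t = g * f (x k) ∧ (g = 1 ∨ g = gen p q 1) := by
    have hc1 : ((Finset.range p).image fun i => f (x i)).card = p := by
      rw [Finset.card_image_of_injOn, Finset.card_range]
      intro i hi j hj hij
      have hi' : i < p := by simpa using hi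
      have hj' : j < p := by simpa using hj
      have h1 := hinj i j 1 (one_mem _) (by rw [one_mul]; exact hij.symm)
      rwa [Nat.mod_eq_of_lt hi', Nat.mod_eq_of_lt hj'] at h1
    have hc2 : ((Finset.range p).image fun i => gen p q 1 * f (x i)).card = p := by
      rw [Finset.card_image_of_injOn, Finset.card_range]
      intro i hi j hj hij
      have hi' : i < p := by simpa using hi
      have hj' : j < p := by simpa using hj
      have h1 := hinj i j 1 (one_mem _) (by rw [one_mul]; exact (mul_left_cancel hij).symm)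
      rwa [Nat.mod_eq_of_lt hi', Nat.mod_eq_of_lt hj'] at h1
    have hdj : Disjoint ((Finset.range p).image fun i => f (x i))
        ((Finset.range p).image fun i => gen p q 1 * f (x i)) := by
      rw [Finset.disjoint_left]
      intro z hz1 hz2
      rw [Finset.mem_image] at hz1 hz2
      obtain ⟨i, hi, hiz⟩ := hz1
      obtain ⟨j, hj, hjz⟩ := hz2
      have hi' := Finset.mem_range.1 hi
      have hj' := Finset.mem_range.1 hj
      have h1 := hinj j i (gen p q 1) (B_mem_vSub p q) (by rw [hiz, hjz])
      rw [Nat.mod_eq_of_lt hi', Nat.mod_eq_of_lt hj'] at h1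
      subst h1
      exact hBne (f (x j)) (by rw [hjz, hiz])
    have hsub : (((Finset.range p).image fun i => f (x i)) ∪
        ((Finset.range p).image fun i => gen p q 1 * f (x i))) ⊆ T := by
      intro z hz
      rw [Finset.mem_union, Finset.mem_image, Finset.mem_image] at hz
      rcases hz with ⟨i, _, rfl⟩ | ⟨i, _, rfl⟩
      · exact hfT i
      · exact hTB _ (hfT i)
    have heq := Finset.eq_of_subset_of_card_le hsub (by
      rw [Finset.card_union_of_disjoint hdj, hc1, hc2, hTc]
      omega)
    intro t ht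
    rw [← heq, Finset.mem_union, Finset.mem_image, Finset.mem_image] at ht
    rcases ht with ⟨i, hi, rfl⟩ | ⟨i, hi, rfl⟩
    · exact ⟨i, Finset.mem_range.1 hi, 1, one_mem _, (one_mul _).symm, Or.inl rfl⟩
    · exact ⟨i, Finset.mem_range.1 hi, gen p q 1, B_mem_vSub p q, rfl, Or.inr rfl⟩
  refine ⟨fun i => f (x i), fun i => ?_, fun i => ?_⟩
  · beta_reduce
    obtain ⟨c, hc, _, hc1, _⟩ := hfc (x i)
    rcases hc with rfl | rfl
    · left
      rw [hc1, one_mul]
    · right
      exact hc1
  · beta_reduce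
    obtain ⟨k, hk, g, hg, hkg, hg'⟩ := hcov _ (hTA _ (hfT i))
    obtain ⟨c, hc, hcv, hc1, hc2⟩ := hfc (x i)
    obtain ⟨d, hd, hdv, hd1, hd2⟩ := hfc (x (i + 1))
    obtain ⟨s, hs, hsx⟩ := h.step i
    have hAc : ∀ z : Tri p q, gen p q 0 * (c * z) = c * (gen p q 0 * z) := by
      intro z
      rcases hc with rfl | rfl
      · rw [one_mul, one_mul]
      · exact hAC z
    -- the vertex of `A y i` is the vertex of `x (i+1)`
    have h1 : f (x (i + 1)) = d * (s * (c * g)) * f (x k) := by
      rw [hd1, hsx, hc2]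
      rw [mul_assoc s, hAc, hkg]
      simp only [mul_assoc]
    have h2 : k % p = (i + 1) % p :=
      hinj k (i + 1) _ (mul_mem hdv (mul_mem hs (mul_mem hcv hg))) h1
    have h3 : x k = x (i + 1) := by
      rw [← hxmod k, h2, hxmod]
    rw [h3] at hkg
    rcases hg' with rfl | rfl
    · exfalso
      rw [one_mul] at hkg
      have hne : i % p ≠ (i + 1) % p := by
        intro he
        have h4 : i ≡ i + 1 [MOD p] := he
        have h5 : p ∣ (i + 1) - i := (Nat.modEq_iff_dvd' (by omega)).1 h4
        rw [Nat.add_sub_cancel_left] at h5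
        have := Nat.le_of_dvd (by norm_num) h5
        omega
      have h4 := hedge i (i + 1) hne
      have h5 : x (i + 1) = d * (c * (gen p q 0 * x i)) := by
        rw [hd2, ← hkg, hc1, hAc]
      unfold edgeInd at h4
      rw [if_pos] at h4
      · exact absurd h4 (by decide)
      · rcases hc with rfl | rfl <;> rcases hd with rfl | rfl
        · right; left
          rw [h5, one_mul, one_mul]
        · right; right; right
          rw [h5, one_mul, mul_assoc]
        · right; right; right
          rw [h5, one_mul, mul_assoc]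
        · right; left
          rw [h5, hCC]
    · rw [mul_assoc, hkg, hBB]

end MPbcd198.G
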