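import Pool.Agent.Lib.MP_bcd198_co.G.PolyL

/-!
# MP_bcd198_co, stream G, file `PolyC` (job G_PolyC)

[5.6] a face is determined by its boundary.
-/

set_option autoImplicit false

namespace MPbcd198.G

open Equiv

variable {p q : ℕ} {X : Type}

/-- The vertices of a face are distinct: `(BA)^k ∉ ⟨B,C⟩` for `0 < k < p`.

PROOF.  Take the least such `k`; `x i = (BA)^(i mod k)` is a polygon of length `k` (`dist` by
minimality: `(BA)^j = g (BA)^i` with `g ∈ vSub` gives `(BA)^{|j-i|} ∈ vSub`; `step` at
`i = k - 1`: `x k = 1 = (BA)^{-k} B A (BA)^{k-1}`; `two`: `BA ≠ A` and `BA = CA` would give `B = C`,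
impossible since `BC` has order `q ≥ 3`), contradicting `poly_len` (`p ≤ k`). -/
theorem face_vertices (hyp : Hyp p q) (hmap : IsMapHom (selfHom p q)) (k : ℕ) (hk : 0 < k)
    (hkp : k < p) : (gen p q 1 * gen p q 0) ^ k ∉ vSub p q := by
  classical
  intro hmem
  have hex : ∃ j, 0 < j ∧ (gen p q 1 * gen p q 0) ^ j ∈ vSub p q := ⟨k, hk, hmem⟩
  obtain ⟨hm0, hm1⟩ := Nat.find_spec hex
  have hmk : Nat.find hex ≤ k := Nat.find_min' hex ⟨hk, hmem⟩
  have hmin : ∀ j, 0 < j → j < Nat.find hex → (gen p q 1 * gen p q 0) ^ j ∉ vSub p q :=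
    fun j h0 hj hj' => Nat.find_min hex hj ⟨h0, hj'⟩
  generalize Nat.find hex = m at hm0 hm1 hmk hmin
  have hpoly : IsPoly p q m (fun i => (gen p q 1 * gen p q 0) ^ (i % m)) := by
    refine ⟨hm0, ?_, ?_, ?_, ?_⟩
    · intro i
      simp
    · intro i
      have hlt : i % m < m := Nat.mod_lt _ hm0
      by_cases hi : i % m + 1 < m
      · refine ⟨gen p q 1, B_mem_vSub p q, ?_⟩
        have h1 : (i + 1) % m = i % m + 1 := by
          rw [Nat.add_mod, Nat.mod_eq_of_lt (show 1 < m by omega), Nat.mod_eq_of_lt hi]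
        show (gen p q 1 * gen p q 0) ^ ((i + 1) % m) = _
        rw [h1, pow_succ']
      · refine ⟨((gen p q 1 * gen p q 0) ^ m)⁻¹ * gen p q 1,
          (vSub p q).mul_mem ((vSub p q).inv_mem hm1) (B_mem_vSub p q), ?_⟩
        have h0 : i % m + 1 = m := by omega
        have h1 : (i + 1) % m = 0 := by
          rw [← Nat.mod_add_mod, h0, Nat.mod_self]
        show (gen p q 1 * gen p q 0) ^ ((i + 1) % m) = _
        rw [h1, pow_zero, mul_assoc, mul_assoc, ← mul_assoc (gen p q 1), ← pow_succ', h0,
          inv_mul_cancel]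
    · intro i hi j hj hij g hg
      show (gen p q 1 * gen p q 0) ^ (j % m) ≠ g * (gen p q 1 * gen p q 0) ^ (i % m)
      rw [Nat.mod_eq_of_lt hi, Nat.mod_eq_of_lt hj]
      intro he
      rcases lt_or_gt_of_ne hij with hlt | hlt
      · apply hmin (j - i) (by omega) (by omega)
        have : (gen p q 1 * gen p q 0) ^ (j - i) = g := by
          have h2 : (gen p q 1 * gen p q 0) ^ j =
              (gen p q 1 * gen p q 0) ^ (j - i) * (gen p q 1 * gen p q 0) ^ i := by
            rw [← pow_add]; congr 1; omega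
          rw [h2] at he
          exact mul_right_cancel he
        rw [this]; exact hg
      · apply hmin (i - j) (by omega) (by omega)
        have : (gen p q 1 * gen p q 0) ^ (i - j) = g⁻¹ := by
          have h2 : (gen p q 1 * gen p q 0) ^ i =
              (gen p q 1 * gen p q 0) ^ (i - j) * (gen p q 1 * gen p q 0) ^ j := by
            rw [← pow_add]; congr 1; omega
          rw [h2, ← mul_assoc] at he
          have h3 : (1 : Tri p q) = g * (gen p q 1 * gen p q 0) ^ (i - j) := by
            apply mul_right_cancel (b := (gen p q 1 * gen p q 0) ^ j)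
            rw [one_mul]; exact he
          exact eq_inv_of_mul_eq_one_right h3.symm
        rw [this]; exact (vSub p q).inv_mem hg
    · intro h2
      subst h2
      constructor
      · show (gen p q 1 * gen p q 0) ^ (1 % 2) ≠
          gen p q 0 * (gen p q 1 * gen p q 0) ^ (0 % 2)
        simp only [Nat.reduceMod, pow_one, pow_zero, mul_one]
        intro he
        have h3 : gen p q 1 = 1 := by simpa using he
        have h4 := (hmap.pb 1).1
        rw [h3] at h4
        simp at h4
      · show (gen p q 1 * gen p q 0) ^ (1 % 2) ≠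
          gen p q 2 * gen p q 0 * (gen p q 1 * gen p q 0) ^ (0 % 2)
        simp only [Nat.reduceMod, pow_one, pow_zero, mul_one]
        intro he
        have h3 : gen p q 1 = gen p q 2 := mul_right_cancel he
        have h4 := hmap.bc 1
        rw [h3, ← map_mul, gen_sq, map_one] at h4
        have h5 : Function.minimalPeriod (⇑(1 : Perm (Tri p q))) (1 : Tri p q) = 1 := by
          rw [Function.minimalPeriod_eq_one_iff_isFixedPt]
          rfl
        rw [h5] at h4
        have := hyp.hq
        omega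
  obtain ⟨T, hT, hζ⟩ := poly_region hyp hmap hpoly
  have := (poly_len hyp hmap hpoly T hT hζ).1
  omega

/-- No double edges: if `y` is in the vertex of `x` and `A y` is in the vertex of `A x`, then
`y = x` or `y = C x`.

PROOF.  Otherwise `X 0 = x`, `X 1 = A y` (period 2) is a polygon of length 2: `X 1` is in the vertex
of `A X 0`, `A X 1 = y` is in the vertex of `X 0`; `dist`: if `A y = g x` with `g ∈ vSub` then
`A x ∈ vSub · x`, `A ∈ vSub`, so `BA ∈ vSub`, contradicting `face_vertices` (`k = 1`); `two`: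
`A y ≠ A x`, `A y ≠ C A x = A C x`.  `poly_len` gives `p ≤ 2`. -/
theorem no_double (hyp : Hyp p q) (hmap : IsMapHom (selfHom p q)) (x y : Tri p q)
    (h1 : ∃ g ∈ vSub p q, y = g * x) (h2 : ∃ g ∈ vSub p q, gen p q 0 * y = g * (gen p q 0 * x)) :
    y = x ∨ y = gen p q 2 * x := by
  by_contra hcon
  rw [not_or] at hcon
  obtain ⟨hc1, hc2⟩ := hcon
  obtain ⟨g1, hg1, e1⟩ := h1
  obtain ⟨g2, hg2, e2⟩ := h2
  have hA : gen p q 0 ∉ vSub p q := by
    intro hA
    apply face_vertices hyp hmap 1 one_pos (by have := hyp.hp; omega)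
    rw [pow_one]
    exact (vSub p q).mul_mem (B_mem_vSub p q) hA
  have hAy : ∀ g ∈ vSub p q, gen p q 0 * y ≠ g * x := by
    intro g hg he
    apply hA
    rw [e2, ← mul_assoc] at he
    have h3 : g2 * gen p q 0 = g := mul_right_cancel he
    have h4 : gen p q 0 = g2⁻¹ * g := by rw [← h3]; group
    rw [h4]
    exact (vSub p q).mul_mem ((vSub p q).inv_mem hg2) hg
  have hpoly : IsPoly p q 2 (fun i => if i % 2 = 0 then x else gen p q 0 * y) := by
    refine ⟨two_pos, ?_, ?_, ?_, ?_⟩
    · intro i
      simp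
    · intro i
      rcases Nat.mod_two_eq_zero_or_one i with hi | hi
      · have hi1 : (i + 1) % 2 ≠ 0 := by omega
        refine ⟨g2, hg2, ?_⟩
        simp only [hi, if_neg hi1, if_true]
        rw [e2, mul_assoc]
      · have hi1 : (i + 1) % 2 = 0 := by omega
        have hi0 : ¬ i % 2 = 0 := by omega
        refine ⟨g1⁻¹, (vSub p q).inv_mem hg1, ?_⟩
        simp only [hi1, if_neg hi0, if_true]
        rw [mul_assoc, ← mul_assoc (gen p q 0), gen_sq, one_mul, e1]
        group
    · intro i hi j hj hij g hg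
      have : (i = 0 ∧ j = 1) ∨ (i = 1 ∧ j = 0) := by omega
      rcases this with ⟨rfl, rfl⟩ | ⟨rfl, rfl⟩
      · show gen p q 0 * y ≠ g * x
        exact hAy g hg
      · show x ≠ g * (gen p q 0 * y)
        intro he
        apply hAy g⁻¹ ((vSub p q).inv_mem hg)
        rw [he]; group
    · intro _
      constructor
      · show gen p q 0 * y ≠ gen p q 0 * x
        intro he
        exact hc1 (mul_left_cancel he)
      · show gen p q 0 * y ≠ gen p q 2 * gen p q 0 * x
        intro he
        apply hc2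
        rw [← ac_comm, mul_assoc] at he
        exact mul_left_cancel he
  obtain ⟨T, hT, hζ⟩ := poly_region hyp hmap hpoly
  have h5 := (poly_len hyp hmap hpoly T hT hζ).1
  have := hyp.hp
  omega

/-- A face is determined by its boundary.

PROOF.  Apply `no_double` to `(BA)^i x`, `(BA)^i y` (the vertex of `A (BA)^i x` is the vertex of
`(BA)^{i+1} x`): `(BA)^i y = (BA)^i x` (then `y = x`) or `(BA)^i y = C (BA)^i x`.  If the second case
holds for `i = 0` and `i = 1`: `y = C x` and `B A C x = C B A x`; `A C = C A` gives `B C = C B`,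
`(BC)^2 = 1`, contradiction with minimal period `q ≥ 3` (`hmap.bc`). -/
theorem face_unique (hyp : Hyp p q) (hmap : IsMapHom (selfHom p q)) (x y : Tri p q)
    (h : ∀ i : ℕ, ∃ g ∈ vSub p q, (gen p q 1 * gen p q 0) ^ i * y =
      g * ((gen p q 1 * gen p q 0) ^ i * x)) : x = y := by
  have key : ∀ i : ℕ, (gen p q 1 * gen p q 0) ^ i * y = (gen p q 1 * gen p q 0) ^ i * x ∨
      (gen p q 1 * gen p q 0) ^ i * y = gen p q 2 * ((gen p q 1 * gen p q 0) ^ i * x) := by
    intro i
    apply no_double hyp hmap _ _ (h i)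
    obtain ⟨g, hg, he⟩ := h (i + 1)
    refine ⟨gen p q 1 * g * gen p q 1,
      (vSub p q).mul_mem ((vSub p q).mul_mem (B_mem_vSub p q) hg) (B_mem_vSub p q), ?_⟩
    rw [pow_succ'] at he
    have h2 : gen p q 1 * (gen p q 1 * gen p q 0 * (gen p q 1 * gen p q 0) ^ i * y) =
        gen p q 0 * ((gen p q 1 * gen p q 0) ^ i * y) := by
      rw [← mul_assoc, ← mul_assoc, ← mul_assoc, gen_sq, one_mul, mul_assoc]
    rw [← h2, he]
    simp only [mul_assoc]
  have h0 := key 0
  have h1 := key 1
  rw [pow_zero, one_mul, one_mul] at h0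
  rw [pow_one] at h1
  rcases h0 with h0 | h0
  · exact h0.symm
  rcases h1 with h1 | h1
  · exact (mul_left_cancel h1).symm
  exfalso
  rw [h0, ← mul_assoc, ← mul_assoc] at h1
  have h2 : gen p q 1 * gen p q 0 * gen p q 2 = gen p q 2 * (gen p q 1 * gen p q 0) :=
    mul_right_cancel h1
  rw [mul_assoc, ac_comm, ← mul_assoc, ← mul_assoc] at h2
  have h3 : gen p q 1 * gen p q 2 = gen p q 2 * gen p q 1 := mul_right_cancel h2
  have h4 : (gen p q 1 * gen p q 2) * (gen p q 1 * gen p q 2) = 1 := by
    nth_rewrite 2 [h3]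
    rw [mul_assoc, ← mul_assoc (gen p q 2), gen_sq, one_mul, gen_sq]
  have h5 := hmap.bc 1
  have h6 : Function.IsPeriodicPt (⇑(selfHom p q (gen p q 1) * selfHom p q (gen p q 2))) 2
      (1 : Tri p q) := by
    show (⇑(selfHom p q (gen p q 1) * selfHom p q (gen p q 2)))^[2] (1 : Tri p q) = 1
    rw [← map_mul]
    simp only [Function.iterate_succ, Function.iterate_zero, Function.comp_apply, id_eq,
      selfHom_apply]
    rw [← mul_assoc, h4, one_mul]
  have h7 := h6.minimalPeriod_le (by norm_num)
  rw [h5] at h7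
  have := hyp.hq
  omega

end MPbcd198.G
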