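import Pool.Agent.Lib.MP_bcd198_co.G.Short

/-!
# MP_bcd198_co, stream G, file `Roots` (job G_Roots)

[5.10] roots.
-/

set_option autoImplicit false

namespace MPbcd198.G

open Equiv

variable {p q : ℕ}

/-- [5.10].  If `g^k = γ` then `g γ = γ g`, so `γ` fixes `gΓ`: the set of the cosets of such `g` is
finite (`finite_short` with `γ ∈ ballT l`).  Two roots `g`, `g' = g γ^m` (`g^k = γ`, `g'^{k'} = γ`)
in the same coset: `γ = g^{k'} γ^{m k'}`, so `g^{k'} = γ^{1 - m k'}`, and raising to the power `k`: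
`γ^{k'} = γ^{(1 - m k') k}`, `k' = k - m k k'`, `|m| |k| |k'| ≤ |k| + |k'|`, so `|m| ≤ 2`. -/
theorem finite_roots (hyp : Hyp p q) (hmap : IsMapHom (selfHom p q)) (γ : Tri p q)
    (hγ : ∀ n : ℤ, n ≠ 0 → γ ^ n ≠ 1) (hm : IsMapHom (cosetHom (Subgroup.zpowers γ))) :
    {g : Tri p q | ∃ k : ℤ, g ^ k = γ}.Finite := by
  classical
  obtain ⟨l, hl⟩ := exists_ball γ
  have hγ1 : γ ≠ 1 := by
    have h1 := hγ 1 one_ne_zero
    rwa [zpow_one] at h1
  have hfin := finite_short hyp hmap γ hγ hm l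
  set Y : Set (Tri p q ⧸ Subgroup.zpowers γ) := {y : Tri p q ⧸ Subgroup.zpowers γ |
      ∃ h ∈ ballT p q l, h ≠ 1 ∧ cosetHom (Subgroup.zpowers γ) h y = y} with hY
  have hcomm : ∀ g : Tri p q, (∃ k : ℤ, g ^ k = γ) → Commute g γ := by
    rintro g ⟨k, hk⟩
    rw [← hk]
    exact (Commute.refl g).zpow_right k
  have hcos : ∀ g : Tri p q, (∃ k : ℤ, g ^ k = γ) →
      (g : Tri p q ⧸ Subgroup.zpowers γ) ∈ Y := by
    intro g hg
    refine ⟨γ, hl, hγ1, ?_⟩
    have h1 : cosetHom (Subgroup.zpowers γ) γ (g : Tri p q ⧸ Subgroup.zpowers γ) =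
        ((γ * g : Tri p q) : Tri p q ⧸ Subgroup.zpowers γ) := rfl
    rw [h1, ← (hcomm g hg).eq, QuotientGroup.eq]
    rw [mul_inv_rev, inv_mul_cancel_right]
    exact Subgroup.inv_mem _ (Subgroup.mem_zpowers γ)
  have hsub : {g : Tri p q | ∃ k : ℤ, g ^ k = γ} ⊆
      ⋃ y ∈ Y, {g : Tri p q | (∃ k : ℤ, g ^ k = γ) ∧
        (g : Tri p q ⧸ Subgroup.zpowers γ) = y} := by
    intro g hg
    simp only [Set.mem_iUnion]
    exact ⟨_, hcos g hg, hg, rfl⟩
  refine Set.Finite.subset (Set.Finite.biUnion hfin fun y _ => ?_) hsub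
  by_cases hne : {g : Tri p q | (∃ k : ℤ, g ^ k = γ) ∧
        (g : Tri p q ⧸ Subgroup.zpowers γ) = y} = ∅
  · rw [hne]
    exact Set.finite_empty
  · obtain ⟨g, hgroot, hgy⟩ := Set.nonempty_iff_ne_empty.2 hne
    obtain ⟨k, hk⟩ := hgroot
    refine Set.Finite.subset ((Finset.Icc (-2 : ℤ) 2).finite_toSet.image fun m => g * γ ^ m) ?_
    rintro g' ⟨⟨k', hk'⟩, hgy'⟩
    have h1 : (g : Tri p q ⧸ Subgroup.zpowers γ) = (g' : Tri p q ⧸ Subgroup.zpowers γ) := by
      rw [hgy, hgy']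
    rw [QuotientGroup.eq, Subgroup.mem_zpowers_iff] at h1
    obtain ⟨m, hm'⟩ := h1
    have hg' : g' = g * γ ^ m := by rw [hm']; group
    refine ⟨m, ?_, hg'.symm⟩
    have hc := hcomm g ⟨k, hk⟩
    have hk0 : k ≠ 0 := by
      rintro rfl
      rw [zpow_zero] at hk
      exact hγ1 hk.symm
    have hk'0 : k' ≠ 0 := by
      rintro rfl
      rw [zpow_zero] at hk'
      exact hγ1 hk'.symm
    have h2 : g ^ k' * γ ^ (m * k') = γ := by
      rw [zpow_mul, ← (hc.zpow_right m).mul_zpow, ← hg', hk']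
    have h3 : g ^ k' = γ ^ (1 - m * k') := by
      rw [sub_eq_add_neg, zpow_add, zpow_one, zpow_neg]
      exact eq_mul_inv_of_mul_eq h2
    have h4 : γ ^ k' = γ ^ ((1 - m * k') * k) := by
      rw [zpow_mul, ← h3, ← zpow_mul, mul_comm k' k, zpow_mul, hk]
    have h5 : k' = (1 - m * k') * k := by
      by_contra hne'
      have h6 : k' - (1 - m * k') * k ≠ 0 := sub_ne_zero.2 hne'
      apply hγ _ h6
      rw [zpow_sub, h4, mul_inv_cancel]
    have h7 : m * (k * k') = k - k' := by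
      have : k' = k - m * k' * k := by rw [sub_mul, one_mul] at h5; exact h5
      linarith [mul_comm k k', mul_assoc m k' k]
    have h8 : |m| * (|k| * |k'|) ≤ |k| + |k'| := by
      rw [← abs_mul, ← abs_mul, h7]
      exact abs_sub k k'
    have h9 : 1 ≤ |k| := Int.one_le_abs hk0
    have h10 : 1 ≤ |k'| := Int.one_le_abs hk'0
    have h11 : |m| ≤ 2 := by
      by_contra hlt
      have h12 : 3 ≤ |m| := by omega
      nlinarith [mul_nonneg (sub_nonneg.2 h9) (sub_nonneg.2 h10)]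
    have h13 := abs_le.1 h11
    rw [Finset.mem_coe, Finset.mem_Icc]
    exact h13

end MPbcd198.G
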