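import Pool.Agent.Lib.MP_bcd198_co.G.DiscC

/-!
# MP_bcd198_co, stream G, file `ConnB` (job G_ConnB)

Upper bound `chi_int ≤ 1` for edge-connected finite face sets (used in 5.7).
-/

set_option autoImplicit false

namespace MPbcd198.G

open Equiv

variable {p q : ℕ} {X : Type}

/-! ### the map `δ` -/

/-- `(δφ)(x) = φ(Ax) + φ(x)` -/
private def ConnB_delta (p q : ℕ) : (Tri p q → ZMod 2) →ₗ[ZMod 2] (Tri p q → ZMod 2) where
  toFun φ x := φ (gen p q 0 * x) + φ x
  map_add' f g := by
    ext x
    simp only [Pi.add_apply]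
    ring
  map_smul' c f := by
    ext x
    simp only [Pi.smul_apply, smul_eq_mul, RingHom.id_apply]
    ring

private theorem ConnB_delta_apply (φ : Tri p q → ZMod 2) (x : Tri p q) :
    ConnB_delta p q φ x = φ (gen p q 0 * x) + φ x := rfl

private theorem ConnB_delta_mem {S : Finset (Tri p q)} (hS : FaceSet (selfHom p q) S)
    {φ : Tri p q → ZMod 2} (hφ : φ ∈ vertF (selfHom p q) S) :
    ConnB_delta p q φ ∈ cycF (selfHom p q) S := by
  have h0 : ∀ x, x ∉ Sv (selfHom p q) S → φ x = 0 := hφ.1
  have hB : ∀ x, φ (gen p q 1 * x) = φ x := fun x => hφ.2 ⟨gen p q 1, B_mem_vSub p q⟩ x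
  have hC : ∀ x, φ (gen p q 2 * x) = φ x := fun x => hφ.2 ⟨gen p q 2, C_mem_vSub p q⟩ x
  have h1 : ∀ x, x ∉ Sc (selfHom p q) S → φ x = 0 := fun x hx =>
    h0 x fun h => hx (Sv_subset_Sc _ _ h)
  have hAA : ∀ x, gen p q 0 * (gen p q 0 * x) = x := fun x => by
    rw [← mul_assoc, gen_sq, one_mul]
  have hAC : ∀ x, gen p q 0 * (gen p q 2 * x) = gen p q 2 * (gen p q 0 * x) := fun x => by
    rw [← mul_assoc, ac_comm, mul_assoc]
  refine Submodule.mem_inf.2 ⟨⟨?_, ?_⟩, ?_⟩
  · intro x hx
    have hx' : gen p q 0 * x ∉ Sc (selfHom p q) S := fun h =>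
      hx ((Sc_iff (ρ := selfHom p q) hS (A_mem_eSub p q) x).1 h)
    rw [ConnB_delta_apply, h1 x hx, h1 _ hx', add_zero]
  · rintro ⟨g, hg⟩ x
    change ConnB_delta p q φ (g * x) = ConnB_delta p q φ x
    have eA : ∀ x, ConnB_delta p q φ (gen p q 0 * x) = ConnB_delta p q φ x := by
      intro x
      rw [ConnB_delta_apply, ConnB_delta_apply, hAA, add_comm]
    have eC : ∀ x, ConnB_delta p q φ (gen p q 2 * x) = ConnB_delta p q φ x := by
      intro x
      rw [ConnB_delta_apply, ConnB_delta_apply, hAC, hC, hC]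
    rcases mem_eSub hg with rfl | rfl | rfl | rfl
    · rw [one_mul]
    · exact eA x
    · exact eC x
    · rw [mul_assoc, eC, eA]
  · rw [LinearMap.mem_ker]
    ext x
    change ∑ i ∈ Finset.range p, ConnB_delta p q φ ((gen p q 1 * gen p q 0) ^ i * x) = 0
    have h2 : ∀ i, ConnB_delta p q φ ((gen p q 1 * gen p q 0) ^ i * x) =
        φ ((gen p q 1 * gen p q 0) ^ (i + 1) * x) - φ ((gen p q 1 * gen p q 0) ^ i * x) := by
      intro i
      rw [ConnB_delta_apply, ← hB, pow_succ' (gen p q 1 * gen p q 0) i, CharTwo.sub_eq_add]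
      congr 2
      group
    simp only [h2]
    rw [Finset.sum_range_sub (fun i => φ ((gen p q 1 * gen p q 0) ^ i * x)), ba_pow, pow_zero,
      sub_self]

/-- `δ` maps `vertF` injectively into `cycF`, so `V ≤ dim cycF`.

`φ ∈ vertF` is supported on `S_v` and invariant under `B`, `C`; `δφ (x) = φ(Ax) + φ(x)` is
supported on `S_c` (if `x ∈ S_v` then `x ∈ S_c`; if `Ax ∈ S_v` then `Ax ∈ S_c`, so `x ∈ S_c`),
invariant under `A` (commutativity) and under `C` (`φ(ACx) = φ(CAx) = φ(Ax)`), and its face sums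
telescope: `Σ_{i<p} [φ(A(BA)^i x) + φ((BA)^i x)] = Σ [φ((BA)^{i+1} x) + φ((BA)^i x)] = 0`.  If
`δφ = 0`, `φ` is invariant under `A, B, C`, hence constant (`tri_induction`), hence `0` because its
support is finite and `D` is infinite. -/
theorem vert_le_cyc (hyp : Hyp p q) (hmap : IsMapHom (selfHom p q)) (S : Finset (Tri p q))
    (hS : FaceSet (selfHom p q) S) (V : ℕ) (hV : (Sv (selfHom p q) S).card = 2 * q * V) :
    V ≤ Module.finrank (ZMod 2) (cycF (selfHom p q) S) := by
  have h1 : Module.Finite (ZMod 2) (edgeF (selfHom p q) S) := finite_InvF _ _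
  have h2 : Module.Finite (ZMod 2) (cycF (selfHom p q) S) :=
    Submodule.finiteDimensional_inf_left _ _
  have h3 := finrank_vertF hyp hmap S V hV
  rw [← h3]
  refine LinearMap.finrank_le_finrank_of_injective
    (f := (ConnB_delta p q).restrict (fun x hx => ConnB_delta_mem hS hx)) ?_
  rw [← LinearMap.ker_eq_bot, LinearMap.ker_eq_bot']
  rintro ⟨φ, hφ⟩ h0
  have h4 : ∀ x, φ (gen p q 0 * x) + φ x = 0 := fun x =>
    congrFun (congrArg Subtype.val h0) x
  have hA : ∀ x, φ (gen p q 0 * x) = φ x := fun x =>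
    sub_eq_zero.1 (by rw [CharTwo.sub_eq_add]; exact h4 x)
  have hB : ∀ x, φ (gen p q 1 * x) = φ x := fun x => hφ.2 ⟨gen p q 1, B_mem_vSub p q⟩ x
  have hC : ∀ x, φ (gen p q 2 * x) = φ x := fun x => hφ.2 ⟨gen p q 2, C_mem_vSub p q⟩ x
  have hconst : ∀ g, φ g = φ 1 := by
    apply tri_induction
    · rfl
    · intro i g hg
      fin_cases i
      · exact (hA g).trans hg
      · exact (hB g).trans hg
      · exact (hC g).trans hg
  have := tri_infinite hyp hmap
  obtain ⟨x₀, hx₀⟩ := Infinite.exists_notMem_finset (Sv (selfHom p q) S)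
  have h5 : φ x₀ = 0 := hφ.1 x₀ hx₀
  apply Subtype.ext
  ext x
  change φ x = 0
  rw [hconst x, ← hconst x₀, h5]

/-! ### boundary of one edge -/

private theorem ConnB_sgn_pow (i : ℕ) : sgn p q ((gen p q 1 * gen p q 0) ^ i) = 1 := by
  rw [map_pow, map_mul, sgn_gen, sgn_gen]
  simp

private theorem ConnB_sgn_ne {g h : Tri p q} (hg : sgn p q g = 1) (hh : sgn p q h = -1) :
    g ≠ h := by
  rintro rfl
  rw [hg] at hh
  exact absurd hh (by decide)

private theorem ConnB_order (hmap : IsMapHom (selfHom p q)) :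
    orderOf (gen p q 1 * gen p q 0) = p := minPer_ba hmap 1

private theorem ConnB_eta (hyp : Hyp p q) (hmap : IsMapHom (selfHom p q)) (y w : Tri p q) :
    (open Classical in ∑ i ∈ Finset.range p,
      (if (gen p q 1 * gen p q 0) ^ i * w = y ∨ (gen p q 1 * gen p q 0) ^ i * w = gen p q 0 * y
        then (1 : ZMod 2) else 0)) =
      orbInd ((selfHom p q).comp (fSub p q).subtype) y w := by
  classical
  have hp : 0 < p := by have := hyp.hp; omega
  have hAA : ∀ x, gen p q 0 * (gen p q 0 * x) = x := fun x => by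
    rw [← mul_assoc, gen_sq, one_mul]
  have hr : gen p q 1 * gen p q 0 ∈ fSub p q := mul_mem (B_mem_fSub p q) (A_mem_fSub p q)
  have hA := A_mem_fSub p q
  have hsA : sgn p q (gen p q 0) = -1 := sgn_gen p q 0
  unfold orbInd
  split_ifs with h
  · obtain ⟨g, hg⟩ := h
    have hg' : (g : Tri p q) * y = w := hg
    have h1 : (g : Tri p q)⁻¹ ∈ fSub p q := inv_mem g.2
    obtain ⟨i, hi, hgi⟩ := mem_fSub hp h1
    have h2 : (gen p q 1 * gen p q 0) ^ i * w = y ∨
        (gen p q 1 * gen p q 0) ^ i * w = gen p q 0 * y := by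
      have h3 : (g : Tri p q)⁻¹ * w = y := by rw [← hg', inv_mul_cancel_left]
      rcases hgi with e | e
      · rw [e] at h3
        exact Or.inl h3
      · rw [e, mul_assoc] at h3
        right
        rw [← h3, hAA]
    rw [Finset.sum_eq_single i]
    · rw [if_pos h2]
    · intro j hj hne
      rw [if_neg]
      intro h4
      apply hne
      have hj' := Finset.mem_range.1 hj
      have hord := ConnB_order hmap
      have inj : (gen p q 1 * gen p q 0) ^ j = (gen p q 1 * gen p q 0) ^ i → j = i := fun e =>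
        pow_injOn_Iio_orderOf (by rw [hord]; exact hj') (by rw [hord]; exact hi) e
      rcases h2 with h2 | h2 <;> rcases h4 with h4 | h4
      · exact inj (mul_right_cancel (h4.trans h2.symm))
      · exfalso
        rw [← h2, ← mul_assoc] at h4
        refine ConnB_sgn_ne (ConnB_sgn_pow j) ?_ (mul_right_cancel h4)
        rw [map_mul, ConnB_sgn_pow, hsA, mul_one]
      · exfalso
        rw [← h4, ← mul_assoc] at h2
        refine ConnB_sgn_ne (ConnB_sgn_pow i) ?_ (mul_right_cancel h2)
        rw [map_mul, ConnB_sgn_pow, hsA, mul_one]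
      · exact inj (mul_right_cancel (h4.trans h2.symm))
    · intro h4
      exact absurd (Finset.mem_range.2 hi) h4
  · apply Finset.sum_eq_zero
    intro i _
    rw [if_neg]
    rintro (h1 | h1)
    · apply h
      refine ⟨⟨((gen p q 1 * gen p q 0) ^ i)⁻¹, inv_mem (pow_mem hr i)⟩, ?_⟩
      change ((gen p q 1 * gen p q 0) ^ i)⁻¹ * y = w
      rw [← h1, inv_mul_cancel_left]
    · apply h
      refine ⟨⟨((gen p q 1 * gen p q 0) ^ i)⁻¹ * gen p q 0,
        mul_mem (inv_mem (pow_mem hr i)) hA⟩, ?_⟩
      change ((gen p q 1 * gen p q 0) ^ i)⁻¹ * gen p q 0 * y = w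
      rw [mul_assoc, ← h1, inv_mul_cancel_left]

private theorem ConnB_ac_ne (hmap : IsMapHom (selfHom p q)) : gen p q 0 ≠ gen p q 2 := by
  intro h
  have h1 := hmap.ac 1
  have h2 : Function.IsPeriodicPt
      (⇑(selfHom p q (gen p q 0) * selfHom p q (gen p q 2))) 1 (1 : Tri p q) := by
    change gen p q 0 * (gen p q 2 * 1) = 1
    rw [← h, mul_one, gen_sq]
  have h3 := h2.minimalPeriod_le one_pos
  rw [h1] at h3
  omega

private theorem ConnB_zeta (hmap : IsMapHom (selfHom p q)) (y u : Tri p q) :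
    orbInd ((selfHom p q).comp (eSub p q).subtype) y u =
      (open Classical in (if u = y ∨ u = gen p q 0 * y then (1 : ZMod 2) else 0) +
        (if u = gen p q 2 * y ∨ u = gen p q 0 * (gen p q 2 * y) then (1 : ZMod 2) else 0)) := by
  classical
  have hC1 : gen p q 2 ≠ 1 := fun h => ConnB_sgn_ne (map_one (sgn p q)) (sgn_gen p q 2) h.symm
  have hAC := ConnB_ac_ne hmap
  have hAA : ∀ x, gen p q 0 * (gen p q 0 * x) = x := fun x => by
    rw [← mul_assoc, gen_sq, one_mul]
  have hcm : gen p q 2 * gen p q 0 = gen p q 0 * gen p q 2 := (ac_comm p q).symm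
  have key : (∃ g : eSub p q, ((selfHom p q).comp (eSub p q).subtype) g y = u) ↔
      (u = y ∨ u = gen p q 0 * y) ∨ (u = gen p q 2 * y ∨ u = gen p q 0 * (gen p q 2 * y)) := by
    constructor
    · rintro ⟨⟨g, hg⟩, h⟩
      have h' : g * y = u := h
      rcases mem_eSub hg with rfl | rfl | rfl | rfl
      · rw [one_mul] at h'
        exact Or.inl (Or.inl h'.symm)
      · exact Or.inl (Or.inr h'.symm)
      · exact Or.inr (Or.inl h'.symm)
      · rw [hcm, mul_assoc] at h'
        exact Or.inr (Or.inr h'.symm)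
    · rintro ((rfl | rfl) | (rfl | rfl))
      · exact ⟨1, by rw [map_one]; rfl⟩
      · exact ⟨⟨gen p q 0, A_mem_eSub p q⟩, rfl⟩
      · exact ⟨⟨gen p q 2, C_mem_eSub p q⟩, rfl⟩
      · refine ⟨⟨gen p q 0 * gen p q 2, mul_mem (A_mem_eSub p q) (C_mem_eSub p q)⟩, ?_⟩
        change gen p q 0 * gen p q 2 * y = gen p q 0 * (gen p q 2 * y)
        exact mul_assoc _ _ _
  have hdis : ¬ ((u = y ∨ u = gen p q 0 * y) ∧
      (u = gen p q 2 * y ∨ u = gen p q 0 * (gen p q 2 * y))) := by
    rintro ⟨h1, h2⟩
    rcases h1 with h1 | h1 <;> rcases h2 with h2 | h2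
    · exact hC1 (mul_eq_right.1 (h2.symm.trans h1))
    · have h3 : gen p q 0 * (gen p q 2 * y) = y := h2.symm.trans h1
      have h4 : gen p q 2 * y = gen p q 0 * y := by rw [← hAA (gen p q 2 * y), h3]
      exact hAC (mul_right_cancel h4).symm
    · exact hAC (mul_right_cancel (h1.symm.trans h2))
    · have h3 := mul_left_cancel (h1.symm.trans h2)
      exact hC1 (mul_eq_right.1 h3.symm)
  unfold orbInd
  by_cases h1 : u = y ∨ u = gen p q 0 * y
  · have h2 : ¬ (u = gen p q 2 * y ∨ u = gen p q 0 * (gen p q 2 * y)) := fun h => hdis ⟨h1, h⟩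
    rw [if_pos (key.2 (Or.inl h1)), if_pos h1, if_neg h2, add_zero]
  · by_cases h2 : u = gen p q 2 * y ∨ u = gen p q 0 * (gen p q 2 * y)
    · rw [if_pos (key.2 (Or.inr h2)), if_neg h1, if_pos h2, zero_add]
    · rw [if_neg (fun h => (key.1 h).elim h1 h2), if_neg h1, if_neg h2, add_zero]

/-- the boundary of the indicator of an edge -/
private theorem ConnB_bdry (hyp : Hyp p q) (hmap : IsMapHom (selfHom p q)) (y : Tri p q) :
    faceSum (selfHom p q) (orbInd ((selfHom p q).comp (eSub p q).subtype) y) =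
      orbInd ((selfHom p q).comp (fSub p q).subtype) y +
        orbInd ((selfHom p q).comp (fSub p q).subtype) (gen p q 2 * y) := by
  classical
  ext w
  change ∑ i ∈ Finset.range p, orbInd ((selfHom p q).comp (eSub p q).subtype) y
    ((gen p q 1 * gen p q 0) ^ i * w) = orbInd ((selfHom p q).comp (fSub p q).subtype) y w +
      orbInd ((selfHom p q).comp (fSub p q).subtype) (gen p q 2 * y) w
  simp only [ConnB_zeta hmap]
  rw [Finset.sum_add_distrib, ConnB_eta hyp hmap y w, ConnB_eta hyp hmap (gen p q 2 * y) w]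

private theorem ConnB_orb_eq {K : Type} [Group K] {X : Type} (σ : K →* Perm X) (g : K) (x : X) :
    orbInd σ (σ g x) = orbInd σ x := by
  classical
  ext y
  unfold orbInd
  have h : (∃ k, σ k (σ g x) = y) ↔ ∃ k, σ k x = y := by
    constructor
    · rintro ⟨k, rfl⟩
      exact ⟨k * g, by rw [map_mul]; rfl⟩
    · rintro ⟨k, rfl⟩
      refine ⟨k * g⁻¹, ?_⟩
      rw [← Perm.mul_apply, ← map_mul, inv_mul_cancel_right]
  simp only [h]

/-- If `S` is edge-connected, then `rank ∂ ≥ F - 1`, i.e. `dim cycF + F ≤ E + 1`.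

`W := (edgeF).map ∂ ≤ faceF` (`faceSum_mem`).  For `x ∈ S_c` the indicator `ζ` of the edge
`⟨A,C⟩ x` is in `edgeF` and `∂ζ = orbInd x + orbInd (Cx)` (`orbInd` for `fSub`; if `Cx` lies in
the face of `x` both sides are zero): for every `y`, `∂ζ(y) = #{i < p : (BA)^i y ∈ {x,Ax,Cx,CAx}}`,
and `#{i<p : (BA)^i y ∈ {x,Ax}}` is `1` if `y ∈ ⟨A,B⟩x` and `0` otherwise.  Along steps `SStep`
`orbInd` changes by an element of `W`, so `orbInd x + orbInd y ∈ W` for all `x,y ∈ S`, and
`faceF ≤ W ⊔ span {orbInd x₀}` (`InvF_le`).  Hence `F ≤ dim W + 1`; rank-nullity for `∂` on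
`edgeF`. -/
theorem conn_rank (hyp : Hyp p q) (hmap : IsMapHom (selfHom p q)) (S : Finset (Tri p q))
    (hS : FaceSet (selfHom p q) S) (x₀ : Tri p q) (hx₀ : x₀ ∈ S)
    (hc : ∀ y ∈ S, SConn (selfHom p q) S x₀ y) (F E : ℕ) (hF : S.card = 2 * p * F)
    (hE : (Sc (selfHom p q) S).card = 4 * E) :
    Module.finrank (ZMod 2) (cycF (selfHom p q) S) + F ≤ E + 1 := by
  classical
  have h1 : Module.Finite (ZMod 2) (edgeF (selfHom p q) S) := finite_InvF _ _
  have := finite_fSub hyp
  have hfF := finrank_faceF hyp hmap S hS F hF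
  have hfE := finrank_edgeF hyp hmap S hS E hE
  let f := (faceSum (selfHom p q)).domRestrict (edgeF (selfHom p q) S)
  have hrn := LinearMap.finrank_range_add_finrank_ker f
  let v := orbInd ((selfHom p q).comp (fSub p q).subtype) x₀
  -- the kernel
  have hker : Module.finrank (ZMod 2) (LinearMap.ker f) =
      Module.finrank (ZMod 2) (cycF (selfHom p q) S) := by
    have hle : cycF (selfHom p q) S ≤ edgeF (selfHom p q) S := inf_le_left
    have : LinearMap.ker f =
        Submodule.comap (edgeF (selfHom p q) S).subtype (cycF (selfHom p q) S) := by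
      ext ⟨x, hx⟩
      rw [LinearMap.mem_ker, Submodule.mem_comap]
      constructor
      · intro h
        exact Submodule.mem_inf.2 ⟨hx, h⟩
      · intro h
        exact (Submodule.mem_inf.1 h).2
    rw [this]
    exact (Submodule.comapSubtypeEquivOfLe hle).finrank_eq
  -- the range
  have hW : faceF (selfHom p q) S ≤ LinearMap.range f ⊔ Submodule.span (ZMod 2) {v} := by
    apply InvF_le
    · rintro ⟨g, hg⟩ x hx
      exact face_closed (ρ := selfHom p q) hS hg hx
    · intro y hy
      have h2 := hc y hy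
      induction h2 with
      | refl => exact Submodule.mem_sup_right (Submodule.mem_span_singleton_self _)
      | @tail z w _ hs ih =>
        have ihz := ih hs.1
        rcases hs with ⟨hz, hw, e | e | e⟩
        · rw [e]
          have := ConnB_orb_eq ((selfHom p q).comp (fSub p q).subtype)
            ⟨gen p q 0, A_mem_fSub p q⟩ z
          change orbInd _ (gen p q 0 * z) = _ at this
          change orbInd _ (gen p q 0 * z) ∈ _
          rw [this]
          exact ihz
        · rw [e]
          have := ConnB_orb_eq ((selfHom p q).comp (fSub p q).subtype)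
            ⟨gen p q 1, B_mem_fSub p q⟩ z
          change orbInd _ (gen p q 1 * z) = _ at this
          change orbInd _ (gen p q 1 * z) ∈ _
          rw [this]
          exact ihz
        · have h3 := ConnB_bdry hyp hmap z
          have hzc : z ∈ Sc (selfHom p q) S := by
            rw [Sc, Finset.mem_filter]
            refine ⟨hz, ?_⟩
            rw [← e]
            exact hw
          have h4 : orbInd ((selfHom p q).comp (eSub p q).subtype) z ∈
              edgeF (selfHom p q) S := by
            apply orbInd_mem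
            · rintro ⟨g, hg⟩ x hx
              exact (Sc_iff (ρ := selfHom p q) hS hg x).2 hx
            · exact hzc
          have h5 : faceSum (selfHom p q) (orbInd ((selfHom p q).comp (eSub p q).subtype) z) ∈
              LinearMap.range f := ⟨⟨_, h4⟩, rfl⟩
          have h6 : orbInd ((selfHom p q).comp (fSub p q).subtype) w =
              faceSum (selfHom p q) (orbInd ((selfHom p q).comp (eSub p q).subtype) z) +
                orbInd ((selfHom p q).comp (fSub p q).subtype) z := by
            rw [h3, e]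
            ext u
            simp only [Pi.add_apply, selfHom_apply]
            rw [add_comm (orbInd _ z u), add_assoc, CharTwo.add_self_eq_zero, add_zero]
          rw [h6]
          exact Submodule.add_mem _ (Submodule.mem_sup_left h5) ihz
  have h7 : F ≤ Module.finrank (ZMod 2) (LinearMap.range f) + 1 := by
    rw [← hfF]
    refine (Submodule.finrank_mono hW).trans ?_
    refine (Submodule.finrank_add_le_finrank_add_finrank _ _).trans ?_
    gcongr
    refine (finrank_span_le_card ({v} : Set (Tri p q → ZMod 2))).trans ?_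
    simp
  rw [hker, hfE] at hrn
  omega

/-- combine the two -/
theorem conn_bound (hyp : Hyp p q) (hmap : IsMapHom (selfHom p q)) (S : Finset (Tri p q))
    (hS : FaceSet (selfHom p q) S) (x₀ : Tri p q) (hx₀ : x₀ ∈ S)
    (hc : ∀ y ∈ S, SConn (selfHom p q) S x₀ y) (F E V : ℕ) (hF : S.card = 2 * p * F)
    (hE : (Sc (selfHom p q) S).card = 4 * E) (hV : (Sv (selfHom p q) S).card = 2 * q * V) :
    V + F ≤ E + 1 := by
  have h1 := vert_le_cyc hyp hmap S hS V hV
  have h2 := conn_rank hyp hmap S hS x₀ hx₀ hc F E hF hE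
  omega

end MPbcd198.G
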