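import Pool.Agent.Lib.MP_bcd198_co.G.Base

/-!
# MP_bcd198_co, stream G, file `Lin` (job G_Lin)

Functions with values in `ZMod 2` invariant under a free action of a finite group: dimension =
number of orbits.  Nothing in this file uses the triangle group.
-/

set_option autoImplicit false

namespace MPbcd198.G

open Equiv

variable {K : Type} [Group K] {X : Type}

/-- the functions supported on `T` and invariant under the group `K` -/
def InvF (σ : K →* Perm X) (T : Finset X) : Submodule (ZMod 2) (X → ZMod 2) where
  carrier := {f | (∀ x, x ∉ T → f x = 0) ∧ ∀ g x, f (σ g x) = f x}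
  add_mem' := by
    rintro f g ⟨hf1, hf2⟩ ⟨hg1, hg2⟩
    exact ⟨fun x hx => by simp [hf1 x hx, hg1 x hx], fun k x => by simp [hf2 k x, hg2 k x]⟩
  zero_mem' := ⟨fun _ _ => rfl, fun _ _ => rfl⟩
  smul_mem' := by
    rintro c f ⟨hf1, hf2⟩
    exact ⟨fun x hx => by simp [hf1 x hx], fun k x => by simp [hf2 k x]⟩

theorem mem_InvF (σ : K →* Perm X) (T : Finset X) (f : X → ZMod 2) :
    f ∈ InvF σ T ↔ (∀ x, x ∉ T → f x = 0) ∧ ∀ g x, f (σ g x) = f x := Iff.rfl

open Classical in
/-- indicator of an orbit -/
noncomputable def orbInd (σ : K →* Perm X) (x : X) : X → ZMod 2 :=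
  fun y => if ∃ g, σ g x = y then 1 else 0

/-- restriction to `T` embeds `InvF σ T` into `T → ZMod 2` -/
theorem finite_InvF (σ : K →* Perm X) (T : Finset X) : Module.Finite (ZMod 2) (InvF σ T) := by
  let L : InvF σ T →ₗ[ZMod 2] ({x // x ∈ T} → ZMod 2) :=
    { toFun := fun f x => f.1 x.1
      map_add' := fun _ _ => rfl
      map_smul' := fun _ _ => rfl }
  refine Module.Finite.of_injective L ?_
  intro f g hfg
  apply Subtype.ext
  funext x
  by_cases hx : x ∈ T
  · exact congrFun hfg ⟨x, hx⟩
  · rw [f.2.1 x hx, g.2.1 x hx]

/-- the action on the closed set `T` -/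
@[instance_reducible] private def actT (σ : K →* Perm X) (T : Finset X)
    (hcl : ∀ g, ∀ x ∈ T, σ g x ∈ T) : MulAction K {x // x ∈ T} where
  smul g x := ⟨σ g x.1, hcl g x.1 x.2⟩
  one_smul x := Subtype.ext (by change σ 1 x.1 = x.1; simp)
  mul_smul g h x := Subtype.ext (by change σ (g * h) x.1 = σ g (σ h x.1); simp)

/-- Dimension = number of orbits.  Strong induction on `T.card`.  `T = ∅`: `InvF` is zero.  Else
take `x₀ ∈ T`, `O` = the orbit of `x₀` (a finset of `Nat.card K` points of `T`, by freeness),
`T' = T \ O` (closed).  `f ↦ (f restricted to T', f x₀)` is a linear equivalence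
`InvF σ T ≃ InvF σ T' × ZMod 2` (inverse `(f', c) ↦ f' + c • orbInd σ x₀`). -/
theorem finrank_InvF [Finite K] (σ : K →* Perm X) (T : Finset X)
    (hcl : ∀ g, ∀ x ∈ T, σ g x ∈ T) (hfree : ∀ g, ∀ x ∈ T, σ g x = x → g = 1) :
    Module.finrank (ZMod 2) (InvF σ T) * Nat.card K = T.card := by
  classical
  let _ := actT σ T hcl
  have hsm : ∀ (g : K) (x : {x // x ∈ T}), ((g • x : {x // x ∈ T}) : X) = σ g x.1 :=
    fun _ _ => rfl
  have hstab : ∀ b : {x // x ∈ T}, MulAction.stabilizer K b = ⊥ := by
    intro b
    rw [eq_bot_iff]
    intro g hg
    rw [MulAction.mem_stabilizer_iff] at hg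
    have := congrArg Subtype.val hg
    rw [hsm] at this
    exact Subgroup.mem_bot.2 (hfree g b.1 b.2 this)
  have hcard : Nat.card {x // x ∈ T} =
      Nat.card (MulAction.orbitRel.Quotient K {x // x ∈ T}) * Nat.card K := by
    rw [← Nat.card_prod]
    exact Nat.card_congr (MulAction.selfEquivOrbitsQuotientProd hstab)
  let Q := MulAction.orbitRel.Quotient K {x // x ∈ T}
  have hQ : Finite Q := Quotient.finite _
  have : Fintype Q := Fintype.ofFinite Q
  have hinv : ∀ f : InvF σ T, ∀ a b : {x // x ∈ T}, (MulAction.orbitRel K {x // x ∈ T}) a b →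
      f.1 a.1 = f.1 b.1 := by
    intro f a b hab
    rw [MulAction.orbitRel_apply, MulAction.mem_orbit_iff] at hab
    obtain ⟨g, rfl⟩ := hab
    rw [hsm]
    exact f.2.2 g b.1
  let e : InvF σ T ≃ₗ[ZMod 2] (Q → ZMod 2) :=
    { toFun := fun f x => Quotient.lift (fun a : {x // x ∈ T} => f.1 a.1) (hinv f) x
      map_add' := by
        intro f g
        funext x
        induction x using Quotient.inductionOn with
        | h a => rfl
      map_smul' := by
        intro c f
        funext x
        induction x using Quotient.inductionOn with
        | h a => rfl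
      invFun := fun φ => ⟨fun x => if h : x ∈ T then φ (Quotient.mk _ ⟨x, h⟩) else 0, by
        constructor
        · intro x hx
          simp [hx]
        · intro g x
          by_cases hx : x ∈ T
          · have h2 := hcl g x hx
            simp only [hx, h2, dif_pos]
            congr 1
            apply Quotient.sound
            change MulAction.orbitRel K {x // x ∈ T} _ _
            rw [MulAction.orbitRel_apply, MulAction.mem_orbit_iff]
            exact ⟨g, rfl⟩
          · have h2 : σ g x ∉ T := by
              intro h
              have := hcl g⁻¹ _ h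
              rw [← Perm.mul_apply, ← map_mul] at this
              simp at this
              exact hx this
            simp only [hx, h2, dif_neg, not_false_eq_true]⟩
      left_inv := by
        intro f
        apply Subtype.ext
        funext x
        by_cases hx : x ∈ T
        · simp only [hx, dif_pos]
          rfl
        · simp only [hx, dif_neg, not_false_eq_true]
          exact (f.2.1 x hx).symm
      right_inv := by
        intro φ
        funext x
        induction x using Quotient.inductionOn with
        | h a =>
          change (if h : a.1 ∈ T then φ (Quotient.mk _ ⟨a.1, h⟩) else 0) = _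
          rw [dif_pos a.2] }
  have h1 : Module.finrank (ZMod 2) (InvF σ T) = Nat.card Q := by
    rw [e.finrank_eq, Module.finrank_fintype_fun_eq_card, Nat.card_eq_fintype_card]
  rw [h1, ← hcard]
  simp

/-- immediate from `finrank_InvF` -/
theorem free_card_dvd [Finite K] (σ : K →* Perm X) (T : Finset X)
    (hcl : ∀ g, ∀ x ∈ T, σ g x ∈ T) (hfree : ∀ g, ∀ x ∈ T, σ g x = x → g = 1) :
    Nat.card K ∣ T.card :=
  Dvd.intro_left _ (finrank_InvF σ T hcl hfree)

theorem orbInd_mem (σ : K →* Perm X) (T : Finset X)
    (hcl : ∀ g, ∀ x ∈ T, σ g x ∈ T) (x : X) (hx : x ∈ T) : orbInd σ x ∈ InvF σ T := by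
  constructor
  · intro y hy
    unfold orbInd
    rw [if_neg]
    rintro ⟨g, rfl⟩
    exact hy (hcl g x hx)
  · intro k y
    unfold orbInd
    have : (∃ g, σ g x = σ k y) ↔ ∃ g, σ g x = y := by
      constructor
      · rintro ⟨g, hg⟩
        refine ⟨k⁻¹ * g, ?_⟩
        rw [map_mul, Perm.mul_apply, hg, ← Perm.mul_apply, ← map_mul]
        simp
      · rintro ⟨g, rfl⟩
        exact ⟨k * g, by rw [map_mul, Perm.mul_apply]⟩
    by_cases hc : ∃ g, σ g x = y
    · rw [if_pos hc, if_pos (this.2 hc)]
    · rw [if_neg hc, if_neg (fun h => hc (this.1 h))]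

/-- Invariant functions are sums of orbit indicators: induction on the size of the support. -/
theorem InvF_le [Finite K] (σ : K →* Perm X) (T : Finset X)
    (hcl : ∀ g, ∀ x ∈ T, σ g x ∈ T) (W : Submodule (ZMod 2) (X → ZMod 2))
    (h : ∀ x ∈ T, orbInd σ x ∈ W) : InvF σ T ≤ W := by
  classical
  have key : ∀ n : ℕ, ∀ f ∈ InvF σ T, (T.filter (fun x => f x ≠ 0)).card = n → f ∈ W := by
    intro n
    induction n using Nat.strong_induction_on with
    | _ n ih =>
      intro f hf hn
      by_cases h0 : ∀ x ∈ T, f x = 0
      · have : f = 0 := by
          funext x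
          by_cases hx : x ∈ T
          · exact h0 x hx
          · exact hf.1 x hx
        rw [this]
        exact W.zero_mem
      · push Not at h0
        obtain ⟨x, hx, hfx⟩ := h0
        have hfx1 : f x = 1 := by
          have : ∀ a : ZMod 2, a ≠ 0 → a = 1 := by decide
          exact this _ hfx
        have hor : ∀ y, orbInd σ x y ≠ 0 → f y = 1 ∧ orbInd σ x y = 1 := by
          intro y hy
          unfold orbInd at hy ⊢
          split_ifs at hy with hc
          · obtain ⟨g, rfl⟩ := hc
            exact ⟨by rw [hf.2, hfx1], by rw [if_pos ⟨g, rfl⟩]⟩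
          · exact absurd rfl hy
        have hxx : orbInd σ x x = 1 := by
          unfold orbInd
          rw [if_pos ⟨1, by simp⟩]
        have hmem := orbInd_mem σ T hcl x hx
        have hg : f - orbInd σ x ∈ InvF σ T := Submodule.sub_mem _ hf hmem
        have hlt : (T.filter (fun y => (f - orbInd σ x) y ≠ 0)).card < n := by
          rw [← hn]
          apply Finset.card_lt_card
          rw [Finset.ssubset_iff_of_subset]
          · refine ⟨x, ?_, ?_⟩
            · simp [hx, hfx]
            · simp [hxx, hfx1]
          · intro y hy
            rw [Finset.mem_filter] at hy ⊢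
            refine ⟨hy.1, ?_⟩
            intro hfy
            apply hy.2
            by_cases hoy : orbInd σ x y = 0
            · simp [hfy, hoy]
            · rw [(hor y hoy).1] at hfy
              exact absurd hfy one_ne_zero
        have := ih _ hlt _ hg rfl
        have h2 := W.add_mem this (h x hx)
        simpa using h2
  intro f hf
  exact key _ f hf rfl

/-- If `r` permutes the finite set `T` with all minimal periods equal to `n`, and the sum of `f`
over every `r`-orbit is zero, then the sum of `f` over `T` is zero.  Strong induction on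
`T.card`: remove the orbit `{r^i x : i < n}` of a point (these `n` points are distinct). -/
theorem sum_orbits {M : Type} [AddCommMonoid M] (r : Perm X) (n : ℕ) (hn : 0 < n) (T : Finset X)
    (hT : ∀ x ∈ T, r x ∈ T) (hper : ∀ x ∈ T, Function.minimalPeriod (⇑r) x = n) (f : X → M)
    (h0 : ∀ x ∈ T, ∑ i ∈ Finset.range n, f ((r ^ i) x) = 0) : ∑ x ∈ T, f x = 0 := by
  classical
  have key : ∀ (m : ℕ) (T : Finset X), T.card = m → (∀ x ∈ T, r x ∈ T) →
      (∀ x ∈ T, Function.minimalPeriod (⇑r) x = n) →
      (∀ x ∈ T, ∑ i ∈ Finset.range n, f ((r ^ i) x) = 0) → ∑ x ∈ T, f x = 0 := by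
    intro m
    induction m using Nat.strong_induction_on with
    | _ m ih =>
      intro T hm hT hper h0
      rcases T.eq_empty_or_nonempty with rfl | ⟨x, hx⟩
      · simp
      · have hpow : ∀ i : ℕ, (r ^ i) x ∈ T := by
          intro i
          induction i with
          | zero => simpa using hx
          | succ i ihi =>
            rw [pow_succ', Perm.mul_apply]
            exact hT _ ihi
        have hrn : (r ^ n) x = x := by
          have := Function.isPeriodicPt_minimalPeriod (⇑r) x
          rw [hper x hx] at this
          rw [← Equiv.Perm.iterate_eq_pow]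
          exact this
        set O := (Finset.range n).image (fun i => (r ^ i) x) with hO
        have hinj : Set.InjOn (fun i => (r ^ i) x) (Finset.range n : Set ℕ) := by
          intro i hi j hj hij
          have hi' : i < Function.minimalPeriod (⇑r) x := by
            rw [hper x hx]; simpa using hi
          have hj' : j < Function.minimalPeriod (⇑r) x := by
            rw [hper x hx]; simpa using hj
          have hij' : (⇑r)^[i] x = (⇑r)^[j] x := by
            rw [Equiv.Perm.iterate_eq_pow, Equiv.Perm.iterate_eq_pow]
            exact hij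
          exact (Function.iterate_injOn_Iio_minimalPeriod (f := ⇑r) (x := x)) hi' hj' hij'
        have hsub : O ⊆ T := by
          intro y hy
          rw [hO, Finset.mem_image] at hy
          obtain ⟨i, _, rfl⟩ := hy
          exact hpow i
        have hOsum : ∑ y ∈ O, f y = 0 := by
          rw [hO, Finset.sum_image hinj]
          exact h0 x hx
        have hxO : x ∈ O := by
          rw [hO, Finset.mem_image]
          exact ⟨0, Finset.mem_range.2 hn, by simp⟩
        have hrest : ∑ y ∈ T \ O, f y = 0 := by
          apply ih (T \ O).card _ (T \ O) rfl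
          · intro y hy
            rw [Finset.mem_sdiff] at hy ⊢
            refine ⟨hT y hy.1, ?_⟩
            intro hry
            apply hy.2
            rw [hO, Finset.mem_image] at hry ⊢
            obtain ⟨i, hi, hiy⟩ := hry
            rw [Finset.mem_range] at hi
            rcases Nat.eq_zero_or_pos i with rfl | hi0
            · refine ⟨n - 1, Finset.mem_range.2 (by omega), ?_⟩
              apply r.injective
              rw [← hiy]
              have : n = (n - 1) + 1 := by omega
              have h2 : r ((r ^ (n - 1)) x) = (r ^ n) x := by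
                conv_rhs => rw [this, pow_succ', Perm.mul_apply]
              rw [h2, hrn]
              simp
            · refine ⟨i - 1, Finset.mem_range.2 (by omega), ?_⟩
              apply r.injective
              rw [← hiy]
              have : i = (i - 1) + 1 := by omega
              conv_rhs => rw [this, pow_succ', Perm.mul_apply]
          · intro y hy
            exact hper y (Finset.mem_sdiff.1 hy).1
          · intro y hy
            exact h0 y (Finset.mem_sdiff.1 hy).1
          · rw [← hm]
            apply Finset.card_lt_card
            rw [Finset.ssubset_iff_of_subset Finset.sdiff_subset]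
            exact ⟨x, hx, by simp [hxO]⟩
        rw [← Finset.sum_sdiff hsub, hrest, hOsum, add_zero]
  exact key _ T rfl hT hper h0

end MPbcd198.G
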