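import Pool.Agent.Lib.MP_bcd198_co.G.Fin3
import Pool.Agent.Lib.MP_bcd198_co.G.Lin

/-!
# MP_bcd198_co, stream G, file `Tors0` (job G_Tors0)

[5.7] preparations.
-/

set_option autoImplicit false

namespace MPbcd198.G

open Equiv

variable {p q : ℕ} {X : Type}

/-- The finite face set of all flags `f g h^j` with `f ∈ ⟨A,B⟩`, `g` a suffix of a word for `h`,
`j < t`, where `h^t = 1`: it is invariant under right multiplication by `h` and connected. -/
theorem exists_conn_invariant (hyp : Hyp p q) (h : Tri p q) (t : ℕ) (ht : 0 < t)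
    (hh : h ^ t = 1) : ∃ S₀ : Finset (Tri p q), FaceSet (selfHom p q) S₀ ∧ (1 : Tri p q) ∈ S₀ ∧
      (∀ y ∈ S₀, SConn (selfHom p q) S₀ 1 y) ∧ ∀ x, x * h ∈ S₀ ↔ x ∈ S₀ := by
  classical
  obtain ⟨w, hw⟩ := exists_word h
  let T : Set (Tri p q) := {x | ∃ f ∈ fSub p q, ∃ v : List (Fin 3), v <:+ w ∧
    ∃ c ∈ Subgroup.zpowers h, x = f * ((v.map (gen p q)).prod * c)}
  have hfo : IsOfFinOrder h := isOfFinOrder_iff_pow_eq_one.2 ⟨t, ht, hh⟩
  have hTfin : T.Finite := by
    have h1 : ((fSub p q : Subgroup (Tri p q)) : Set (Tri p q)).Finite :=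
      @Set.toFinite _ _ (finite_fSub hyp)
    have h2 : {v : List (Fin 3) | v <:+ w}.Finite := by
      apply (w.tails.toFinset.finite_toSet).subset
      intro v hv
      simp only [Set.mem_ofPred_eq] at hv
      simpa using hv
    have h3 : ((Subgroup.zpowers h : Subgroup (Tri p q)) : Set (Tri p q)).Finite :=
      finite_zpowers.2 hfo
    apply ((h1.prod (h2.prod h3)).image
      fun z => z.1 * ((z.2.1.map (gen p q)).prod * z.2.2)).subset
    rintro x ⟨f, hf, v, hv, c, hc, rfl⟩
    exact ⟨(f, v, c), ⟨hf, hv, hc⟩, rfl⟩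
  have hmem : ∀ x, x ∈ hTfin.toFinset ↔ x ∈ T := fun x => hTfin.mem_toFinset
  have hone : (1 : Tri p q) ∈ T :=
    ⟨1, one_mem _, [], List.nil_suffix, 1, one_mem _, by simp⟩
  refine ⟨hTfin.toFinset, ?_, (hmem 1).2 hone, ?_, ?_⟩
  · intro x hx
    obtain ⟨f, hf, v, hv, c, hc, rfl⟩ := (hmem x).1 hx
    constructor
    · rw [hmem, selfHom_apply]
      exact ⟨gen p q 0 * f, mul_mem (A_mem_fSub p q) hf, v, hv, c, hc, by rw [mul_assoc]⟩
    · rw [hmem, selfHom_apply]
      exact ⟨gen p q 1 * f, mul_mem (B_mem_fSub p q) hf, v, hv, c, hc, by rw [mul_assoc]⟩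
  · -- along a suffix
    have hsuf : ∀ (v : List (Fin 3)), v <:+ w → ∀ c ∈ Subgroup.zpowers h,
        SConn (selfHom p q) hTfin.toFinset c ((v.map (gen p q)).prod * c) := by
      intro v
      induction v with
      | nil =>
        intro _ c _
        rw [List.map_nil, List.prod_nil, one_mul]
        exact Relation.ReflTransGen.refl
      | cons s v ih =>
        intro hv c hc
        have hv' : v <:+ w := (List.suffix_cons s v).trans hv
        refine Relation.ReflTransGen.tail (ih hv' c hc) ⟨?_, ?_, ?_⟩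
        · rw [hmem]
          exact ⟨1, one_mem _, v, hv', c, hc, by rw [one_mul]⟩
        · rw [hmem]
          exact ⟨1, one_mem _, s :: v, hv, c, hc, by rw [one_mul]⟩
        · rw [List.map_cons, List.prod_cons, mul_assoc]
          fin_cases s
          · exact Or.inl rfl
          · exact Or.inr (Or.inl rfl)
          · exact Or.inr (Or.inr rfl)
    -- powers of `h`
    have hpow : ∀ n : ℕ, SConn (selfHom p q) hTfin.toFinset 1 (h ^ n) := by
      intro n
      induction n with
      | zero =>
        rw [pow_zero]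
        exact Relation.ReflTransGen.refl
      | succ n ih =>
        have h1 := hsuf w List.suffix_rfl (h ^ n)
          (Subgroup.pow_mem _ (Subgroup.mem_zpowers h) n)
        rw [hw, ← pow_succ'] at h1
        exact Relation.ReflTransGen.trans ih h1
    intro y hy
    obtain ⟨f, hf, v, hv, c, hc, rfl⟩ := (hmem y).1 hy
    have hc' : c ∈ Submonoid.powers h := (hfo.mem_powers_iff_mem_zpowers).2 hc
    obtain ⟨n, rfl⟩ := hc'
    refine Relation.ReflTransGen.trans (Relation.ReflTransGen.trans (hpow n) (hsuf v hv _ hc)) ?_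
    have hin : ∀ f' ∈ fSub p q, f' * ((v.map (gen p q)).prod * h ^ n) ∈ hTfin.toFinset :=
      fun f' hf' => (hmem _).2 ⟨f', hf', v, hv, _, hc, rfl⟩
    have key : ∀ f' (_ : f' ∈ Subgroup.closure {gen p q 0, gen p q 1}),
        SConn (selfHom p q) hTfin.toFinset ((v.map (gen p q)).prod * h ^ n)
          (f' * ((v.map (gen p q)).prod * h ^ n)) := by
      intro f' hf'
      induction hf' using Subgroup.closure_induction_left with
      | one =>
        rw [one_mul]
        exact Relation.ReflTransGen.refl
      | mul_left x hx y hy ih =>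
        refine Relation.ReflTransGen.tail ih ⟨hin y hy, hin _ (mul_mem (Subgroup.subset_closure hx) hy), ?_⟩
        rcases hx with rfl | hx
        · left
          rw [selfHom_apply, mul_assoc]
        · rw [Set.mem_singleton_iff] at hx
          subst hx
          right
          left
          rw [selfHom_apply, mul_assoc]
      | inv_mul_cancel x hx y hy ih =>
        have hx' : x⁻¹ = x := by
          rcases hx with rfl | hx
          · exact gen_inv p q 0
          · rw [Set.mem_singleton_iff] at hx
            subst hx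
            exact gen_inv p q 1
        rw [hx']
        refine Relation.ReflTransGen.tail ih ⟨hin y hy, hin _ (mul_mem (Subgroup.subset_closure hx) hy), ?_⟩
        rcases hx with rfl | hx
        · left
          rw [selfHom_apply, mul_assoc]
        · rw [Set.mem_singleton_iff] at hx
          subst hx
          right
          left
          rw [selfHom_apply, mul_assoc]
    exact key f hf
  · intro x
    rw [hmem, hmem]
    constructor
    · rintro ⟨f, hf, v, hv, c, hc, hx⟩
      refine ⟨f, hf, v, hv, c * h⁻¹, mul_mem hc (inv_mem (Subgroup.mem_zpowers h)), ?_⟩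
      rw [← mul_assoc, ← mul_assoc, mul_assoc f, ← hx, mul_inv_cancel_right]
    · rintro ⟨f, hf, v, hv, c, hc, hx⟩
      refine ⟨f, hf, v, hv, c * h, mul_mem hc (Subgroup.mem_zpowers h), ?_⟩
      rw [hx]
      simp only [mul_assoc]

/-- A subgroup `H` acting on the left and the cyclic group of prime order generated by `h` acting
on the right act freely together, if no conjugate of a nontrivial power of `h` is in `H`: apply
`free_card_dvd` to `K = H × Subgroup.zpowers h`, `σ (f,k) x = f * x * k⁻¹`. -/
theorem dvd_of_invariant (H : Subgroup (Tri p q)) [Finite H] (h : Tri p q) (t : ℕ)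
    (ht : t.Prime) (hh : orderOf h = t)
    (hconj : ∀ (x : Tri p q) (j : ℤ), x * h ^ j * x⁻¹ ∈ H → h ^ j = 1)
    (S : Finset (Tri p q)) (hl : ∀ f ∈ H, ∀ x ∈ S, f * x ∈ S) (hr : ∀ x, x * h ∈ S ↔ x ∈ S) :
    Nat.card H * t ∣ S.card := by
  have hfo : IsOfFinOrder h := by
    rw [← orderOf_pos_iff, hh]
    exact ht.pos
  have hfin : Finite (Subgroup.zpowers h) := (finite_zpowers.2 hfo).to_subtype
  let σ : H × Subgroup.zpowers h →* Perm (Tri p q) :=
    { toFun := fun k => (Equiv.mulLeft (k.1 : Tri p q)) * (Equiv.mulRight ((k.2 : Tri p q)⁻¹))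
      map_one' := by
        ext x
        simp
      map_mul' := by
        intro a b
        ext x
        simp [mul_assoc] }
  have hσ : ∀ k x, σ k x = (k.1 : Tri p q) * (x * (k.2 : Tri p q)⁻¹) := fun k x => rfl
  have hz : ∀ (n : ℤ) x, x * h ^ n ∈ S ↔ x ∈ S := by
    intro n
    induction n using Int.induction_on with
    | zero => intro x; rw [zpow_zero, mul_one]
    | succ n ih =>
      intro x
      rw [zpow_add_one, ← mul_assoc, hr, ih]
    | pred n ih =>
      intro x
      rw [← hr (x * h ^ (-(n : ℤ) - 1)), mul_assoc, ← zpow_add_one, sub_add_cancel, ih]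
  have hcard : Nat.card (H × Subgroup.zpowers h) = Nat.card H * t := by
    rw [Nat.card_prod, Nat.card_zpowers, hh]
  rw [← hcard]
  apply free_card_dvd σ S
  · rintro ⟨f, k⟩ x hx
    rw [hσ]
    apply hl _ f.2
    obtain ⟨n, hn⟩ := (inv_mem k.2 : (k : Tri p q)⁻¹ ∈ Subgroup.zpowers h)
    simp only at hn ⊢
    rw [← hn]
    exact (hz n x).2 hx
  · rintro ⟨f, k⟩ x _ hfx
    rw [hσ] at hfx
    simp only at hfx
    obtain ⟨n, hn⟩ := k.2
    simp only at hn
    have h1 : (f : Tri p q) = x * h ^ n * x⁻¹ := by
      rw [hn]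
      have : (f : Tri p q) * x = x * k := by
        rw [← mul_assoc] at hfx
        exact (mul_inv_eq_iff_eq_mul.1 hfx)
      rw [← this, mul_inv_cancel_right]
    have h2 : h ^ n = 1 := hconj x n (h1 ▸ f.2)
    have h3 : (k : Tri p q) = 1 := by rw [← hn, h2]
    have h4 : (f : Tri p q) = 1 := by rw [h1, h2, mul_one, mul_inv_cancel]
    ext
    · simpa using h4
    · simpa using h3

end MPbcd198.G
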