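import Pool.Agent.Lib.MP_bcd198_co.G.End1
import Pool.Agent.Lib.MP_bcd198_co.G.ConnB
import Pool.Agent.Lib.MP_bcd198_co.G.Tors0

/-!
# MP_bcd198_co, stream G, file `Tors` (job G_Tors)

[5.7] stabilisers in maps are torsion free.
-/

set_option autoImplicit false

namespace MPbcd198.G

open Equiv

variable {p q : ℕ} {X : Type}

private theorem vjoin_of_ojoin {S : Finset (Tri p q)} {x y : Tri p q} (h : OJoin S x y) :
    VJoin (selfHom p q) S x y := by
  refine Relation.ReflTransGen.mono ?_ _ _ h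
  rintro u v ⟨hu, -, i, rfl⟩
  fin_cases i
  · right
    right
    exact ⟨rfl, fun hc => hu (Sc_subset _ _ hc)⟩
  · left
    rfl
  · right
    left
    rfl

private theorem mem_Sv' (ρ : Tri p q →* Perm X) (S : Finset X) (y : X) :
    y ∈ Sv ρ S ↔ y ∈ S ∧ ∀ g ∈ vSub p q, ρ g y ∈ S := by
  classical
  unfold Sv
  rw [Finset.mem_filter]

private theorem mem_Sc' (ρ : Tri p q →* Perm X) (S : Finset X) (y : X) :
    y ∈ Sc ρ S ↔ y ∈ S ∧ ρ (gen p q 2) y ∈ S := by
  classical
  unfold Sc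
  rw [Finset.mem_filter]

/-- [5.7].  PROOF.  Suppose `g ≠ 1`, `ρ g x = x` and `g^n = 1`, `n ≠ 0`.  Then `g` has finite order
`> 1`; let `t` be a prime factor of it and `h = g^(order/t)`, of order `t`, `ρ h x = x`.  For
`d ∈ D`, `j`: if `d h^j d⁻¹` is in `fSub`, `eSub` or `vSub` then it fixes `ρ d x`, so it is `1`
(`free_f`, ...), `h^j = 1`.  `D` itself is a map (`isMapHom_of_equivariant` with the orbit map
`g ↦ ρ g x`).  Take `S₀` from `exists_conn_invariant`, `S` from `filling`; `S` is invariant under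
right multiplication by `h`, and so are `S_c`, `S_v`.  `counts`: `|S| = 2pF`, `|S_c| = 4E`,
`|S_v| = 2qV`; by `dvd_of_invariant` (with `card_fSub` ...) `t` divides `F`, `E`, `V`.
`disc_nat` with `R = {r}`, `r ∉ S`: every flag outside `S_v` is `VJoin`ed to `r`: if `x ∉ S` by
`OJoin` (all flags are outside `S_c`); if `x ∈ S \ S_v` the vertex of `x` contains a flag outside
`S` (`VJoin_vertex`).  So `E + 1 ≤ F + V`; `conn_bound`: `V + F ≤ E + 1`.  Hence `t ∣ 1`. -/
theorem stab_torsionFree (hyp : Hyp p q) (ρ : Tri p q →* Perm X)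
    (hρ : IsMapHom ρ) (x : X) (g : Tri p q) (hg : g ≠ 1) (hx : ρ g x = x) :
    ∀ n : ℤ, n ≠ 0 → g ^ n ≠ 1 := by
  intro n hn hgn
  have hfin : IsOfFinOrder g := isOfFinOrder_iff_zpow_eq_one.2 ⟨n, hn, hgn⟩
  have ho0 : orderOf g ≠ 0 := (orderOf_pos_iff.2 hfin).ne'
  have ho1 : orderOf g ≠ 1 := fun h => hg (orderOf_eq_one_iff.1 h)
  set t : ℕ := (orderOf g).minFac with ht
  have htp : t.Prime := Nat.minFac_prime ho1
  set h : Tri p q := g ^ (orderOf g / t) with hh
  have hoh : orderOf h = t := orderOf_pow_orderOf_div ho0 (Nat.minFac_dvd _)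
  have hpow : ∀ (k : Tri p q), ρ k x = x → ∀ j : ℤ, ρ (k ^ j) x = x := by
    intro k hk j
    have h1 : k ∈ (MulAction.stabilizer (Perm X) x).comap ρ := by
      rw [Subgroup.mem_comap, MulAction.mem_stabilizer_iff]
      exact hk
    have h2 := Subgroup.zpow_mem _ h1 j
    rw [Subgroup.mem_comap, MulAction.mem_stabilizer_iff] at h2
    exact h2
  have hhx : ρ h x = x := by
    have := hpow g hx ((orderOf g / t : ℕ) : ℤ)
    rw [zpow_natCast] at this
    exact this
  have hconj : ∀ H : Subgroup (Tri p q), (∀ k ∈ H, ∀ y, ρ k y = y → k = 1) →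
      ∀ (d : Tri p q) (j : ℤ), d * h ^ j * d⁻¹ ∈ H → h ^ j = 1 := by
    intro H hH d j hd
    have h1 := hH _ hd (ρ d x) (by
      rw [← act_mul, inv_mul_cancel_right, act_mul, hpow h hhx j])
    have h2 : h ^ j = d⁻¹ * (d * h ^ j * d⁻¹) * d := by group
    rw [h2, h1]
    group
  have hmap : IsMapHom (selfHom p q) := by
    refine isMapHom_of_equivariant ρ (selfHom p q) (fun k => ρ k x) ?_ hρ
    intro k y
    exact act_mul ρ k y x
  have hht : h ^ t = 1 := by
    rw [← hoh]
    exact pow_orderOf_eq_one h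
  obtain ⟨S₀, hS₀, h1S₀, hc₀, hinv₀⟩ := exists_conn_invariant hyp h t htp.pos hht
  obtain ⟨S, hS, hsub, hconn, ⟨r, hr⟩, hO, hinv⟩ := filling hyp hmap S₀ hS₀ 1 h1S₀ hc₀
  have hSh : ∀ y, y * h ∈ S ↔ y ∈ S := hinv h hinv₀
  obtain ⟨F, E, V, hF, hE, hV, -⟩ := counts hyp hmap S hS
  have := finite_fSub hyp
  have := finite_vSub hyp
  have := finite_eSub p q
  have hp0 : 0 < p := by have := hyp.hp; omega
  have hq0 : 0 < q := by have := hyp.hq; omega
  have htF : t ∣ F := by
    have h1 := dvd_of_invariant (fSub p q) h t htp hoh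
      (hconj _ fun k hk y hy => free_f hyp hρ hk y hy) S
      (fun f hf y hy => face_closed hS hf hy) hSh
    rw [card_fSub hyp hρ x, hF] at h1
    exact Nat.dvd_of_mul_dvd_mul_left (by omega) h1
  have htE : t ∣ E := by
    have h1 := dvd_of_invariant (eSub p q) h t htp hoh
      (hconj _ fun k hk y hy => free_e hρ hk y hy) (Sc (selfHom p q) S)
      (fun f hf y hy => (Sc_iff hS hf y).2 hy) (by
        intro y
        rw [mem_Sc', mem_Sc', hSh, selfHom_apply, selfHom_apply, ← mul_assoc, hSh])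
    rw [card_eSub hρ x, hE] at h1
    exact Nat.dvd_of_mul_dvd_mul_left (by omega) h1
  have htV : t ∣ V := by
    have h1 := dvd_of_invariant (vSub p q) h t htp hoh
      (hconj _ fun k hk y hy => free_v hyp hρ hk y hy) (Sv (selfHom p q) S)
      (fun f hf y hy => (Sv_iff hf y).2 hy) (by
        intro y
        rw [mem_Sv', mem_Sv', hSh]
        refine and_congr Iff.rfl (forall₂_congr fun k _ => ?_)
        rw [selfHom_apply, selfHom_apply, ← mul_assoc, hSh])
    rw [card_vSub hyp hρ x, hV] at h1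
    exact Nat.dvd_of_mul_dvd_mul_left (by omega) h1
  have hR : ∀ y, y ∉ Sv (selfHom p q) S →
      ∃ r' ∈ ({r} : Finset (Tri p q)), VJoin (selfHom p q) S y r' := by
    intro y hy
    refine ⟨r, Finset.mem_singleton_self r, ?_⟩
    by_cases hyS : y ∈ S
    · rw [mem_Sv'] at hy
      push Not at hy
      obtain ⟨k, hk, hky⟩ := hy hyS
      exact Relation.ReflTransGen.trans (VJoin_vertex _ S y hk) (vjoin_of_ojoin (hO _ _ hky hr))
    · exact vjoin_of_ojoin (hO _ _ hyS hr)
  have h1S : (1 : Tri p q) ∈ S := hsub h1S₀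
  have hd := disc_nat hyp hmap S hS ⟨1, h1S⟩ {r} hR F E V hF hE hV
  rw [Finset.card_singleton] at hd
  have hb := conn_bound hyp hmap S hS 1 h1S hconn F E V hF hE hV
  have h1 : F + V = E + 1 := by omega
  have h2 : t ∣ 1 := by
    have h3 : t ∣ E + 1 := by
      rw [← h1]
      exact dvd_add htF htV
    exact (Nat.dvd_add_right htE).1 h3
  exact htp.one_lt.ne' (Nat.dvd_one.1 h2)

end MPbcd198.G
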