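import Pool.Agent.Lib.MP_bcd198_co.G.SelfM
import Pool.Agent.Lib.MP_bcd198_co.G.PolyB
import Pool.Agent.Lib.MP_bcd198_co.G.PolyC
import Pool.Agent.Lib.MP_bcd198_co.G.Tors
import Pool.Agent.Lib.MP_bcd198_co.G.Roots
import Pool.Agent.Lib.MP_bcd198_co.G.ChiB

/-!
# MP_bcd198_co, stream G, file `Main`: the interface theorems of `IfG.lean`
(namespace `MPbcd198.G.Main`)
-/

set_option autoImplicit false

namespace MPbcd198.G.Main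

open Equiv

theorem self_map {p q : ℕ} (hyp : Hyp p q) : IsMapHom (selfHom p q) := G.self_map hyp

theorem coset_map {p q : ℕ} {X : Type} (ρ : Tri p q →* Perm X) (hρ : IsMapHom ρ) (x : X)
    (Γ : Subgroup (Tri p q)) (hΓ : ∀ g ∈ Γ, ρ g x = x) : IsMapHom (cosetHom Γ) :=
  G.coset_map ρ hρ x Γ hΓ

theorem polygon {p q : ℕ} (hyp : Hyp p q) (n : ℕ) (hn : 0 < n) (x : ℕ → Tri p q)
    (per : ∀ i, x (i + n) = x i)
    (step : ∀ i, ∃ g ∈ vSub p q, x (i + 1) = g * gen p q 0 * x i)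
    (dist : ∀ i < n, ∀ j < n, i ≠ j → ∀ g ∈ vSub p q, x j ≠ g * x i)
    (two : n = 2 → x 1 ≠ gen p q 0 * x 0 ∧ x 1 ≠ gen p q 2 * gen p q 0 * x 0) :
    p ≤ n ∧ (n = p → ∃ y : ℕ → Tri p q, (∀ i, y i = x i ∨ y i = gen p q 2 * x i) ∧
      ∀ i, y (i + 1) = gen p q 1 * gen p q 0 * y i) := by
  have hmap := self_map hyp
  have h : IsPoly p q n x := ⟨hn, per, step, dist, two⟩
  obtain ⟨T, hT, hζ⟩ := poly_region hyp hmap h
  refine ⟨(poly_len hyp hmap h T hT hζ).1, ?_⟩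
  rintro rfl
  exact polygon' hyp hmap h

theorem face_unique {p q : ℕ} (hyp : Hyp p q) (x y : Tri p q)
    (h : ∀ i : ℕ, ∃ g ∈ vSub p q, (gen p q 1 * gen p q 0) ^ i * y =
      g * ((gen p q 1 * gen p q 0) ^ i * x)) : x = y :=
  G.face_unique hyp (self_map hyp) x y h

theorem stab_torsionFree {p q : ℕ} (hyp : Hyp p q) {X : Type} (ρ : Tri p q →* Perm X)
    (hρ : IsMapHom ρ) (x : X) (g : Tri p q) (hg : g ≠ 1) (hx : ρ g x = x) :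
    ∀ n : ℤ, n ≠ 0 → g ^ n ≠ 1 :=
  G.stab_torsionFree hyp ρ hρ x g hg hx

theorem isoperimetry {p q : ℕ} (hyp : Hyp p q) (γ : Tri p q) (hγ : ∀ n : ℤ, n ≠ 0 → γ ^ n ≠ 1)
    (hm : IsMapHom (cosetHom (Subgroup.zpowers γ)))
    (S : Finset (Tri p q ⧸ Subgroup.zpowers γ))
    (hS : FaceSet (cosetHom (Subgroup.zpowers γ)) S) :
    kap p q * S.card ≤ 3 * (bd (cosetHom (Subgroup.zpowers γ)) S).card :=
  G.isoperimetry hyp (self_map hyp) γ hγ hm S hS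

theorem finite_short {p q : ℕ} (hyp : Hyp p q) (γ : Tri p q)
    (hγ : ∀ n : ℤ, n ≠ 0 → γ ^ n ≠ 1) (hm : IsMapHom (cosetHom (Subgroup.zpowers γ))) (l : ℕ) :
    {y : Tri p q ⧸ Subgroup.zpowers γ |
      ∃ h ∈ ballT p q l, h ≠ 1 ∧ cosetHom (Subgroup.zpowers γ) h y = y}.Finite :=
  G.finite_short hyp (self_map hyp) γ hγ hm l

theorem finite_roots {p q : ℕ} (hyp : Hyp p q) (γ : Tri p q)
    (hγ : ∀ n : ℤ, n ≠ 0 → γ ^ n ≠ 1) (hm : IsMapHom (cosetHom (Subgroup.zpowers γ))) :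
    {g : Tri p q | ∃ k : ℤ, g ^ k = γ}.Finite :=
  G.finite_roots hyp (self_map hyp) γ hγ hm

theorem rank_lemma {p q : ℕ} (hyp : Hyp p q) {X : Type} (ρ : Tri p q →* Perm X)
    (hρ : IsMapHom ρ) (S : Finset X) (hS : FaceSet ρ S) (x : X) (hx : x ∈ S)
    (hc : ∀ y ∈ S, SConn ρ S x y) :
    ((∃ g ∈ piSet ρ S x, g ≠ 1) → chiInt ρ S ≤ 0) ∧
      (¬ InCyclic (piSet ρ S x) → chiInt ρ S ≤ -1) :=
  G.rank_lemma hyp ρ hρ S hS x hx hc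

theorem chiBar_le {p q : ℕ} (hyp : Hyp p q) {X : Type} (ρ : Tri p q →* Perm X)
    (hρ : IsMapHom ρ) (S : Finset X) (hS : FaceSet ρ S)
    (hc : ∀ y ∈ S, ∃ x ∈ S, SConn ρ S x y ∧ ∃ g ∈ piSet ρ S x, g ≠ 1) :
    chiBar ρ S ≤ 0 ∧ ((∃ x ∈ S, ¬ InCyclic (piSet ρ S x)) → chiBar ρ S ≤ -1) :=
  G.chiBar_le hyp ρ hρ S hS hc

end MPbcd198.G.Main
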