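import Pool.Agent.Lib.MP_bcd198_co.Types

/-!
# MP_bcd198_co, stream G, file `Base` (job G_Base)

Elementary facts on the triangle group `Tri p q`.  Write `A = gen p q 0`, `B = gen p q 1`,
`C = gen p q 2`.  All statements are short; 150-250 lines in total.
-/

set_option autoImplicit false

namespace MPbcd198.G

open Equiv

variable {p q : ℕ} {X : Type}

/-! ### relations -/

private theorem rel_one {x : FreeGroup (Fin 3)} (h : x ∈ triRels p q) :
    PresentedGroup.mk (triRels p q) x = 1 := PresentedGroup.one_of_mem h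

/-- relators `of i ^ 2` -/
theorem gen_sq (p q : ℕ) (i : Fin 3) : gen p q i * gen p q i = 1 := by
  have h : FreeGroup.of i ^ 2 ∈ triRels p q := by
    fin_cases i <;> simp [triRels]
  have h2 := rel_one h
  rw [map_pow, pow_two] at h2
  exact h2

theorem gen_inv (p q : ℕ) (i : Fin 3) : (gen p q i)⁻¹ = gen p q i :=
  inv_eq_of_mul_eq_one_right (gen_sq p q i)

private theorem ac_pow (p q : ℕ) : (gen p q 0 * gen p q 2) ^ 2 = 1 := by
  have h : (FreeGroup.of 0 * FreeGroup.of 2 : FreeGroup (Fin 3)) ^ 2 ∈ triRels p q := by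
    simp [triRels]
  have h2 := rel_one h
  rw [map_pow, map_mul] at h2
  exact h2

/-- `(A C)^2 = 1` and `A^2 = C^2 = 1` give `A C = C A` -/
theorem ac_comm (p q : ℕ) : gen p q 0 * gen p q 2 = gen p q 2 * gen p q 0 := by
  have h := ac_pow p q
  rw [pow_two] at h
  have h2 := inv_eq_of_mul_eq_one_right h
  rw [← h2, mul_inv_rev, gen_inv, gen_inv]

theorem ab_pow (p q : ℕ) : (gen p q 0 * gen p q 1) ^ p = 1 := by
  have h : (FreeGroup.of 0 * FreeGroup.of 1 : FreeGroup (Fin 3)) ^ p ∈ triRels p q := by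
    simp [triRels]
  have h2 := rel_one h
  rw [map_pow, map_mul] at h2
  exact h2

/-- `(B A)^p = A (A B)^p A` -/
theorem ba_pow (p q : ℕ) : (gen p q 1 * gen p q 0) ^ p = 1 := by
  have h : gen p q 1 * gen p q 0 = (gen p q 0 * gen p q 1)⁻¹ := by
    rw [mul_inv_rev, gen_inv, gen_inv]
  rw [h, inv_pow, ab_pow, inv_one]

theorem bc_pow (p q : ℕ) : (gen p q 1 * gen p q 2) ^ q = 1 := by
  have h : (FreeGroup.of 1 * FreeGroup.of 2 : FreeGroup (Fin 3)) ^ q ∈ triRels p q := by
    simp [triRels]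
  have h2 := rel_one h
  rw [map_pow, map_mul] at h2
  exact h2

theorem cb_pow (p q : ℕ) : (gen p q 2 * gen p q 1) ^ q = 1 := by
  have h : gen p q 2 * gen p q 1 = (gen p q 1 * gen p q 2)⁻¹ := by
    rw [mul_inv_rev, gen_inv, gen_inv]
  rw [h, inv_pow, bc_pow, inv_one]

/-! ### generation -/

/-- the generators generate (`PresentedGroup.closure_range_of`), they are involutions -/
theorem tri_induction {P : Tri p q → Prop} (h1 : P 1)
    (hs : ∀ (i : Fin 3) (g : Tri p q), P g → P (gen p q i * g)) : ∀ g, P g := by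
  intro g
  have hg : g ∈ Subgroup.closure (Set.range (PresentedGroup.of : Fin 3 → Tri p q)) := by
    rw [PresentedGroup.closure_range_of]
    exact Subgroup.mem_top g
  induction hg using Subgroup.closure_induction_left with
  | one => exact h1
  | mul_left x hx y hy ih =>
    obtain ⟨i, rfl⟩ := hx
    exact hs i y ih
  | inv_mul_cancel x hx y hy ih =>
    obtain ⟨i, rfl⟩ := hx
    have h2 : (PresentedGroup.of i : Tri p q)⁻¹ = gen p q i := gen_inv p q i
    rw [h2]
    exact hs i y ih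

theorem exists_word (g : Tri p q) : ∃ w : List (Fin 3), (w.map (gen p q)).prod = g := by
  induction g using tri_induction with
  | h1 => exact ⟨[], rfl⟩
  | hs i g ih =>
    obtain ⟨w, hw⟩ := ih
    exact ⟨i :: w, by rw [List.map_cons, List.prod_cons, hw]⟩

theorem exists_ball (g : Tri p q) : ∃ l : ℕ, g ∈ ballT p q l := by
  obtain ⟨w, hw⟩ := exists_word g
  exact ⟨w.length, w, le_refl _, hw⟩

theorem ballT_mono {l l' : ℕ} (h : l ≤ l') : ballT p q l ⊆ ballT p q l' := by
  rintro g ⟨w, hw, hg⟩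
  exact ⟨w, hw.trans h, hg⟩

theorem ballT_mul {l l' : ℕ} {g h : Tri p q} (hg : g ∈ ballT p q l) (hh : h ∈ ballT p q l') :
    g * h ∈ ballT p q (l + l') := by
  obtain ⟨w, hw, rfl⟩ := hg
  obtain ⟨w', hw', rfl⟩ := hh
  refine ⟨w ++ w', ?_, ?_⟩
  · rw [List.length_append]
    omega
  · rw [List.map_append, List.prod_append]

theorem ballT_gen (i : Fin 3) : gen p q i ∈ ballT p q 1 :=
  ⟨[i], by simp, by simp⟩

theorem ballT_one (l : ℕ) : (1 : Tri p q) ∈ ballT p q l :=
  ⟨[], by simp, by simp⟩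

theorem ballT_inv {l : ℕ} {g : Tri p q} (hg : g ∈ ballT p q l) : g⁻¹ ∈ ballT p q l := by
  obtain ⟨w, hw, rfl⟩ := hg
  refine ⟨w.reverse, by rw [List.length_reverse]; exact hw, ?_⟩
  rw [List.prod_inv_reverse, List.map_map, List.map_reverse]
  congr 2
  apply List.map_congr_left
  intro i _
  exact (gen_inv p q i).symm

/-- image of the finite set of words of length at most `l` -/
theorem ballT_finite (p q l : ℕ) : (ballT p q l).Finite := by
  have h1 : {w : List (Fin 3) | w.length ≤ l}.Finite := List.finite_length_le (Fin 3) l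
  refine (h1.image fun w => (w.map (gen p q)).prod).subset ?_
  rintro g ⟨w, hw, hg⟩
  exact ⟨w, hw, hg⟩

/-! ### sign -/

/-- the sign homomorphism `A, B, C ↦ -1` -/
def sgn (p q : ℕ) : Tri p q →* ℤˣ :=
  PresentedGroup.toGroup (f := fun _ : Fin 3 => (-1 : ℤˣ)) (by
    intro x hx
    simp only [triRels, Set.mem_insert_iff, Set.mem_singleton_iff] at hx
    rcases hx with rfl | rfl | rfl | rfl | rfl | rfl <;> simp)

theorem sgn_gen (p q : ℕ) (i : Fin 3) : sgn p q (gen p q i) = -1 :=
  PresentedGroup.toGroup.of _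

/-! ### actions -/

@[simp] theorem selfHom_apply (g x : Tri p q) : selfHom p q g x = g * x := rfl

@[simp] theorem cosetHom_apply (Γ : Subgroup (Tri p q)) (g x : Tri p q) :
    cosetHom Γ g (x : Tri p q ⧸ Γ) = ((g * x : Tri p q) : Tri p q ⧸ Γ) := rfl

theorem act_mul (ρ : Tri p q →* Perm X) (g h : Tri p q) (x : X) :
    ρ (g * h) x = ρ g (ρ h x) := by
  rw [map_mul, Perm.mul_apply]

/-- `ρ (gen i)` is an involution -/
theorem act_gen_gen (ρ : Tri p q →* Perm X) (i : Fin 3) (x : X) :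
    ρ (gen p q i) (ρ (gen p q i) x) = x := by
  rw [← act_mul, gen_sq, map_one, Perm.one_apply]

/-- `A` and `C` commute in every action -/
theorem act_ac (ρ : Tri p q →* Perm X) (x : X) :
    ρ (gen p q 0) (ρ (gen p q 2) x) = ρ (gen p q 2) (ρ (gen p q 0) x) := by
  rw [← act_mul, ← act_mul, ac_comm]

private theorem rel_of_equivariant {Y : Type} (ρ : Tri p q →* Perm X) (σ : Tri p q →* Perm Y)
    (f : Y → X) (hf : ∀ g y, f (σ g y) = ρ g (f y)) {g h : Tri p q} {r : ℕ}
    (hgh : (g * h) ^ r = 1) (H : Rel r (ρ g) (ρ h)) : Rel r (σ g) (σ h) := by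
  intro y
  have hit : ∀ {Z : Type} (τ : Tri p q →* Perm Z) (n : ℕ) (z : Z),
      (⇑(τ g * τ h))^[n] z = τ ((g * h) ^ n) z := by
    intro Z τ n z
    rw [Equiv.Perm.iterate_eq_pow, ← map_mul, ← map_pow]
  apply Nat.dvd_antisymm
  · apply Function.IsPeriodicPt.minimalPeriod_dvd
    change (⇑(σ g * σ h))^[r] y = y
    rw [hit, hgh, map_one, Perm.one_apply]
  · have h1 := Function.isPeriodicPt_minimalPeriod (⇑(σ g * σ h)) y
    have h2 : (⇑(σ g * σ h))^[Function.minimalPeriod (⇑(σ g * σ h)) y] y = y := h1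
    rw [hit] at h2
    have h3 := congrArg f h2
    rw [hf, ← hit] at h3
    rw [← H (f y)]
    exact Function.IsPeriodicPt.minimalPeriod_dvd h3

/-- If `f : Y → X` is equivariant and `X` is a map, then `Y` is a map.  (`IsPM`: a fixed point
`y` of `A` would give a fixed point `f y`.  `Rel p`: if `(AB)^n` fixes `y` it fixes `f y`, hence
`p ∣ n`; and `(AB)^p = 1`; so the minimal period at `y` is `p`.) -/
theorem isMapHom_of_equivariant {Y : Type} (ρ : Tri p q →* Perm X) (σ : Tri p q →* Perm Y)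
    (f : Y → X) (hf : ∀ g y, f (σ g y) = ρ g (f y)) (hρ : IsMapHom ρ) : IsMapHom σ := by
  have hpm : ∀ i : Fin 3, IsPM (ρ (gen p q i)) → IsPM (σ (gen p q i)) := by
    intro i hi y
    refine ⟨fun h => (hi (f y)).1 ?_, act_gen_gen σ i y⟩
    rw [← hf, h]
  exact
    { pa := hpm 0 hρ.pa
      pb := hpm 1 hρ.pb
      pc := hpm 2 hρ.pc
      ab := rel_of_equivariant ρ σ f hf (ab_pow p q) hρ.ab
      bc := rel_of_equivariant ρ σ f hf (bc_pow p q) hρ.bc
      ac := rel_of_equivariant ρ σ f hf (ac_pow p q) hρ.ac }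

/-- [5.0] -/
theorem coset_map (ρ : Tri p q →* Perm X) (hρ : IsMapHom ρ) (x : X)
    (Γ : Subgroup (Tri p q)) (hΓ : ∀ g ∈ Γ, ρ g x = x) : IsMapHom (cosetHom Γ) := by
  have hwd : ∀ g g' : Tri p q, (QuotientGroup.leftRel Γ) g g' → ρ g x = ρ g' x := by
    intro g g' h
    rw [QuotientGroup.leftRel_apply] at h
    have h2 := hΓ _ h
    have h3 : g' = g * (g⁻¹ * g') := by group
    rw [h3, act_mul, h2]
  let f : Tri p q ⧸ Γ → X := Quotient.lift (fun g => ρ g x) hwd
  refine isMapHom_of_equivariant ρ (cosetHom Γ) f ?_ hρ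
  intro g y
  induction y using QuotientGroup.induction_on with
  | H h =>
    rw [cosetHom_apply]
    exact act_mul ρ g h x

end MPbcd198.G
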