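import Pool.Agent.Lib.MP_bcd198_co.G.Base

/-!
# MP_bcd198_co, stream G, file `Ext` (job G_Ext)

Extension of an action of the triangle group by an additive cocycle (blueprint 5.2, used three
times).
-/

set_option autoImplicit false

namespace MPbcd198.G

open Equiv

variable {p q : ℕ} {X : Type}

/-- the bijection `(x, s) ↦ (g x, s + φ x)` -/
private def liftP {N : Type} [AddCommGroup N] (ρ : Tri p q →* Perm X) (g : Tri p q)
    (φ : X → N) : Perm (X × N) where
  toFun z := (ρ g z.1, z.2 + φ z.1)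
  invFun z := (ρ g⁻¹ z.1, z.2 - φ (ρ g⁻¹ z.1))
  left_inv := by
    rintro ⟨x, s⟩
    have h : ρ g⁻¹ (ρ g x) = x := by rw [← act_mul]; simp
    simp only [h]
    ext <;> simp
  right_inv := by
    rintro ⟨x, s⟩
    have h : ρ g (ρ g⁻¹ x) = x := by rw [← act_mul]; simp
    simp only [h]
    ext <;> simp

private theorem liftP_apply {N : Type} [AddCommGroup N] (ρ : Tri p q →* Perm X) (g : Tri p q)
    (φ : X → N) (x : X) (s : N) : liftP ρ g φ (x, s) = (ρ g x, s + φ x) := rfl

private theorem liftP_mul {N : Type} [AddCommGroup N] (ρ : Tri p q →* Perm X) (g h : Tri p q)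
    (φ ψ : X → N) : liftP ρ g φ * liftP ρ h ψ = liftP ρ (g * h) (fun x => ψ x + φ (ρ h x)) := by
  ext ⟨x, s⟩
  · rw [Perm.mul_apply, liftP_apply, liftP_apply, liftP_apply, act_mul]
  · rw [Perm.mul_apply, liftP_apply, liftP_apply, liftP_apply]
    simp only [add_assoc]

private theorem liftP_one {N : Type} [AddCommGroup N] (ρ : Tri p q →* Perm X) (g : Tri p q)
    (hg : g = 1) (φ : X → N) (h : ∀ x, φ x = 0) : liftP ρ g φ = 1 := by
  subst hg
  ext ⟨x, s⟩
  · rw [liftP_apply]; simp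
  · rw [liftP_apply]; simp [h x]

private theorem liftP_pow {N : Type} [AddCommGroup N] (ρ : Tri p q →* Perm X) (g : Tri p q)
    (φ : X → N) (n : ℕ) : (liftP ρ g φ) ^ n =
      liftP ρ (g ^ n) (fun x => ∑ i ∈ Finset.range n, φ (ρ (g ^ i) x)) := by
  induction n with
  | zero =>
    rw [pow_zero]
    exact (liftP_one ρ _ (pow_zero g) _ (fun x => by simp)).symm
  | succ n ih =>
    rw [pow_succ', ih, liftP_mul, ← pow_succ']
    congr 1
    funext x
    rw [Finset.sum_range_succ]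

/-- EXTENSION LEMMA.  The three bijections of `X × N`
`Ã(x,s) = (Ax, s + e x)`, `B̃(x,s) = (Bx, s)`, `C̃(x,s) = (Cx, s)` satisfy the relators of `Tri p q`:
`Ã² : s + e x + e (Ax) = s`; `B̃², C̃²` clear; `(B̃C̃)^q` clear;
`(ÃC̃)² (x,s) = (x, s + e(Cx) + e(CACx)) = (x, s + e x + e(Ax)) = (x,s)`;
`(B̃Ã)^p (x,s) = (x, s + Σ_{i<p} e((BA)^i x)) = (x,s)` (induction on the exponent), hence
`(ÃB̃)^p = Ã (B̃Ã)^p Ã = 1`.  `PresentedGroup.toGroup` gives `R : Tri p q →* Perm (X × N)`; by
`tri_induction` the first coordinate of `R g (x,s)` is `ρ g x` and the second is `s + c g x` with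
`c g x := (R g (x,0)).2`. -/
theorem ext_cocycle {N : Type} [AddCommGroup N] (ρ : Tri p q →* Perm X) (e : X → N)
    (h1 : ∀ x, e (ρ (gen p q 0) x) = - e x) (h2 : ∀ x, e (ρ (gen p q 2) x) = e x)
    (h3 : ∀ x, ∑ i ∈ Finset.range p, e (ρ ((gen p q 1 * gen p q 0) ^ i) x) = 0) :
    ∃ c : Tri p q → X → N, (∀ g h x, c (g * h) x = c h x + c g (ρ h x)) ∧
      (∀ x, c (gen p q 0) x = e x) ∧ (∀ x, c (gen p q 1) x = 0) ∧
      (∀ x, c (gen p q 2) x = 0) ∧ (∀ x, c 1 x = 0) := by
  have hba : ∀ i : ℕ, gen p q 1 * (gen p q 0 * gen p q 1) ^ i =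
      (gen p q 1 * gen p q 0) ^ i * gen p q 1 := by
    intro i
    induction i with
    | zero => simp
    | succ i ih => rw [pow_succ', pow_succ', ← mul_assoc, ← mul_assoc, mul_assoc _ (gen p q 1), ih,
        ← mul_assoc]
  have hcac : gen p q 2 * (gen p q 0 * gen p q 2) = gen p q 0 := by
    rw [ac_comm, ← mul_assoc, gen_sq, one_mul]
  let F : Fin 3 → Perm (X × N) := ![liftP ρ (gen p q 0) e, liftP ρ (gen p q 1) (fun _ => 0),
    liftP ρ (gen p q 2) (fun _ => 0)]
  have F0 : F 0 = liftP ρ (gen p q 0) e := rfl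
  have F1 : F 1 = liftP ρ (gen p q 1) (fun _ => 0) := rfl
  have F2 : F 2 = liftP ρ (gen p q 2) (fun _ => 0) := rfl
  have hF : ∀ r ∈ triRels p q, FreeGroup.lift F r = 1 := by
    intro x hx
    simp only [triRels, Set.mem_insert_iff, Set.mem_singleton_iff] at hx
    rcases hx with rfl | rfl | rfl | rfl | rfl | rfl
    · rw [map_pow, FreeGroup.lift_apply_of, F0, pow_two, liftP_mul]
      exact liftP_one ρ _ (gen_sq p q 0) _ (fun x => by rw [h1]; simp)
    · rw [map_pow, FreeGroup.lift_apply_of, F1, pow_two, liftP_mul]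
      exact liftP_one ρ _ (gen_sq p q 1) _ (fun x => by simp)
    · rw [map_pow, FreeGroup.lift_apply_of, F2, pow_two, liftP_mul]
      exact liftP_one ρ _ (gen_sq p q 2) _ (fun x => by simp)
    · rw [map_pow, map_mul, FreeGroup.lift_apply_of, FreeGroup.lift_apply_of, F0, F1, liftP_mul,
        liftP_pow]
      refine liftP_one ρ _ (ab_pow p q) _ (fun x => ?_)
      refine Eq.trans ?_ (h3 (ρ (gen p q 1) x))
      apply Finset.sum_congr rfl
      intro i _
      rw [zero_add, ← act_mul, hba, act_mul]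
    · rw [map_pow, map_mul, FreeGroup.lift_apply_of, FreeGroup.lift_apply_of, F1, F2, liftP_mul,
        liftP_pow]
      exact liftP_one ρ _ (bc_pow p q) _ (fun x => by simp)
    · rw [map_pow, map_mul, FreeGroup.lift_apply_of, FreeGroup.lift_apply_of, F0, F2, liftP_mul,
        liftP_pow]
      refine liftP_one ρ _ ?_ _ (fun x => ?_)
      · rw [pow_two, mul_assoc, hcac, gen_sq]
      · rw [Finset.sum_range_succ, Finset.sum_range_one]
        simp only [pow_zero, pow_one, zero_add, map_one, Perm.one_apply]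
        rw [← act_mul, hcac, h1, h2]
        simp
  let R : Tri p q →* Perm (X × N) := PresentedGroup.toGroup (f := F) hF
  have hR : ∀ i, R (gen p q i) = F i := fun i => PresentedGroup.toGroup.of hF
  have key : ∀ g, ∃ φ : X → N, R g = liftP ρ g φ := by
    apply tri_induction
    · exact ⟨fun _ => 0, by rw [map_one]; exact (liftP_one ρ 1 rfl _ (fun _ => rfl)).symm⟩
    · rintro i g ⟨φ, hφ⟩
      have hi : ∃ ψ, F i = liftP ρ (gen p q i) ψ := by
        fin_cases i
        · exact ⟨_, F0⟩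
        · exact ⟨_, F1⟩
        · exact ⟨_, F2⟩
      obtain ⟨ψ, hψ⟩ := hi
      exact ⟨_, by rw [map_mul, hφ, hR, hψ, liftP_mul]⟩
  refine ⟨fun g x => (R g (x, 0)).2, ?_, ?_, ?_, ?_, ?_⟩
  · intro g h x
    obtain ⟨φ, hφ⟩ := key g
    obtain ⟨ψ, hψ⟩ := key h
    simp only [map_mul, hφ, hψ, liftP_mul, liftP_apply, zero_add]
  · intro x
    simp only [hR, F0, liftP_apply, zero_add]
  · intro x
    simp only [hR, F1, liftP_apply, zero_add]
  · intro x
    simp only [hR, F2, liftP_apply, zero_add]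
  · intro x
    simp

/-- [5.2] COCYCLE LEMMA: apply `ext_cocycle` to `selfHom p q`, `N = ZMod 2`, and take
`φ g = c g 1`. -/
theorem cocycle (ζ : Tri p q → ZMod 2) (hA : ∀ x, ζ (gen p q 0 * x) = ζ x)
    (hC : ∀ x, ζ (gen p q 2 * x) = ζ x)
    (hf : ∀ x, ∑ i ∈ Finset.range p, ζ ((gen p q 1 * gen p q 0) ^ i * x) = 0) :
    ∃ φ : Tri p q → ZMod 2, (∀ x, φ (gen p q 1 * x) = φ x) ∧ (∀ x, φ (gen p q 2 * x) = φ x) ∧
      ∀ x, φ (gen p q 0 * x) = φ x + ζ x := by
  have hneg : ∀ a : ZMod 2, - a = a := by decide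
  obtain ⟨c, hc, hc0, hc1, hc2, _⟩ := ext_cocycle (selfHom p q) ζ
    (fun x => by rw [selfHom_apply, hA, hneg]) (fun x => by rw [selfHom_apply, hC])
    (fun x => by simpa only [selfHom_apply] using hf x)
  refine ⟨fun g => c g 1, ?_, ?_, ?_⟩
  · intro x
    simp only [hc, hc1, add_zero]
  · intro x
    simp only [hc, hc2, add_zero]
  · intro x
    simp only [hc, hc0, selfHom_apply, mul_one]

end MPbcd198.G
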