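import Pool.Agent.Lib.MP_bcd198_co.G.ChZ
import Pool.Agent.Lib.MP_bcd198_co.G.Ext

/-!
# MP_bcd198_co, stream G, file `ChR` (job G_ChR)

[5.9] the chain relation.
-/

set_option autoImplicit false

namespace MPbcd198.G

open Equiv

variable {p q : ℕ} {X : Type}

/-- CHAIN RELATION.  There is a cocycle `c : Tri p q → X → (X →₀ ℤ) ⧸ BdryZ` (`ext_cocycle` with
`e x = [ech x]`), and `c (w.prod) x = [Wch x w]` (induction on `w`).  If `x₀` is fixed by `γ` and
`h g = g γ^k`, then `c h (g x₀) = c (γ^k) x₀ = k • c γ x₀`: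
`c (h g) x₀ = c g x₀ + c h (g x₀)`, `c (g γ^k) x₀ = c (γ^k) x₀ + c g (γ^k x₀)`, and
`c (γ^k) x₀ = k • c γ x₀` (integer induction, `γ x₀ = x₀`). -/
theorem chain_rel (hyp : Hyp p q) {ρ : Tri p q →* Perm X} (hρ : IsMapHom ρ) (ε : X → ℤ)
    (hε : ∀ y, ε y = 1 ∨ ε y = -1) (hs : ∀ (i : Fin 3) (y : X), ε (ρ (gen p q i) y) = - ε y)
    (x₀ : X) (γ g h : Tri p q) (k : ℤ) (hγ : ρ γ x₀ = x₀) (hk : h * g = g * γ ^ k)
    (w wγ : List (Fin 3)) (hw : (w.map (gen p q)).prod = h)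
    (hwγ : (wγ.map (gen p q)).prod = γ) :
    Wch ρ (ρ g x₀) w - k • Wch ρ x₀ wγ ∈ BdryZ ρ ε := by
  obtain ⟨c, hc, hcA, hcB, hcC, hc1⟩ := ext_cocycle ρ
    (fun x => (QuotientAddGroup.mk (ech ρ x) : (X →₀ ℤ) ⧸ BdryZ ρ ε))
    (fun x => by rw [ech_A, QuotientAddGroup.mk_neg])
    (fun x => by rw [ech_C])
    (fun x => by
      have h1 := face_bdry hyp hρ ε hε hs x
      rw [← QuotientAddGroup.eq_zero_iff] at h1
      rw [← h1]
      exact (map_sum (QuotientAddGroup.mk' (BdryZ ρ ε)) _ _).symm)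
  have hword : ∀ (w : List (Fin 3)) (x : X), c (w.map (gen p q)).prod x = QuotientAddGroup.mk (Wch ρ x w) := by
    intro w x
    induction w with
    | nil =>
      rw [List.map_nil, List.prod_nil, hc1, Wch]
      rfl
    | cons s w ih =>
      rw [List.map_cons, List.prod_cons, hc, ih, Wch, QuotientAddGroup.mk_add]
      congr 1
      fin_cases s
      · simp only [Fin.zero_eta, if_true]
        exact hcA _
      · exact hcB _
      · exact hcC _
  have hfix : ∀ n : ℤ, ρ (γ ^ n) x₀ = x₀ := by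
    intro n
    rw [map_zpow]
    exact Function.IsFixedPt.perm_zpow hγ n
  have hpow : ∀ n : ℤ, c (γ ^ n) x₀ = n • c γ x₀ := by
    intro n
    induction n using Int.induction_on with
    | zero => rw [zpow_zero, hc1, zero_zsmul]
    | succ i ih => rw [zpow_add_one, hc, hγ, ih, add_zsmul, one_zsmul, add_comm]
    | pred i ih =>
      have h1 : c (γ ^ (-(i : ℤ))) x₀ = c γ x₀ + c (γ ^ (-(i : ℤ) - 1)) x₀ := by
        have h2 : γ ^ (-(i : ℤ)) = γ ^ (-(i : ℤ) - 1) * γ := by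
          rw [zpow_sub_one, inv_mul_cancel_right]
        rw [h2, hc, hγ]
      rw [ih] at h1
      rw [sub_zsmul, one_zsmul, h1]
      abel
  have h1 : c (h * g) x₀ = c g x₀ + c h (ρ g x₀) := hc h g x₀
  have h2 : c (g * γ ^ k) x₀ = c (γ ^ k) x₀ + c g x₀ := by rw [hc, hfix]
  rw [hk, h2, hpow] at h1
  have h3 : c h (ρ g x₀) = k • c γ x₀ := by
    have h4 : k • c γ x₀ + c g x₀ = c h (ρ g x₀) + c g x₀ := by rw [h1, add_comm]
    exact (add_right_cancel h4).symm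
  have h5 := hword w (ρ g x₀)
  have h6 := hword wγ x₀
  rw [hw, h3] at h5
  rw [hwγ] at h6
  rw [← QuotientAddGroup.eq_zero_iff, QuotientAddGroup.mk_sub, QuotientAddGroup.mk_zsmul, ← h5, ← h6, sub_self]

end MPbcd198.G
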