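import Pool.Agent.Lib.MP_bcd198_co.G.Fin3

/-!
# MP_bcd198_co, stream G, file `ChZ` (job G_ChZ)

[5.9] integral chains of words in an action with a sign, modulo boundaries of faces.
-/

set_option autoImplicit false

namespace MPbcd198.G

open Equiv

variable {p q : ℕ} {X : Type}

open Classical in
/-- the oriented edge at `x`: `δ_x + δ_{Cx} - δ_{Ax} - δ_{CAx}` -/
noncomputable def ech (ρ : Tri p q →* Perm X) (x : X) : X →₀ ℤ :=
  Finsupp.single x 1 + Finsupp.single (ρ (gen p q 2) x) 1 - Finsupp.single (ρ (gen p q 0) x) 1 -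
    Finsupp.single (ρ (gen p q 2) (ρ (gen p q 0) x)) 1

/-- boundaries of finitely supported face functions -/
def BdryZ (ρ : Tri p q →* Perm X) (ε : X → ℤ) : AddSubgroup (X →₀ ℤ) where
  carrier := {w | ∃ b : X →₀ ℤ, (∀ x, b (ρ (gen p q 0) x) = b x) ∧
    (∀ x, b (ρ (gen p q 1) x) = b x) ∧ ∀ x, w x = ε x * (b x - b (ρ (gen p q 2) x))}
  add_mem' := by
    rintro v w ⟨a, h1, h2, h3⟩ ⟨b, k1, k2, k3⟩
    exact ⟨a + b, fun x => by simp [h1 x, k1 x], fun x => by simp [h2 x, k2 x],
      fun x => by simp only [Finsupp.add_apply, h3 x, k3 x]; ring⟩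
  zero_mem' := ⟨0, fun x => rfl, fun x => rfl, fun x => by simp⟩
  neg_mem' := by
    rintro v ⟨a, h1, h2, h3⟩
    exact ⟨-a, fun x => by simp [h1 x], fun x => by simp [h2 x],
      fun x => by simp only [Finsupp.neg_apply, h3 x]; ring⟩

/-- the chain of a word started at `x`: sum of the oriented edges at its `A`-steps -/
noncomputable def Wch (ρ : Tri p q →* Perm X) (x : X) : List (Fin 3) → (X →₀ ℤ)
  | [] => 0
  | s :: w => Wch ρ x w + if s = 0 then ech ρ (ρ (w.map (gen p q)).prod x) else 0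

theorem ech_C (ρ : Tri p q →* Perm X) (x : X) : ech ρ (ρ (gen p q 2) x) = ech ρ x := by
  unfold ech
  rw [act_gen_gen, act_ac, act_gen_gen]
  abel

theorem ech_A (ρ : Tri p q →* Perm X) (x : X) : ech ρ (ρ (gen p q 0) x) = - ech ρ x := by
  unfold ech
  rw [act_gen_gen]
  abel

private theorem chZ_single (σ : Perm X) (hσ : ∀ x, σ (σ x) = x) (x z : X) (n : ℤ) :
    (Finsupp.single x n : X →₀ ℤ) (σ z) = (Finsupp.single (σ x) n : X →₀ ℤ) z := by
  classical
  rw [Finsupp.single_apply, Finsupp.single_apply]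
  by_cases h : x = σ z
  · rw [if_pos h, if_pos (by rw [h, hσ])]
  · rw [if_neg h, if_neg fun h' => h (by rw [← h', hσ])]

/-- values of `ech x` are `C`-invariant -/
theorem ech_apply_C (ρ : Tri p q →* Perm X) (x z : X) :
    ech ρ x (ρ (gen p q 2) z) = ech ρ x z := by
  have hC : ∀ y, ρ (gen p q 2) (ρ (gen p q 2) y) = y := fun y => act_gen_gen ρ 2 y
  unfold ech
  simp only [Finsupp.sub_apply, Finsupp.add_apply]
  rw [chZ_single _ hC, chZ_single _ hC, chZ_single _ hC, chZ_single _ hC, hC, hC]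
  ring

/-- The sum of the oriented edges around a face is the boundary of the face:
`Σ_{i<p} ech((BA)^i x) (z) = ε(x) ε(z) (1_f(z) - 1_f(Cz))`, `f = ⟨A,B⟩ x`.

PROOF.  `f` consists of the `2p` distinct flags `(BA)^i x` (sign `ε x`) and `A(BA)^i x` (sign
`-ε x`), `i < p` (`dihedral_free`), so `Σ_i (δ_{(BA)^i x} - δ_{A(BA)^i x})(z) = ε x ε z 1_f(z)`, and
`Σ_i (δ_{C(BA)^i x} - δ_{CA(BA)^i x})(z) = ` the same at `Cz` `= ε x ε(Cz) 1_f(Cz)`.  Take
`b = ε x • 1_f`. -/
theorem face_bdry (hyp : Hyp p q) {ρ : Tri p q →* Perm X} (hρ : IsMapHom ρ) (ε : X → ℤ)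
    (hε : ∀ y, ε y = 1 ∨ ε y = -1) (hs : ∀ (i : Fin 3) (y : X), ε (ρ (gen p q i) y) = - ε y)
    (x : X) : (∑ i ∈ Finset.range p, ech ρ (ρ ((gen p q 1 * gen p q 0) ^ i) x)) ∈ BdryZ ρ ε := by
  classical
  have hA : ∀ y, ρ (gen p q 0) (ρ (gen p q 0) y) = y := fun y => act_gen_gen ρ 0 y
  have hB : ∀ y, ρ (gen p q 1) (ρ (gen p q 1) y) = y := fun y => act_gen_gen ρ 1 y
  have hC : ∀ y, ρ (gen p q 2) (ρ (gen p q 2) y) = y := fun y => act_gen_gen ρ 2 y
  obtain ⟨y, hy⟩ : ∃ y : ℕ → X, y = fun i => ρ ((gen p q 1 * gen p q 0) ^ i) x := ⟨_, rfl⟩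
  have hy0 : y 0 = x := by
    rw [hy]
    simp
  have hys : ∀ i, y (i + 1) = ρ (gen p q 1) (ρ (gen p q 0) (y i)) := by
    intro i
    rw [hy]
    simp only
    rw [pow_succ', act_mul, act_mul]
  have hyp' : y p = x := by
    rw [hy]
    simp only
    rw [ba_pow, map_one]
    rfl
  have hεy : ∀ i, ε (y i) = ε x := by
    intro i
    induction i with
    | zero => rw [hy0]
    | succ i ih => rw [hys, hs, hs, neg_neg, ih]
  have hε2 : ∀ z, ε z * ε z = 1 := by
    intro z
    rcases hε z with h | h <;> rw [h] <;> rfl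
  obtain ⟨b, hb⟩ : ∃ b : X →₀ ℤ, b = ∑ i ∈ Finset.range p,
      (Finsupp.single (y i) (ε x) + Finsupp.single (ρ (gen p q 0) (y i)) (ε x)) := ⟨_, rfl⟩
  have hbz : ∀ z, b z = ∑ i ∈ Finset.range p,
      ((Finsupp.single (y i) (ε x) : X →₀ ℤ) z + (Finsupp.single (ρ (gen p q 0) (y i)) (ε x) : X →₀ ℤ) z) := by
    intro z
    rw [hb, Finsupp.finsetSum_apply]
    rfl
  refine ⟨b, ?_, ?_, ?_⟩
  · intro z
    rw [hbz, hbz]
    refine Finset.sum_congr rfl fun i _ => ?_
    rw [chZ_single _ hA, chZ_single _ hA, hA, add_comm]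
  · intro z
    rw [hbz, hbz, Finset.sum_add_distrib, Finset.sum_add_distrib, add_comm]
    have h1 : ∀ i, (Finsupp.single (ρ (gen p q 0) (y i)) (ε x) : X →₀ ℤ) (ρ (gen p q 1) z) =
        (Finsupp.single (y (i + 1)) (ε x) : X →₀ ℤ) z := by
      intro i
      rw [chZ_single _ hB, hys]
    have h2 : ∀ i, (Finsupp.single (y (i + 1)) (ε x) : X →₀ ℤ) (ρ (gen p q 1) z) =
        (Finsupp.single (ρ (gen p q 0) (y i)) (ε x) : X →₀ ℤ) z := by
      intro i
      rw [chZ_single _ hB, hys, hB]
    have h3 : ∀ F : ℕ → ℤ, F p = F 0 → ∑ i ∈ Finset.range p, F (i + 1) = ∑ i ∈ Finset.range p, F i := by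
      intro F hF
      have h4 := Finset.sum_range_succ F p
      have h5 := Finset.sum_range_succ' F p
      rw [h5, hF] at h4
      linarith
    congr 1
    · rw [Finset.sum_congr rfl fun i _ => h1 i]
      exact h3 (fun i => (Finsupp.single (y i) (ε x) : X →₀ ℤ) z) (by simp only [hy0, hyp'])
    · rw [← h3 (fun i => (Finsupp.single (y i) (ε x) : X →₀ ℤ) (ρ (gen p q 1) z)) (by simp only [hy0, hyp'])]
      exact Finset.sum_congr rfl fun i _ => h2 i
  · intro z
    rw [hbz, hbz, Finsupp.finsetSum_apply, ← Finset.sum_sub_distrib, Finset.mul_sum]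
    refine Finset.sum_congr rfl fun i _ => ?_
    have hyi : ρ ((gen p q 1 * gen p q 0) ^ i) x = y i := by rw [hy]
    rw [hyi, chZ_single _ hC, chZ_single _ hC]
    unfold ech
    simp only [Finsupp.sub_apply, Finsupp.add_apply]
    have key : ∀ (u : X) (s : ℤ), ε u = s * ε x → s * s = 1 →
        ε z * (Finsupp.single u (ε x) : X →₀ ℤ) z = s * (Finsupp.single u 1 : X →₀ ℤ) z := by
      intro u s hu hs2
      rw [Finsupp.single_apply, Finsupp.single_apply]
      by_cases h : u = z
      · rw [if_pos h, if_pos h, ← h, hu, mul_assoc, hε2, mul_one]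
      · rw [if_neg h, if_neg h, mul_zero, mul_zero]
    have k1 := key (y i) 1 (by rw [hεy, one_mul]) rfl
    have k2 := key (ρ (gen p q 0) (y i)) (-1) (by rw [hs, hεy]; ring) rfl
    have k3 := key (ρ (gen p q 2) (y i)) (-1) (by rw [hs, hεy]; ring) rfl
    have k4 := key (ρ (gen p q 2) (ρ (gen p q 0) (y i))) 1 (by rw [hs, hs, hεy]; ring) rfl
    linarith [k1, k2, k3, k4]

private theorem chZ_ech_support (ρ : Tri p q →* Perm X) (x z : X) (hz : z ∈ (ech ρ x).support) :
    z = x ∨ z = ρ (gen p q 2) x ∨ z = ρ (gen p q 0) x ∨ z = ρ (gen p q 2) (ρ (gen p q 0) x) := by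
  classical
  by_contra hcon
  push Not at hcon
  obtain ⟨h1, h2, h3, h4⟩ := hcon
  rw [Finsupp.mem_support_iff] at hz
  apply hz
  unfold ech
  simp only [Finsupp.sub_apply, Finsupp.add_apply]
  rw [Finsupp.single_eq_of_ne h1, Finsupp.single_eq_of_ne h2, Finsupp.single_eq_of_ne h3,
    Finsupp.single_eq_of_ne h4]
  rfl

/-- the support of the chain of a word -/
theorem Wch_support (ρ : Tri p q →* Perm X) (x z : X) (w : List (Fin 3))
    (hz : z ∈ (Wch ρ x w).support) : ∃ g ∈ ballT p q (w.length + 2), z = ρ g x := by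
  classical
  induction w with
  | nil =>
    rw [Wch] at hz
    simp at hz
  | cons s w ih =>
    rw [Wch] at hz
    rcases Finset.mem_union.mp (Finsupp.support_add hz) with h | h
    · obtain ⟨g, hg, hz'⟩ := ih h
      exact ⟨g, ballT_mono (by simp) hg, hz'⟩
    · by_cases hs : s = 0
      · rw [if_pos hs] at h
        have hw : (w.map (gen p q)).prod ∈ ballT p q w.length := ⟨w, le_rfl, rfl⟩
        have hC := ballT_gen (p := p) (q := q) 2
        have hA := ballT_gen (p := p) (q := q) 0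
        rcases chZ_ech_support ρ _ z h with h | h | h | h
        · exact ⟨_, ballT_mono (by simp only [List.length_cons]; omega) hw, h⟩
        · refine ⟨_, ballT_mono ?_ (ballT_mul hC hw), ?_⟩
          · simp only [List.length_cons]
            omega
          · rw [h, act_mul]
        · refine ⟨_, ballT_mono ?_ (ballT_mul hA hw), ?_⟩
          · simp only [List.length_cons]
            omega
          · rw [h, act_mul]
        · refine ⟨_, ballT_mono ?_ (ballT_mul hC (ballT_mul hA hw)), ?_⟩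
          · simp only [List.length_cons]
            omega
          · rw [h, act_mul, act_mul]
      · rw [if_neg hs] at h
        simp at h

theorem Wch_card (ρ : Tri p q →* Perm X) (x : X) (w : List (Fin 3)) :
    (Wch ρ x w).support.card ≤ 4 * w.length := by
  classical
  induction w with
  | nil =>
    rw [Wch]
    simp
  | cons s w ih =>
    rw [Wch]
    have h1 : (if s = 0 then ech ρ (ρ (w.map (gen p q)).prod x) else 0 : X →₀ ℤ).support.card ≤ 4 := by
      by_cases hs : s = 0
      · rw [if_pos hs]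
        obtain ⟨y, hy⟩ : ∃ y, y = ρ (w.map (gen p q)).prod x := ⟨_, rfl⟩
        rw [← hy]
        have h2 : (ech ρ y).support ⊆ {y, ρ (gen p q 2) y, ρ (gen p q 0) y, ρ (gen p q 2) (ρ (gen p q 0) y)} := by
          intro z hz
          simp only [Finset.mem_insert, Finset.mem_singleton]
          exact chZ_ech_support ρ y z hz
        refine (Finset.card_le_card h2).trans ?_
        exact (Finset.card_insert_le _ _).trans (Nat.succ_le_succ ((Finset.card_insert_le _ _).trans
          (Nat.succ_le_succ ((Finset.card_insert_le _ _).trans (by simp)))))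
      · rw [if_neg hs]
        simp
    have h2 := (Finset.card_le_card (Finsupp.support_add (g₁ := Wch ρ x w)
      (g₂ := (if s = 0 then ech ρ (ρ (w.map (gen p q)).prod x) else 0 : X →₀ ℤ)))).trans
      (Finset.card_union_le _ _)
    simp only [List.length_cons]
    omega

theorem Wch_C (ρ : Tri p q →* Perm X) (x z : X) (w : List (Fin 3)) :
    Wch ρ x w (ρ (gen p q 2) z) = Wch ρ x w z := by
  induction w with
  | nil => rfl
  | cons s w ih =>
    rw [Wch, Finsupp.add_apply, Finsupp.add_apply, ih]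
    congr 1
    by_cases hs : s = 0
    · rw [if_pos hs, ech_apply_C]
    · rw [if_neg hs]
      rfl

end MPbcd198.G
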