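import Pool.Agent.Lib.MP_bcd198_co.G.Chain0
import Pool.Agent.Lib.MP_bcd198_co.G.Ext
import Pool.Agent.Lib.MP_bcd198_co.G.Lin

/-!
# MP_bcd198_co, stream G, file `Chain` (job G_Chain)

[5.3] CHAIN LEMMA.  Everything takes place in `D = Tri p q` acting on itself.
-/

set_option autoImplicit false

namespace MPbcd198.G

open Equiv

variable {p q : ℕ} {X : Type}

/-- [5.3] CHAIN LEMMA.  Let `ζ : D → ZMod 2` be finitely supported, invariant under `A` and `C`,
with `Σ_{i<q} ζ((CB)^i x) = 0` for every `x` (even degree at every vertex).  Then `ζ` is the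
boundary of a finite face set.

PROOF.  `N := (Tri p q → ZMod 2) ⧸ Bdry p q`, `e x := [edgeInd x] ∈ N`.  Conditions of
`ext_cocycle` for `selfHom p q`: `edgeInd (Ax) = edgeInd x = edgeInd (Cx)` and `-e = e`
(`N` is a `ZMod 2`-module); `Σ_{i<p} edgeInd((BA)^i x) (y) = 1_T(y) + 1_T(Cy)` with `T = ⟨A,B⟩ x`
(a finite face set): the flags `(BA)^i x`, `A (BA)^i x` (`i < p`) are the `2p` distinct elements of
`T`, so `#{i < p : y ∈ {(BA)^i x, A(BA)^i x}} = 1_T(y)` and
`#{i < p : Cy ∈ {(BA)^i x, A(BA)^i x}} = 1_T(Cy)`, and the four flags of an edge are distinct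
(freeness, `hmap`); so the sum lies in `Bdry`.
Hence there is `P : D → N` (`P g = c g 1`) with `P(Bg) = P(Cg) = P g`, `P(Ag) = P g + e g`.
CLAIM 1: for every finitely supported `ζ` invariant under `A` and `C`:
`[ζ] = Σ_{x ∈ supp ζ, sgn x = 1} P x`.  Strong induction on the size of the support: if `ζ ≠ 0`
choose `x` in the support with `sgn x = 1` (`A` changes the sign); `ζ' = ζ - edgeInd x` has support
`supp ζ \ {x, Ax, Cx, CAx}`, `[ζ] = [ζ'] + e x`, and the flags of positive sign in the edge are `x`
and `CAx`, with `P x + P(CAx) = P x + P(Ax) = e x` (in characteristic 2).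
CLAIM 2: `Σ_{x ∈ supp ζ, sgn x = 1} P x = 0`: it is `Σ_{x ∈ T'} ζ x • P x` where `T'` is the finite
set `{(CB)^i x : x ∈ supp ζ, sgn x = 1, i < q}`; apply `sum_orbits` with `r` = left
multiplication by `C B` (minimal periods `q`), the orbit sums are
`(Σ_{i<q} ζ((CB)^i x)) • P x = 0` since `P((CB)^i x) = P x`.
So `[ζ] = 0`, i.e. `ζ ∈ Bdry`. -/
theorem chain (hyp : Hyp p q) (hmap : IsMapHom (selfHom p q)) (ζ : Tri p q → ZMod 2)
    (hfin : {x | ζ x ≠ 0}.Finite) (hA : ∀ x, ζ (gen p q 0 * x) = ζ x)
    (hC : ∀ x, ζ (gen p q 2 * x) = ζ x)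
    (hdeg : ∀ x, ∑ i ∈ Finset.range q, ζ ((gen p q 2 * gen p q 1) ^ i * x) = 0) :
    ∃ T : Finset (Tri p q), FaceSet (selfHom p q) T ∧
      ∀ x, ζ x = ind T x + ind T (gen p q 2 * x) := by
  classical
  obtain ⟨c, hmul, hcA, hcB, hcC, hc1⟩ :=
    ext_cocycle (N := (Tri p q → ZMod 2) ⧸ Bdry p q) (selfHom p q)
      (fun x => (Bdry p q).mkQ (edgeInd x))
      (by
        intro x
        simp only [selfHom_apply]
        rw [edgeInd_A]
        exact (ZModModule.neg_eq_self _).symm)
      (by
        intro x
        simp only [selfHom_apply]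
        rw [edgeInd_C])
      (by
        intro x
        simp only [selfHom_apply]
        rw [← map_sum]
        rw [Submodule.mkQ_apply, Submodule.Quotient.mk_eq_zero]
        exact edge_face hyp hmap x)
  obtain ⟨P, hPdef⟩ : ∃ P : Tri p q → (Tri p q → ZMod 2) ⧸ Bdry p q, ∀ g, P g = c g 1 :=
    ⟨fun g => c g 1, fun _ => rfl⟩
  have hPB : ∀ g, P (gen p q 1 * g) = P g := by
    intro g
    rw [hPdef, hPdef, hmul, hcB, add_zero]
  have hPC : ∀ g, P (gen p q 2 * g) = P g := by
    intro g
    rw [hPdef, hPdef, hmul, hcC, add_zero]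
  have hPA : ∀ g, P (gen p q 0 * g) = P g + (Bdry p q).mkQ (edgeInd g) := by
    intro g
    rw [hPdef, hPdef, hmul, hcA]
    simp only [selfHom_apply, mul_one]
  have hPCB : ∀ (i : ℕ) g, P ((gen p q 2 * gen p q 1) ^ i * g) = P g := by
    intro i
    induction i with
    | zero => intro g; simp
    | succ i ih => intro g; rw [pow_succ', mul_assoc, mul_assoc, hPC, hPB, ih]
  have hAA : ∀ y : Tri p q, gen p q 0 * (gen p q 0 * y) = y := by
    intro y; rw [← mul_assoc, gen_sq, one_mul]
  have hCC : ∀ y : Tri p q, gen p q 2 * (gen p q 2 * y) = y := by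
    intro y; rw [← mul_assoc, gen_sq, one_mul]
  have hAC : ∀ y : Tri p q, gen p q 0 * (gen p q 2 * y) = gen p q 2 * (gen p q 0 * y) := by
    intro y; rw [← mul_assoc, ← mul_assoc, ac_comm]
  have hne : ∀ x : Tri p q, gen p q 2 * (gen p q 0 * x) ≠ x := by
    intro x hx
    have h1 := hmap.ac x
    have h2 : Function.minimalPeriod
        (⇑(selfHom p q (gen p q 0) * selfHom p q (gen p q 2))) x = 1 := by
      rw [Function.minimalPeriod_eq_one_iff_isFixedPt]
      change gen p q 0 * (gen p q 2 * x) = x
      rw [hAC, hx]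
    rw [h2] at h1
    exact absurd h1 (by norm_num)
  have hsA' : ∀ y : Tri p q, sgn p q (gen p q 0 * y) = - sgn p q y := by
    intro y; rw [map_mul, sgn_gen]; simp
  have hsC' : ∀ y : Tri p q, sgn p q (gen p q 2 * y) = - sgn p q y := by
    intro y; rw [map_mul, sgn_gen]; simp
  have hsB' : ∀ y : Tri p q, sgn p q (gen p q 1 * y) = - sgn p q y := by
    intro y; rw [map_mul, sgn_gen]; simp
  have hneg : (-1 : ℤˣ) ≠ 1 := by decide
  have claim1 : ∀ n, ∀ s : Finset (Tri p q), s.card = n → (∀ x ∈ s, gen p q 0 * x ∈ s) →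
      (∀ x ∈ s, gen p q 2 * x ∈ s) →
      (Bdry p q).mkQ (ind s) = ∑ x ∈ s.filter (fun x => sgn p q x = 1), P x := by
    intro n
    induction n using Nat.strong_induction_on with
    | _ n ih =>
      intro s hs hsA hsC
      rcases s.eq_empty_or_nonempty with rfl | ⟨x0, hx0⟩
      · have h0 : ind (∅ : Finset (Tri p q)) = 0 := by
          funext x; simp [ind]
        rw [h0]; simp
      · have hex : ∃ x ∈ s, sgn p q x = 1 := by
          rcases Int.units_eq_one_or (sgn p q x0) with h | h
          · exact ⟨x0, hx0, h⟩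
          · exact ⟨gen p q 0 * x0, hsA x0 hx0, by rw [hsA', h]; simp⟩
        obtain ⟨x, hx, hsx⟩ := hex
        obtain ⟨E, hE⟩ : ∃ E : Finset (Tri p q), ∀ y, y ∈ E ↔ (y = x ∨ y = gen p q 0 * x ∨
            y = gen p q 2 * x ∨ y = gen p q 2 * gen p q 0 * x) :=
          ⟨{x, gen p q 0 * x, gen p q 2 * x, gen p q 2 * gen p q 0 * x}, by
            intro y; simp only [Finset.mem_insert, Finset.mem_singleton]⟩
        have hEs : ∀ y ∈ E, y ∈ s := by
          intro y hy
          rw [hE] at hy
          rcases hy with rfl | rfl | rfl | rfl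
          · exact hx
          · exact hsA _ hx
          · exact hsC _ hx
          · rw [mul_assoc]; exact hsC _ (hsA _ hx)
        have hEA : ∀ y, gen p q 0 * y ∈ E → y ∈ E := by
          intro y hy
          rw [hE] at hy ⊢
          rcases hy with h | h | h | h
          · right; left; rw [← h, hAA]
          · left; exact mul_left_cancel h
          · right; right; right
            rw [mul_assoc, ← hAC, ← h, hAA]
          · right; right; left
            rw [mul_assoc, ← hAC] at h
            exact mul_left_cancel h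
        have hEC : ∀ y, gen p q 2 * y ∈ E → y ∈ E := by
          intro y hy
          rw [hE] at hy ⊢
          rcases hy with h | h | h | h
          · right; right; left; rw [← h, hCC]
          · right; right; right; rw [mul_assoc, ← h, hCC]
          · left; exact mul_left_cancel h
          · right; left
            rw [mul_assoc] at h
            exact mul_left_cancel h
        have hxE : x ∈ E := (hE x).2 (Or.inl rfl)
        have hlt : (s \ E).card < n := by
          rw [← hs]
          apply Finset.card_lt_card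
          refine ⟨Finset.sdiff_subset, fun hsub => ?_⟩
          exact (Finset.mem_sdiff.1 (hsub hx)).2 hxE
        have h1 := ih _ hlt (s \ E) rfl
          (by
            intro y hy
            rw [Finset.mem_sdiff] at hy ⊢
            exact ⟨hsA y hy.1, fun h => hy.2 (hEA y h)⟩)
          (by
            intro y hy
            rw [Finset.mem_sdiff] at hy ⊢
            exact ⟨hsC y hy.1, fun h => hy.2 (hEC y h)⟩)
        have h2 : ind s = ind (s \ E) + edgeInd x := by
          funext y
          rw [Pi.add_apply]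
          unfold ind edgeInd
          by_cases hy : y ∈ E
          · have hy1 := hEs y hy
            rw [if_pos hy1, if_neg (fun h => (Finset.mem_sdiff.1 h).2 hy), if_pos ((hE y).1 hy),
              zero_add]
          · rw [if_neg (fun h => hy ((hE y).2 h)), add_zero]
            by_cases hy1 : y ∈ s
            · rw [if_pos hy1, if_pos (Finset.mem_sdiff.2 ⟨hy1, hy⟩)]
            · rw [if_neg hy1, if_neg (fun h => hy1 (Finset.mem_sdiff.1 h).1)]
        have hsub : ({x, gen p q 2 * (gen p q 0 * x)} : Finset (Tri p q)) ⊆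
            s.filter (fun x => sgn p q x = 1) := by
          intro y hy
          rw [Finset.mem_insert, Finset.mem_singleton] at hy
          rw [Finset.mem_filter]
          rcases hy with rfl | rfl
          · exact ⟨hx, hsx⟩
          · refine ⟨hsC _ (hsA _ hx), ?_⟩
            rw [hsC', hsA', neg_neg, hsx]
        have h3 : s.filter (fun x => sgn p q x = 1) \
            ({x, gen p q 2 * (gen p q 0 * x)} : Finset (Tri p q)) =
            (s \ E).filter (fun x => sgn p q x = 1) := by
          ext y
          simp only [Finset.mem_sdiff, Finset.mem_filter, Finset.mem_insert,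
            Finset.mem_singleton, hE]
          constructor
          · rintro ⟨⟨h4, h5⟩, h6⟩
            refine ⟨⟨h4, ?_⟩, h5⟩
            rintro (h | h | h | h)
            · exact h6 (Or.inl h)
            · rw [h, hsA', hsx] at h5
              exact hneg h5
            · rw [h, hsC', hsx] at h5
              exact hneg h5
            · rw [mul_assoc] at h
              exact h6 (Or.inr h)
          · rintro ⟨⟨h4, h5⟩, h6⟩
            refine ⟨⟨h4, h6⟩, ?_⟩
            rintro (h | h)
            · exact h5 (Or.inl h)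
            · rw [← mul_assoc] at h
              exact h5 (Or.inr (Or.inr (Or.inr h)))
        rw [← Finset.sum_sdiff hsub, h3, ← h1, h2, map_add,
          Finset.sum_pair (fun h => hne x h.symm), hPC, hPA, ← add_assoc (P x), ZModModule.add_self,
          zero_add]
  have hs : ∀ x, x ∈ hfin.toFinset ↔ ζ x ≠ 0 := by
    intro x
    rw [Set.Finite.mem_toFinset]
    rfl
  have h01 : ∀ a : ZMod 2, a ≠ 0 → a = 1 := by decide
  have hζ : ζ = ind hfin.toFinset := by
    funext x
    unfold ind
    by_cases hx : ζ x ≠ 0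
    · rw [if_pos ((hs x).2 hx), h01 _ hx]
    · rw [if_neg (fun h => hx ((hs x).1 h))]
      exact not_not.1 hx
  have hc := claim1 _ hfin.toFinset rfl
    (by intro x hx; rw [hs] at hx ⊢; rw [hA]; exact hx)
    (by intro x hx; rw [hs] at hx ⊢; rw [hC]; exact hx)
  have hq : 0 < q := by have := hyp.hq; omega
  have claim2 : ∑ x ∈ hfin.toFinset.filter (fun x => sgn p q x = 1), P x = 0 := by
    obtain ⟨T, hT⟩ : ∃ T : Finset (Tri p q), ∀ y, y ∈ T ↔
        ∃ x, (x ∈ hfin.toFinset ∧ sgn p q x = 1) ∧ ∃ i, i < q ∧
          (gen p q 2 * gen p q 1) ^ i * x = y := by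
      refine ⟨(hfin.toFinset.filter (fun x => sgn p q x = 1)).biUnion fun x =>
        (Finset.range q).image fun i => (gen p q 2 * gen p q 1) ^ i * x, ?_⟩
      intro y
      simp only [Finset.mem_biUnion, Finset.mem_filter, Finset.mem_image, Finset.mem_range]
    have hsub : hfin.toFinset.filter (fun x => sgn p q x = 1) ⊆ T := by
      intro x hx
      rw [Finset.mem_filter] at hx
      rw [hT]
      exact ⟨x, hx, 0, hq, by simp⟩
    have hsT : ∀ y ∈ T, sgn p q y = 1 := by
      intro y hy
      rw [hT] at hy
      obtain ⟨x, ⟨_, hx⟩, i, _, rfl⟩ := hy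
      rw [map_mul, map_pow, map_mul, sgn_gen, sgn_gen, hx]
      simp
    have e1 : ∑ x ∈ hfin.toFinset.filter (fun x => sgn p q x = 1), P x =
        ∑ x ∈ T, ζ x • P x := by
      rw [← Finset.sum_subset hsub]
      · apply Finset.sum_congr rfl
        intro x hx
        rw [Finset.mem_filter, hs] at hx
        rw [h01 _ hx.1, one_smul]
      · intro y hy hy2
        have h5 : ζ y = 0 := by
          by_contra h6
          exact hy2 (Finset.mem_filter.2 ⟨(hs y).2 h6, hsT y hy⟩)
        rw [h5, zero_smul]
    rw [e1]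
    apply sum_orbits (selfHom p q (gen p q 2 * gen p q 1)) q hq T
    · intro y hy
      rw [hT] at hy ⊢
      obtain ⟨x, hx, i, hi, rfl⟩ := hy
      rw [selfHom_apply, ← mul_assoc, ← pow_succ']
      by_cases hi' : i + 1 < q
      · exact ⟨x, hx, i + 1, hi', rfl⟩
      · have : i + 1 = q := by omega
        exact ⟨x, hx, 0, hq, by rw [this, cb_pow]; simp⟩
    · intro y _
      exact minPer_cb hmap y
    · intro y _
      have e2 : ∀ i ∈ Finset.range q,
          ζ (((selfHom p q (gen p q 2 * gen p q 1)) ^ i) y) •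
            P (((selfHom p q (gen p q 2 * gen p q 1)) ^ i) y) =
          ζ ((gen p q 2 * gen p q 1) ^ i * y) • P y := by
        intro i _
        rw [← map_pow, selfHom_apply, hPCB]
      rw [Finset.sum_congr rfl e2, ← Finset.sum_smul, hdeg, zero_smul]
  rw [claim2, ← hζ, Submodule.mkQ_apply, Submodule.Quotient.mk_eq_zero] at hc
  exact hc

end MPbcd198.G
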