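import Pool.Agent.Lib.MP_bcd198_co.G.Fin3

/-!
# MP_bcd198_co, stream G, file `Chain0` (job G_Chain0)

Boundaries of finite face sets over `ZMod 2` (definitions and the face relation).
-/

set_option autoImplicit false

namespace MPbcd198.G

open Equiv

variable {p q : ℕ} {X : Type}

open Classical in
/-- indicator function of a finite set, with values in `ZMod 2` -/
noncomputable def ind {X : Type} (T : Finset X) : X → ZMod 2 := fun x => if x ∈ T then 1 else 0

open Classical in
/-- indicator of the edge `{x, Ax, Cx, CAx}` -/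
noncomputable def edgeInd (x : Tri p q) : Tri p q → ZMod 2 := fun y =>
  if y = x ∨ y = gen p q 0 * x ∨ y = gen p q 2 * x ∨ y = gen p q 2 * gen p q 0 * x then 1 else 0

private theorem chain0_face_symm {T₁ T₂ : Finset (Tri p q)} [DecidableEq (Tri p q)]
    (h1 : FaceSet (selfHom p q) T₁) (h2 : FaceSet (selfHom p q) T₂) :
    FaceSet (selfHom p q) (symmDiff T₁ T₂) := by
  intro x hx
  rw [Finset.mem_symmDiff] at hx
  rw [Finset.mem_symmDiff, Finset.mem_symmDiff, face_iff h1 (A_mem_fSub p q),
    face_iff h2 (A_mem_fSub p q), face_iff h1 (B_mem_fSub p q), face_iff h2 (B_mem_fSub p q)]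
  exact ⟨hx, hx⟩

private theorem chain0_ind_symm {X : Type} [DecidableEq X] (T₁ T₂ : Finset X) (x : X) :
    ind (symmDiff T₁ T₂) x = ind T₁ x + ind T₂ x := by
  unfold ind
  by_cases h1 : x ∈ T₁ <;> by_cases h2 : x ∈ T₂
  · rw [if_neg (by rw [Finset.mem_symmDiff]; tauto), if_pos h1, if_pos h2]
    decide
  · rw [if_pos (by rw [Finset.mem_symmDiff]; tauto), if_pos h1, if_neg h2, add_zero]
  · rw [if_pos (by rw [Finset.mem_symmDiff]; tauto), if_neg h1, if_pos h2, zero_add]
  · rw [if_neg (by rw [Finset.mem_symmDiff]; tauto), if_neg h1, if_neg h2, add_zero]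

/-- boundaries of finite face sets: the functions `x ↦ 1_T(x) + 1_T(Cx)` -/
def Bdry (p q : ℕ) : Submodule (ZMod 2) (Tri p q → ZMod 2) where
  carrier := {f | ∃ T : Finset (Tri p q), FaceSet (selfHom p q) T ∧
    ∀ x, f x = ind T x + ind T (gen p q 2 * x)}
  add_mem' := by
    classical
    rintro f g ⟨T₁, h1, e1⟩ ⟨T₂, h2, e2⟩
    refine ⟨symmDiff T₁ T₂, chain0_face_symm h1 h2, fun x => ?_⟩
    rw [Pi.add_apply, e1, e2, chain0_ind_symm, chain0_ind_symm]
    ring
  zero_mem' := by
    refine ⟨∅, fun x hx => absurd hx (Finset.notMem_empty x), fun x => ?_⟩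
    simp [ind]
  smul_mem' := by
    rintro c f ⟨T, h1, e1⟩
    have hc : c = 0 ∨ c = 1 := by
      revert c
      decide
    rcases hc with rfl | rfl
    · refine ⟨∅, fun x hx => absurd hx (Finset.notMem_empty x), fun x => ?_⟩
      simp [ind]
    · refine ⟨T, h1, fun x => ?_⟩
      rw [one_smul, e1]

/-- The edges of a face: `Σ_{i<p} edgeInd((BA)^i x) (y) = 1_T(y) + 1_T(Cy)` with `T = ⟨A,B⟩ x` (a
finite face set).  The flags `(BA)^i x`, `A (BA)^i x` (`i < p`) are the `2p` distinct elements of
`T` (`mem_fSub`, `dihedral_free`), so `#{i < p : y ∈ {(BA)^i x, A(BA)^i x}} = 1_T(y)` and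
`#{i < p : Cy ∈ {(BA)^i x, A(BA)^i x}} = 1_T(Cy)`; the four flags of an edge are distinct. -/
theorem edge_face (hyp : Hyp p q) (hmap : IsMapHom (selfHom p q)) (x : Tri p q) :
    (∑ i ∈ Finset.range p, edgeInd ((gen p q 1 * gen p q 0) ^ i * x)) ∈ Bdry p q := by
  classical
  have hp3 := hyp.hp
  have := finite_fSub hyp
  have hfin : {y : Tri p q | ∃ g ∈ fSub p q, y = g * x}.Finite := by
    apply (Set.finite_range (fun g : fSub p q => (g : Tri p q) * x)).subset
    rintro y ⟨g, hg, rfl⟩
    exact ⟨⟨g, hg⟩, rfl⟩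
  set T : Finset (Tri p q) := hfin.toFinset with hT
  have hmT : ∀ y, y ∈ T ↔ ∃ g ∈ fSub p q, y = g * x := by
    intro y
    rw [hT, Set.Finite.mem_toFinset]
    rfl
  set z : ℕ → Tri p q := fun i => (gen p q 1 * gen p q 0) ^ i * x with hz
  have hzT : ∀ y, y ∈ T ↔ ∃ i < p, y = z i ∨ y = gen p q 0 * z i := by
    intro y
    rw [hmT]
    constructor
    · rintro ⟨g, hg, rfl⟩
      obtain ⟨i, hi, h | h⟩ := mem_fSub (by omega : 0 < p) hg
      · exact ⟨i, hi, Or.inl (by rw [h])⟩
      · exact ⟨i, hi, Or.inr (by rw [h, hz, mul_assoc])⟩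
    · have hA := A_mem_fSub p q
      have hB := B_mem_fSub p q
      rintro ⟨i, _, rfl | rfl⟩
      · exact ⟨_, pow_mem (mul_mem hB hA) i, rfl⟩
      · exact ⟨_, mul_mem hA (pow_mem (mul_mem hB hA) i), by rw [hz, mul_assoc]⟩
  have hface : FaceSet (selfHom p q) T := by
    intro y hy
    obtain ⟨g, hg, rfl⟩ := (hmT y).1 hy
    rw [selfHom_apply, selfHom_apply, ← mul_assoc, ← mul_assoc]
    exact ⟨(hmT _).2 ⟨_, mul_mem (A_mem_fSub p q) hg, rfl⟩,
      (hmT _).2 ⟨_, mul_mem (B_mem_fSub p q) hg, rfl⟩⟩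
  -- distinctness
  have hper : ∀ x, Function.minimalPeriod
      (⇑(selfHom p q (gen p q 1) * selfHom p q (gen p q 0))) x = p :=
    fun x => minPer_swap _ _ p hmap.ab x
  have hd : ∀ i j, i < p → j < p → (z i = z j → i = j) ∧ z i ≠ gen p q 0 * z j := by
    intro i j hi hj
    have h1 := Fin3_inj hmap.pa hmap.pb hper hi hj x
    have e1 : ∀ k : ℕ, ((selfHom p q (gen p q 1) * selfHom p q (gen p q 0)) ^ k) x = z k := by
      intro k
      rw [← map_mul, ← map_pow, selfHom_apply]
    rw [Perm.mul_apply, e1, e1, selfHom_apply] at h1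
    exact h1
  have hA1 : ∀ y : Tri p q, gen p q 0 * y ≠ y := fun y => (hmap.pa y).1
  have hC1 : ∀ y : Tri p q, gen p q 2 * y ≠ y := fun y => (hmap.pc y).1
  have hCA1 : ∀ y : Tri p q, gen p q 2 * (gen p q 0 * y) ≠ y := by
    intro y h
    have h1 := free_e hmap (mul_mem (C_mem_eSub p q) (A_mem_eSub p q)) y
      (by rw [selfHom_apply, mul_assoc]; exact h)
    have h2 := dihedral_free _ _ 2 hmap.pa hmap.pc (fun x => minPer_swap _ _ 2 hmap.ac x) 1
      (by norm_num) y
    rw [pow_one] at h2
    exact absurd (h2.1 h) one_ne_zero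
  have hswap : ∀ y w : Tri p q, y = gen p q 2 * w ↔ gen p q 2 * y = w := by
    intro y w
    constructor
    · rintro rfl
      rw [← mul_assoc, gen_sq, one_mul]
    · rintro rfl
      rw [← mul_assoc, gen_sq, one_mul]
  -- one half of the indicator
  have hhalf : ∀ y : Tri p q, ∑ i ∈ Finset.range p,
      ((if y = z i then (1 : ZMod 2) else 0) + (if y = gen p q 0 * z i then 1 else 0)) =
        ind T y := by
    intro y
    unfold ind
    by_cases hy : y ∈ T
    · rw [if_pos hy]
      obtain ⟨i₀, hi₀, h⟩ := (hzT y).1 hy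
      rw [Finset.sum_eq_single i₀]
      · rcases h with h | h
        · rw [if_pos h, if_neg, add_zero]
          intro h'
          exact hA1 (z i₀) (h'.symm.trans h)
        · rw [if_neg, if_pos h, zero_add]
          intro h'
          exact hA1 (z i₀) (h.symm.trans h')
      · intro i hi hne
        rw [Finset.mem_range] at hi
        rw [if_neg, if_neg, add_zero]
        · intro h'
          rcases h with h | h
          · exact (hd i₀ i hi₀ hi).2 (h.symm.trans h')
          · exact hne ((hd i i₀ hi hi₀).1 (mul_left_cancel (h'.symm.trans h)))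
        · intro h'
          rcases h with h | h
          · exact hne ((hd i i₀ hi hi₀).1 (h'.symm.trans h))
          · exact (hd i i₀ hi hi₀).2 (h'.symm.trans h)
      · intro h'
        exact absurd (Finset.mem_range.2 hi₀) h'
    · rw [if_neg hy]
      apply Finset.sum_eq_zero
      intro i hi
      rw [Finset.mem_range] at hi
      rw [if_neg, if_neg, add_zero]
      · intro h
        exact hy ((hzT y).2 ⟨i, hi, Or.inr h⟩)
      · intro h
        exact hy ((hzT y).2 ⟨i, hi, Or.inl h⟩)
  have hedge : ∀ w y : Tri p q, edgeInd w y =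
      ((if y = w then (1 : ZMod 2) else 0) + (if y = gen p q 0 * w then 1 else 0)) +
      ((if gen p q 2 * y = w then (1 : ZMod 2) else 0) +
        (if gen p q 2 * y = gen p q 0 * w then 1 else 0)) := by
    intro w y
    unfold edgeInd
    rw [mul_assoc, hswap y w, hswap y (gen p q 0 * w)]
    by_cases h1 : y = w
    · have h2 : ¬ y = gen p q 0 * w := fun h => hA1 w (h.symm.trans h1)
      have h3 : ¬ gen p q 2 * y = w := fun h => hC1 w (by rw [h1] at h; exact h)
      have h4 : ¬ gen p q 2 * y = gen p q 0 * w := fun h => hCA1 w (by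
        rw [← h, ← mul_assoc, gen_sq, one_mul]; exact h1)
      rw [if_pos (Or.inl h1), if_pos h1, if_neg h2, if_neg h3, if_neg h4]
      decide
    · by_cases h2 : y = gen p q 0 * w
      · have h3 : ¬ gen p q 2 * y = w := fun h => hCA1 w (by rw [h2] at h; exact h)
        have h4 : ¬ gen p q 2 * y = gen p q 0 * w := fun h => hC1 y (h.trans h2.symm)
        rw [if_pos (Or.inr (Or.inl h2)), if_neg h1, if_pos h2, if_neg h3, if_neg h4]
        decide
      · by_cases h3 : gen p q 2 * y = w
        · have h4 : ¬ gen p q 2 * y = gen p q 0 * w := fun h => hA1 w (h.symm.trans h3)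
          rw [if_pos (Or.inr (Or.inr (Or.inl h3))), if_neg h1, if_neg h2, if_pos h3, if_neg h4]
          decide
        · by_cases h4 : gen p q 2 * y = gen p q 0 * w
          · rw [if_pos (Or.inr (Or.inr (Or.inr h4))), if_neg h1, if_neg h2, if_neg h3,
              if_pos h4]
            decide
          · rw [if_neg (by tauto), if_neg h1, if_neg h2, if_neg h3, if_neg h4]
            decide
  refine ⟨T, hface, fun y => ?_⟩
  rw [Finset.sum_apply, ← hhalf y, ← hhalf (gen p q 2 * y), ← Finset.sum_add_distrib]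
  exact Finset.sum_congr rfl fun i _ => hedge (z i) y

theorem edgeInd_A (x : Tri p q) : edgeInd (gen p q 0 * x) = edgeInd x := by
  funext y
  unfold edgeInd
  have h1 : gen p q 0 * (gen p q 0 * x) = x := by rw [← mul_assoc, gen_sq, one_mul]
  have h2 : gen p q 2 * gen p q 0 * (gen p q 0 * x) = gen p q 2 * x := by
    rw [mul_assoc, h1]
  rw [h1, h2, ← mul_assoc (gen p q 2) (gen p q 0) x]
  congr 1
  exact propext (by tauto)

theorem edgeInd_C (x : Tri p q) : edgeInd (gen p q 2 * x) = edgeInd x := by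
  funext y
  unfold edgeInd
  have h1 : gen p q 2 * (gen p q 2 * x) = x := by rw [← mul_assoc, gen_sq, one_mul]
  have h2 : gen p q 2 * gen p q 0 * (gen p q 2 * x) = gen p q 0 * x := by
    rw [← ac_comm, mul_assoc, h1]
  have h3 : gen p q 0 * (gen p q 2 * x) = gen p q 2 * gen p q 0 * x := by
    rw [← mul_assoc, ac_comm]
  rw [h1, h2, h3]
  congr 1
  exact propext (by tauto)

end MPbcd198.G
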