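import Pool.Agent.Lib.MP_bcd198_co.Types

/-!
# MP_bcd198_co, stream G, file `Dih` (job G_Dih)

General facts on two involutions.
-/

set_option autoImplicit false

namespace MPbcd198.G

open Equiv

variable {p q : ℕ} {X : Type}

private theorem dih_conj {G : Type} [Group G] {s t : G} (hs : s * s = 1) (ht : t * t = 1)
    (j : ℕ) : s * (t * s) ^ j = ((t * s) ^ j)⁻¹ * s := by
  have hs' : s⁻¹ = s := inv_eq_of_mul_eq_one_right hs
  have ht' : t⁻¹ = t := inv_eq_of_mul_eq_one_right ht
  have h1 : s * (t * s) * s⁻¹ = (t * s)⁻¹ := by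
    rw [mul_inv_rev, hs', ht', mul_assoc, mul_assoc, hs, mul_one]
  have h2 := conj_pow (a := s) (b := t * s) (i := j)
  rw [h1, inv_pow, eq_mul_inv_iff_mul_eq] at h2
  exact h2.symm

/-- GENERAL FACT.  In a group let `s, t` be involutions, `(s t)^n = 1`, `0 < n`.  Every element of
the closure of `{s,t}` is `(t s)^i` or `s (t s)^i` with `i < n`.  (The set of these elements
contains `1` and is closed under left multiplication by `s` (trivial) and by
`t`: `t (t s)^i = t (t s)(t s)^{i-1} = s (t s)^{i-1}` for `i ≥ 1`, `t = t (t s)^n = s (t s)^{n-1}`,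
`t s (t s)^i = (t s)^{i+1}`; conclude with `Subgroup.closure_induction_left`.) -/
theorem dihedral_forms {G : Type} [Group G] (s t : G) (n : ℕ) (hn : 0 < n) (hs : s * s = 1)
    (ht : t * t = 1) (hst : (t * s) ^ n = 1) (g : G) (hg : g ∈ Subgroup.closure {s, t}) :
    ∃ i < n, g = (t * s) ^ i ∨ g = s * (t * s) ^ i := by
  have hs' : s⁻¹ = s := inv_eq_of_mul_eq_one_right hs
  have ht' : t⁻¹ = t := inv_eq_of_mul_eq_one_right ht
  have hS : ∀ g : G, (∃ i < n, g = (t * s) ^ i ∨ g = s * (t * s) ^ i) →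
      ∃ i < n, s * g = (t * s) ^ i ∨ s * g = s * (t * s) ^ i := by
    rintro g ⟨i, hi, h | h⟩
    · exact ⟨i, hi, Or.inr (by rw [h])⟩
    · exact ⟨i, hi, Or.inl (by rw [h, ← mul_assoc, hs, one_mul])⟩
  have hT : ∀ g : G, (∃ i < n, g = (t * s) ^ i ∨ g = s * (t * s) ^ i) →
      ∃ i < n, t * g = (t * s) ^ i ∨ t * g = s * (t * s) ^ i := by
    rintro g ⟨i, hi, h | h⟩
    · rcases Nat.eq_zero_or_pos i with h0 | h0
      · refine ⟨n - 1, by omega, Or.inr ?_⟩
        have h1 : (t * s) * (t * s) ^ (n - 1) = 1 := by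
          rw [← pow_succ', Nat.sub_add_cancel hn, hst]
        rw [h, h0, pow_zero, mul_one]
        have h2 : t * ((t * s) * (t * s) ^ (n - 1)) = s * (t * s) ^ (n - 1) := by
          rw [← mul_assoc, ← mul_assoc, ht, one_mul]
        rw [h1, mul_one] at h2
        exact h2
      · refine ⟨i - 1, by omega, Or.inr ?_⟩
        obtain ⟨k, rfl⟩ : ∃ k, i = k + 1 := ⟨i - 1, by omega⟩
        rw [h, Nat.add_sub_cancel, pow_succ', ← mul_assoc, ← mul_assoc, ht, one_mul]
    · rcases Nat.lt_or_ge (i + 1) n with h0 | h0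
      · exact ⟨i + 1, h0, Or.inl (by rw [h, pow_succ', mul_assoc])⟩
      · refine ⟨0, hn, Or.inl ?_⟩
        have h1 : i + 1 = n := by omega
        rw [h, ← mul_assoc, ← pow_succ', h1, hst, pow_zero]
  induction hg using Subgroup.closure_induction_left with
  | one => exact ⟨0, hn, Or.inl (by rw [pow_zero])⟩
  | mul_left x hx y hy ih =>
    rcases hx with rfl | hx
    · exact hS y ih
    · rw [Set.mem_singleton_iff] at hx
      subst hx
      exact hT y ih
  | inv_mul_cancel x hx y hy ih =>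
    rcases hx with rfl | hx
    · rw [hs']
      exact hS y ih
    · rw [Set.mem_singleton_iff] at hx
      subst hx
      rw [ht']
      exact hT y ih

/-- GENERAL FACT.  `s, t` fixed point free involutions of `X`, minimal period of `t * s`
equal to `n` at every point, `0 < n`: the elements `(t s)^i` (`0 < i < n`) and `s (t s)^i`
(`i < n`) have no fixed point.  (`s (t s)^i` is conjugate to `s` or `t`: if `s (t s)^i x = x`
with `i = 2 j`, then `y = (t s)^j x` satisfies `s y = (t s)^{-j} s x`... concretely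
`(t s)^j x` is fixed by `s` because `s (t s)^j = (t s)^{-j} s`; if `i = 2 j + 1` then
`s (t s)^i = (t s)^{-(j+1)} t (t s)^j·…`, i.e. `s (t s)^{j+1} x` is fixed by `t`.) -/
theorem dihedral_free (s t : Perm X) (n : ℕ) (hs : IsPM s) (ht : IsPM t)
    (hst : ∀ x, Function.minimalPeriod (⇑(t * s)) x = n) (i : ℕ) (hi : i < n) (x : X) :
    (((t * s) ^ i) x = x → i = 0) ∧ (s * (t * s) ^ i) x ≠ x := by
  have hs2 : s * s = 1 := by
    ext y
    exact (hs y).2
  have ht2 : t * t = 1 := by
    ext y
    exact (ht y).2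
  constructor
  · intro h
    have h1 : Function.IsPeriodicPt (⇑(t * s)) i x := by
      rw [Function.IsPeriodicPt, Function.IsFixedPt, Perm.iterate_eq_pow]
      exact h
    have h2 := h1.minimalPeriod_dvd
    rw [hst x] at h2
    exact Nat.eq_zero_of_dvd_of_lt h2 hi
  · intro h
    rcases Nat.even_or_odd' i with ⟨j, hj | hj⟩
    · have h1 : s * (t * s) ^ i = ((t * s) ^ j)⁻¹ * s * (t * s) ^ j := by
        rw [hj, two_mul, pow_add, ← mul_assoc, dih_conj hs2 ht2]
      rw [h1, Perm.mul_apply, Perm.mul_apply, Perm.inv_eq_iff_eq] at h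
      exact (hs _).1 h
    · have h1 : s * (t * s) ^ i = (s * (t * s) ^ j)⁻¹ * t * (s * (t * s) ^ j) := by
        have hs' : s⁻¹ = s := inv_eq_of_mul_eq_one_right hs2
        rw [hj, mul_inv_rev, hs', ← dih_conj hs2 ht2, show 2 * j + 1 = j + 1 + j by ring, pow_add,
          pow_succ]
        simp only [mul_assoc]
      rw [h1, Perm.mul_apply, Perm.mul_apply, Perm.inv_eq_iff_eq] at h
      exact (ht _).1 h

/-- conjugate permutations have the same minimal periods: `s * t = s * (t * s) * s⁻¹` -/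
theorem minPer_swap (s t : Perm X) (n : ℕ)
    (h : ∀ x, Function.minimalPeriod (⇑(s * t)) x = n) (x : X) :
    Function.minimalPeriod (⇑(t * s)) x = n := by
  rw [← h (s x), Function.minimalPeriod_eq_minimalPeriod_iff]
  intro k
  have h1 : (t * s) ^ k = s⁻¹ * (s * t) ^ k * s := by
    have h2 := conj_pow (a := s⁻¹) (b := s * t) (i := k)
    rw [inv_inv] at h2
    rw [← h2]
    congr 1
    group
  rw [Function.IsPeriodicPt, Function.IsPeriodicPt, Function.IsFixedPt, Function.IsFixedPt,
    Perm.iterate_eq_pow, Perm.iterate_eq_pow, h1, Perm.mul_apply, Perm.mul_apply,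
    Perm.inv_eq_iff_eq]

end MPbcd198.G
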