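import Pool.Agent.Lib.MP_bcd198_co.G.FaceS

/-!
# MP_bcd198_co, stream G, file `DiscA` (job G_DiscA)

[5.4] first half: rank of the boundary map in the regular action.
-/

set_option autoImplicit false

namespace MPbcd198.G

open Equiv

variable {p q : ℕ} {X : Type}

theorem DiscA_CA_ne (hmap : IsMapHom (selfHom p q)) (x : Tri p q) :
    gen p q 2 * gen p q 0 * x ≠ x := by
  intro h
  have h1 := hmap.ac x
  have h2 : Function.IsPeriodicPt (⇑(selfHom p q (gen p q 0) * selfHom p q (gen p q 2))) 1 x := by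
    rw [Function.IsPeriodicPt, Function.iterate_one]
    show gen p q 0 * (gen p q 2 * x) = x
    rw [← mul_assoc, ac_comm, h]
  have h3 := h2.minimalPeriod_dvd
  rw [h1] at h3
  omega

theorem DiscA_sum_zero (hmap : IsMapHom (selfHom p q)) (S : Finset (Tri p q))
    (hS : FaceSet (selfHom p q) S) (ζ : Tri p q → ZMod 2) (hζ : ζ ∈ edgeF (selfHom p q) S) :
    ∑ x ∈ S.filter (fun x => sgn p q x = 1), ζ x = 0 := by
  classical
  obtain ⟨h0, hinv⟩ := (mem_InvF _ _ _).mp hζ
  have hCAe : gen p q 2 * gen p q 0 ∈ eSub p q := mul_mem (C_mem_eSub p q) (A_mem_eSub p q)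
  have h1 : ∑ x ∈ S.filter (fun x => sgn p q x = 1), ζ x =
      ∑ x ∈ (Sc (selfHom p q) S).filter (fun x => sgn p q x = 1), ζ x := by
    symm
    apply Finset.sum_subset
    · intro x hx
      rw [Finset.mem_filter] at hx ⊢
      exact ⟨Sc_subset _ S hx.1, hx.2⟩
    · intro x hx hx'
      rw [Finset.mem_filter] at hx hx'
      exact h0 x fun hc => hx' ⟨hc, hx.2⟩
  rw [h1]
  refine Finset.sum_involution (fun x _ => gen p q 2 * gen p q 0 * x) ?_ ?_ ?_ ?_
  · intro x _
    have h2 : ζ (gen p q 2 * gen p q 0 * x) = ζ x := hinv ⟨_, hCAe⟩ x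
    rw [h2]
    exact CharTwo.add_self_eq_zero _
  · intro x _ _
    exact DiscA_CA_ne hmap x
  · intro x hx
    rw [Finset.mem_filter] at hx ⊢
    refine ⟨(Sc_iff hS hCAe x).mpr hx.1, ?_⟩
    rw [map_mul, map_mul, sgn_gen, sgn_gen, hx.2]
    norm_num
  · intro x _
    show gen p q 2 * gen p q 0 * (gen p q 2 * gen p q 0 * x) = x
    rw [← mul_assoc]
    have h3 : gen p q 2 * gen p q 0 * (gen p q 2 * gen p q 0) = 1 := by
      rw [mul_assoc, ← mul_assoc (gen p q 0), ac_comm, mul_assoc (gen p q 2) (gen p q 0), gen_sq,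
        mul_one, gen_sq]
    rw [h3, one_mul]

theorem DiscA_orb {K : Type} [Group K] {Y : Type} (σ : K →* Perm Y) (k : K) (x : Y) :
    orbInd σ (σ k x) = orbInd σ x := by
  funext y
  have h : (∃ g, σ g (σ k x) = y) ↔ ∃ g, σ g x = y := by
    constructor
    · rintro ⟨g, hg⟩
      exact ⟨g * k, by rw [map_mul, Perm.mul_apply, hg]⟩
    · rintro ⟨g, hg⟩
      refine ⟨g * k⁻¹, ?_⟩
      rw [map_mul, Perm.mul_apply, ← Perm.mul_apply (σ k⁻¹) (σ k), ← map_mul, inv_mul_cancel,
        map_one, Perm.one_apply, hg]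
  have hv : ∀ z, orbInd σ z y = (open Classical in if ∃ g, σ g z = y then (1 : ZMod 2) else 0) :=
    fun z => rfl
  rw [hv, hv]
  by_cases h2 : ∃ g, σ g x = y
  · rw [if_pos (h.mpr h2), if_pos h2]
  · rw [if_neg (fun h3 => h2 (h.mp h3)), if_neg h2]

theorem DiscA_pos (hyp : Hyp p q) (hmap : IsMapHom (selfHom p q)) (S : Finset (Tri p q))
    (hS : FaceSet (selfHom p q) S) (ζ : Tri p q → ZMod 2) (hζ : ζ ∈ edgeF (selfHom p q) S)
    (x₀ : Tri p q) (hx₀ : x₀ ∈ S) (hsg : sgn p q x₀ = 1) :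
    faceSum (selfHom p q) ζ ≠ orbInd ((selfHom p q).comp (fSub p q).subtype) x₀ := by
  classical
  intro hcon
  have hp0 : 0 < p := by have := hyp.hp; omega
  have hzero := DiscA_sum_zero hmap S hS ζ hζ
  obtain ⟨R, hR⟩ : ∃ R, R = gen p q 1 * gen p q 0 := ⟨_, rfl⟩
  have hRf : R ∈ fSub p q := by rw [hR]; exact mul_mem (B_mem_fSub p q) (A_mem_fSub p q)
  have hRs : sgn p q R = 1 := by rw [hR, map_mul, sgn_gen, sgn_gen]; norm_num
  have hRp : R ^ p = 1 := by rw [hR, ba_pow]
  have hper : ∀ x, Function.minimalPeriod (⇑(selfHom p q R)) x = p := by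
    intro x
    rw [hR]
    exact minPer_ba hmap x
  have hpow : ∀ (i : ℕ) (x : Tri p q), ((selfHom p q R) ^ i) x = R ^ i * x := by
    intro i x
    rw [← map_pow]
    rfl
  obtain ⟨O, hO⟩ : ∃ O : Finset (Tri p q), O = (Finset.range p).image (fun i => R ^ i * x₀) := ⟨_, rfl⟩
  have hOS : O ⊆ S.filter (fun x => sgn p q x = 1) := by
    intro x hx
    rw [hO, Finset.mem_image] at hx
    obtain ⟨i, _, rfl⟩ := hx
    rw [Finset.mem_filter]
    refine ⟨face_closed hS (pow_mem hRf i) hx₀, ?_⟩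
    rw [map_mul, map_pow, hRs, one_pow, one_mul, hsg]
  have hOsum : ∑ x ∈ O, ζ x = 1 := by
    rw [hO, Finset.sum_image]
    · have h1 := congrFun hcon x₀
      have h2 : orbInd ((selfHom p q).comp (fSub p q).subtype) x₀ x₀ = 1 := by
        unfold orbInd
        rw [if_pos ⟨1, by rw [map_one]; rfl⟩]
      rw [h2] at h1
      rw [← h1, hR]
      rfl
    · intro i hi j hj hij
      rw [Finset.coe_range, Set.mem_Iio] at hi hj
      have h3 : (⇑(selfHom p q R))^[i] x₀ = (⇑(selfHom p q R))^[j] x₀ := by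
        rw [Perm.iterate_eq_pow, Perm.iterate_eq_pow, hpow, hpow]
        exact hij
      exact (Function.iterate_injOn_Iio_minimalPeriod (f := ⇑(selfHom p q R)) (x := x₀))
        (by rw [Set.mem_Iio, hper]; exact hi) (by rw [Set.mem_Iio, hper]; exact hj) h3
  have hT : ∑ x ∈ (S.filter (fun x => sgn p q x = 1)) \ O, ζ x = 0 := by
    refine sum_orbits (selfHom p q R) p hp0 _ ?_ (fun x _ => hper x) ζ ?_
    · intro x hx
      rw [Finset.mem_sdiff, Finset.mem_filter] at hx ⊢
      refine ⟨⟨face_closed hS hRf hx.1.1, ?_⟩, fun h => hx.2 ?_⟩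
      · show sgn p q (R * x) = 1
        rw [map_mul, hRs, hx.1.2, one_mul]
      · rw [hO, Finset.mem_image] at h ⊢
        obtain ⟨i, hi, hix⟩ := h
        rw [Finset.mem_range] at hi
        have hix' : R ^ i * x₀ = R * x := hix
        rcases Nat.eq_zero_or_pos i with h0 | h0
        · refine ⟨p - 1, Finset.mem_range.mpr (by omega), ?_⟩
          rw [h0, pow_zero, one_mul] at hix'
          rw [hix', ← mul_assoc, ← pow_succ, Nat.sub_add_cancel (by omega), hRp, one_mul]
        · refine ⟨i - 1, Finset.mem_range.mpr (by omega), ?_⟩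
          have h4 : R * (R ^ (i - 1) * x₀) = R * x := by
            rw [← mul_assoc, ← pow_succ', Nat.sub_add_cancel h0, hix']
          exact mul_left_cancel h4
    · intro x hx
      rw [Finset.mem_sdiff, Finset.mem_filter] at hx
      have h1 := congrFun hcon x
      have h2 : orbInd ((selfHom p q).comp (fSub p q).subtype) x₀ x = 0 := by
        unfold orbInd
        rw [if_neg]
        rintro ⟨⟨g, hg⟩, hgx⟩
        have hgx' : g * x₀ = x := hgx
        obtain ⟨i, hi, h3 | h3⟩ := mem_fSub hp0 hg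
        · apply hx.2
          rw [hO, Finset.mem_image]
          exact ⟨i, Finset.mem_range.mpr hi, by rw [hR, ← h3, hgx']⟩
        · have h4 := hx.1.2
          rw [← hgx', h3, ← hR, map_mul, map_mul, map_pow, hRs, sgn_gen, hsg, one_pow, mul_one,
            mul_one] at h4
          exact absurd h4 (by decide)
      rw [h2] at h1
      rw [← h1]
      refine Finset.sum_congr rfl fun i _ => ?_
      rw [hpow, hR]
      rfl
  have hfin := Finset.sum_sdiff (f := ζ) hOS
  rw [hT, hOsum, hzero, zero_add] at hfin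
  exact one_ne_zero hfin

/-- In the regular action, `∂ζ` is never the indicator function of exactly one face of `S`.

PROOF.  Suppose `∂ζ = orbInd x₀`, `x₀ ∈ S`; replacing `x₀` by `A x₀` we may suppose
`sgn x₀ = 1`.  `S⁺ = {x ∈ S : sgn x = 1}`.  (a) `Σ_{x ∈ S⁺} ζ x = 0`: involution
`x ↦ C A x` on `S⁺ ∩ S_c` (no fixed points, `ζ(CAx) = ζ x`), `ζ = 0` outside `S_c`
(`Finset.sum_involution`).  (b) The positive flags of the face of `x₀` are `(BA)^i x₀`, `i < p`, with
sum `(∂ζ)(x₀) = 1`; on the remaining positive flags apply `sum_orbits` (`r` = left multiplication by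
`B A`, minimal period `p`, orbit sums `(∂ζ)(x) = 0`): the sum over the rest is zero.  So
`Σ_{x∈S⁺} ζ x = 1`, contradiction. -/
theorem faceSum_ne (hyp : Hyp p q) (hmap : IsMapHom (selfHom p q)) (S : Finset (Tri p q))
    (hS : FaceSet (selfHom p q) S) (ζ : Tri p q → ZMod 2) (hζ : ζ ∈ edgeF (selfHom p q) S)
    (x₀ : Tri p q) (hx₀ : x₀ ∈ S) :
    faceSum (selfHom p q) ζ ≠ orbInd ((selfHom p q).comp (fSub p q).subtype) x₀ := by
  rcases Int.units_eq_one_or (sgn p q x₀) with h | h
  · exact DiscA_pos hyp hmap S hS ζ hζ x₀ hx₀ h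
  · have h1 := DiscA_orb ((selfHom p q).comp (fSub p q).subtype) ⟨gen p q 0, A_mem_fSub p q⟩ x₀
    rw [← h1]
    refine DiscA_pos hyp hmap S hS ζ hζ _ (hS x₀ hx₀).1 ?_
    show sgn p q (gen p q 0 * x₀) = 1
    rw [map_mul, sgn_gen, h]
    norm_num

/-- `dim ker ∂ ≥ E - (F - 1)`: `∂` maps `edgeF` (dimension `E`) into a PROPER submodule of `faceF`
(dimension `F`) by `faceSum_ne` (and `orbInd_mem`), so its rank is `< F`; rank-nullity.
(Restrict `faceSum` to a linear map `edgeF → faceF`, its kernel is isomorphic to `cycF`.) -/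
theorem cyc_ge (hyp : Hyp p q) (hmap : IsMapHom (selfHom p q)) (S : Finset (Tri p q))
    (hS : FaceSet (selfHom p q) S) (hne : S.Nonempty) (F E : ℕ) (hF : S.card = 2 * p * F)
    (hE : (Sc (selfHom p q) S).card = 4 * E) :
    E + 1 ≤ Module.finrank (ZMod 2) (cycF (selfHom p q) S) + F := by
  obtain ⟨x₀, hx₀⟩ := hne
  have hfe : Module.Finite (ZMod 2) (edgeF (selfHom p q) S) := finite_InvF _ _
  have hff : Module.Finite (ZMod 2) (faceF (selfHom p q) S) := finite_InvF _ _
  have hE' := finrank_edgeF hyp hmap S hS E hE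
  have hF' := finrank_faceF hyp hmap S hS F hF
  let Lm : edgeF (selfHom p q) S →ₗ[ZMod 2] faceF (selfHom p q) S :=
    (faceSum (selfHom p q)).restrict (faceSum_mem hyp S hS)
  have hrange : LinearMap.range Lm ≠ ⊤ := by
    intro htop
    have h1 : (⟨_, orbInd_mem ((selfHom p q).comp (fSub p q).subtype) S
        (fun g x hx => face_closed hS g.2 hx) x₀ hx₀⟩ : faceF (selfHom p q) S) ∈
        LinearMap.range Lm := by rw [htop]; trivial
    obtain ⟨⟨ζ, hζ⟩, h2⟩ := h1
    exact faceSum_ne hyp hmap S hS ζ hζ x₀ hx₀ (congrArg Subtype.val h2)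
  have h1 := Submodule.finrank_lt hrange
  have h2 := LinearMap.finrank_range_add_finrank_ker Lm
  have h3 : Module.finrank (ZMod 2) (cycF (selfHom p q) S) =
      Module.finrank (ZMod 2) (LinearMap.ker Lm) := by
    have h4 : cycF (selfHom p q) S = (LinearMap.ker Lm).map (edgeF (selfHom p q) S).subtype := by
      ext ζ
      rw [Submodule.mem_map]
      constructor
      · rintro ⟨h5, h6⟩
        exact ⟨⟨ζ, h5⟩, Subtype.ext h6, rfl⟩
      · rintro ⟨⟨ζ', h5⟩, h6, rfl⟩
        exact ⟨h5, congrArg Subtype.val h6⟩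
    rw [h4]
    exact Submodule.finrank_map_subtype_eq _ _
  rw [h3]
  omega

end MPbcd198.G
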