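import Pool.Agent.Lib.MP_bcd198_co.G.Fin3
import Pool.Agent.Lib.MP_bcd198_co.G.Lin

/-!
# MP_bcd198_co, stream G, file `Euler` (job G_Euler)

[5.1] Euler characteristic and counting, in a general action `ρ`.
-/

set_option autoImplicit false

namespace MPbcd198.G

open Equiv

variable {p q : ℕ} {X : Type}

/-- `(p-2)(q-2) > 4` (natural subtraction, `p,q ≥ 3`) gives `pq - 2p - 2q > 0` and
`kap = (pq - 2p - 2q)/(2pq)` -/
theorem kap_pos (hyp : Hyp p q) : 0 < kap p q := by
  have hp := hyp.hp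
  have hq := hyp.hq
  have hk := hyp.hk
  obtain ⟨a, rfl⟩ : ∃ a, p = a + 2 := ⟨p - 2, by omega⟩
  obtain ⟨b, rfl⟩ : ∃ b, q = b + 2 := ⟨q - 2, by omega⟩
  simp only [Nat.add_sub_cancel] at hk
  have hkR : (4 : ℝ) < (a : ℝ) * b := by exact_mod_cast hk
  have ha : (0 : ℝ) ≤ a := Nat.cast_nonneg a
  have hb : (0 : ℝ) ≤ b := Nat.cast_nonneg b
  unfold kap
  push_cast
  have h1 : (0 : ℝ) < (a : ℝ) + 2 := by linarith
  have h2 : (0 : ℝ) < (b : ℝ) + 2 := by linarith
  have h3 : (1 : ℝ) / 2 - 1 / ((a : ℝ) + 2) - 1 / ((b : ℝ) + 2) =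
      ((a : ℝ) * b - 4) / (2 * ((a : ℝ) + 2) * ((b : ℝ) + 2)) := by
    field_simp
    ring
  rw [h3]
  apply div_pos
  · linarith
  · positivity

theorem card_Sc_add_bd (ρ : Tri p q →* Perm X) (S : Finset X) :
    (Sc ρ S).card + (bd ρ S).card = S.card := by
  classical
  unfold Sc bd
  exact Finset.card_filter_add_card_filter_not _

/-- `bd S` and `Sv S` are disjoint subsets of `S` -/
theorem card_Sv_le (ρ : Tri p q →* Perm X) (S : Finset X) :
    (Sv ρ S).card + (bd ρ S).card ≤ S.card := by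
  classical
  have h1 : Disjoint (Sv ρ S) (bd ρ S) := by
    rw [Finset.disjoint_left]
    intro x hx hx'
    unfold Sv at hx
    unfold bd at hx'
    rw [Finset.mem_filter] at hx hx'
    exact hx'.2 (hx.2 _ (C_mem_vSub p q))
  rw [← Finset.card_union_of_disjoint h1]
  apply Finset.card_le_card
  intro x hx
  rw [Finset.mem_union] at hx
  rcases hx with hx | hx
  · unfold Sv at hx
    exact (Finset.mem_filter.1 hx).1
  · unfold bd at hx
    exact (Finset.mem_filter.1 hx).1

/-- [5.1]: `chiInt = |S|/2p - (|S|-|bd|)/4 + |Sv|/2q ≤ -kap|S|/2 + |bd|/4 - |bd|/2q` -/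
theorem euler_le (hyp : Hyp p q) (ρ : Tri p q →* Perm X) (S : Finset X) :
    kap p q * S.card / 2 ≤ (bd ρ S).card * (1 / 4 - 1 / (2 * q)) - chiInt ρ S := by
  have h1 := card_Sc_add_bd ρ S
  have h2 := card_Sv_le ρ S
  have h1' : ((Sc ρ S).card : ℝ) + (bd ρ S).card = S.card := by exact_mod_cast h1
  have h2' : ((Sv ρ S).card : ℝ) + (bd ρ S).card ≤ S.card := by exact_mod_cast h2
  have hq : (0 : ℝ) < q := by
    have := hyp.hq
    have h3 : 0 < q := by omega
    exact_mod_cast h3
  have hp : (0 : ℝ) < p := by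
    have := hyp.hp
    have h3 : 0 < p := by omega
    exact_mod_cast h3
  unfold chiInt kap
  have h3 : ((Sv ρ S).card : ℝ) / (2 * q) ≤ ((S.card : ℝ) - (bd ρ S).card) / (2 * q) := by
    apply div_le_div_of_nonneg_right _ (by positivity)
    linarith
  have h4 : ((Sc ρ S).card : ℝ) = S.card - (bd ρ S).card := by linarith
  rw [h4]
  have h5 : (1 / 2 - 1 / (p : ℝ) - 1 / q) * (S.card : ℝ) / 2 =
      ((bd ρ S).card : ℝ) * (1 / 4 - 1 / (2 * q)) - ((S.card : ℝ) / (2 * p) -
        ((S.card : ℝ) - (bd ρ S).card) / 4 + ((S.card : ℝ) - (bd ρ S).card) / (2 * q)) := by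
    field_simp
    ring
  rw [h5]
  linarith

/-- integrality: `2p ∣ |S|`, `4 ∣ |Sc|`, `2q ∣ |Sv|` by `free_card_dvd` for the actions of
`fSub, eSub, vSub` (homomorphism `ρ.comp (fSub p q).subtype`, etc.) and `card_fSub` ...; if `X` is
empty everything is zero -/
theorem counts (hyp : Hyp p q) {ρ : Tri p q →* Perm X} (hρ : IsMapHom ρ) (S : Finset X)
    (hS : FaceSet ρ S) : ∃ F E V : ℕ, S.card = 2 * p * F ∧ (Sc ρ S).card = 4 * E ∧
      (Sv ρ S).card = 2 * q * V ∧ chiInt ρ S = (F : ℝ) - E + V := by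
  classical
  have hp : (0 : ℝ) < p := by
    have := hyp.hp
    have h3 : 0 < p := by omega
    exact_mod_cast h3
  have hq : (0 : ℝ) < q := by
    have := hyp.hq
    have h3 : 0 < q := by omega
    exact_mod_cast h3
  rcases isEmpty_or_nonempty X with hX | ⟨⟨x0⟩⟩
  · have h0 : ∀ T : Finset X, T.card = 0 := by
      intro T
      rw [Finset.card_eq_zero]
      exact Finset.eq_empty_of_isEmpty T
    refine ⟨0, 0, 0, by simp [h0], by simp [h0], by simp [h0], ?_⟩
    unfold chiInt
    simp [h0]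
  · have := finite_fSub hyp
    have := finite_vSub hyp
    have := finite_eSub p q
    obtain ⟨F, hF⟩ : 2 * p ∣ S.card := by
      rw [← card_fSub hyp hρ x0]
      apply free_card_dvd (ρ.comp (fSub p q).subtype) S
      · intro g x hx
        exact face_closed hS g.2 hx
      · intro g x _ hgx
        exact Subtype.ext (free_f hyp hρ g.2 x hgx)
    obtain ⟨E, hE⟩ : 4 ∣ (Sc ρ S).card := by
      rw [← card_eSub hρ x0]
      apply free_card_dvd (ρ.comp (eSub p q).subtype) (Sc ρ S)
      · intro g x hx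
        exact (Sc_iff hS g.2 x).2 hx
      · intro g x _ hgx
        exact Subtype.ext (free_e hρ g.2 x hgx)
    obtain ⟨V, hV⟩ : 2 * q ∣ (Sv ρ S).card := by
      rw [← card_vSub hyp hρ x0]
      apply free_card_dvd (ρ.comp (vSub p q).subtype) (Sv ρ S)
      · intro g x hx
        exact (Sv_iff g.2 x).2 hx
      · intro g x _ hgx
        exact Subtype.ext (free_v hyp hρ g.2 x hgx)
    refine ⟨F, E, V, hF, hE, hV, ?_⟩
    unfold chiInt
    rw [hF, hE, hV]
    push_cast
    field_simp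

/-- `|bd S|` is even: `A` is a fixed point free involution of `bd S` -/
theorem bd_even {ρ : Tri p q →* Perm X} (hρ : IsMapHom ρ) (S : Finset X)
    (hS : FaceSet ρ S) : 2 ∣ (bd ρ S).card := by
  classical
  have hcl : ∀ x ∈ bd ρ S, ρ (gen p q 0) x ∈ bd ρ S := by
    intro x hx
    unfold bd at hx ⊢
    rw [Finset.mem_filter] at hx ⊢
    refine ⟨(hS x hx.1).1, fun h => hx.2 ?_⟩
    rw [← act_ac] at h
    have h1 := (hS _ h).1
    rw [act_gen_gen] at h1
    exact h1
  have hinv : ∀ x, ρ (gen p q 0) (ρ (gen p q 0) x) = x := act_gen_gen ρ 0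
  have hne : ∀ x, ρ (gen p q 0) x ≠ x := fun x => (hρ.pa x).1
  have h2 : (2 : ZMod 2) = 0 := by decide
  have key : ((bd ρ S).card : ZMod 2) = 0 := by
    rw [Finset.card_eq_sum_ones, Nat.cast_sum]
    apply Finset.sum_involution (fun x _ => ρ (gen p q 0) x)
    · intro x _
      norm_num
      exact h2
    · intro x _ _
      exact hne x
    · intro x hx
      exact hcl x hx
    · intro x _
      exact hinv x
  exact (ZMod.natCast_eq_zero_iff _ _).1 key

end MPbcd198.G
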