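import Pool.Agent.Lib.MP_bcd198_co.G.DiscA
import Pool.Agent.Lib.MP_bcd198_co.G.Ext
import Pool.Agent.Lib.MP_bcd198_co.G.Euler
import Pool.Agent.Lib.MP_bcd198_co.G.Walk

/-!
# MP_bcd198_co, stream G, file `DiscB` (job G_DiscB)

[5.4] the disc lemma.
-/

set_option autoImplicit false

namespace MPbcd198.G

open Equiv

variable {p q : ℕ} {X : Type}

/-- functions on the vertices (invariant under `B`, `C`) whose coboundary is supported on `S_c` -/
def potF (S : Finset (Tri p q)) : Submodule (ZMod 2) (Tri p q → ZMod 2) where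
  carrier := {φ | (∀ x, φ (gen p q 1 * x) = φ x) ∧ (∀ x, φ (gen p q 2 * x) = φ x) ∧
    ∀ x, x ∉ Sc (selfHom p q) S → φ (gen p q 0 * x) = φ x}
  add_mem' := by
    rintro f g ⟨h1, h2, h3⟩ ⟨k1, k2, k3⟩
    exact ⟨fun x => by simp [h1 x, k1 x], fun x => by simp [h2 x, k2 x],
      fun x hx => by simp [h3 x hx, k3 x hx]⟩
  zero_mem' := ⟨fun _ => rfl, fun _ => rfl, fun _ _ => rfl⟩
  smul_mem' := by
    rintro c f ⟨h1, h2, h3⟩
    exact ⟨fun x => by simp [h1 x], fun x => by simp [h2 x], fun x hx => by simp [h3 x hx]⟩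

/-- coboundary `(δφ)(x) = φ(Ax) + φ(x)` -/
def cobd (p q : ℕ) : (Tri p q → ZMod 2) →ₗ[ZMod 2] (Tri p q → ZMod 2) where
  toFun φ x := φ (gen p q 0 * x) + φ x
  map_add' f g := by ext x; simp only [Pi.add_apply]; ring
  map_smul' c f := by ext x; simp only [Pi.smul_apply, smul_eq_mul, RingHom.id_apply]; ring

/-- Every cycle is the coboundary of a potential: `cocycle` (the face sums of `ζ` vanish: for
faces of `S` by definition of `cycF`, `faceSum ρ ζ = 0` at every flag). -/
theorem cyc_le_cobd (S : Finset (Tri p q)) (hS : FaceSet (selfHom p q) S) :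
    cycF (selfHom p q) S ≤ (potF S).map (cobd p q) := by
  rintro ζ ⟨h1, h2⟩
  obtain ⟨h0, hinv⟩ := (mem_InvF _ _ _).mp h1
  obtain ⟨φ, hB, hC, hA⟩ := cocycle ζ (fun x => hinv ⟨gen p q 0, A_mem_eSub p q⟩ x)
    (fun x => hinv ⟨gen p q 2, C_mem_eSub p q⟩ x) (fun x => congrFun h2 x)
  refine ⟨φ, ⟨hB, hC, fun x hx => ?_⟩, ?_⟩
  · rw [hA, h0 x hx, add_zero]
  · funext x
    show φ (gen p q 0 * x) + φ x = ζ x
    rw [hA, add_right_comm, CharTwo.add_self_eq_zero, zero_add]

theorem DiscB_vinv {S : Finset (Tri p q)} {φ : Tri p q → ZMod 2} (hφ : φ ∈ potF S) {g : Tri p q}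
    (hg : g ∈ vSub p q) : ∀ x, φ (g * x) = φ x := by
  obtain ⟨hB, hC, -⟩ := hφ
  unfold vSub at hg
  induction hg using Subgroup.closure_induction with
  | mem y hy =>
    simp only [Set.mem_insert_iff, Set.mem_singleton_iff] at hy
    rcases hy with rfl | rfl
    · exact hB
    · exact hC
  | one => intro x; rw [one_mul]
  | mul a b _ _ ha hb => intro x; rw [mul_assoc, ha, hb]
  | inv a _ ha =>
    intro x
    have h1 := ha (a⁻¹ * x)
    rw [mul_inv_cancel_left] at h1
    exact h1.symm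

theorem DiscB_join {S : Finset (Tri p q)} {φ : Tri p q → ZMod 2} (hφ : φ ∈ potF S)
    {x y : Tri p q} (h : VJoin (selfHom p q) S x y) : φ y = φ x := by
  obtain ⟨hB, hC, hA⟩ := hφ
  induction h with
  | refl => rfl
  | tail _ hs ih =>
    rw [← ih]
    rcases hs with rfl | rfl | ⟨rfl, hx⟩
    · exact hB _
    · exact hC _
    · exact hA _ hx

open Classical in
/-- the linear map of the proof -/
noncomputable def DiscB_map (S R : Finset (Tri p q)) :
    potF S →ₗ[ZMod 2] vertF (selfHom p q) S × (R → ZMod 2) where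
  toFun φ := (⟨fun x => if x ∈ Sv (selfHom p q) S then φ.1 x else 0,
    (mem_InvF _ _ _).mpr ⟨fun x hx => if_neg hx, fun g x => by
      have h1 : ((selfHom p q).comp (vSub p q).subtype) g x = g.1 * x := rfl
      have h2 : g.1 * x ∈ Sv (selfHom p q) S ↔ x ∈ Sv (selfHom p q) S := Sv_iff g.2 x
      rw [h1, DiscB_vinv φ.2 g.2]
      simp only [h2]⟩⟩, fun r => φ.1 r.1)
  map_add' φ ψ := by
    refine Prod.ext (Subtype.ext (funext fun x => ?_)) rfl
    show (if x ∈ Sv (selfHom p q) S then φ.1 x + ψ.1 x else 0) =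
      (if x ∈ Sv (selfHom p q) S then φ.1 x else 0) + (if x ∈ Sv (selfHom p q) S then ψ.1 x else 0)
    split_ifs <;> simp
  map_smul' c φ := by
    refine Prod.ext (Subtype.ext (funext fun x => ?_)) rfl
    show (if x ∈ Sv (selfHom p q) S then c * φ.1 x else 0) =
      c * (if x ∈ Sv (selfHom p q) S then φ.1 x else 0)
    split_ifs <;> simp

/-- If every flag outside `S_v` is joined to the finite set `R` then
`dim potF ≤ V + |R|` (and `potF` is finite dimensional): the linear map
`φ ↦ (φ · 1_{S_v}, φ|_R)`, `potF → vertF × (R → ZMod 2)`, is injective, because `φ` is constant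
along the steps `VStep`. -/
theorem potF_le (hyp : Hyp p q) (hmap : IsMapHom (selfHom p q)) (S : Finset (Tri p q))
    (hS : FaceSet (selfHom p q) S) (R : Finset (Tri p q))
    (hR : ∀ x, x ∉ Sv (selfHom p q) S → ∃ r ∈ R, VJoin (selfHom p q) S x r) (V : ℕ)
    (hV : (Sv (selfHom p q) S).card = 2 * q * V) :
    Module.Finite (ZMod 2) (potF S) ∧ Module.finrank (ZMod 2) (potF S) ≤ V + R.card := by
  classical
  have hfv : Module.Finite (ZMod 2) (vertF (selfHom p q) S) := finite_InvF _ _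
  have hinj : Function.Injective (DiscB_map S R) := by
    rw [← LinearMap.ker_eq_bot, LinearMap.ker_eq_bot']
    intro φ h
    have h1 : ∀ x ∈ Sv (selfHom p q) S, φ.1 x = 0 := by
      intro x hx
      have h2 := congrFun (congrArg Subtype.val (congrArg Prod.fst h)) x
      have h3 : (if x ∈ Sv (selfHom p q) S then φ.1 x else 0) = 0 := h2
      rwa [if_pos hx] at h3
    have h2 : ∀ r ∈ R, φ.1 r = 0 := by
      intro r hr
      exact congrFun (congrArg Prod.snd h) ⟨r, hr⟩
    apply Subtype.ext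
    funext x
    by_cases hx : x ∈ Sv (selfHom p q) S
    · exact h1 x hx
    · obtain ⟨r, hr, hj⟩ := hR x hx
      have h3 := DiscB_join φ.2 hj
      rw [h2 r hr] at h3
      exact h3.symm
  have hfin : Module.Finite (ZMod 2) (potF S) := Module.Finite.of_injective _ hinj
  refine ⟨hfin, ?_⟩
  have h1 := LinearMap.finrank_le_finrank_of_injective hinj
  rw [Module.finrank_prod, finrank_vertF hyp hmap S V hV, Module.finrank_fintype_fun_eq_card,
    Fintype.card_coe] at h1
  exact h1

/-- [5.4] DISC LEMMA, integer form.  The constant function `1` is a nonzero element of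
`potF ∩ ker δ`, so `dim (δ potF) ≤ V + |R| - 1`; `cycF ≤ δ potF` and `cyc_ge`. -/
theorem disc_nat (hyp : Hyp p q) (hmap : IsMapHom (selfHom p q)) (S : Finset (Tri p q))
    (hS : FaceSet (selfHom p q) S) (hne : S.Nonempty) (R : Finset (Tri p q))
    (hR : ∀ x, x ∉ Sv (selfHom p q) S → ∃ r ∈ R, VJoin (selfHom p q) S x r) (F E V : ℕ)
    (hF : S.card = 2 * p * F) (hE : (Sc (selfHom p q) S).card = 4 * E)
    (hV : (Sv (selfHom p q) S).card = 2 * q * V) : E + 2 ≤ F + V + R.card := by
  obtain ⟨hfin, hle⟩ := potF_le hyp hmap S hS R hR V hV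
  let δ : potF S →ₗ[ZMod 2] (Tri p q → ZMod 2) := (cobd p q).comp (potF S).subtype
  have h1 := LinearMap.finrank_range_add_finrank_ker δ
  have hone : (fun _ : Tri p q => (1 : ZMod 2)) ∈ potF S :=
    ⟨fun _ => rfl, fun _ => rfl, fun _ _ => rfl⟩
  have h2 : 0 < Module.finrank (ZMod 2) (LinearMap.ker δ) := by
    rw [Module.finrank_pos_iff]
    refine ⟨⟨⟨⟨_, hone⟩, ?_⟩, 0, fun h => ?_⟩⟩
    · rw [LinearMap.mem_ker]
      funext x
      exact CharTwo.add_self_eq_zero (1 : ZMod 2)
    · have h3 : (fun _ : Tri p q => (1 : ZMod 2)) = 0 := congrArg (fun z => z.1.1) h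
      exact one_ne_zero (congrFun h3 1)
  have h3 : LinearMap.range δ = (potF S).map (cobd p q) := by
    rw [LinearMap.range_comp, Submodule.range_subtype]
  have h4 : Module.finrank (ZMod 2) (cycF (selfHom p q) S) ≤
      Module.finrank (ZMod 2) (LinearMap.range δ) := by
    rw [h3]
    have : Module.Finite (ZMod 2) ((potF S).map (cobd p q)) := Module.Finite.map _ _
    exact Submodule.finrank_mono (cyc_le_cobd S hS)
  have h5 := cyc_ge hyp hmap S hS hne F E hF hE
  omega

/-- [5.4] DISC LEMMA: from `disc_nat` and `counts` -/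
theorem disc (hyp : Hyp p q) (hmap : IsMapHom (selfHom p q)) (S : Finset (Tri p q))
    (hS : FaceSet (selfHom p q) S) (hne : S.Nonempty) (R : Finset (Tri p q))
    (hR : ∀ x, x ∉ Sv (selfHom p q) S → ∃ r ∈ R, VJoin (selfHom p q) S x r) :
    2 - (R.card : ℝ) ≤ chiInt (selfHom p q) S := by
  obtain ⟨F, E, V, hF, hE, hV, hchi⟩ := counts hyp hmap S hS
  have h1 := disc_nat hyp hmap S hS hne R hR F E V hF hE hV
  rw [hchi]
  have h2 : ((E + 2 : ℕ) : ℝ) ≤ ((F + V + R.card : ℕ) : ℝ) := by exact_mod_cast h1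
  push_cast at h2
  linarith

end MPbcd198.G
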