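import Pool.Agent.Lib.MP_bcd198_co.G.DiscB

/-!
# MP_bcd198_co, stream G, file `DiscC` (job G_DiscC)

[5.5a], [5.5b].
-/

set_option autoImplicit false

namespace MPbcd198.G

open Equiv

variable {p q : ℕ} {X : Type}

open Classical in
private theorem discC_mem_Sv (ρ : Tri p q →* Perm X) (S : Finset X) (x : X) (hx : x ∈ S)
    (h : ∀ g ∈ vSub p q, ρ g x ∈ S) : x ∈ Sv ρ S := by
  unfold Sv
  exact Finset.mem_filter.2 ⟨hx, h⟩

/-- [5.5a] The triangle group is infinite: if not, `S = univ`: `S_c = S_v = S`, `bd S = ∅`; `disc`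
with `R = ∅` gives `2 ≤ chiInt`, `euler_le` gives `chiInt ≤ - kap |S| / 2 < 0`. -/
theorem tri_infinite (hyp : Hyp p q) (hmap : IsMapHom (selfHom p q)) : Infinite (Tri p q) := by
  classical
  by_contra hinf
  rw [not_infinite_iff_finite] at hinf
  have : Fintype (Tri p q) := Fintype.ofFinite _
  have hS : FaceSet (selfHom p q) (Finset.univ : Finset (Tri p q)) :=
    fun x _ => ⟨Finset.mem_univ _, Finset.mem_univ _⟩
  have hbd : bd (selfHom p q) (Finset.univ : Finset (Tri p q)) = ∅ := by
    unfold bd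
    exact Finset.filter_eq_empty_iff.2 fun x _ h => h (Finset.mem_univ _)
  have h1 := disc hyp hmap Finset.univ hS Finset.univ_nonempty ∅ (fun x hx => by
    exfalso
    apply hx
    exact discC_mem_Sv _ _ _ (Finset.mem_univ _) fun g _ => Finset.mem_univ _)
  have h2 := euler_le hyp (selfHom p q) (Finset.univ : Finset (Tri p q))
  rw [hbd] at h2
  have h3 := kap_pos hyp
  have h4 : (0 : ℝ) < ((Finset.univ : Finset (Tri p q)).card : ℝ) := by
    have : 0 < (Finset.univ : Finset (Tri p q)).card := Finset.card_pos.2 Finset.univ_nonempty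
    exact_mod_cast this
  rw [Finset.card_empty, Nat.cast_zero, sub_zero] at h1
  rw [Finset.card_empty, Nat.cast_zero, zero_mul] at h2
  have h5 := mul_pos h3 h4
  linarith

/-- [5.5b] linear isoperimetric inequality in `D`: `walk_to_bd`, `disc` with `R = bd S`, and
`euler_le`: `kap |S| / 2 ≤ |bd| / 4 - 2 + |bd|`. -/
theorem iso_self (hyp : Hyp p q) (hmap : IsMapHom (selfHom p q)) (S : Finset (Tri p q))
    (hS : FaceSet (selfHom p q) S) :
    kap p q * S.card ≤ 3 * (bd (selfHom p q) S).card := by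
  classical
  have hb : (0 : ℝ) ≤ ((bd (selfHom p q) S).card : ℝ) := Nat.cast_nonneg _
  rcases S.eq_empty_or_nonempty with rfl | hne
  · rw [Finset.card_empty, Nat.cast_zero, mul_zero]
    positivity
  · have h1 := disc hyp hmap S hS hne (bd (selfHom p q) S)
      (fun x hx => walk_to_bd hS hne x hx)
    have h2 := euler_le hyp (selfHom p q) S
    have h3 : (0 : ℝ) ≤ ((bd (selfHom p q) S).card : ℝ) * (1 / (2 * (q : ℝ))) := by positivity
    have h4 : ((bd (selfHom p q) S).card : ℝ) * (1 / 4 - 1 / (2 * (q : ℝ))) =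
        ((bd (selfHom p q) S).card : ℝ) / 4 -
          ((bd (selfHom p q) S).card : ℝ) * (1 / (2 * (q : ℝ))) := by ring
    rw [h4] at h2
    linarith

end MPbcd198.G
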