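import Pool.Agent.Lib.MP_bcd198_co.G.Chain
import Pool.Agent.Lib.MP_bcd198_co.G.DiscC

/-!
# MP_bcd198_co, stream G, file `End0` (job G_End0)

[5.5c] `D` has one end.
-/

set_option autoImplicit false

namespace MPbcd198.G

open Equiv

variable {p q : ℕ} {X : Type}

private theorem end0_gg (i : Fin 3) (x : Tri p q) : gen p q i * (gen p q i * x) = x := by
  rw [← mul_assoc, gen_sq, one_mul]

open Classical in
private theorem end0_inv (T : Set (Tri p q)) (i : Fin 3) (h : ∀ x ∈ T, gen p q i * x ∈ T)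
    (x : Tri p q) : (if gen p q i * x ∈ T then (1 : ZMod 2) else 0) = if x ∈ T then 1 else 0 := by
  have : gen p q i * x ∈ T ↔ x ∈ T := by
    constructor
    · intro hx
      have h1 := h _ hx
      rwa [end0_gg] at h1
    · exact h x
  simp only [this]

private theorem end0_invT (T : Finset (Tri p q)) (i : Fin 3) (h : ∀ x ∈ T, gen p q i * x ∈ T)
    (x : Tri p q) : ind T (gen p q i * x) = ind T x := by
  have : gen p q i * x ∈ T ↔ x ∈ T := by
    constructor
    · intro hx
      have h1 := h _ hx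
      rwa [end0_gg] at h1
    · exact h x
  unfold ind
  by_cases hx : x ∈ T
  · rw [if_pos hx, if_pos (this.2 hx)]
  · rw [if_neg hx, if_neg fun h1 => hx (this.1 h1)]

private theorem end0_two (a b c d : ZMod 2) (h : a + b = c + d) : b + d = a + c := by
  revert a b c d
  decide

private theorem end0_cases (a : ZMod 2) : a = 0 ∨ a = 1 := by
  revert a
  decide

/-- [5.5c] Let `S₀` be a finite face set and `T₁` a set disjoint from `S₀`, closed under `A`, `B`
and under `C` as long as `C x ∉ S₀`.  Then `T₁` or its complement is finite.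

PROOF.  `ζ x = 1_{T₁}(x) + 1_{T₁}(Cx)`.  It is `A`-invariant (`CAx = ACx`, `T₁` closed under the
involution `A`), `C`-invariant, supported on `{x : x ∈ S₀ ∨ Cx ∈ S₀}` (finite), and
`Σ_{i<q} ζ((CB)^i x) = 0`: the term `1_{T₁}(C(CB)^{i+1} x) = 1_{T₁}(B (CB)^i x) = 1_{T₁}((CB)^i x)`, so
the sum is `Σ 1_{T₁}((CB)^i x) + Σ 1_{T₁}((CB)^{i-1} x) = 0` (cyclic shift).  `chain` gives a finite
face set `T` with the same boundary; `1_T + 1_{T₁}` is invariant under `A, B, C`, hence constant
(`tri_induction`): `T₁ = T` or `T₁ = Tᶜ`. -/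
theorem one_end (hyp : Hyp p q) (hmap : IsMapHom (selfHom p q)) (S₀ : Finset (Tri p q))
    (hS₀ : FaceSet (selfHom p q) S₀) (T₁ : Set (Tri p q)) (hd : ∀ x ∈ T₁, x ∉ S₀)
    (hA : ∀ x ∈ T₁, gen p q 0 * x ∈ T₁) (hB : ∀ x ∈ T₁, gen p q 1 * x ∈ T₁)
    (hC : ∀ x ∈ T₁, gen p q 2 * x ∈ T₁ ∨ gen p q 2 * x ∈ S₀) :
    T₁.Finite ∨ T₁ᶜ.Finite := by
  classical
  let χ : Tri p q → ZMod 2 := fun x => if x ∈ T₁ then 1 else 0
  have hχA : ∀ x, χ (gen p q 0 * x) = χ x := end0_inv T₁ 0 hA
  have hχB : ∀ x, χ (gen p q 1 * x) = χ x := end0_inv T₁ 1 hB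
  have hfin : {x | χ x + χ (gen p q 2 * x) ≠ 0}.Finite := by
    refine ((S₀.finite_toSet).union
      ((S₀.finite_toSet).image fun x => gen p q 2 * x)).subset ?_
    intro x hx
    by_cases h1 : x ∈ T₁
    · by_cases h2 : gen p q 2 * x ∈ T₁
      · exfalso
        apply hx
        simp only [χ]
        rw [if_pos h1, if_pos h2]
        decide
      · rcases hC x h1 with h3 | h3
        · exact absurd h3 h2
        · exact Or.inr ⟨gen p q 2 * x, h3, end0_gg 2 x⟩
    · by_cases h2 : gen p q 2 * x ∈ T₁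
      · rcases hC _ h2 with h3 | h3
        · rw [end0_gg] at h3
          exact absurd h3 h1
        · rw [end0_gg] at h3
          exact Or.inl h3
      · exfalso
        apply hx
        simp only [χ]
        rw [if_neg h1, if_neg h2, add_zero]
  obtain ⟨T, hT, hζ⟩ := chain hyp hmap (fun x => χ x + χ (gen p q 2 * x)) hfin (fun x => by
    have h1 : gen p q 2 * (gen p q 0 * x) = gen p q 0 * (gen p q 2 * x) := by
      rw [← mul_assoc, ← mul_assoc, ac_comm]
    simp only [h1, hχA]) (fun x => by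
    simp only [end0_gg]
    exact add_comm _ _) (fun x => by
    have h1 : ∀ i : ℕ, χ (gen p q 2 * ((gen p q 2 * gen p q 1) ^ (i + 1) * x)) =
        χ ((gen p q 2 * gen p q 1) ^ i * x) := by
      intro i
      have h2 : gen p q 2 * ((gen p q 2 * gen p q 1) ^ (i + 1) * x) =
          gen p q 1 * ((gen p q 2 * gen p q 1) ^ i * x) := by
        rw [pow_succ', mul_assoc (gen p q 2 * gen p q 1), mul_assoc (gen p q 2), end0_gg]
      rw [h2, hχB]
    have h3 : ∑ i ∈ Finset.range q, χ (gen p q 2 * ((gen p q 2 * gen p q 1) ^ i * x)) =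
        ∑ i ∈ Finset.range q, χ ((gen p q 2 * gen p q 1) ^ i * x) := by
      have h4 := Finset.sum_range_succ
        (fun i => χ (gen p q 2 * ((gen p q 2 * gen p q 1) ^ i * x))) q
      rw [Finset.sum_range_succ'] at h4
      simp only [h1] at h4
      rw [pow_zero, cb_pow] at h4
      exact (add_right_cancel h4).symm
    rw [Finset.sum_add_distrib, h3]
    exact CharTwo.add_self_eq_zero _)
  have hg : ∀ x, χ x + ind T x = χ 1 + ind T 1 := by
    have hTi : ∀ (i : Fin 3), (∀ x ∈ T, gen p q i * x ∈ T) → ∀ x, ind T (gen p q i * x) = ind T x :=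
      fun i hi x => end0_invT T i hi x
    apply tri_induction
    · rfl
    · intro i x hx
      rw [← hx]
      fin_cases i
      · exact congrArg₂ (· + ·) (hχA x) (hTi 0 (fun x hx => (hT x hx).1) x)
      · exact congrArg₂ (· + ·) (hχB x) (hTi 1 (fun x hx => (hT x hx).2) x)
      · exact end0_two _ _ _ _ (hζ x)
  rcases end0_cases (χ 1 + ind T 1) with h0 | h1
  · left
    refine T.finite_toSet.subset ?_
    intro x hx
    by_contra hxT
    have h2 := hg x
    rw [h0] at h2
    have h3 : ind T x = 0 := if_neg hxT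
    have h4 : χ x = 1 := if_pos hx
    rw [h3, h4] at h2
    exact absurd h2 (by decide)
  · right
    refine T.finite_toSet.subset ?_
    intro x hx
    by_contra hxT
    have h2 := hg x
    rw [h1] at h2
    have h3 : ind T x = 0 := if_neg hxT
    have h4 : χ x = 0 := if_neg hx
    rw [h3, h4] at h2
    exact absurd h2 (by decide)

end MPbcd198.G
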