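import Pool.Agent.Lib.MP_bcd198_co.G.End0

/-!
# MP_bcd198_co, stream G, file `End1` (job G_End1)

[5.7] first half: filling the holes of a face set.
-/

set_option autoImplicit false

namespace MPbcd198.G

open Equiv

variable {p q : ℕ} {X : Type}

/-- joined by steps `A`, `B`, `C` outside the finite set `S₀` -/
def OJoin (S₀ : Finset (Tri p q)) (x y : Tri p q) : Prop :=
  Relation.ReflTransGen (fun x y => x ∉ S₀ ∧ y ∉ S₀ ∧ ∃ i : Fin 3, y = gen p q i * x) x y

private lemma End1_gg (i : Fin 3) (x : Tri p q) : gen p q i * (gen p q i * x) = x := by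
  rw [← mul_assoc, gen_sq, one_mul]

private lemma End1_step {S₀ : Finset (Tri p q)} {x : Tri p q} {i : Fin 3} (hx : x ∉ S₀)
    (hy : gen p q i * x ∉ S₀) : OJoin S₀ x (gen p q i * x) :=
  Relation.ReflTransGen.single ⟨hx, hy, i, rfl⟩

private lemma End1_trans {S₀ : Finset (Tri p q)} {x y z : Tri p q} (h1 : OJoin S₀ x y)
    (h2 : OJoin S₀ y z) : OJoin S₀ x z := Relation.ReflTransGen.trans h1 h2

private lemma End1_symm {S₀ : Finset (Tri p q)} {x y : Tri p q} (h : OJoin S₀ x y) :
    OJoin S₀ y x := by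
  have h2 : ∀ a b : Tri p q, (a ∉ S₀ ∧ b ∉ S₀ ∧ ∃ i : Fin 3, b = gen p q i * a) →
      (b ∉ S₀ ∧ a ∉ S₀ ∧ ∃ i : Fin 3, a = gen p q i * b) := by
    rintro a b ⟨ha, hb, i, hi⟩
    refine ⟨hb, ha, i, ?_⟩
    rw [hi, End1_gg]
  induction h with
  | refl => exact Relation.ReflTransGen.refl
  | tail _ h1 ih => exact Relation.ReflTransGen.head (h2 _ _ h1) ih

private lemma End1_not_mem {S₀ : Finset (Tri p q)} {x y : Tri p q} (h : OJoin S₀ x y)
    (hx : x ∉ S₀) : y ∉ S₀ := by
  induction h with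
  | refl => exact hx
  | tail _ h1 _ => exact h1.2.1

private lemma End1_comp_eq {S₀ : Finset (Tri p q)} {x y : Tri p q} (h : OJoin S₀ x y) :
    {z | OJoin S₀ y z} = {z | OJoin S₀ x z} := by
  ext z
  exact ⟨fun h1 => End1_trans h h1, fun h1 => End1_trans (End1_symm h) h1⟩

private lemma End1_reach {S₀ : Finset (Tri p q)} (hS₀ : FaceSet (selfHom p q) S₀)
    {s₀ : Tri p q} (hs₀ : s₀ ∈ S₀) (x : Tri p q) (hx : x ∉ S₀) :
    ∃ y, OJoin S₀ x y ∧ y ∉ S₀ ∧ gen p q 2 * y ∈ S₀ := by
  have key : ∀ g : Tri p q, g * s₀ ∉ S₀ →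
      ∃ y, OJoin S₀ (g * s₀) y ∧ y ∉ S₀ ∧ gen p q 2 * y ∈ S₀ := by
    intro g
    induction g using tri_induction with
    | h1 =>
      intro h
      rw [one_mul] at h
      exact absurd hs₀ h
    | hs i g ih =>
      intro h
      rw [mul_assoc] at h ⊢
      by_cases hw : g * s₀ ∈ S₀
      · refine ⟨gen p q i * (g * s₀), Relation.ReflTransGen.refl, h, ?_⟩
        fin_cases i
        · exact absurd (hS₀ _ hw).1 h
        · exact absurd (hS₀ _ hw).2 h
        · show gen p q 2 * (gen p q 2 * (g * s₀)) ∈ S₀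
          rw [End1_gg]
          exact hw
      · obtain ⟨y, h1, h2, h3⟩ := ih hw
        refine ⟨y, End1_trans ?_ h1, h2, h3⟩
        exact End1_symm (End1_step hw h)
  have h1 := key (x * s₀⁻¹)
  rw [inv_mul_cancel_right] at h1
  exact h1 hx

private lemma End1_face {S₀ : Finset (Tri p q)} (hS₀ : FaceSet (selfHom p q) S₀)
    {x : Tri p q} (hx : x ∉ S₀) : gen p q 0 * x ∉ S₀ ∧ gen p q 1 * x ∉ S₀ := by
  constructor
  · intro h
    apply hx
    have h1 : gen p q 0 * (gen p q 0 * x) ∈ S₀ := (hS₀ _ h).1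
    rwa [End1_gg] at h1
  · intro h
    apply hx
    have h1 : gen p q 1 * (gen p q 1 * x) ∈ S₀ := (hS₀ _ h).2
    rwa [End1_gg] at h1

private lemma End1_sconn_symm {S : Finset (Tri p q)} {x y : Tri p q}
    (h : SConn (selfHom p q) S x y) : SConn (selfHom p q) S y x := by
  have h2 : ∀ a b : Tri p q, SStep (selfHom p q) S a b → SStep (selfHom p q) S b a := by
    rintro a b ⟨ha, hb, hi⟩
    refine ⟨hb, ha, ?_⟩
    simp only [selfHom_apply] at hi ⊢
    rcases hi with hi | hi | hi
    · left; rw [hi, End1_gg]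
    · right; left; rw [hi, End1_gg]
    · right; right; rw [hi, End1_gg]
  induction h with
  | refl => exact Relation.ReflTransGen.refl
  | tail _ h1 ih => exact Relation.ReflTransGen.head (h2 _ _ h1) ih

private lemma End1_sconn_mono {S S' : Finset (Tri p q)} (hSS : S ⊆ S') {x y : Tri p q}
    (h : SConn (selfHom p q) S x y) : SConn (selfHom p q) S' x y := by
  induction h with
  | refl => exact Relation.ReflTransGen.refl
  | tail _ h1 ih => exact Relation.ReflTransGen.tail ih ⟨hSS h1.1, hSS h1.2.1, h1.2.2⟩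

private lemma End1_right {S₀ : Finset (Tri p q)} {h : Tri p q}
    (hh : ∀ x, x * h ∈ S₀ ↔ x ∈ S₀) {x y : Tri p q} (hj : OJoin S₀ x y) :
    OJoin S₀ (x * h) (y * h) := by
  induction hj with
  | refl => exact Relation.ReflTransGen.refl
  | tail _ h1 ih =>
    refine Relation.ReflTransGen.tail ih ?_
    obtain ⟨h2, h3, i, h4⟩ := h1
    refine ⟨fun h5 => h2 ((hh _).1 h5), fun h5 => h3 ((hh _).1 h5), i, ?_⟩
    rw [h4, mul_assoc]

private lemma End1_inv {S₀ : Finset (Tri p q)} {h : Tri p q}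
    (hh : ∀ x, x * h ∈ S₀ ↔ x ∈ S₀) : ∀ x, x * h⁻¹ ∈ S₀ ↔ x ∈ S₀ := by
  intro x
  rw [← hh (x * h⁻¹), inv_mul_cancel_right]

private lemma End1_fin_right {S₀ : Finset (Tri p q)} {h : Tri p q}
    (hh : ∀ x, x * h ∈ S₀ ↔ x ∈ S₀) {x : Tri p q} (hf : {y | OJoin S₀ x y}.Finite) :
    {y | OJoin S₀ (x * h) y}.Finite := by
  refine (hf.image fun y => y * h).subset ?_
  intro y hy
  refine ⟨y * h⁻¹, ?_, inv_mul_cancel_right y h⟩
  have h1 := End1_right (End1_inv hh) hy
  rwa [mul_inv_cancel_right] at h1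

/-- FILLING.  `S₀` a nonempty finite face set, connected inside itself.  There is a finite face set
`S ⊇ S₀`, connected inside itself, whose complement is nonempty and connected, and which is
invariant under every right multiplication that preserves `S₀`.

PROOF.  For `x ∉ S₀` let `comp x = {y : OJoin S₀ x y}` (an equivalence relation outside `S₀`).
`S := S₀ ∪ {x ∉ S₀ : comp x finite}`.  Finite: by `tri_induction` from a point of `S₀` every
`x ∉ S₀` is `OJoin`ed to some `y ∉ S₀` with `C y ∈ S₀` (the step entering `S₀` is a `C`-step because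
`S₀` is closed under `A, B`), so `S ⊆ S₀ ∪ ⋃_{s ∈ S₀, comp (Cs) finite} comp (Cs)`.  Closed under
`A, B`: clear.  Connected: a point of a finite component is joined inside it to `y` with
`C y ∈ S₀`.  Complement nonempty: `D` infinite (`tri_infinite`).  Complement connected: if
`x, x' ∉ S` then `comp x`, `comp x'` are infinite, `(comp x)ᶜ` is finite by `one_end`, so they
intersect; and `comp x ∩ S = ∅`.  Right multiplication by `h` with `S₀ h = S₀` maps `comp x` onto
`comp (x h)`. -/
theorem filling (hyp : Hyp p q) (hmap : IsMapHom (selfHom p q)) (S₀ : Finset (Tri p q))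
    (hS₀ : FaceSet (selfHom p q) S₀) (s₀ : Tri p q) (hs₀ : s₀ ∈ S₀)
    (hc : ∀ y ∈ S₀, SConn (selfHom p q) S₀ s₀ y) :
    ∃ S : Finset (Tri p q), FaceSet (selfHom p q) S ∧ S₀ ⊆ S ∧
      (∀ y ∈ S, SConn (selfHom p q) S s₀ y) ∧ (∃ x, x ∉ S) ∧
      (∀ x y, x ∉ S → y ∉ S → OJoin S x y) ∧
      ∀ h : Tri p q, (∀ x, x * h ∈ S₀ ↔ x ∈ S₀) → ∀ x, x * h ∈ S ↔ x ∈ S := by
  classical
  obtain ⟨F, hF⟩ : ∃ F : Set (Tri p q), F = {x | x ∉ S₀ ∧ {y | OJoin S₀ x y}.Finite} := ⟨_, rfl⟩
  have hmF : ∀ x, x ∈ F ↔ x ∉ S₀ ∧ {y | OJoin S₀ x y}.Finite := by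
    intro x
    rw [hF]
    rfl
  have hFjoin : ∀ x ∈ F, ∀ y, OJoin S₀ x y → y ∈ F := by
    intro x hx y hxy
    rw [hmF] at hx ⊢
    refine ⟨End1_not_mem hxy hx.1, ?_⟩
    rw [End1_comp_eq hxy]
    exact hx.2
  have hFfin : F.Finite := by
    have h1 : (⋃ s ∈ (S₀ : Set (Tri p q)),
        (if {y | OJoin S₀ (gen p q 2 * s) y}.Finite then {y | OJoin S₀ (gen p q 2 * s) y}
          else ∅)).Finite := by
      apply Set.Finite.biUnion S₀.finite_toSet
      intro s _
      split_ifs with h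
      · exact h
      · exact Set.finite_empty
    refine h1.subset ?_
    intro x hx
    have hx' := (hmF x).1 hx
    obtain ⟨y, hy1, hy2, hy3⟩ := End1_reach hS₀ hs₀ x hx'.1
    refine Set.mem_iUnion₂.2 ⟨gen p q 2 * y, hy3, ?_⟩
    rw [End1_gg, if_pos]
    · exact End1_symm hy1
    · exact ((hmF y).1 (hFjoin x hx y hy1)).2
  obtain ⟨S, hS⟩ : ∃ S : Finset (Tri p q), S = S₀ ∪ hFfin.toFinset := ⟨_, rfl⟩
  have hmS : ∀ x, x ∈ S ↔ x ∈ S₀ ∨ x ∈ F := by
    intro x
    rw [hS, Finset.mem_union, Set.Finite.mem_toFinset]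
  have hsub : S₀ ⊆ S := fun x hx => (hmS x).2 (Or.inl hx)
  refine ⟨S, ?_, hsub, ?_, ?_, ?_, ?_⟩
  · -- closed under `A`, `B`
    intro x hx
    show gen p q 0 * x ∈ S ∧ gen p q 1 * x ∈ S
    rcases (hmS x).1 hx with h | h
    · exact ⟨hsub (hS₀ x h).1, hsub (hS₀ x h).2⟩
    · have h1 := ((hmF x).1 h).1
      obtain ⟨h2, h3⟩ := End1_face hS₀ h1
      exact ⟨(hmS _).2 (Or.inr (hFjoin x h _ (End1_step h1 h2))),
        (hmS _).2 (Or.inr (hFjoin x h _ (End1_step h1 h3)))⟩
  · -- connected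
    intro y hy
    rcases (hmS y).1 hy with h | h
    · exact End1_sconn_mono hsub (hc y h)
    · obtain ⟨y', h1, h2, h3⟩ := End1_reach hS₀ hs₀ y ((hmF y).1 h).1
      have h4 : ∀ z, OJoin S₀ y z → SConn (selfHom p q) S y z := by
        intro z hz
        induction hz with
        | refl => exact Relation.ReflTransGen.refl
        | tail hab hbc ih =>
          refine Relation.ReflTransGen.tail ih ?_
          refine ⟨(hmS _).2 (Or.inr (hFjoin y h _ hab)),
            (hmS _).2 (Or.inr (hFjoin y h _ (Relation.ReflTransGen.tail hab hbc))), ?_⟩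
          obtain ⟨_, _, i, hi⟩ := hbc
          simp only [selfHom_apply]
          fin_cases i
          · exact Or.inl hi
          · exact Or.inr (Or.inl hi)
          · exact Or.inr (Or.inr hi)
      have h5 : SConn (selfHom p q) S s₀ (gen p q 2 * y') := End1_sconn_mono hsub (hc _ h3)
      have h6 : SStep (selfHom p q) S (gen p q 2 * y') y' := by
        refine ⟨hsub h3, (hmS _).2 (Or.inr (hFjoin y h _ h1)), ?_⟩
        right; right
        rw [selfHom_apply, End1_gg]
      exact (Relation.ReflTransGen.tail h5 h6).trans (End1_sconn_symm (h4 y' h1))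
  · have := tri_infinite hyp hmap
    exact Infinite.exists_notMem_finset S
  · -- the complement is connected
    intro x y hx hy
    have hinf : ∀ x, x ∉ S → x ∉ S₀ ∧ {z | OJoin S₀ x z}ᶜ.Finite := by
      intro x hx
      have h1 : x ∉ S₀ := fun h => hx ((hmS x).2 (Or.inl h))
      have h2 : ¬ {z | OJoin S₀ x z}.Finite := fun h =>
        hx ((hmS x).2 (Or.inr ((hmF x).2 ⟨h1, h⟩)))
      refine ⟨h1, ?_⟩
      rcases one_end hyp hmap S₀ hS₀ {z | OJoin S₀ x z}
        (fun z hz => End1_not_mem hz h1)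
        (fun z hz => End1_trans hz (End1_step (End1_not_mem hz h1)
          (End1_face hS₀ (End1_not_mem hz h1)).1))
        (fun z hz => End1_trans hz (End1_step (End1_not_mem hz h1)
          (End1_face hS₀ (End1_not_mem hz h1)).2))
        (fun z hz => by
          by_cases h3 : gen p q 2 * z ∈ S₀
          · exact Or.inr h3
          · exact Or.inl (End1_trans hz (End1_step (End1_not_mem hz h1) h3))) with h | h
      · exact absurd h h2
      · exact h
    obtain ⟨hx1, hx2⟩ := hinf x hx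
    obtain ⟨hy1, hy2⟩ := hinf y hy
    have := tri_infinite hyp hmap
    obtain ⟨z, hz⟩ := (hx2.union hy2).exists_notMem
    rw [Set.mem_union, Set.mem_compl_iff, Set.mem_compl_iff] at hz
    push Not at hz
    have hxy : OJoin S₀ x y := End1_trans hz.1 (End1_symm hz.2)
    have h4 : ∀ z, OJoin S₀ x z → z ∉ S := by
      intro z hz h5
      rcases (hmS z).1 h5 with h | h
      · exact End1_not_mem hz hx1 h
      · exact hx ((hmS x).2 (Or.inr (hFjoin z h x (End1_symm hz))))
    have h6 : ∀ z, OJoin S₀ x z → OJoin S x z := by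
      intro z hz
      induction hz with
      | refl => exact Relation.ReflTransGen.refl
      | tail hab hbc ih =>
        exact Relation.ReflTransGen.tail ih
          ⟨h4 _ hab, h4 _ (Relation.ReflTransGen.tail hab hbc), hbc.2.2⟩
    exact h6 y hxy
  · -- right multiplications
    intro h hh x
    rw [hmS, hmS, hh x, hmF, hmF, hh x]
    have h1 : {y | OJoin S₀ (x * h) y}.Finite ↔ {y | OJoin S₀ x y}.Finite := by
      constructor
      · intro h2
        have h3 := End1_fin_right (End1_inv hh) h2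
        rwa [mul_inv_cancel_right] at h3
      · exact fun h2 => End1_fin_right hh h2
    rw [h1]

end MPbcd198.G
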