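import Pool.Agent.Lib.MP_bcd198_co.G.Fin3
import Pool.Agent.Lib.MP_bcd198_co.G.Lin

/-!
# MP_bcd198_co, stream G, file `FaceS` (job G_FaceS)

The boundary map from interior edges to faces, over `ZMod 2`.  `edgeF = InvF` for `eSub` on `S_c`
(functions on interior edges), `faceF = InvF` for `fSub` on `S`, `vertF = InvF` for `vSub` on `S_v`.
-/

set_option autoImplicit false

namespace MPbcd198.G

open Equiv

variable {p q : ℕ} {X : Type}

/-- `(∂ζ)(x) = Σ_{i<p} ζ((BA)^i x)`: sum of `ζ` over the edges of the face of `x` -/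
def faceSum (ρ : Tri p q →* Perm X) : (X → ZMod 2) →ₗ[ZMod 2] (X → ZMod 2) where
  toFun ζ x := ∑ i ∈ Finset.range p, ζ (ρ ((gen p q 1 * gen p q 0) ^ i) x)
  map_add' f g := by ext x; simp [Finset.sum_add_distrib]
  map_smul' c f := by ext x; simp [Finset.mul_sum]

/-- functions on the faces of `S` -/
noncomputable def faceF (ρ : Tri p q →* Perm X) (S : Finset X) : Submodule (ZMod 2) (X → ZMod 2) :=
  InvF (ρ.comp (fSub p q).subtype) S

/-- functions on the interior edges of `S` -/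
noncomputable def edgeF (ρ : Tri p q →* Perm X) (S : Finset X) : Submodule (ZMod 2) (X → ZMod 2) :=
  InvF (ρ.comp (eSub p q).subtype) (Sc ρ S)

/-- functions on the interior vertices of `S` -/
noncomputable def vertF (ρ : Tri p q →* Perm X) (S : Finset X) : Submodule (ZMod 2) (X → ZMod 2) :=
  InvF (ρ.comp (vSub p q).subtype) (Sv ρ S)

/-- cycles: edge functions with zero sum over every face -/
noncomputable def cycF (ρ : Tri p q →* Perm X) (S : Finset X) : Submodule (ZMod 2) (X → ZMod 2) :=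
  edgeF ρ S ⊓ LinearMap.ker (faceSum ρ)

theorem FaceS_aux {Y : Type} {T : Finset Y} {d k c n : ℕ} (hk : 0 < k) (h : d * c = T.card)
    (hT : T.card = k * n) (hc : 0 < c) (hx : ∀ x ∈ T, c = k) : d = n := by
  rcases T.eq_empty_or_nonempty with h0 | ⟨x, hx0⟩
  · rw [h0, Finset.card_empty] at h hT
    have h1 : d = 0 := by
      rcases Nat.mul_eq_zero.mp h with h1 | h1
      · exact h1
      · omega
    have h2 : n = 0 := by
      rcases Nat.mul_eq_zero.mp hT.symm with h2 | h2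
      · omega
      · exact h2
    rw [h1, h2]
  · rw [hT, hx x hx0, mul_comm] at h
    exact Nat.eq_of_mul_eq_mul_left hk h

/-- dimensions, from `finrank_InvF` and `card_fSub`, `card_eSub`, `card_vSub`, freeness -/
theorem finrank_faceF (hyp : Hyp p q) {ρ : Tri p q →* Perm X} (hρ : IsMapHom ρ) (S : Finset X)
    (hS : FaceSet ρ S) (F : ℕ) (hF : S.card = 2 * p * F) :
    Module.finrank (ZMod 2) (faceF ρ S) = F := by
  have hp := hyp.hp
  have := finite_fSub hyp
  have h := finrank_InvF (ρ.comp (fSub p q).subtype) S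
    (fun g x hx => face_closed hS g.2 hx)
    (fun g x _ hgx => Subtype.ext (free_f hyp hρ g.2 x hgx))
  exact FaceS_aux (by omega) h hF Nat.card_pos (fun x _ => card_fSub hyp hρ x)

theorem finrank_edgeF (hyp : Hyp p q) {ρ : Tri p q →* Perm X} (hρ : IsMapHom ρ) (S : Finset X)
    (hS : FaceSet ρ S) (E : ℕ) (hE : (Sc ρ S).card = 4 * E) :
    Module.finrank (ZMod 2) (edgeF ρ S) = E := by
  have := finite_eSub p q
  have h := finrank_InvF (ρ.comp (eSub p q).subtype) (Sc ρ S)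
    (fun g x hx => (Sc_iff hS g.2 x).mpr hx)
    (fun g x _ hgx => Subtype.ext (free_e hρ g.2 x hgx))
  exact FaceS_aux (by norm_num) h hE Nat.card_pos (fun x _ => card_eSub hρ x)

theorem finrank_vertF (hyp : Hyp p q) {ρ : Tri p q →* Perm X} (hρ : IsMapHom ρ) (S : Finset X)
    (V : ℕ) (hV : (Sv ρ S).card = 2 * q * V) :
    Module.finrank (ZMod 2) (vertF ρ S) = V := by
  have hq := hyp.hq
  have := finite_vSub hyp
  have h := finrank_InvF (ρ.comp (vSub p q).subtype) (Sv ρ S)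
    (fun g x hx => (Sv_iff g.2 x).mpr hx)
    (fun g x _ hgx => Subtype.ext (free_v hyp hρ g.2 x hgx))
  exact FaceS_aux (by omega) h hV Nat.card_pos (fun x _ => card_vSub hyp hρ x)

theorem FaceS_shift (ρ : Tri p q →* Perm X) (ζ : X → ZMod 2) (x : X) :
    faceSum ρ ζ (ρ (gen p q 1 * gen p q 0) x) = faceSum ρ ζ x := by
  show ∑ i ∈ Finset.range p, ζ (ρ ((gen p q 1 * gen p q 0) ^ i) (ρ (gen p q 1 * gen p q 0) x)) =
    ∑ i ∈ Finset.range p, ζ (ρ ((gen p q 1 * gen p q 0) ^ i) x)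
  have h1 : ∀ i, ρ ((gen p q 1 * gen p q 0) ^ i) (ρ (gen p q 1 * gen p q 0) x) =
      ρ ((gen p q 1 * gen p q 0) ^ (i + 1)) x := by
    intro i
    rw [← act_mul, ← pow_succ]
  simp only [h1]
  have h2 := Finset.sum_range_succ (fun i => ζ (ρ ((gen p q 1 * gen p q 0) ^ i) x)) p
  have h3 := Finset.sum_range_succ' (fun i => ζ (ρ ((gen p q 1 * gen p q 0) ^ i) x)) p
  rw [h2, ba_pow] at h3
  rw [pow_zero] at h3
  exact (add_right_cancel h3).symm

theorem FaceS_refl (ρ : Tri p q →* Perm X) (ζ : X → ZMod 2)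
    (hA : ∀ x, ζ (ρ (gen p q 0) x) = ζ x) (x : X) :
    faceSum ρ ζ (ρ (gen p q 0) x) = faceSum ρ ζ x := by
  rw [← FaceS_shift ρ ζ x]
  show ∑ i ∈ Finset.range p, ζ (ρ ((gen p q 1 * gen p q 0) ^ i) (ρ (gen p q 0) x)) =
    ∑ i ∈ Finset.range p, ζ (ρ ((gen p q 1 * gen p q 0) ^ i) (ρ (gen p q 1 * gen p q 0) x))
  rw [← Finset.sum_range_reflect]
  refine Finset.sum_congr rfl fun i hi => ?_
  rw [Finset.mem_range] at hi
  rw [← act_mul, ← act_mul, ← pow_succ]
  have h1 : ∀ n : ℕ, (gen p q 1 * gen p q 0) ^ n * gen p q 0 =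
      gen p q 0 * ((gen p q 1 * gen p q 0) ^ n)⁻¹ := by
    intro n
    have h2 : gen p q 0 * (gen p q 1 * gen p q 0) * gen p q 0 = (gen p q 1 * gen p q 0)⁻¹ := by
      rw [mul_inv_rev, gen_inv, gen_inv, mul_assoc, mul_assoc, gen_sq, mul_one]
    have h3 : gen p q 0 * (gen p q 1 * gen p q 0) ^ n * gen p q 0 =
        ((gen p q 1 * gen p q 0) ^ n)⁻¹ := by
      rw [← inv_pow, ← h2]
      have h4 := conj_pow (a := gen p q 0) (b := gen p q 1 * gen p q 0) (i := n)
      rw [gen_inv] at h4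
      exact h4.symm
    rw [← h3, mul_assoc, ← mul_assoc (gen p q 0) (gen p q 0), gen_sq, one_mul]
  rw [h1, act_mul, hA]
  congr 2
  have h5 : (gen p q 1 * gen p q 0) ^ (p - 1 - i) * (gen p q 1 * gen p q 0) ^ (i + 1) = 1 := by
    rw [← pow_add, show p - 1 - i + (i + 1) = p by omega, ba_pow]
  rw [inv_eq_of_mul_eq_one_right h5]

/-- For `ζ` invariant under `A`, `faceSum ρ ζ` is invariant under `A` and `B`:
`(∂ζ)(BAx) = (∂ζ)(x)` is the cyclic shift (`(BA)^p = 1`), and
`(∂ζ)(Ax) = Σ ζ((BA)^i A x) = Σ ζ(A (BA)^{-i} x) = Σ ζ((BA)^{p-i} x) = (∂ζ)(x)`.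
If moreover `ζ` vanishes outside `S` (a face set) so does `∂ζ`. -/
theorem faceSum_mem (hyp : Hyp p q) {ρ : Tri p q →* Perm X} (S : Finset X)
    (hS : FaceSet ρ S) (ζ : X → ZMod 2) (hζ : ζ ∈ edgeF ρ S) : faceSum ρ ζ ∈ faceF ρ S := by
  obtain ⟨h0, hinv⟩ := (mem_InvF _ _ _).mp hζ
  have hA : ∀ x, ζ (ρ (gen p q 0) x) = ζ x := fun x => hinv ⟨gen p q 0, A_mem_eSub p q⟩ x
  refine (mem_InvF _ _ _).mpr ⟨fun x hx => ?_, fun g x => ?_⟩
  · show ∑ i ∈ Finset.range p, ζ (ρ ((gen p q 1 * gen p q 0) ^ i) x) = 0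
    refine Finset.sum_eq_zero fun i _ => h0 _ fun hc => hx ?_
    have hm : (gen p q 1 * gen p q 0) ^ i ∈ fSub p q :=
      pow_mem (mul_mem (B_mem_fSub p q) (A_mem_fSub p q)) i
    exact (face_iff hS hm x).mp (Sc_subset ρ S hc)
  · have hBA : ∀ x, faceSum ρ ζ (ρ (gen p q 1 * gen p q 0) x) = faceSum ρ ζ x :=
      fun x => FaceS_shift ρ ζ x
    have hA' : ∀ x, faceSum ρ ζ (ρ (gen p q 0) x) = faceSum ρ ζ x :=
      fun x => FaceS_refl ρ ζ hA x
    have hB' : ∀ x, faceSum ρ ζ (ρ (gen p q 1) x) = faceSum ρ ζ x := by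
      intro x
      have h1 := hBA (ρ (gen p q 0) x)
      rw [hA', act_mul, act_gen_gen] at h1
      exact h1
    have key : ∀ g ∈ fSub p q, ∀ x, faceSum ρ ζ (ρ g x) = faceSum ρ ζ x := by
      intro g hg
      unfold fSub at hg
      induction hg using Subgroup.closure_induction with
      | mem y hy =>
        simp only [Set.mem_insert_iff, Set.mem_singleton_iff] at hy
        rcases hy with rfl | rfl
        · exact hA'
        · exact hB'
      | one => intro x; rw [map_one]; rfl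
      | mul a b _ _ ha hb => intro x; rw [act_mul, ha, hb]
      | inv a _ ha =>
        intro x
        have h1 := ha (ρ a⁻¹ x)
        rw [← act_mul, mul_inv_cancel, map_one] at h1
        exact h1.symm
    exact key g.1 g.2 x

end MPbcd198.G
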