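import Pool.Agent.Lib.MP_bcd198_co.G.Base
import Pool.Agent.Lib.MP_bcd198_co.G.Dih

/-!
# MP_bcd198_co, stream G, file `Fin3` (job G_Fin3)

The three finite dihedral subgroups `⟨A,B⟩`, `⟨B,C⟩`, `⟨A,C⟩`: normal forms, free action on maps,
cardinalities, closure properties of face sets.
-/

set_option autoImplicit false

namespace MPbcd198.G

open Equiv

variable {p q : ℕ} {X : Type}

/-- `⟨A,B⟩`, stabiliser of a face -/
def fSub (p q : ℕ) : Subgroup (Tri p q) := Subgroup.closure {gen p q 0, gen p q 1}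

/-- `⟨A,C⟩`, stabiliser of an edge -/
def eSub (p q : ℕ) : Subgroup (Tri p q) := Subgroup.closure {gen p q 0, gen p q 2}

theorem A_mem_fSub (p q : ℕ) : gen p q 0 ∈ fSub p q := Subgroup.subset_closure (by simp)

theorem B_mem_fSub (p q : ℕ) : gen p q 1 ∈ fSub p q := Subgroup.subset_closure (by simp)

theorem B_mem_vSub (p q : ℕ) : gen p q 1 ∈ vSub p q := Subgroup.subset_closure (by simp)

theorem C_mem_vSub (p q : ℕ) : gen p q 2 ∈ vSub p q := Subgroup.subset_closure (by simp)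

theorem A_mem_eSub (p q : ℕ) : gen p q 0 ∈ eSub p q := Subgroup.subset_closure (by simp)

theorem C_mem_eSub (p q : ℕ) : gen p q 2 ∈ eSub p q := Subgroup.subset_closure (by simp)

/-- two involutions: the elements `(t s)^i`, `s (t s)^i` act differently -/
theorem Fin3_inj {s t : Perm X} {n : ℕ} (hs : IsPM s) (ht : IsPM t)
    (hst : ∀ x, Function.minimalPeriod (⇑(t * s)) x = n) {i j : ℕ} (hi : i < n) (hj : j < n)
    (x : X) : (((t * s) ^ i) x = ((t * s) ^ j) x → i = j) ∧
      ((t * s) ^ i) x ≠ (s * (t * s) ^ j) x := by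
  have key : ∀ i j : ℕ, j < n → i ≤ j → ((t * s) ^ i) x = ((t * s) ^ j) x → i = j := by
    intro i j hj hij h
    have h1 : ((t * s) ^ (j - i)) (((t * s) ^ i) x) = ((t * s) ^ i) x := by
      rw [← Perm.mul_apply, ← pow_add, Nat.sub_add_cancel hij]
      exact h.symm
    have h2 := (dihedral_free s t n hs ht hst (j - i) (by omega) _).1 h1
    omega
  constructor
  · intro h
    rcases le_total i j with h1 | h1
    · exact key i j hj h1 h
    · exact (key j i hi h1 h.symm).symm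
  · intro h
    rcases le_total i j with h1 | h1
    · have h2 : (s * (t * s) ^ (j - i)) (((t * s) ^ i) x) = ((t * s) ^ i) x := by
        rw [← Perm.mul_apply, mul_assoc, ← pow_add, Nat.sub_add_cancel h1]
        exact h.symm
      exact (dihedral_free s t n hs ht hst (j - i) (by omega) _).2 h2
    · have h2 : (s * (t * s) ^ (i - j)) (((t * s) ^ j) x) = ((t * s) ^ j) x := by
        rw [← Perm.mul_apply, mul_assoc, ← pow_add, Nat.sub_add_cancel h1, Perm.mul_apply, h,
          Perm.mul_apply, (hs _).2]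
      exact (dihedral_free s t n hs ht hst (i - j) (by omega) _).2 h2

/-- the surjection onto the group generated by two involutions -/
private def Fin3_map {G : Type} [Group G] (s t : G) (n : ℕ) (u : Fin n × Bool) :
    Subgroup.closure ({s, t} : Set G) :=
  ⟨if u.2 then (t * s) ^ (u.1 : ℕ) else s * (t * s) ^ (u.1 : ℕ), by
    have h1 : s ∈ Subgroup.closure ({s, t} : Set G) := Subgroup.subset_closure (by simp)
    have h2 : t ∈ Subgroup.closure ({s, t} : Set G) := Subgroup.subset_closure (by simp)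
    split_ifs
    · exact pow_mem (mul_mem h2 h1) _
    · exact mul_mem h1 (pow_mem (mul_mem h2 h1) _)⟩

private theorem Fin3_surj {G : Type} [Group G] (s t : G) (n : ℕ) (hn : 0 < n) (hs : s * s = 1)
    (ht : t * t = 1) (hst : (t * s) ^ n = 1) : Function.Surjective (Fin3_map s t n) := by
  rintro ⟨g, hg⟩
  obtain ⟨i, hi, h | h⟩ := dihedral_forms s t n hn hs ht hst g hg
  · exact ⟨(⟨i, hi⟩, true), Subtype.ext h.symm⟩
  · exact ⟨(⟨i, hi⟩, false), Subtype.ext h.symm⟩

private theorem Fin3_card {G : Type} [Group G] (ρ : G →* Perm X) (s t : G) (n : ℕ) (hn : 0 < n)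
    (hs : s * s = 1) (ht : t * t = 1) (hst : (t * s) ^ n = 1) (hs' : IsPM (ρ s))
    (ht' : IsPM (ρ t)) (hst' : ∀ x, Function.minimalPeriod (⇑(ρ t * ρ s)) x = n) (x : X) :
    Nat.card (Subgroup.closure ({s, t} : Set G)) = 2 * n := by
  have hinj : Function.Injective (Fin3_map s t n) := by
    rintro ⟨i, b⟩ ⟨j, c⟩ h
    have h1 : (if b then (t * s) ^ (i : ℕ) else s * (t * s) ^ (i : ℕ)) =
        (if c then (t * s) ^ (j : ℕ) else s * (t * s) ^ (j : ℕ)) := congrArg Subtype.val h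
    have f1 := Fin3_inj hs' ht' hst' i.2 j.2 x
    have f2 := Fin3_inj hs' ht' hst' j.2 i.2 x
    have e1 : ∀ k : ℕ, ρ ((t * s) ^ k) x = ((ρ t * ρ s) ^ k) x := by
      intro k
      rw [map_pow, map_mul]
    have e2 : ∀ k : ℕ, ρ (s * (t * s) ^ k) x = (ρ s * (ρ t * ρ s) ^ k) x := by
      intro k
      rw [map_mul, map_pow, map_mul]
    rcases b with _ | _ <;> rcases c with _ | _
    · have h2 : (t * s) ^ (i : ℕ) = (t * s) ^ (j : ℕ) := by simpa using h1
      have h3 := congrArg (fun g => ρ g x) h2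
      simp only [e1] at h3
      rw [Fin.ext (f1.1 h3)]
    · have h2 : s * (t * s) ^ (i : ℕ) = (t * s) ^ (j : ℕ) := by simpa using h1
      have h3 := congrArg (fun g => ρ g x) h2
      simp only [e1, e2] at h3
      exact absurd h3.symm f2.2
    · have h2 : (t * s) ^ (i : ℕ) = s * (t * s) ^ (j : ℕ) := by simpa using h1
      have h3 := congrArg (fun g => ρ g x) h2
      simp only [e1, e2] at h3
      exact absurd h3 f1.2
    · have h2 : (t * s) ^ (i : ℕ) = (t * s) ^ (j : ℕ) := by simpa using h1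
      have h3 := congrArg (fun g => ρ g x) h2
      simp only [e1] at h3
      rw [Fin.ext (f1.1 h3)]
  rw [← Nat.card_eq_of_bijective _ ⟨hinj, Fin3_surj s t n hn hs ht hst⟩, Nat.card_prod,
    Nat.card_eq_fintype_card, Nat.card_eq_fintype_card, Fintype.card_fin, Fintype.card_bool,
    mul_comm]

private theorem Fin3_ca (p q : ℕ) : (gen p q 2 * gen p q 0) ^ 2 = 1 := by
  rw [pow_two, mul_assoc, ← mul_assoc (gen p q 0), ac_comm, mul_assoc (gen p q 2),
    gen_sq, mul_one, gen_sq]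

theorem mem_fSub (hp : 0 < p) {g : Tri p q} (hg : g ∈ fSub p q) :
    ∃ i < p, g = (gen p q 1 * gen p q 0) ^ i ∨ g = gen p q 0 * (gen p q 1 * gen p q 0) ^ i :=
  dihedral_forms _ _ p hp (gen_sq p q 0) (gen_sq p q 1) (ba_pow p q) g hg

theorem mem_vSub (hq : 0 < q) {g : Tri p q} (hg : g ∈ vSub p q) :
    ∃ i < q, g = (gen p q 2 * gen p q 1) ^ i ∨ g = gen p q 1 * (gen p q 2 * gen p q 1) ^ i :=
  dihedral_forms _ _ q hq (gen_sq p q 1) (gen_sq p q 2) (cb_pow p q) g hg

theorem mem_eSub {g : Tri p q} (hg : g ∈ eSub p q) :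
    g = 1 ∨ g = gen p q 0 ∨ g = gen p q 2 ∨ g = gen p q 2 * gen p q 0 := by
  obtain ⟨i, hi, h⟩ := dihedral_forms _ _ 2 (by norm_num) (gen_sq p q 0) (gen_sq p q 2)
    (Fin3_ca p q) g hg
  have hi2 : i = 0 ∨ i = 1 := by omega
  rcases hi2 with rfl | rfl
  · rw [pow_zero, mul_one] at h
    tauto
  · rw [pow_one, ← mul_assoc, ac_comm, mul_assoc, gen_sq, mul_one] at h
    tauto

theorem minPer_ba {ρ : Tri p q →* Perm X} (hρ : IsMapHom ρ) (x : X) :
    Function.minimalPeriod (⇑(ρ (gen p q 1 * gen p q 0))) x = p := by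
  rw [map_mul]
  exact minPer_swap _ _ p hρ.ab x

theorem minPer_cb {ρ : Tri p q →* Perm X} (hρ : IsMapHom ρ) (x : X) :
    Function.minimalPeriod (⇑(ρ (gen p q 2 * gen p q 1))) x = q := by
  rw [map_mul]
  exact minPer_swap _ _ q hρ.bc x

theorem free_f (hyp : Hyp p q) {ρ : Tri p q →* Perm X} (hρ : IsMapHom ρ) {g : Tri p q}
    (hg : g ∈ fSub p q) (x : X) (h : ρ g x = x) : g = 1 := by
  have hp3 := hyp.hp
  have hper : ∀ x, Function.minimalPeriod (⇑(ρ (gen p q 1) * ρ (gen p q 0))) x = p :=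
    fun x => minPer_swap _ _ p hρ.ab x
  obtain ⟨i, hi, h1 | h1⟩ := mem_fSub (by omega : 0 < p) hg
  · have h2 := (dihedral_free _ _ p hρ.pa hρ.pb hper i hi x).1
    rw [← map_mul, ← map_pow, ← h1] at h2
    rw [h1, h2 h, pow_zero]
  · have h2 := (dihedral_free _ _ p hρ.pa hρ.pb hper i hi x).2
    rw [← map_mul, ← map_pow, ← map_mul, ← h1] at h2
    exact absurd h h2

theorem free_v (hyp : Hyp p q) {ρ : Tri p q →* Perm X} (hρ : IsMapHom ρ) {g : Tri p q}
    (hg : g ∈ vSub p q) (x : X) (h : ρ g x = x) : g = 1 := by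
  have hq3 := hyp.hq
  have hper : ∀ x, Function.minimalPeriod (⇑(ρ (gen p q 2) * ρ (gen p q 1))) x = q :=
    fun x => minPer_swap _ _ q hρ.bc x
  obtain ⟨i, hi, h1 | h1⟩ := mem_vSub (by omega : 0 < q) hg
  · have h2 := (dihedral_free _ _ q hρ.pb hρ.pc hper i hi x).1
    rw [← map_mul, ← map_pow, ← h1] at h2
    rw [h1, h2 h, pow_zero]
  · have h2 := (dihedral_free _ _ q hρ.pb hρ.pc hper i hi x).2
    rw [← map_mul, ← map_pow, ← map_mul, ← h1] at h2
    exact absurd h h2

theorem free_e {ρ : Tri p q →* Perm X} (hρ : IsMapHom ρ) {g : Tri p q}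
    (hg : g ∈ eSub p q) (x : X) (h : ρ g x = x) : g = 1 := by
  have hper : ∀ x, Function.minimalPeriod (⇑(ρ (gen p q 2) * ρ (gen p q 0))) x = 2 :=
    fun x => minPer_swap _ _ 2 hρ.ac x
  rcases mem_eSub hg with h1 | h1 | h1 | h1
  · exact h1
  · rw [h1] at h
    exact absurd h (hρ.pa x).1
  · rw [h1] at h
    exact absurd h (hρ.pc x).1
  · have h2 := (dihedral_free _ _ 2 hρ.pa hρ.pc hper 1 (by norm_num) x).1
    rw [← map_mul, ← map_pow, pow_one, ← h1] at h2
    exact absurd (h2 h) one_ne_zero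

theorem finite_fSub (hyp : Hyp p q) : Finite (fSub p q) := by
  have hp3 := hyp.hp
  exact Finite.of_surjective _
    (Fin3_surj _ _ p (by omega) (gen_sq p q 0) (gen_sq p q 1) (ba_pow p q))

theorem finite_vSub (hyp : Hyp p q) : Finite (vSub p q) := by
  have hq3 := hyp.hq
  exact Finite.of_surjective _
    (Fin3_surj _ _ q (by omega) (gen_sq p q 1) (gen_sq p q 2) (cb_pow p q))

theorem finite_eSub (p q : ℕ) : Finite (eSub p q) :=
  Finite.of_surjective _
    (Fin3_surj _ _ 2 (by norm_num) (gen_sq p q 0) (gen_sq p q 2) (Fin3_ca p q))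

/-- `⟨A,B⟩ = {(BA)^i, A (BA)^i : i < p}` and these `2p` elements are distinct, because they act
differently on any flag `x` of a map -/
theorem card_fSub (hyp : Hyp p q) {ρ : Tri p q →* Perm X} (hρ : IsMapHom ρ) (x : X) :
    Nat.card (fSub p q) = 2 * p := by
  have hp3 := hyp.hp
  exact Fin3_card ρ _ _ p (by omega) (gen_sq p q 0) (gen_sq p q 1) (ba_pow p q) hρ.pa hρ.pb
    (fun x => minPer_swap _ _ p hρ.ab x) x

theorem card_vSub (hyp : Hyp p q) {ρ : Tri p q →* Perm X} (hρ : IsMapHom ρ) (x : X) :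
    Nat.card (vSub p q) = 2 * q := by
  have hq3 := hyp.hq
  exact Fin3_card ρ _ _ q (by omega) (gen_sq p q 1) (gen_sq p q 2) (cb_pow p q) hρ.pb hρ.pc
    (fun x => minPer_swap _ _ q hρ.bc x) x

theorem card_eSub {ρ : Tri p q →* Perm X} (hρ : IsMapHom ρ) (x : X) :
    Nat.card (eSub p q) = 4 :=
  Fin3_card ρ _ _ 2 (by norm_num) (gen_sq p q 0) (gen_sq p q 2) (Fin3_ca p q) hρ.pa hρ.pc
    (fun x => minPer_swap _ _ 2 hρ.ac x) x

theorem face_closed {ρ : Tri p q →* Perm X} {S : Finset X} (hS : FaceSet ρ S) {g : Tri p q}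
    (hg : g ∈ fSub p q) {x : X} (hx : x ∈ S) : ρ g x ∈ S := by
  have hgen : ∀ k ∈ ({gen p q 0, gen p q 1} : Set (Tri p q)), ∀ y ∈ S, ρ k y ∈ S := by
    rintro k (rfl | hk) y hy
    · exact (hS y hy).1
    · rw [Set.mem_singleton_iff] at hk
      subst hk
      exact (hS y hy).2
  have hinv : ∀ k ∈ ({gen p q 0, gen p q 1} : Set (Tri p q)), k⁻¹ = k := by
    rintro k (rfl | hk)
    · exact gen_inv p q 0
    · rw [Set.mem_singleton_iff] at hk
      subst hk
      exact gen_inv p q 1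
  unfold fSub at hg
  induction hg using Subgroup.closure_induction_left with
  | one => simpa using hx
  | mul_left k hk y hy ih =>
    rw [map_mul, Perm.mul_apply]
    exact hgen k hk _ ih
  | inv_mul_cancel k hk y hy ih =>
    rw [hinv k hk, map_mul, Perm.mul_apply]
    exact hgen k hk _ ih

/-- membership in `S` is invariant under `A`, `B` -/
theorem face_iff {ρ : Tri p q →* Perm X} {S : Finset X} (hS : FaceSet ρ S) {g : Tri p q}
    (hg : g ∈ fSub p q) (x : X) : ρ g x ∈ S ↔ x ∈ S := by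
  constructor
  · intro h
    have h1 := face_closed hS (inv_mem hg) h
    rwa [← Perm.mul_apply, ← map_mul, inv_mul_cancel, map_one, Perm.one_apply] at h1
  · exact face_closed hS hg

/-- membership in `S_c` is invariant under `A`, `C` -/
theorem Sc_iff {ρ : Tri p q →* Perm X} {S : Finset X} (hS : FaceSet ρ S) {g : Tri p q}
    (hg : g ∈ eSub p q) (x : X) : ρ g x ∈ Sc ρ S ↔ x ∈ Sc ρ S := by
  have hm : ∀ y : X, y ∈ Sc ρ S ↔ y ∈ S ∧ ρ (gen p q 2) y ∈ S := by
    classical
    intro y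
    unfold Sc
    rw [Finset.mem_filter]
  have hA : ∀ y : X, ρ (gen p q 0) y ∈ Sc ρ S ↔ y ∈ Sc ρ S := by
    intro y
    rw [hm, hm, ← act_ac, face_iff hS (A_mem_fSub p q), face_iff hS (A_mem_fSub p q)]
  have hC : ∀ y : X, ρ (gen p q 2) y ∈ Sc ρ S ↔ y ∈ Sc ρ S := by
    intro y
    rw [hm, hm, act_gen_gen, and_comm]
  rcases mem_eSub hg with h1 | h1 | h1 | h1
  · rw [h1, map_one, Perm.one_apply]
  · rw [h1, hA]
  · rw [h1, hC]
  · rw [h1, map_mul, Perm.mul_apply, hC, hA]

/-- membership in `S_v` is invariant under `B`, `C` -/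
theorem Sv_iff {ρ : Tri p q →* Perm X} {S : Finset X} {g : Tri p q}
    (hg : g ∈ vSub p q) (x : X) : ρ g x ∈ Sv ρ S ↔ x ∈ Sv ρ S := by
  have hm : ∀ y : X, y ∈ Sv ρ S ↔ ∀ g ∈ vSub p q, ρ g y ∈ S := by
    classical
    intro y
    unfold Sv
    rw [Finset.mem_filter]
    constructor
    · exact fun h => h.2
    · intro h
      refine ⟨?_, h⟩
      have h1 := h 1 (one_mem _)
      rwa [map_one, Perm.one_apply] at h1
  rw [hm, hm]
  constructor
  · intro h k hk
    have h1 := h (k * g⁻¹) (mul_mem hk (inv_mem hg))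
    rwa [← Perm.mul_apply, ← map_mul, inv_mul_cancel_right] at h1
  · intro h k hk
    rw [← Perm.mul_apply, ← map_mul]
    exact h _ (mul_mem hk hg)

theorem Sc_subset (ρ : Tri p q →* Perm X) (S : Finset X) : Sc ρ S ⊆ S := by
  classical
  exact Finset.filter_subset _ _

theorem Sv_subset_Sc (ρ : Tri p q →* Perm X) (S : Finset X) : Sv ρ S ⊆ Sc ρ S := by
  classical
  intro x hx
  unfold Sv at hx
  unfold Sc
  rw [Finset.mem_filter] at hx ⊢
  exact ⟨hx.1, hx.2 _ (C_mem_vSub p q)⟩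

end MPbcd198.G
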