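import Pool.Agent.Lib.MP_bcd198_co.G.Sect
import Pool.Agent.Lib.MP_bcd198_co.G.DiscC

/-!
# MP_bcd198_co, stream G, file `IsoQ` (job G_IsoQ)

[5.8] isoperimetric inequality in cyclic quotients.
-/

set_option autoImplicit false

namespace MPbcd198.G

open Equiv

variable {p q : ℕ} {X : Type}

private theorem isoQ_mem_bd (ρ : Tri p q →* Perm X) (S : Finset X) (x : X) :
    x ∈ bd ρ S ↔ x ∈ S ∧ ρ (gen p q 2) x ∉ S := by
  classical
  simp only [bd, Finset.mem_filter]

/-- the integers `i` in `[0, N)` with `k + i` outside `[0, N)` -/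
private theorem isoQ_count (N : ℕ) (k : ℤ) :
    ((Finset.Ico (0 : ℤ) N).filter fun i => ¬ (0 ≤ k + i ∧ k + i < N)).card ≤ k.natAbs := by
  have h1 : ((Finset.Ico (0 : ℤ) N).filter fun i => ¬ (0 ≤ k + i ∧ k + i < N)) ⊆
      Finset.Ico ((N : ℤ) - k) N ∪ Finset.Ico 0 (-k) := by
    intro i hi
    rw [Finset.mem_filter, Finset.mem_Ico] at hi
    rw [Finset.mem_union, Finset.mem_Ico, Finset.mem_Ico]
    by_cases h : 0 ≤ k + i
    · left
      have : ¬ k + i < N := fun h2 => hi.2 ⟨h, h2⟩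
      omega
    · right
      omega
  refine (Finset.card_le_card h1).trans ((Finset.card_union_le _ _).trans ?_)
  rw [Int.card_Ico, Int.card_Ico]
  omega

/-- [5.8] linear isoperimetric inequality in a cyclic quotient.

PROOF.  `s` from `exists_section` for `H = fSub` (`free_f`).  For `y`, `C s(y) = s(C y) γ^{k(y)}`
(`exists_zpow`).  For `N ≥ 1` let `S_N = {s(y) γ^i : y ∈ S, 0 ≤ i < N}`.  `(y,i) ↦ s(y) γ^i` is
injective (take classes; `γ` has infinite order), so `|S_N| = N |S|`; `S_N` is a face set.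
`C s(y) γ^i = s(Cy) γ^{i + k(y)}` is in `S_N` iff `Cy ∈ S` and `0 ≤ i + k(y) < N`; so
`|bd S_N| ≤ N |bd S| + Σ_{y ∈ S} |k(y)|`.  `iso_self` for `S_N`:
`N kap |S| ≤ 3 N |bd S| + 3 Σ|k|` for all `N`. -/
theorem isoperimetry (hyp : Hyp p q) (hmap : IsMapHom (selfHom p q)) (γ : Tri p q)
    (hγ : ∀ n : ℤ, n ≠ 0 → γ ^ n ≠ 1)
    (hm : IsMapHom (cosetHom (Subgroup.zpowers γ)))
    (S : Finset (Tri p q ⧸ Subgroup.zpowers γ))
    (hS : FaceSet (cosetHom (Subgroup.zpowers γ)) S) :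
    kap p q * S.card ≤ 3 * (bd (cosetHom (Subgroup.zpowers γ)) S).card := by
  classical
  obtain ⟨s, hs1, hs2⟩ := exists_section (Subgroup.zpowers γ) (fSub p q)
    (fun g hg y hy => free_f hyp hm hg y hy)
  have hk0 : ∀ y, ∃ k : ℤ, gen p q 2 * s y =
      s (cosetHom (Subgroup.zpowers γ) (gen p q 2) y) * γ ^ k := by
    intro y
    apply exists_zpow
    rw [hs1]
    conv_rhs => rw [← hs1 y]
    rfl
  choose k hk using hk0
  have hcl : ∀ (y : Tri p q ⧸ Subgroup.zpowers γ) (i : ℤ),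
      ((s y * γ ^ i : Tri p q) : Tri p q ⧸ Subgroup.zpowers γ) = y := by
    intro y i
    rw [QuotientGroup.mk_mul_of_mem _ (Subgroup.zpow_mem_zpowers γ i), hs1]
  have hinj : Function.Injective
      (fun z : (Tri p q ⧸ Subgroup.zpowers γ) × ℤ => s z.1 * γ ^ z.2) := by
    rintro ⟨y, i⟩ ⟨y', j⟩ h
    have h1 : s y * γ ^ i = s y' * γ ^ j := h
    have h2 : y = y' := by rw [← hcl y i, h1, hcl y' j]
    subst h2
    have h3 : γ ^ i = γ ^ j := mul_left_cancel h1
    have h4 : i = j := by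
      by_contra hne
      apply hγ (i - j) (sub_ne_zero.2 hne)
      rw [zpow_sub, h3, mul_inv_cancel]
    rw [h4]
  have hmem : ∀ (N : ℕ) (y : Tri p q ⧸ Subgroup.zpowers γ) (i : ℤ),
      s y * γ ^ i ∈ (S ×ˢ Finset.Ico (0 : ℤ) N).image
        (fun z : (Tri p q ⧸ Subgroup.zpowers γ) × ℤ => s z.1 * γ ^ z.2) ↔
        y ∈ S ∧ 0 ≤ i ∧ i < N := by
    intro N y i
    rw [Finset.mem_image]
    constructor
    · rintro ⟨z, hz, hzz⟩
      have h1 : z = (y, i) := hinj hzz
      rw [h1, Finset.mem_product, Finset.mem_Ico] at hz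
      exact hz
    · rintro ⟨h1, h2, h3⟩
      exact ⟨(y, i), Finset.mem_product.2 ⟨h1, Finset.mem_Ico.2 ⟨h2, h3⟩⟩, rfl⟩
  have key : ∀ N : ℕ, (N : ℝ) * (kap p q * S.card -
      3 * (bd (cosetHom (Subgroup.zpowers γ)) S).card) ≤
        3 * ((∑ y ∈ S, (k y).natAbs : ℕ) : ℝ) := by
    intro N
    have hface : FaceSet (selfHom p q) ((S ×ˢ Finset.Ico (0 : ℤ) N).image
        (fun z : (Tri p q ⧸ Subgroup.zpowers γ) × ℤ => s z.1 * γ ^ z.2)) := by
      intro x hx
      obtain ⟨⟨y, i⟩, hz, rfl⟩ := Finset.mem_image.1 hx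
      rw [Finset.mem_product, Finset.mem_Ico] at hz
      constructor
      · rw [selfHom_apply, ← mul_assoc, ← hs2 _ (A_mem_fSub p q), hmem]
        exact ⟨(hS y hz.1).1, hz.2⟩
      · rw [selfHom_apply, ← mul_assoc, ← hs2 _ (B_mem_fSub p q), hmem]
        exact ⟨(hS y hz.1).2, hz.2⟩
    have hiso := iso_self hyp hmap _ hface
    rw [Finset.card_image_of_injective _ hinj, Finset.card_product, Int.card_Ico] at hiso
    have hbd : (bd (selfHom p q) ((S ×ˢ Finset.Ico (0 : ℤ) N).image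
        (fun z : (Tri p q ⧸ Subgroup.zpowers γ) × ℤ => s z.1 * γ ^ z.2))).card ≤
        N * (bd (cosetHom (Subgroup.zpowers γ)) S).card + ∑ y ∈ S, (k y).natAbs := by
      have hsub : bd (selfHom p q) ((S ×ˢ Finset.Ico (0 : ℤ) N).image
          (fun z : (Tri p q ⧸ Subgroup.zpowers γ) × ℤ => s z.1 * γ ^ z.2)) ⊆
          ((bd (cosetHom (Subgroup.zpowers γ)) S ×ˢ Finset.Ico (0 : ℤ) N) ∪
            S.biUnion fun y => ((Finset.Ico (0 : ℤ) N).filter
              fun i => ¬ (0 ≤ k y + i ∧ k y + i < N)).image fun i => (y, i)).image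
              (fun z : (Tri p q ⧸ Subgroup.zpowers γ) × ℤ => s z.1 * γ ^ z.2) := by
        intro x hx
        rw [isoQ_mem_bd] at hx
        obtain ⟨hx1, hx2⟩ := hx
        obtain ⟨⟨y, i⟩, hz, rfl⟩ := Finset.mem_image.1 hx1
        rw [selfHom_apply, ← mul_assoc, hk, mul_assoc, ← zpow_add, hmem] at hx2
        apply Finset.mem_image_of_mem
        rw [Finset.mem_product] at hz
        rw [Finset.mem_union]
        by_cases hy : cosetHom (Subgroup.zpowers γ) (gen p q 2) y ∈ S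
        · right
          rw [Finset.mem_biUnion]
          refine ⟨y, hz.1, Finset.mem_image.2 ⟨i, Finset.mem_filter.2 ⟨hz.2, ?_⟩, rfl⟩⟩
          exact fun h => hx2 ⟨hy, h⟩
        · left
          rw [Finset.mem_product, isoQ_mem_bd]
          exact ⟨⟨hz.1, hy⟩, hz.2⟩
      refine (Finset.card_le_card hsub).trans (Finset.card_image_le.trans
        ((Finset.card_union_le _ _).trans ?_))
      rw [Finset.card_product, Int.card_Ico]
      have h5 : (S.biUnion fun y => ((Finset.Ico (0 : ℤ) N).filter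
          fun i => ¬ (0 ≤ k y + i ∧ k y + i < N)).image
            fun i => (y, i)).card ≤ ∑ y ∈ S, (k y).natAbs := by
        refine Finset.card_biUnion_le.trans (Finset.sum_le_sum fun y _ => ?_)
        exact Finset.card_image_le.trans (isoQ_count N (k y))
      have h6 : ((N : ℤ) - 0).toNat = N := by simp
      rw [h6, mul_comm]
      omega
    have h6 : ((N : ℤ) - 0).toNat = N := by simp
    rw [h6] at hiso
    have hbd' : ((bd (selfHom p q) ((S ×ˢ Finset.Ico (0 : ℤ) N).image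
        (fun z : (Tri p q ⧸ Subgroup.zpowers γ) × ℤ => s z.1 * γ ^ z.2))).card : ℝ) ≤
        N * (bd (cosetHom (Subgroup.zpowers γ)) S).card +
          ((∑ y ∈ S, (k y).natAbs : ℕ) : ℝ) := by
      exact_mod_cast hbd
    push_cast at hiso hbd' ⊢
    nlinarith
  by_contra hcon
  have hpos : 0 < kap p q * S.card - 3 * (bd (cosetHom (Subgroup.zpowers γ)) S).card := by
    linarith [not_le.1 hcon]
  obtain ⟨N, hN⟩ := exists_nat_gt (3 * ((∑ y ∈ S, (k y).natAbs : ℕ) : ℝ) /
    (kap p q * S.card - 3 * (bd (cosetHom (Subgroup.zpowers γ)) S).card))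
  rw [div_lt_iff₀ hpos] at hN
  linarith [key N]

end MPbcd198.G
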