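import Pool.Agent.Lib.MP_bcd198_co.G.Chain

/-!
# MP_bcd198_co, stream G, file `PolyA` (job G_PolyA)

[5.6] polygons in the tiling: first part.
-/

set_option autoImplicit false

namespace MPbcd198.G

open Equiv

variable {p q : ℕ} {X : Type}

/-- a polygon of length `n`: flags `x i` (indices mod `n`), `x (i+1)` in the vertex of `A x i`,
distinct vertices, and for `n = 2` distinct edges -/
structure IsPoly (p q n : ℕ) (x : ℕ → Tri p q) : Prop where
  hn : 0 < n
  per : ∀ i, x (i + n) = x i
  step : ∀ i, ∃ g ∈ vSub p q, x (i + 1) = g * gen p q 0 * x i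
  dist : ∀ i < n, ∀ j < n, i ≠ j → ∀ g ∈ vSub p q, x j ≠ g * x i
  two : n = 2 → x 1 ≠ gen p q 0 * x 0 ∧ x 1 ≠ gen p q 2 * gen p q 0 * x 0

private theorem polyA_AA (p q : ℕ) (x : Tri p q) : gen p q 0 * (gen p q 0 * x) = x := by
  rw [← mul_assoc, gen_sq, one_mul]

private theorem polyA_CC (p q : ℕ) (x : Tri p q) : gen p q 2 * (gen p q 2 * x) = x := by
  rw [← mul_assoc, gen_sq, one_mul]

private theorem polyA_AC (p q : ℕ) (x : Tri p q) :
    gen p q 0 * (gen p q 2 * x) = gen p q 2 * (gen p q 0 * x) := by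
  rw [← mul_assoc, ac_comm, mul_assoc]

private theorem polyA_mod {n : ℕ} {x : ℕ → Tri p q} (h : IsPoly p q n x) (k : ℕ) :
    x (k % n) = x k := by
  have h1 : ∀ m k, x (k + n * m) = x k := by
    intro m
    induction m with
    | zero => intro k; simp
    | succ m ih =>
      intro k
      rw [Nat.mul_succ, ← add_assoc, h.per, ih]
  conv_rhs => rw [← Nat.mod_add_div k n]
  rw [h1]

private theorem polyA_cong {n : ℕ} {x : ℕ → Tri p q} (h : IsPoly p q n x) (k l : ℕ)
    (hkl : ∃ g ∈ vSub p q, x l = g * x k) : k % n = l % n := by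
  by_contra hne
  obtain ⟨g, hg, e⟩ := hkl
  refine h.dist (k % n) (Nat.mod_lt _ h.hn) (l % n) (Nat.mod_lt _ h.hn) hne g hg ?_
  rw [polyA_mod h, polyA_mod h, e]

private theorem polyA_succ_mod {n i : ℕ} (hi : i < n) :
    (i + 1 < n ∧ (i + 1) % n = i + 1) ∨ (i + 1 = n ∧ (i + 1) % n = 0) := by
  rcases Nat.lt_or_ge (i + 1) n with h | h
  · exact Or.inl ⟨h, Nat.mod_eq_of_lt h⟩
  · have : i + 1 = n := by omega
    exact Or.inr ⟨this, by rw [this, Nat.mod_self]⟩

/-- The edges of a polygon are distinct: for `i ≠ j < n`, `x j` is not one of the four flags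
`x i, A x i, C x i, C A x i`.

PROOF.  `x j ≠ x i, C x i` by `dist`.  If `x j ∈ {A x i, C A x i}` then `x j` and `x (i+1)` are in the
same vertex, so `j ≡ i+1 mod n`; and `x (j+1)` is in the vertex of `A x j ∈ {x i, C x i}`, so
`j + 1 ≡ i mod n`; hence `n ∣ 2`, `n = 2` (as `i ≠ j`), and `two` is violated (if `i = 0, j = 1`
directly; if `i = 1, j = 0`: `x 0 = A x 1` gives `x 1 = A x 0`, `x 0 = C A x 1` gives
`x 1 = A C x 0 = C A x 0`). -/
theorem poly_edges {n : ℕ} {x : ℕ → Tri p q} (h : IsPoly p q n x) (i j : ℕ) (hi : i < n)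
    (hj : j < n) (hij : i ≠ j) : edgeInd (x i) (x j) = 0 := by
  have key : ∀ z : Tri p q, (z = gen p q 0 * x i ∨ z = gen p q 2 * gen p q 0 * x i) →
      x j ≠ z := by
    intro z hz hxz
    subst z
    -- the two congruences
    have c1 : (i + 1) % n = j % n := by
      apply polyA_cong h
      obtain ⟨g, hg, e⟩ := h.step i
      rcases hz with hz | hz
      · refine ⟨g⁻¹, inv_mem hg, ?_⟩
        rw [e, hz, mul_assoc g, inv_mul_cancel_left]
      · refine ⟨gen p q 2 * g⁻¹, mul_mem (C_mem_vSub p q) (inv_mem hg), ?_⟩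
        rw [e, hz, mul_assoc g, mul_assoc (gen p q 2) g⁻¹, inv_mul_cancel_left, mul_assoc]
    have c2 : (j + 1) % n = i % n := by
      apply polyA_cong h
      obtain ⟨g, hg, e⟩ := h.step j
      rcases hz with hz | hz
      · refine ⟨g⁻¹, inv_mem hg, ?_⟩
        rw [e, hz, mul_assoc g, inv_mul_cancel_left, polyA_AA]
      · refine ⟨gen p q 2 * g⁻¹, mul_mem (C_mem_vSub p q) (inv_mem hg), ?_⟩
        rw [e, hz, mul_assoc g, mul_assoc (gen p q 2) g⁻¹, inv_mul_cancel_left,
          mul_assoc (gen p q 2), polyA_AC, polyA_AA, polyA_CC]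
    rw [Nat.mod_eq_of_lt hj] at c1
    rw [Nat.mod_eq_of_lt hi] at c2
    have s1 := polyA_succ_mod hi
    have s2 := polyA_succ_mod hj
    have hn2 : n = 2 := by omega
    have htwo := h.two hn2
    have hcase : (i = 0 ∧ j = 1) ∨ (i = 1 ∧ j = 0) := by omega
    rcases hcase with ⟨rfl, rfl⟩ | ⟨rfl, rfl⟩
    · rcases hz with hz | hz
      · exact htwo.1 hz
      · exact htwo.2 hz
    · rcases hz with hz | hz
      · apply htwo.1
        rw [hz, polyA_AA]
      · apply htwo.2
        rw [hz, mul_assoc, mul_assoc, polyA_AC, polyA_AA, polyA_CC]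
  unfold edgeInd
  rw [if_neg]
  rintro (e | e | e | e)
  · exact h.dist i hi j hj hij 1 (one_mem _) (by rw [e, one_mul])
  · exact key _ (Or.inl rfl) e
  · exact h.dist i hi j hj hij _ (C_mem_vSub p q) e
  · exact key _ (Or.inr rfl) e

open Classical in
/-- indicator of `{z, Cz}` -/
noncomputable def pairInd (z : Tri p q) : Tri p q → ZMod 2 := fun y =>
  if y = z ∨ y = gen p q 2 * z then 1 else 0

private theorem polyA_A_ne (hmap : IsMapHom (selfHom p q)) : gen p q 0 ≠ 1 := by
  intro e
  have := (hmap.pa 1).1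
  rw [selfHom_apply, e, one_mul] at this
  exact this rfl

private theorem polyA_C_ne (hmap : IsMapHom (selfHom p q)) : gen p q 2 ≠ 1 := by
  intro e
  have := (hmap.pc 1).1
  rw [selfHom_apply, e, one_mul] at this
  exact this rfl

private theorem polyA_AC_ne (hmap : IsMapHom (selfHom p q)) :
    gen p q 0 * gen p q 2 ≠ 1 := by
  intro e
  have h1 := hmap.ac 1
  rw [← map_mul, e, map_one] at h1
  have : Function.minimalPeriod (⇑(1 : Perm (Tri p q))) 1 = 1 := by
    rw [Function.minimalPeriod_eq_one_iff_isFixedPt]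
    rfl
  omega

/-- the two pairs of an edge are disjoint (freeness of `⟨A,C⟩`) -/
theorem edgeInd_eq (hmap : IsMapHom (selfHom p q)) (x y : Tri p q) :
    edgeInd x y = pairInd x y + pairInd (gen p q 0 * x) y := by
  have n1 : gen p q 0 * x ≠ x := by
    intro e
    exact polyA_A_ne hmap (by simpa using e)
  have n2 : gen p q 2 * (gen p q 0 * x) ≠ x := by
    intro e
    apply polyA_AC_ne hmap
    rw [ac_comm]
    rw [← mul_assoc] at e
    simpa using e
  have n3 : gen p q 0 * x ≠ gen p q 2 * x := by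
    intro e
    apply n2
    rw [e, polyA_CC]
  have n4 : gen p q 2 * (gen p q 0 * x) ≠ gen p q 2 * x := by
    intro e
    exact n1 (mul_left_cancel e)
  unfold edgeInd pairInd
  by_cases h1 : y = x ∨ y = gen p q 2 * x
  · have h2 : ¬ (y = gen p q 0 * x ∨ y = gen p q 2 * (gen p q 0 * x)) := by
      rintro (rfl | rfl) <;> rcases h1 with h1 | h1
      · exact n1 h1
      · exact n3 h1
      · exact n2 h1
      · exact n4 h1
    rw [if_pos h1, if_neg h2, if_pos, add_zero]
    rcases h1 with h1 | h1
    · exact Or.inl h1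
    · exact Or.inr (Or.inr (Or.inl h1))
  · by_cases h2 : y = gen p q 0 * x ∨ y = gen p q 2 * (gen p q 0 * x)
    · rw [if_neg h1, if_pos h2, if_pos, zero_add]
      rcases h2 with h2 | h2
      · exact Or.inr (Or.inl h2)
      · exact Or.inr (Or.inr (Or.inr (by rw [h2, mul_assoc])))
    · rw [if_neg h1, if_neg h2, if_neg, add_zero]
      rintro (h | h | h | h)
      · exact h1 (Or.inl h)
      · exact h2 (Or.inl h)
      · exact h1 (Or.inr h)
      · exact h2 (Or.inr (by rw [h, mul_assoc]))

private theorem polyA_free (_hyp : Hyp p q) (hmap : IsMapHom (selfHom p q)) (i : ℕ)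
    (hi : i < q) :
    ((gen p q 2 * gen p q 1) ^ i = 1 → i = 0) ∧
      gen p q 1 * (gen p q 2 * gen p q 1) ^ i ≠ 1 := by
  have hst : ∀ x : Tri p q, Function.minimalPeriod
      (⇑(selfHom p q (gen p q 2) * selfHom p q (gen p q 1))) x = q := by
    intro x
    rw [← map_mul]
    exact minPer_cb hmap x
  have h := dihedral_free (selfHom p q (gen p q 1)) (selfHom p q (gen p q 2)) q hmap.pb
    hmap.pc hst i hi 1
  rw [← map_mul, ← map_pow, ← map_mul, selfHom_apply, selfHom_apply, mul_one, mul_one] at h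
  exact h

private theorem polyA_pow_mod (p q i : ℕ) :
    (gen p q 2 * gen p q 1) ^ (i % q) = (gen p q 2 * gen p q 1) ^ i := by
  conv_rhs => rw [← Nat.mod_add_div i q, pow_add, pow_mul, cb_pow, one_pow, mul_one]

private theorem polyA_uniq (hyp : Hyp p q) (hmap : IsMapHom (selfHom p q)) (y z : Tri p q)
    (i j : ℕ) (hi : i < q) (hj : j < q)
    (h1 : (gen p q 2 * gen p q 1) ^ i * y = z ∨
      (gen p q 2 * gen p q 1) ^ i * y = gen p q 2 * z)
    (h2 : (gen p q 2 * gen p q 1) ^ j * y = z ∨
      (gen p q 2 * gen p q 1) ^ j * y = gen p q 2 * z) : i = j := by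
  obtain ⟨R, hR⟩ : ∃ R, R = gen p q 2 * gen p q 1 := ⟨_, rfl⟩
  -- equal rotations
  have same : ∀ i j : ℕ, i < q → j < q → R ^ i * y = R ^ j * y → i = j := by
    have aux : ∀ i j : ℕ, i ≤ j → i < q → j < q → R ^ i * y = R ^ j * y → i = j := by
      intro i j hij hi hj e
      have e1 : R ^ i = R ^ j := mul_right_cancel e
      have e2 : R ^ (j - i) = 1 := by
        have : R ^ j = R ^ (j - i) * R ^ i := by rw [← pow_add]; congr 1; omega
        rw [this] at e1
        exact (mul_eq_right.1 e1.symm)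
      rw [hR] at e2
      have := (polyA_free hyp hmap (j - i) (by omega)).1 e2
      omega
    intro i j hi hj e
    rcases le_total i j with hij | hij
    · exact aux i j hij hi hj e
    · exact (aux j i hij hj hi e.symm).symm
  have diff : ∀ i j : ℕ, i < q → j < q → R ^ i * y ≠ gen p q 2 * (R ^ j * y) := by
    intro i j hi hj e
    have e1 : R ^ i = gen p q 2 * R ^ j := by
      rw [← mul_assoc] at e
      exact mul_right_cancel e
    have hq : 0 < q := by omega
    have hRq : R ^ q = 1 := by rw [hR]; exact cb_pow p q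
    have e2 : gen p q 2 * R ^ (j + (q - i)) = 1 := by
      have : R ^ i * R ^ (q - i) = 1 := by
        rw [← pow_add]
        have : i + (q - i) = q := by omega
        rw [this, hRq]
      rw [e1, mul_assoc, ← pow_add] at this
      exact this
    have e3 : gen p q 1 * R ^ ((j + (q - i) - 1) % q) = 1 := by
      rw [hR, polyA_pow_mod, ← hR]
      have h4 : j + (q - i) = (j + (q - i) - 1) + 1 := by omega
      rw [h4, pow_succ', hR, ← mul_assoc, ← mul_assoc, gen_sq, one_mul, ← hR] at e2
      exact e2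
    rw [hR] at e3
    exact (polyA_free hyp hmap _ (Nat.mod_lt _ hq)).2 e3
  rw [← hR] at h1 h2
  rcases h1 with h1 | h1 <;> rcases h2 with h2 | h2
  · exact same i j hi hj (h1.trans h2.symm)
  · exfalso
    apply diff j i hj hi
    rw [h1, h2]
  · exfalso
    apply diff i j hi hj
    rw [h1, h2]
  · exact same i j hi hj (h1.trans h2.symm)

open Classical in
/-- Number of `i < q` with `(CB)^i y ∈ {z, Cz}`: one if `y` is in the vertex of `z`, zero otherwise
(as an element of `ZMod 2`, for the indicator function of `{z, Cz}`).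

PROOF.  If some `(CB)^i y` is `z` or `Cz` then `y = g z`, `g ∈ vSub`.  Conversely if `z = g y` with
`g ∈ vSub` then by `mem_vSub` `g = (CB)^k` or `g = B (CB)^k`; in the second case
`C z = (CB)^{k+1} y` (and `(CB)^q = 1`).  Uniqueness of `i`: `(CB)^i y = (CB)^j y` forces `i = j`,
and `(CB)^i y = C (CB)^j y` is impossible (freeness: `C (CB)^k ≠ 1` for all `k`, see
`dihedral_free`). -/
theorem vertex_count (hyp : Hyp p q) (hmap : IsMapHom (selfHom p q)) (y z : Tri p q) :
    (∑ i ∈ Finset.range q, pairInd z ((gen p q 2 * gen p q 1) ^ i * y)) =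
      if ∃ g ∈ vSub p q, y = g * z then 1 else 0 := by
  have hq : 0 < q := by have := hyp.hq; omega
  have hRv : ∀ i : ℕ, (gen p q 2 * gen p q 1) ^ i ∈ vSub p q := fun i =>
    pow_mem (mul_mem (C_mem_vSub p q) (B_mem_vSub p q)) i
  by_cases h : ∃ g ∈ vSub p q, y = g * z
  · rw [if_pos h]
    obtain ⟨g, hg, rfl⟩ := h
    have hex : ∃ i < q, (gen p q 2 * gen p q 1) ^ i * (g * z) = z ∨
        (gen p q 2 * gen p q 1) ^ i * (g * z) = gen p q 2 * z := by
      obtain ⟨k, hk, e | e⟩ := mem_vSub hq (inv_mem hg)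
      · refine ⟨k, hk, Or.inl ?_⟩
        rw [← e, inv_mul_cancel_left]
      · refine ⟨(k + 1) % q, Nat.mod_lt _ hq, Or.inr ?_⟩
        rw [polyA_pow_mod, pow_succ', mul_assoc (gen p q 2) (gen p q 1), ← e, mul_assoc,
          inv_mul_cancel_left]
    obtain ⟨i, hi, hi2⟩ := hex
    rw [Finset.sum_eq_single i]
    · unfold pairInd
      rw [if_pos hi2]
    · intro j hj hji
      unfold pairInd
      rw [if_neg]
      intro hj2
      exact hji (polyA_uniq hyp hmap _ z j i (Finset.mem_range.1 hj) hi hj2 hi2)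
    · intro hi3
      exact absurd (Finset.mem_range.2 hi) hi3
  · rw [if_neg h]
    apply Finset.sum_eq_zero
    intro i _
    unfold pairInd
    rw [if_neg]
    rintro (e | e)
    · apply h
      refine ⟨((gen p q 2 * gen p q 1) ^ i)⁻¹, inv_mem (hRv i), ?_⟩
      rw [← e, inv_mul_cancel_left]
    · apply h
      refine ⟨((gen p q 2 * gen p q 1) ^ i)⁻¹ * gen p q 2,
        mul_mem (inv_mem (hRv i)) (C_mem_vSub p q), ?_⟩
      rw [mul_assoc, ← e, inv_mul_cancel_left]

/-- The chain of the edges of a polygon: `ζ = Σ_{j<n} edgeInd (x j)` has even degree at every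
vertex: `Σ_{i<q} ζ((CB)^i y) = Σ_j [y ∈ v(x j)] + Σ_j [y ∈ v(A x j)]`
`= Σ_j [y ∈ v(x j)] + Σ_j [y ∈ v(x (j+1))] = 0` in `ZMod 2` (`edgeInd z` is the sum of the indicators
of `{z, Cz}` and of `{Az, CAz}`, which are disjoint). -/
theorem poly_even (hyp : Hyp p q) (hmap : IsMapHom (selfHom p q)) {n : ℕ} {x : ℕ → Tri p q}
    (h : IsPoly p q n x) (y : Tri p q) :
    ∑ i ∈ Finset.range q, ∑ j ∈ Finset.range n,
      edgeInd (x j) ((gen p q 2 * gen p q 1) ^ i * y) = 0 := by
  classical
  rw [Finset.sum_comm]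
  obtain ⟨f, hf⟩ : ∃ f : ℕ → ZMod 2, f = fun j => if ∃ g ∈ vSub p q, y = g * x j then 1 else 0 :=
    ⟨_, rfl⟩
  have h1 : ∀ j, ∑ i ∈ Finset.range q,
      edgeInd (x j) ((gen p q 2 * gen p q 1) ^ i * y) = f j + f (j + 1) := by
    intro j
    simp only [edgeInd_eq hmap]
    rw [Finset.sum_add_distrib, vertex_count hyp hmap, vertex_count hyp hmap, hf]
    congr 1
    obtain ⟨g, hg, e⟩ := h.step j
    have hiff : (∃ g' ∈ vSub p q, y = g' * (gen p q 0 * x j)) ↔
        ∃ g' ∈ vSub p q, y = g' * x (j + 1) := by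
      constructor
      · rintro ⟨g', hg', rfl⟩
        refine ⟨g' * g⁻¹, mul_mem hg' (inv_mem hg), ?_⟩
        rw [e, mul_assoc g, mul_assoc, inv_mul_cancel_left]
      · rintro ⟨g', hg', rfl⟩
        refine ⟨g' * g, mul_mem hg' hg, ?_⟩
        rw [e, mul_assoc g, mul_assoc]
    simp only [hiff]
  rw [Finset.sum_congr rfl fun j _ => h1 j, Finset.sum_add_distrib]
  have h2 : f n = f 0 := by
    have := h.per 0
    rw [zero_add] at this
    rw [hf]
    simp only [this]
  have h3 : ∑ j ∈ Finset.range n, f (j + 1) = ∑ j ∈ Finset.range n, f j := by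
    have e1 := Finset.sum_range_succ f n
    have e2 := Finset.sum_range_succ' f n
    rw [e1, h2] at e2
    exact (add_right_cancel e2).symm
  rw [h3]
  exact CharTwo.add_self_eq_zero _

private theorem polyA_ind_A (z y : Tri p q) : edgeInd z (gen p q 0 * y) = edgeInd z y := by
  have : (gen p q 0 * y = z ∨ gen p q 0 * y = gen p q 0 * z ∨ gen p q 0 * y = gen p q 2 * z ∨
      gen p q 0 * y = gen p q 2 * gen p q 0 * z) ↔
      (y = z ∨ y = gen p q 0 * z ∨ y = gen p q 2 * z ∨ y = gen p q 2 * gen p q 0 * z) := by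
    constructor
    · rintro (e | e | e | e)
      · right; left
        rw [← e, polyA_AA]
      · left
        exact mul_left_cancel e
      · right; right; right
        rw [mul_assoc, ← polyA_AC, ← e, polyA_AA]
      · right; right; left
        rw [mul_assoc, ← polyA_AC] at e
        have := mul_left_cancel e
        exact this
    · rintro (e | e | e | e)
      · right; left
        rw [e]
      · left
        rw [e, polyA_AA]
      · right; right; right
        rw [e, polyA_AC, mul_assoc]
      · right; right; left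
        rw [e, mul_assoc, polyA_AC, polyA_AA]
  classical
  unfold edgeInd
  by_cases hc : y = z ∨ y = gen p q 0 * z ∨ y = gen p q 2 * z ∨ y = gen p q 2 * gen p q 0 * z
  · rw [if_pos hc, if_pos (this.2 hc)]
  · rw [if_neg hc, if_neg (fun h => hc (this.1 h))]

private theorem polyA_ind_C (z y : Tri p q) : edgeInd z (gen p q 2 * y) = edgeInd z y := by
  have : (gen p q 2 * y = z ∨ gen p q 2 * y = gen p q 0 * z ∨ gen p q 2 * y = gen p q 2 * z ∨
      gen p q 2 * y = gen p q 2 * gen p q 0 * z) ↔
      (y = z ∨ y = gen p q 0 * z ∨ y = gen p q 2 * z ∨ y = gen p q 2 * gen p q 0 * z) := by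
    constructor
    · rintro (e | e | e | e)
      · right; right; left
        rw [← e, polyA_CC]
      · right; right; right
        rw [mul_assoc, ← e, polyA_CC]
      · left
        exact mul_left_cancel e
      · right; left
        rw [mul_assoc] at e
        exact mul_left_cancel e
    · rintro (e | e | e | e)
      · right; right; left
        rw [e]
      · right; right; right
        rw [e, mul_assoc]
      · left
        rw [e, polyA_CC]
      · right; left
        rw [e, mul_assoc, polyA_CC]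
  classical
  unfold edgeInd
  by_cases hc : y = z ∨ y = gen p q 0 * z ∨ y = gen p q 2 * z ∨ y = gen p q 2 * gen p q 0 * z
  · rw [if_pos hc, if_pos (this.2 hc)]
  · rw [if_neg hc, if_neg (fun h => hc (this.1 h))]

/-- The region bounded by a polygon: a finite face set `T` with
`1_T(y) + 1_T(Cy) = Σ_{j<n} edgeInd (x j) y`.  By `chain`. -/
theorem poly_region (hyp : Hyp p q) (hmap : IsMapHom (selfHom p q)) {n : ℕ} {x : ℕ → Tri p q}
    (h : IsPoly p q n x) : ∃ T : Finset (Tri p q), FaceSet (selfHom p q) T ∧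
      ∀ y, ind T y + ind T (gen p q 2 * y) = ∑ j ∈ Finset.range n, edgeInd (x j) y := by
  classical
  obtain ⟨T, hT, hT2⟩ := chain hyp hmap (fun y => ∑ j ∈ Finset.range n, edgeInd (x j) y)
    (by
      have hsub : {y : Tri p q | (∑ j ∈ Finset.range n, edgeInd (x j) y) ≠ 0} ⊆
          ⋃ j ∈ Finset.range n, {x j, gen p q 0 * x j, gen p q 2 * x j,
            gen p q 2 * gen p q 0 * x j} := by
        intro y hy
        obtain ⟨j, hj, hj2⟩ := Finset.exists_ne_zero_of_sum_ne_zero hy
        simp only [Set.mem_iUnion]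
        refine ⟨j, hj, ?_⟩
        by_contra hn
        apply hj2
        unfold edgeInd
        rw [if_neg]
        simpa using hn
      refine Set.Finite.subset ?_ hsub
      apply Set.Finite.biUnion (Finset.finite_toSet _)
      intro j _
      exact Set.toFinite _)
    (fun y => by simp only [polyA_ind_A])
    (fun y => by simp only [polyA_ind_C])
    (fun y => poly_even hyp hmap h y)
  exact ⟨T, hT, fun y => (hT2 y).symm⟩

end MPbcd198.G
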