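import Pool.Agent.Lib.MP_bcd198_co.G.PolyA
import Pool.Agent.Lib.MP_bcd198_co.G.DiscB

/-!
# MP_bcd198_co, stream G, file `PolyL` (job G_PolyL)

[5.6] polygons: the bounded region and the length.
-/

set_option autoImplicit false

namespace MPbcd198.G

open Equiv

variable {p q : ℕ} {X : Type}

open Classical in
private theorem edgeInd_iff (x y : Tri p q) :
    edgeInd x y = if ∃ g ∈ eSub p q, y = g * x then 1 else 0 := by
  unfold edgeInd
  congr 1
  apply propext
  constructor
  · rintro (h | h | h | h)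
    · exact ⟨1, one_mem _, by rw [h, one_mul]⟩
    · exact ⟨_, A_mem_eSub p q, h⟩
    · exact ⟨_, C_mem_eSub p q, h⟩
    · exact ⟨_, mul_mem (C_mem_eSub p q) (A_mem_eSub p q), h⟩
  · rintro ⟨g, hg, h⟩
    rcases mem_eSub hg with rfl | rfl | rfl | rfl
    · left; rw [h, one_mul]
    · right; left; exact h
    · right; right; left; exact h
    · right; right; right; exact h

/-- `y` in the edge of `x` -/
private def inE (x y : Tri p q) : Prop := ∃ g ∈ eSub p q, y = g * x

private theorem edge_one {x y : Tri p q} (h : inE x y) : edgeInd x y = 1 := by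
  rw [edgeInd_iff]
  exact if_pos h

private theorem edge_zero {x y : Tri p q} (h : ¬ inE x y) : edgeInd x y = 0 := by
  rw [edgeInd_iff]
  exact if_neg h

private theorem sum_edges {n : ℕ} {x : ℕ → Tri p q} (h : IsPoly p q n x) (i : ℕ) (hi : i < n)
    (y : Tri p q) (hy : inE (x i) y) : ∑ j ∈ Finset.range n, edgeInd (x j) y = 1 := by
  rw [Finset.sum_eq_single i]
  · exact edge_one hy
  · intro j hj hji
    apply edge_zero
    rintro ⟨g', hg', hy'⟩
    obtain ⟨g, hg, hyg⟩ := hy
    have h0 := poly_edges h i j hi (Finset.mem_range.mp hj) (Ne.symm hji)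
    have h1 : inE (x i) (x j) := by
      refine ⟨g'⁻¹ * g, mul_mem (inv_mem hg') hg, ?_⟩
      rw [mul_assoc, ← hyg, hy']
      group
    rw [edge_one h1] at h0
    exact one_ne_zero h0
  · intro h'
    exact absurd (Finset.mem_range.mpr hi) h'

private theorem sum_edges_zero {n : ℕ} {x : ℕ → Tri p q}
    (y : Tri p q) (hy : ∀ i < n, ¬ inE (x i) y) : ∑ j ∈ Finset.range n, edgeInd (x j) y = 0 :=
  Finset.sum_eq_zero fun j hj => edge_zero (hy j (Finset.mem_range.mp hj))

private theorem ind_cases (T : Finset (Tri p q)) (y z : Tri p q) (h : ind T y + ind T z = 1) :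
    (y ∈ T ∧ z ∉ T) ∨ (y ∉ T ∧ z ∈ T) := by
  unfold ind at h
  by_cases h1 : y ∈ T
  · by_cases h2 : z ∈ T
    · rw [if_pos h1, if_pos h2] at h
      exact absurd h (by decide)
    · exact Or.inl ⟨h1, h2⟩
  · by_cases h2 : z ∈ T
    · exact Or.inr ⟨h1, h2⟩
    · rw [if_neg h1, if_neg h2] at h
      exact absurd h (by decide)

private theorem ind_one (T : Finset (Tri p q)) (y z : Tri p q) (h1 : y ∈ T) (h2 : z ∉ T) :
    ind T y + ind T z = 1 := by
  unfold ind
  rw [if_pos h1, if_neg h2, add_zero]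

/-- For such a region: `T` is nonempty, `|bd T| = 2 n`, `chiInt T ≥ 1`.

PROOF.  By `poly_edges` the `n` edges are disjoint sets of four flags, so the right hand side is
the indicator of a set `Z` of `4n` flags.  `y ∈ Z` iff exactly one of `y`, `Cy` is in `T`, so
`bd T = Z ∩ T`, and `C` maps `Z ∩ T` onto `Z \ T`: `|bd T| = 2n`.
`disc` with `R = {x 0}`: by `walk_to_bd` every flag outside `S_v` is joined to some `r ∈ bd T ⊆ Z`,
`r ∈ {x i, A x i, C x i, C A x i}`; `r` is joined to `x i` or to `A x i` by a `C`-step, `A x i` to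
`x i` by an `A`-step (`A x i ∉ S_c` because `A x i ∈ Z`), and `x i` to `x (i+1)` by `A` and steps in
the vertex; so everything is joined to `x 0`. -/
theorem poly_chi (hyp : Hyp p q) (hmap : IsMapHom (selfHom p q)) {n : ℕ} {x : ℕ → Tri p q}
    (h : IsPoly p q n x) (T : Finset (Tri p q)) (hT : FaceSet (selfHom p q) T)
    (hζ : ∀ y, ind T y + ind T (gen p q 2 * y) = ∑ j ∈ Finset.range n, edgeInd (x j) y) :
    T.Nonempty ∧ (bd (selfHom p q) T).card = 2 * n ∧ 1 ≤ chiInt (selfHom p q) T := by
  classical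
  have hAA : ∀ z : Tri p q, gen p q 0 * (gen p q 0 * z) = z := fun z => by
    rw [← mul_assoc, gen_sq, one_mul]
  have hCC : ∀ z : Tri p q, gen p q 2 * (gen p q 2 * z) = z := fun z => by
    rw [← mul_assoc, gen_sq, one_mul]
  have hAC : ∀ z : Tri p q, gen p q 0 * (gen p q 2 * z) = gen p q 2 * (gen p q 0 * z) :=
    fun z => by rw [← mul_assoc, ac_comm, mul_assoc]
  have hTA : ∀ z : Tri p q, gen p q 0 * z ∈ T ↔ z ∈ T := by
    intro z
    constructor
    · intro hz
      have := (hT _ hz).1
      rw [selfHom_apply, hAA] at this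
      exact this
    · intro hz
      have := (hT _ hz).1
      rwa [selfHom_apply] at this
  have hself : ∀ i, inE (x i) (x i) := fun i => ⟨1, one_mem _, (one_mul _).symm⟩
  have hZ : ∀ i < n, ∀ y, inE (x i) y →
      (y ∈ T ∧ gen p q 2 * y ∉ T) ∨ (y ∉ T ∧ gen p q 2 * y ∈ T) := by
    intro i hi y hy
    apply ind_cases
    rw [hζ, sum_edges h i hi y hy]
  have hZ' : ∀ y, y ∈ T → gen p q 2 * y ∉ T → ∃ i < n, inE (x i) y := by
    intro y h1 h2
    by_contra hcon
    push Not at hcon
    have h3 := ind_one T y _ h1 h2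
    rw [hζ, sum_edges_zero y hcon] at h3
    exact zero_ne_one h3
  -- the flags of the polygon in `T`
  set Y : ℕ → Tri p q := fun i => if x i ∈ T then x i else gen p q 2 * x i with hY
  have hYT : ∀ i < n, Y i ∈ T ∧ gen p q 2 * Y i ∉ T := by
    intro i hi
    rcases hZ i hi (x i) (hself i) with ⟨h1, h2⟩ | ⟨h1, h2⟩
    · simp only [hY, if_pos h1]
      exact ⟨h1, h2⟩
    · simp only [hY, if_neg h1]
      refine ⟨h2, ?_⟩
      rw [hCC]
      exact h1
  have hYE : ∀ i, inE (x i) (Y i) := by
    intro i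
    by_cases h1 : x i ∈ T
    · simp only [hY, if_pos h1]
      exact hself i
    · simp only [hY, if_neg h1]
      exact ⟨_, C_mem_eSub p q, rfl⟩
  have hYE' : ∀ i, ∀ z, inE (x i) z → z = Y i ∨ z = gen p q 0 * Y i ∨ z = gen p q 2 * Y i ∨
      z = gen p q 2 * (gen p q 0 * Y i) := by
    rintro i z ⟨g, hg, hz⟩
    obtain ⟨k, hk, hYk⟩ := hYE i
    have h1 : z = (g * k⁻¹) * Y i := by rw [hYk, hz]; group
    rcases mem_eSub (mul_mem hg (inv_mem hk)) with h2 | h2 | h2 | h2
    · left; rw [h1, h2, one_mul]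
    · right; left; rw [h1, h2]
    · right; right; left; rw [h1, h2]
    · right; right; right; rw [h1, h2, mul_assoc]
  have hn : 0 < n := h.hn
  have hne : T.Nonempty := ⟨Y 0, (hYT 0 hn).1⟩
  have hbd : bd (selfHom p q) T = (Finset.range n).biUnion fun i => {Y i, gen p q 0 * Y i} := by
    ext z
    simp only [bd, Finset.mem_filter, selfHom_apply, Finset.mem_biUnion, Finset.mem_range,
      Finset.mem_insert, Finset.mem_singleton]
    constructor
    · rintro ⟨h1, h2⟩
      obtain ⟨i, hi, hE⟩ := hZ' z h1 h2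
      refine ⟨i, hi, ?_⟩
      rcases hYE' i z hE with h3 | h3 | h3 | h3
      · exact Or.inl h3
      · exact Or.inr h3
      · exfalso
        rw [h3] at h1
        exact (hYT i hi).2 h1
      · exfalso
        rw [h3, ← hAC, hTA] at h1
        exact (hYT i hi).2 h1
    · rintro ⟨i, hi, h3 | h3⟩
      · rw [h3]
        exact hYT i hi
      · rw [h3, hTA, ← hAC, hTA]
        exact hYT i hi
  have hcard : (bd (selfHom p q) T).card = 2 * n := by
    rw [hbd, Finset.card_biUnion]
    · rw [Finset.sum_congr rfl (g := fun _ => 2)]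
      · simp [mul_comm]
      · intro i _
        apply Finset.card_pair
        intro h1
        exact (hmap.pa (Y i)).1 (by rw [selfHom_apply]; exact h1.symm)
    · intro i hi j hj hij
      rw [Function.onFun, Finset.disjoint_left]
      intro z hz hz'
      have key : ∀ i z, z ∈ ({Y i, gen p q 0 * Y i} : Finset (Tri p q)) → inE (x i) z := by
        intro i z hz
        obtain ⟨k, hk, hYk⟩ := hYE i
        rcases Finset.mem_insert.mp hz with h1 | h1
        · rw [h1]; exact hYE i
        · rw [Finset.mem_singleton] at h1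
          exact ⟨gen p q 0 * k, mul_mem (A_mem_eSub p q) hk, by rw [h1, hYk, mul_assoc]⟩
      obtain ⟨g, hg, hzg⟩ := key i z hz
      obtain ⟨g', hg', hzg'⟩ := key j z hz'
      have h1 : inE (x i) (x j) := by
        refine ⟨g'⁻¹ * g, mul_mem (inv_mem hg') hg, ?_⟩
        rw [mul_assoc, ← hzg, hzg']
        group
      have h0 := poly_edges h i j (Finset.mem_range.mp (by simpa using hi))
        (Finset.mem_range.mp (by simpa using hj)) hij
      rw [edge_one h1] at h0
      exact one_ne_zero h0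
  refine ⟨hne, hcard, ?_⟩
  -- joins
  have hSc : ∀ i < n, ∀ y, inE (x i) y → y ∉ Sc (selfHom p q) T := by
    intro i hi y hy hmem
    rw [Sc, Finset.mem_filter, selfHom_apply] at hmem
    rcases hZ i hi y hy with ⟨_, h2⟩ | ⟨h1, _⟩
    · exact h2 hmem.2
    · exact h1 hmem.1
  have hper : ∀ i k, x (i + k * n) = x i := by
    intro i k
    induction k with
    | zero => simp
    | succ k ih => rw [Nat.succ_mul, ← add_assoc, h.per, ih]
  have hSc' : ∀ i, ∀ y, inE (x i) y → y ∉ Sc (selfHom p q) T := by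
    intro i y hy
    have h1 : x i = x (i % n) := by
      conv_lhs => rw [← Nat.mod_add_div i n, mul_comm n]
      exact hper _ _
    apply hSc (i % n) (Nat.mod_lt _ hn) y
    rw [← h1]
    exact hy
  have hjoin1 : ∀ i, VJoin (selfHom p q) T (x i) (x (i + 1)) := by
    intro i
    obtain ⟨g, hg, hxg⟩ := h.step i
    have h1 : VJoin (selfHom p q) T (x i) (gen p q 0 * x i) :=
      Relation.ReflTransGen.single (Or.inr (Or.inr ⟨rfl, hSc' i _ (hself i)⟩))
    have h2 : VJoin (selfHom p q) T (gen p q 0 * x i) (g * (gen p q 0 * x i)) :=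
      VJoin_vertex (selfHom p q) T _ hg
    rw [hxg, mul_assoc]
    exact h1.trans h2
  have hjoin2 : ∀ k i, VJoin (selfHom p q) T (x i) (x (i + k)) := by
    intro k
    induction k with
    | zero => intro i; exact Relation.ReflTransGen.refl
    | succ k ih => intro i; exact (ih i).trans (hjoin1 (i + k))
  have hR : ∀ z, z ∉ Sv (selfHom p q) T →
      ∃ r ∈ ({x 0} : Finset (Tri p q)), VJoin (selfHom p q) T z r := by
    intro z hz
    obtain ⟨r, hr, hzr⟩ := walk_to_bd hT hne z hz
    refine ⟨x 0, by simp, ?_⟩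
    rw [bd, Finset.mem_filter, selfHom_apply] at hr
    obtain ⟨i, hi, hE⟩ := hZ' r hr.1 hr.2
    have h1 : VJoin (selfHom p q) T r (x i) := by
      obtain ⟨g, hg, hrg⟩ := hE
      have hA1 : VJoin (selfHom p q) T (gen p q 0 * x i) (x i) := by
        refine Relation.ReflTransGen.single (Or.inr (Or.inr ⟨?_, hSc' i _
          ⟨_, A_mem_eSub p q, rfl⟩⟩))
        rw [selfHom_apply, hAA]
      rcases mem_eSub hg with rfl | rfl | rfl | rfl
      · rw [one_mul] at hrg
        rw [hrg]
        exact Relation.ReflTransGen.refl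
      · rw [hrg]
        exact hA1
      · rw [hrg]
        refine Relation.ReflTransGen.single (Or.inr (Or.inl ?_))
        rw [selfHom_apply, hCC]
      · rw [hrg, mul_assoc]
        refine Relation.ReflTransGen.head (Or.inr (Or.inl ?_)) hA1
        rw [selfHom_apply, hCC]
    have h2 := hjoin2 (n - i) i
    have h3 : x (i + (n - i)) = x 0 := by
      rw [Nat.add_sub_cancel' hi.le]
      have := h.per 0
      rwa [zero_add] at this
    rw [h3] at h2
    exact hzr.trans (h1.trans h2)
  have hd := disc hyp hmap T hT hne {x 0} hR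
  rw [Finset.card_singleton, Nat.cast_one] at hd
  linarith

/-- `p ≤ n`, and `n = p` only if `|T| = 2p`: `euler_le` gives
`kap |T| / 2 ≤ 2n (1/4 - 1/(2q)) - 1`, and `|T| ≥ 2p` (`counts`), `kap p = p (1/2 - 1/q) - 1`. -/
theorem poly_len (hyp : Hyp p q) (hmap : IsMapHom (selfHom p q)) {n : ℕ} {x : ℕ → Tri p q}
    (h : IsPoly p q n x) (T : Finset (Tri p q)) (hT : FaceSet (selfHom p q) T)
    (hζ : ∀ y, ind T y + ind T (gen p q 2 * y) = ∑ j ∈ Finset.range n, edgeInd (x j) y) :
    p ≤ n ∧ (n = p → T.card = 2 * p) := by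
  obtain ⟨hne, hbd, hchi⟩ := poly_chi hyp hmap h T hT hζ
  have he := euler_le hyp (selfHom p q) T
  obtain ⟨F, E, V, hF, -, -, -⟩ := counts hyp hmap T hT
  have hpos : 0 < T.card := Finset.card_pos.mpr hne
  have hF1 : 1 ≤ F := by
    rcases Nat.eq_zero_or_pos F with h0 | h0
    · rw [h0, mul_zero] at hF
      omega
    · exact h0
  have hk := kap_pos hyp
  have hp3 : (3 : ℝ) ≤ (p : ℝ) := by exact_mod_cast hyp.hp
  have hq3 : (3 : ℝ) ≤ (q : ℝ) := by exact_mod_cast hyp.hq
  have hF1' : (1 : ℝ) ≤ (F : ℝ) := by exact_mod_cast hF1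
  rw [hbd, hF] at he
  push_cast at he
  have hq0 : (q : ℝ) ≠ 0 := by linarith
  have hp0 : (p : ℝ) ≠ 0 := by linarith
  have hkp : kap p q * p = p * (1 / 2 - 1 / q) - 1 := by
    unfold kap
    field_simp
    ring
  have hc : (0 : ℝ) < 1 / 2 - 1 / q := by
    have : (1 : ℝ) / q ≤ 1 / 3 := one_div_le_one_div_of_le (by norm_num) hq3
    linarith
  have h1 : kap p q * p * F ≤ n * (1 / 2 - 1 / q) - 1 := by
    have e1 : kap p q * (2 * p * F) / 2 = kap p q * p * F := by ring
    have e2 : (2 * (n : ℝ)) * (1 / 4 - 1 / (2 * q)) = n * (1 / 2 - 1 / q) := by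
      field_simp
      ring
    rw [e1, e2] at he
    linarith
  have hkpos : 0 < kap p q * p := by positivity
  have h2 : kap p q * p ≤ kap p q * p * F := le_mul_of_one_le_right hkpos.le hF1'
  constructor
  · have h3 : (p : ℝ) * (1 / 2 - 1 / q) ≤ n * (1 / 2 - 1 / q) := by
      have h5 := h2.trans h1
      rw [hkp] at h5
      linarith
    have h4 : (p : ℝ) ≤ n := le_of_mul_le_mul_right h3 hc
    exact_mod_cast h4
  · intro hnp
    have h3 : kap p q * p * F ≤ kap p q * p * 1 := by
      rw [hnp, ← hkp] at h1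
      linarith
    have h4 : (F : ℝ) ≤ 1 := le_of_mul_le_mul_left h3 hkpos
    have h5 : F ≤ 1 := by exact_mod_cast h4
    have h6 : F = 1 := le_antisymm h5 hF1
    rw [hF, h6, mul_one]

end MPbcd198.G
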