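import Pool.Agent.Lib.MP_bcd198_co.G.ChZ
import Pool.Agent.Lib.MP_bcd198_co.G.Lin

/-!
# MP_bcd198_co, stream G, file `PsiZ` (job G_PsiZ)

[5.9] the winding number `ψ` of a chain.
-/

set_option autoImplicit false

namespace MPbcd198.G

open Equiv

variable {p q : ℕ} {X : Type}

/-- `ψ(w) = Σ w(x) T(x)` -/
noncomputable def psi (T : X → ℤ) : (X →₀ ℤ) →ₗ[ℤ] ℤ := Finsupp.linearCombination ℤ T

theorem psi_ech (ρ : Tri p q →* Perm X) (T : X → ℤ)
    (hC : ∀ y, T (ρ (gen p q 2) y) = T y) (hA : ∀ y, T (ρ (gen p q 0) y) = - T y) (x : X) :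
    psi T (ech ρ x) = 4 * T x := by
  unfold psi ech
  simp only [map_add, map_sub, Finsupp.linearCombination_single, one_smul]
  rw [hC, hC, hA]
  ring

/-- `ψ` of the chain of a word in the quotient `D/Γ`: four times the variation of `τ` along the
lifted path.  Induction on `w`. -/
theorem psi_Wch (Γ : Subgroup (Tri p q)) (τ : Tri p q → ℤ) (T : Tri p q ⧸ Γ → ℤ)
    (hT : ∀ g : Tri p q, T (g : Tri p q ⧸ Γ) = τ (gen p q 0 * g) - τ g)
    (h2 : ∀ g, τ (gen p q 1 * g) = τ g) (h3 : ∀ g, τ (gen p q 2 * g) = τ g)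
    (hC : ∀ y, T (cosetHom Γ (gen p q 2) y) = T y)
    (hA : ∀ y, T (cosetHom Γ (gen p q 0) y) = - T y) (g : Tri p q) (w : List (Fin 3)) :
    psi T (Wch (cosetHom Γ) (g : Tri p q ⧸ Γ) w) =
      4 * (τ ((w.map (gen p q)).prod * g) - τ g) := by
  induction w with
  | nil => simp [Wch]
  | cons s w ih =>
    have h0 : psi T (Wch (cosetHom Γ) (g : Tri p q ⧸ Γ) (s :: w)) =
        psi T (Wch (cosetHom Γ) (g : Tri p q ⧸ Γ) w) +
          psi T (if s = 0 then ech (cosetHom Γ) (cosetHom Γ (w.map (gen p q)).prod (g : Tri p q ⧸ Γ)) else 0) := by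
      rw [← map_add]
      rfl
    have h1 : (((s :: w).map (gen p q)).prod * g) = gen p q s * ((w.map (gen p q)).prod * g) := by
      rw [List.map_cons, List.prod_cons, mul_assoc]
    rw [h0, ih, h1]
    by_cases hs : s = 0
    · subst hs
      rw [if_pos rfl, psi_ech _ T hC hA, cosetHom_apply, hT]
      ring
    · rw [if_neg hs, map_zero, add_zero]
      have h4 : τ (gen p q s * ((w.map (gen p q)).prod * g)) = τ ((w.map (gen p q)).prod * g) := by
        fin_cases s
        · exact absurd rfl hs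
        · exact h2 _
        · exact h3 _
      rw [h4]

/-- `ψ` vanishes on boundaries.

PROOF.  `ψ(w) = Σ ε x b x T x - Σ ε x b(Cx) T x`, finite sums; substituting `x → Cx` in the second
(`ε(Cx) = -ε x`, `T(Cx) = T x`) it equals `- Σ ε x b x T x`; so `ψ(w) = 2 Σ_{x ∈ supp b} ε x b x T x`,
and this sum is zero by `sum_orbits` for `r = ρ (BA)` (minimal period `p`):
`Σ_{i<p} (ε b T)((BA)^i x) = ε x b x Σ_i T((BA)^i x) = 0`. -/
theorem psi_bdry (hyp : Hyp p q) {ρ : Tri p q →* Perm X} (hρ : IsMapHom ρ) (ε T : X → ℤ)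
    (hs : ∀ (i : Fin 3) (y : X), ε (ρ (gen p q i) y) = - ε y)
    (hC : ∀ y, T (ρ (gen p q 2) y) = T y)
    (hf : ∀ y, ∑ i ∈ Finset.range p, T (ρ ((gen p q 1 * gen p q 0) ^ i) y) = 0)
    (w : X →₀ ℤ) (hw : w ∈ BdryZ ρ ε) : psi T w = 0 := by
  classical
  obtain ⟨b, hbA, hbB, hwb⟩ := hw
  have hCC : ∀ x, ρ (gen p q 2) (ρ (gen p q 2) x) = x := fun x => act_gen_gen ρ 2 x
  obtain ⟨S, hS⟩ : ∃ S : Finset X, S = b.support ∪ b.support.image (fun x => ρ (gen p q 2) x) := ⟨_, rfl⟩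
  have hSC : ∀ x ∈ S, ρ (gen p q 2) x ∈ S := by
    intro x hx
    rw [hS, Finset.mem_union, Finset.mem_image] at hx ⊢
    rcases hx with hx | ⟨y, hy, rfl⟩
    · exact Or.inr ⟨x, hx, rfl⟩
    · left
      rw [hCC]
      exact hy
  have hbS : b.support ⊆ S := by
    rw [hS]
    exact Finset.subset_union_left
  have hwS : w.support ⊆ S := by
    intro x hx
    rw [Finsupp.mem_support_iff, hwb] at hx
    by_cases h1 : b x = 0
    · have h2 : b (ρ (gen p q 2) x) ≠ 0 := by
        intro h2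
        apply hx
        rw [h1, h2, sub_zero, mul_zero]
      rw [hS, Finset.mem_union, Finset.mem_image]
      exact Or.inr ⟨ρ (gen p q 2) x, Finsupp.mem_support_iff.2 h2, hCC x⟩
    · exact hbS (Finsupp.mem_support_iff.2 h1)
  have e1 : psi T w = ∑ x ∈ S, w x * T x := by
    unfold psi
    rw [Finsupp.linearCombination_apply]
    exact Finsupp.sum_of_support_subset w hwS (fun x c => c • T x) (fun x _ => zero_smul _ _)
  have e2 : ∑ x ∈ S, w x * T x = ∑ x ∈ S, ε x * b x * T x -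
      ∑ x ∈ S, ε x * b (ρ (gen p q 2) x) * T x := by
    rw [← Finset.sum_sub_distrib]
    refine Finset.sum_congr rfl fun x _ => ?_
    rw [hwb]
    ring
  have e3 : ∑ x ∈ S, ε x * b (ρ (gen p q 2) x) * T x = - ∑ x ∈ S, ε x * b x * T x := by
    rw [← Finset.sum_neg_distrib]
    refine Finset.sum_bij' (fun x _ => ρ (gen p q 2) x) (fun x _ => ρ (gen p q 2) x)
      (fun x hx => hSC x hx) (fun x hx => hSC x hx) (fun x _ => hCC x) (fun x _ => hCC x) ?_
    intro x _
    rw [hs 2 x, hC x]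
    ring
  have e4 : ∑ x ∈ S, ε x * b x * T x = ∑ x ∈ b.support, ε x * b x * T x := by
    symm
    refine Finset.sum_subset hbS fun x _ hx => ?_
    rw [Finsupp.notMem_support_iff.1 hx]
    ring
  have hbr : ∀ x, b (ρ (gen p q 1 * gen p q 0) x) = b x := by
    intro x
    rw [act_mul, hbB, hbA]
  have hεr : ∀ x, ε (ρ (gen p q 1 * gen p q 0) x) = ε x := by
    intro x
    rw [act_mul, hs 1, hs 0, neg_neg]
  have hpow : ∀ (i : ℕ) (x : X), ε (((ρ (gen p q 1 * gen p q 0)) ^ i) x) = ε x ∧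
      b (((ρ (gen p q 1 * gen p q 0)) ^ i) x) = b x := by
    intro i
    induction i with
    | zero => exact fun x => ⟨rfl, rfl⟩
    | succ i ih =>
      intro x
      rw [pow_succ', Perm.mul_apply, hεr, hbr]
      exact ih x
  have e5 : ∑ x ∈ b.support, ε x * b x * T x = 0 := by
    refine sum_orbits (ρ (gen p q 1 * gen p q 0)) p (by have := hyp.hp; omega) b.support ?_
      (fun x _ => minPer_ba hρ x) _ ?_
    · intro x hx
      rw [Finsupp.mem_support_iff] at hx ⊢
      rw [hbr]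
      exact hx
    · intro x _
      have e6 : ∀ i ∈ Finset.range p, ε (((ρ (gen p q 1 * gen p q 0)) ^ i) x) *
          b (((ρ (gen p q 1 * gen p q 0)) ^ i) x) * T (((ρ (gen p q 1 * gen p q 0)) ^ i) x) =
          ε x * b x * T (ρ ((gen p q 1 * gen p q 0) ^ i) x) := by
        intro i _
        rw [(hpow i x).1, (hpow i x).2, map_pow]
      rw [Finset.sum_congr rfl e6, ← Finset.mul_sum, hf, mul_zero]
  rw [e1, e2, e3, e4, e5]
  ring

end MPbcd198.G
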