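import Pool.Agent.Lib.MP_bcd198_co.G.Base

/-!
# MP_bcd198_co, stream G, file `Reach` (job G_Reach)

[5.9] shortening of paths inside a finite set.
-/

set_option autoImplicit false

namespace MPbcd198.G

open Equiv

variable {p q : ℕ} {X : Type}

/-- the symmetrised step relation inside `S`, as a graph -/
private def reachGraph (ρ : Tri p q →* Perm X) (S : Finset X) : SimpleGraph X where
  Adj a b := a ≠ b ∧ a ∈ S ∧ b ∈ S ∧ ∃ i : Fin 3, b = ρ (gen p q i) a
  symm := ⟨by
    rintro a b ⟨h1, h2, h3, i, h4⟩
    refine ⟨h1.symm, h3, h2, i, ?_⟩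
    rw [h4, act_gen_gen]⟩
  loopless := ⟨fun a h => h.1 rfl⟩

private lemma reach_walk (ρ : Tri p q →* Perm X) (S : Finset X) {x y : X}
    (w : (reachGraph ρ S).Walk x y) : ∃ g ∈ ballT p q w.length, ρ g x = y := by
  induction w with
  | nil => exact ⟨1, ballT_one _, by rw [map_one]; rfl⟩
  | cons hadj w ih =>
    obtain ⟨g, hg, hgy⟩ := ih
    obtain ⟨i, hi⟩ := hadj.2.2.2
    refine ⟨g * gen p q i, ?_, ?_⟩
    · rw [SimpleGraph.Walk.length_cons]
      exact ballT_mul hg (ballT_gen i)
    · rw [act_mul, ← hi, hgy]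

private lemma reach_support (ρ : Tri p q →* Perm X) (S : Finset X) {x y : X}
    (w : (reachGraph ρ S).Walk x y) (hx : x ∈ S) : ∀ z ∈ w.support, z ∈ S := by
  induction w with
  | nil =>
    intro z hz
    rw [SimpleGraph.Walk.support_nil, List.mem_singleton] at hz
    rw [hz]
    exact hx
  | cons hadj w ih =>
    intro z hz
    rw [SimpleGraph.Walk.support_cons, List.mem_cons] at hz
    rcases hz with rfl | hz
    · exact hx
    · exact ih hadj.2.2.1 z hz

private lemma reach_reachable (ρ : Tri p q →* Perm X) (S : Finset X) {x y : X}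
    (h : SConn ρ S x y) : (reachGraph ρ S).Reachable x y := by
  unfold SConn at h
  induction h with
  | refl => exact SimpleGraph.Reachable.refl _
  | @tail b c _ hbc ih =>
    refine ih.trans ?_
    by_cases hb : b = c
    · rw [hb]
    · obtain ⟨h1, h2, h3⟩ := hbc
      refine SimpleGraph.Adj.reachable ⟨hb, h1, h2, ?_⟩
      rcases h3 with h3 | h3 | h3
      · exact ⟨0, h3⟩
      · exact ⟨1, h3⟩
      · exact ⟨2, h3⟩

/-- Paths inside a finite set `S` can be shortened to length `≤ |S|`.

PROOF.  Let `R_k ⊆ S` be the set of the points `ρ g x` reached from `x` by at most `k` steps inside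
`S`.  If `R_{k+1} = R_k` then `R_m = R_k` for all `m ≥ k`; otherwise `|R_{k+1}| > |R_k|`; so
`R_{|S|} = R_m` for all `m ≥ |S|`.  (Or: `SimpleGraph.Walk.toPath`, or induction with a path of
minimal length whose points are distinct.) -/
theorem reach_ball (ρ : Tri p q →* Perm X) (S : Finset X) (x y : X) (h : SConn ρ S x y) :
    ∃ g ∈ ballT p q S.card, ρ g x = y := by
  classical
  rcases Relation.ReflTransGen.cases_head h with rfl | ⟨c, hc, _⟩
  · exact ⟨1, ballT_one _, by rw [map_one]; rfl⟩
  · have hx : x ∈ S := hc.1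
    obtain ⟨w, hw⟩ := (reach_reachable ρ S h).exists_isPath
    obtain ⟨g, hg, hgy⟩ := reach_walk ρ S w
    refine ⟨g, ballT_mono ?_ hg, hgy⟩
    have h1 : w.support.toFinset ⊆ S := by
      intro z hz
      rw [List.mem_toFinset] at hz
      exact reach_support ρ S w hx z hz
    have h2 := Finset.card_le_card h1
    rw [List.toFinset_card_of_nodup hw.support_nodup, SimpleGraph.Walk.length_support] at h2
    omega

end MPbcd198.G
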