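import Pool.Agent.Lib.MP_bcd198_co.G.RkG

/-!
# MP_bcd198_co, stream G, file `RkA` (job G_RkA)

[5.11] the forest of the interior vertices.
-/

set_option autoImplicit false

namespace MPbcd198.G

open Equiv

variable {p q : ℕ} {X : Type}

private theorem rka_inv {ρ : Tri p q →* Perm X} {W : Finset X} {s : Set (Tri p q)}
    (hs : ∀ g ∈ s, ∀ z, ρ g z ∈ W ↔ z ∈ W) {g : Tri p q} (hg : g ∈ Subgroup.closure s) :
    ∀ z, ρ g z ∈ W ↔ z ∈ W := by
  induction hg using Subgroup.closure_induction with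
  | mem g hg => exact hs g hg
  | one => intro z; simp
  | mul g h _ _ ihg ihh => intro z; rw [act_mul, ihg, ihh]
  | inv g _ ih =>
    intro z
    rw [← ih (ρ g⁻¹ z), ← act_mul]
    simp

private theorem rka_gen {ρ : Tri p q →* Perm X} {W : Finset X} (i : Fin 3)
    (h : ∀ z ∈ W, ρ (gen p q i) z ∈ W) (z : X) : ρ (gen p q i) z ∈ W ↔ z ∈ W := by
  constructor
  · intro hz
    have := h _ hz
    rwa [act_gen_gen] at this
  · exact h z

private theorem rka_inv_v {ρ : Tri p q →* Perm X} {W : Finset X}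
    (hW : ∀ y ∈ W, ρ (gen p q 1) y ∈ W ∧ ρ (gen p q 2) y ∈ W) {g : Tri p q}
    (hg : g ∈ vSub p q) (z : X) : ρ g z ∈ W ↔ z ∈ W := by
  refine rka_inv (s := {gen p q 1, gen p q 2}) ?_ hg z
  rintro g (rfl | hg) z
  · exact rka_gen 1 (fun z hz => (hW z hz).1) z
  · rw [Set.mem_singleton_iff] at hg
    subst hg
    exact rka_gen 2 (fun z hz => (hW z hz).2) z

private theorem rka_inv_e {ρ : Tri p q →* Perm X} {W : Finset X}
    (hW : ∀ y ∈ W, ρ (gen p q 0) y ∈ W ∧ ρ (gen p q 2) y ∈ W) {g : Tri p q}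
    (hg : g ∈ eSub p q) (z : X) : ρ g z ∈ W ↔ z ∈ W := by
  refine rka_inv (s := {gen p q 0, gen p q 2}) ?_ hg z
  rintro g (rfl | hg) z
  · exact rka_gen 0 (fun z hz => (hW z hz).1) z
  · rw [Set.mem_singleton_iff] at hg
    subst hg
    exact rka_gen 2 (fun z hz => (hW z hz).2) z

/-- the orbit of a flag under a finite subgroup acting freely, as a finset -/
private theorem rka_orb (ρ : Tri p q →* Perm X) (H : Subgroup (Tri p q)) (hfin : Finite H) (y : X)
    (hfree : ∀ g ∈ H, ρ g y = y → g = 1) :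
    ∃ v : Finset X, (∀ z, z ∈ v ↔ ∃ g ∈ H, z = ρ g y) ∧ v.card = Nat.card H := by
  classical
  have hs : (H : Set (Tri p q)).Finite := Set.toFinite _
  refine ⟨hs.toFinset.image fun g => ρ g y, ?_, ?_⟩
  · intro z
    simp only [Finset.mem_image, Set.Finite.mem_toFinset, SetLike.mem_coe]
    constructor
    · rintro ⟨g, hg, rfl⟩
      exact ⟨g, hg, rfl⟩
    · rintro ⟨g, hg, rfl⟩
      exact ⟨g, hg, rfl⟩
  · rw [Finset.card_image_of_injOn]
    · rw [← Set.ncard_eq_toFinset_card _ hs]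
      rfl
    · intro g hg h hh hgh
      simp only [Set.Finite.coe_toFinset, SetLike.mem_coe] at hg hh
      simp only at hgh
      have h1 : ρ (h⁻¹ * g) y = y := by
        rw [act_mul, hgh, ← act_mul]
        simp
      have h2 := hfree _ (mul_mem (inv_mem hh) hg) h1
      exact (inv_mul_eq_one.1 h2).symm

private theorem rka_step {ρ : Tri p q →* Perm X} {𝓐 : Set X} {z : X} (h : z ∈ 𝓐) :
    Pth ρ 𝓐 z (gen p q 2) := by
  have := Pth.c (ρ := ρ) (𝓐 := 𝓐) (x := z) 1 Pth.one (by simpa using h)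
  simpa using this

private theorem rka_conjA {ρ : Tri p q →* Perm X} {𝓐 : Set X} {w : X}
    (h : Pth ρ 𝓐 w (gen p q 2)) : Pth ρ 𝓐 (ρ (gen p q 0) w) (gen p q 2) := by
  have h1 : Pth ρ 𝓐 (ρ (gen p q 0) w) (gen p q 0) := by
    have := Pth.a (ρ := ρ) (𝓐 := 𝓐) (x := ρ (gen p q 0) w) 1 Pth.one
    simpa using this
  have h2 : Pth ρ 𝓐 (ρ (gen p q 0) w) (gen p q 2 * gen p q 0) := by
    apply Pth.trans h1
    rwa [act_gen_gen]
  have h3 := Pth.a _ h2
  have h4 : gen p q 0 * (gen p q 2 * gen p q 0) = gen p q 2 := by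
    rw [← ac_comm, ← mul_assoc, gen_sq, one_mul]
  rwa [h4] at h3

private theorem rka_u_mem (j : ℕ) : (gen p q 1 * gen p q 2) ^ j * gen p q 1 ∈ vSub p q :=
  mul_mem (pow_mem (mul_mem (B_mem_vSub p q) (C_mem_vSub p q)) j) (B_mem_vSub p q)

private theorem rka_sgn_odd (j : ℕ) : (gen p q 1 * gen p q 2) ^ j * gen p q 1 ≠ 1 := by
  intro h
  have h1 := congrArg (sgn p q) h
  simp only [map_mul, map_pow, sgn_gen, map_one] at h1
  simp at h1

private theorem rka_sgn_odd' (j : ℕ) : gen p q 2 * (gen p q 1 * gen p q 2) ^ j ≠ 1 := by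
  intro h
  have h1 := congrArg (sgn p q) h
  simp only [map_mul, map_pow, sgn_gen, map_one] at h1
  simp at h1

private theorem rka_per {ρ : Tri p q →* Perm X} (hρ : IsMapHom ρ) (y : X) (j : ℕ)
    (hj : j < q - 1) : ρ ((gen p q 1 * gen p q 2) ^ (j + 1)) y ≠ y := by
  intro h
  have h1 : Function.IsPeriodicPt (⇑(ρ (gen p q 1) * ρ (gen p q 2))) (j + 1) y := by
    rw [map_pow, map_mul] at h
    show (⇑(ρ (gen p q 1) * ρ (gen p q 2)))^[j + 1] y = y
    rw [Equiv.Perm.iterate_eq_pow]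
    exact h
  have h2 := h1.minimalPeriod_dvd
  rw [hρ.bc y] at h2
  have h3 := Nat.le_of_dvd (Nat.succ_pos j) h2
  omega

/-- GROWTH.  For every `k ≤ V` there are `W ⊆ S_v` closed under `B`, `C` with `|W| = 2qk` and
`𝓕 ⊆ S_c` closed under `A`, `C` with `|𝓕| = 4k`, no flag of `𝓕` in `S_v \ W`, and every `C`-step at a
flag of `S_c` can be replaced by a path with `C`-steps in `S_c \ 𝓕`.

PROOF.  Induction on `k`.  `k = 0`: empty sets.  Step: `W ≠ S_v` (cardinality), take `y` from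
`grow_step`, `v = ⟨B,C⟩ y` (`2q` flags, in `S_v \ W`), `e = {y, Cy, Ay, CAy}` (4 distinct flags, in
`S_c`: `y, Cy ∈ S_v ⊆ S_c` and `Sc_iff`).  `W' = W ∪ v`, `𝓕' = 𝓕 ∪ e`.  `e` is disjoint from `𝓕`: no
flag of `𝓕` is in `S_v \ W ∋ y`, and `𝓕` is closed under `A, C`.  No flag of `𝓕'` is in `S_v \ W'`:
for `𝓕` clear; `y, Cy ∈ v`; `Ay ∉ S_v` or `Ay ∈ W`, the same for `CAy` (`Sv_iff`, `W` closed under
`C`).  Replacement: by `Pth.replace` it is enough to replace a `C`-step at a flag `z` of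
`S_c \ 𝓕`.  If `z ∉ e` nothing to do.  `z = y`: `detour`; the flags `(BC)^j B y` (`j < q-1`) are in
`v ⊆ S_c`, not in `𝓕`, and not in `e`: they are different from `y` and `Cy` (freeness, `mem_vSub`
forms), and `Ay, CAy ∉ v`.  `z = Cy`: `detour` at `Cy`: the flags `(BC)^{j+1} y`.
`z = Ay`: `C = A C A`, path `A`, then the path at `y`, then `A` (`A C y = C A y`).
`z = CAy = A(Cy)`: `A`, the path at `Cy`, `A`. -/
theorem growth (hyp : Hyp p q) {ρ : Tri p q →* Perm X} (hρ : IsMapHom ρ) (S : Finset X)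
    (hS : FaceSet ρ S) (x : X) (hx : x ∈ S) (hc : ∀ y ∈ S, SConn ρ S x y)
    (hbd : (bd ρ S).Nonempty) (V : ℕ) (hV : (Sv ρ S).card = 2 * q * V) (k : ℕ) (hk : k ≤ V) :
    ∃ W 𝓕 : Finset X, W ⊆ Sv ρ S ∧
      (∀ y ∈ W, ρ (gen p q 1) y ∈ W ∧ ρ (gen p q 2) y ∈ W) ∧ W.card = 2 * q * k ∧
      𝓕 ⊆ Sc ρ S ∧ (∀ y ∈ 𝓕, ρ (gen p q 0) y ∈ 𝓕 ∧ ρ (gen p q 2) y ∈ 𝓕) ∧ 𝓕.card = 4 * k ∧
      (∀ y ∈ 𝓕, y ∈ Sv ρ S → y ∈ W) ∧
      ∀ y ∈ Sc ρ S, Pth ρ {z | z ∈ Sc ρ S ∧ z ∉ 𝓕} y (gen p q 2) := by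
  classical
  have hq3 := hyp.hq
  induction k with
  | zero =>
    refine ⟨∅, ∅, by simp, by simp, by simp, by simp, by simp, by simp, by simp, ?_⟩
    intro y hy
    exact rka_step (by simpa using hy)
  | succ k ih =>
    obtain ⟨W, 𝓕, hW1, hW2, hW3, hF1, hF2, hF3, hF4, hF5⟩ := ih (by omega)
    have hne : W ≠ Sv ρ S := by
      intro h
      rw [h, hV] at hW3
      have h1 : 2 * q * k < 2 * q * V := Nat.mul_lt_mul_of_pos_left (by omega) (by omega)
      omega
    obtain ⟨y, hySv, hyW, hAy⟩ := grow_step S hS x hx hc hbd W hW1 hW2 hne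
    have hAy' : ρ (gen p q 0) y ∈ Sv ρ S → ρ (gen p q 0) y ∈ W := by
      intro h
      by_contra h'
      exact hAy ⟨h, h'⟩
    have hySc : y ∈ Sc ρ S := Sv_subset_Sc ρ S hySv
    obtain ⟨v, hv, hvc⟩ := rka_orb ρ (vSub p q) (finite_vSub hyp) y
      (fun g hg h => free_v hyp hρ hg y h)
    obtain ⟨e, he, hec⟩ := rka_orb ρ (eSub p q) (finite_eSub p q) y
      (fun g hg h => free_e hρ hg y h)
    rw [card_vSub hyp hρ y] at hvc
    rw [card_eSub hρ y] at hec
    have hvSv : ∀ z ∈ v, z ∈ Sv ρ S := by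
      intro z hz
      obtain ⟨g, hg, rfl⟩ := (hv z).1 hz
      exact (Sv_iff hg y).2 hySv
    have hvW : ∀ z ∈ v, z ∉ W := by
      intro z hz hzW
      obtain ⟨g, hg, rfl⟩ := (hv z).1 hz
      exact hyW ((rka_inv_v hW2 hg y).1 hzW)
    have hvF : ∀ z ∈ v, z ∉ 𝓕 := fun z hz hzF => hvW z hz (hF4 z hzF (hvSv z hz))
    have hyF : y ∉ 𝓕 := fun h => hyW (hF4 y h hySv)
    have heSc : ∀ z ∈ e, z ∈ Sc ρ S := by
      intro z hz
      obtain ⟨g, hg, rfl⟩ := (he z).1 hz
      exact (Sc_iff hS hg y).2 hySc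
    have heF : ∀ z ∈ e, z ∉ 𝓕 := by
      intro z hz hzF
      obtain ⟨g, hg, rfl⟩ := (he z).1 hz
      exact hyF ((rka_inv_e hF2 hg y).1 hzF)
    have he4 : ∀ z ∈ e, z = y ∨ z = ρ (gen p q 0) y ∨ z = ρ (gen p q 2) y ∨
        z = ρ (gen p q 2) (ρ (gen p q 0) y) := by
      intro z hz
      obtain ⟨g, hg, rfl⟩ := (he z).1 hz
      rcases mem_eSub hg with rfl | rfl | rfl | rfl
      · left; simp
      · right; left; rfl
      · right; right; left; rfl
      · right; right; right; rw [act_mul]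
    -- `A y` and `C A y` are not in `v`
    have hAv : ρ (gen p q 0) y ∉ v := fun h => hvW _ h (hAy' (hvSv _ h))
    have hCAv : ρ (gen p q 2) (ρ (gen p q 0) y) ∉ v := by
      intro h
      have h1 := hvSv _ h
      rw [Sv_iff (C_mem_vSub p q)] at h1
      exact hvW _ h (hW2 _ (hAy' h1)).2
    have hyv : y ∈ v := (hv y).2 ⟨1, one_mem _, by simp⟩
    have hCyv : ρ (gen p q 2) y ∈ v := (hv _).2 ⟨gen p q 2, C_mem_vSub p q, rfl⟩
    refine ⟨W ∪ v, 𝓕 ∪ e, ?_, ?_, ?_, ?_, ?_, ?_, ?_, ?_⟩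
    · intro z hz
      rcases Finset.mem_union.1 hz with h | h
      · exact hW1 h
      · exact hvSv z h
    · intro z hz
      rcases Finset.mem_union.1 hz with h | h
      · exact ⟨Finset.mem_union_left _ (hW2 z h).1, Finset.mem_union_left _ (hW2 z h).2⟩
      · obtain ⟨g, hg, rfl⟩ := (hv z).1 h
        refine ⟨Finset.mem_union_right _ ((hv _).2 ⟨gen p q 1 * g,
          mul_mem (B_mem_vSub p q) hg, (act_mul _ _ _ _).symm⟩),
          Finset.mem_union_right _ ((hv _).2 ⟨gen p q 2 * g,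
          mul_mem (C_mem_vSub p q) hg, (act_mul _ _ _ _).symm⟩)⟩
    · rw [Finset.card_union_of_disjoint, hW3, hvc]
      · ring
      · rw [Finset.disjoint_left]
        exact fun z hz hzv => hvW z hzv hz
    · intro z hz
      rcases Finset.mem_union.1 hz with h | h
      · exact hF1 h
      · exact heSc z h
    · intro z hz
      rcases Finset.mem_union.1 hz with h | h
      · exact ⟨Finset.mem_union_left _ (hF2 z h).1, Finset.mem_union_left _ (hF2 z h).2⟩
      · obtain ⟨g, hg, rfl⟩ := (he z).1 h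
        refine ⟨Finset.mem_union_right _ ((he _).2 ⟨gen p q 0 * g,
          mul_mem (A_mem_eSub p q) hg, (act_mul _ _ _ _).symm⟩),
          Finset.mem_union_right _ ((he _).2 ⟨gen p q 2 * g,
          mul_mem (C_mem_eSub p q) hg, (act_mul _ _ _ _).symm⟩)⟩
    · rw [Finset.card_union_of_disjoint, hF3, hec]
      · ring
      · rw [Finset.disjoint_left]
        exact fun z hz hze => heF z hze hz
    · intro z hz hzS
      rcases Finset.mem_union.1 hz with h | h
      · exact Finset.mem_union_left _ (hF4 z h hzS)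
      · rcases he4 z h with rfl | rfl | rfl | rfl
        · exact Finset.mem_union_right _ hyv
        · exact Finset.mem_union_left _ (hAy' hzS)
        · exact Finset.mem_union_right _ hCyv
        · rw [Sv_iff (C_mem_vSub p q)] at hzS
          exact Finset.mem_union_left _ (hW2 _ (hAy' hzS)).2
    · -- replacement of the `C`-steps
      have hgood : ∀ z ∈ v, z ≠ y → z ≠ ρ (gen p q 2) y →
          z ∈ ({z | z ∈ Sc ρ S ∧ z ∉ 𝓕 ∪ e} : Set X) := by
        intro z hz h1 h2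
        refine ⟨Sv_subset_Sc ρ S (hvSv z hz), ?_⟩
        intro h
        rcases Finset.mem_union.1 h with h | h
        · exact hvF z hz h
        · rcases he4 z h with rfl | rfl | rfl | rfl
          · exact h1 rfl
          · exact hAv hz
          · exact h2 rfl
          · exact hCAv hz
      have hPy : Pth ρ {z | z ∈ Sc ρ S ∧ z ∉ 𝓕 ∪ e} y (gen p q 2) := by
        apply detour (by omega)
        intro j hj
        apply hgood
        · exact (hv _).2 ⟨_, rka_u_mem j, rfl⟩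
        · intro h
          exact rka_sgn_odd j (free_v hyp hρ (rka_u_mem j) y h)
        · intro h
          apply rka_per hρ (ρ (gen p q 2) y) j hj
          rw [pow_succ, ← mul_assoc, act_mul, act_gen_gen]
          exact h
      have hPCy : Pth ρ {z | z ∈ Sc ρ S ∧ z ∉ 𝓕 ∪ e} (ρ (gen p q 2) y) (gen p q 2) := by
        apply detour (by omega)
        intro j hj
        have h0 : ρ ((gen p q 1 * gen p q 2) ^ j * gen p q 1) (ρ (gen p q 2) y) =
            ρ ((gen p q 1 * gen p q 2) ^ (j + 1)) y := by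
          rw [← act_mul, pow_succ, mul_assoc]
        rw [h0]
        have hm : (gen p q 1 * gen p q 2) ^ (j + 1) ∈ vSub p q :=
          pow_mem (mul_mem (B_mem_vSub p q) (C_mem_vSub p q)) _
        apply hgood
        · exact (hv _).2 ⟨_, hm, rfl⟩
        · exact rka_per hρ y j hj
        · intro h
          apply rka_sgn_odd' (p := p) (q := q) (j + 1)
          apply free_v hyp hρ (mul_mem (C_mem_vSub p q) hm) y
          rw [act_mul, h, act_gen_gen]
      intro z hz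
      refine Pth.replace ?_ (hF5 z hz)
      rintro z ⟨hzSc, hzF⟩
      by_cases hze : z ∈ e
      · rcases he4 z hze with rfl | rfl | rfl | rfl
        · exact hPy
        · exact rka_conjA hPy
        · exact hPCy
        · rw [← act_ac]
          exact rka_conjA hPCy
      · exact rka_step ⟨hzSc, by
          rw [Finset.mem_union]
          exact fun h => h.elim hzF hze⟩

/-- the case `k = V`, with `Pth.replace` -/
theorem forest (hyp : Hyp p q) {ρ : Tri p q →* Perm X} (hρ : IsMapHom ρ) (S : Finset X)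
    (hS : FaceSet ρ S) (x : X) (hx : x ∈ S) (hc : ∀ y ∈ S, SConn ρ S x y)
    (hbd : (bd ρ S).Nonempty) (V : ℕ) (hV : (Sv ρ S).card = 2 * q * V) :
    ∃ 𝓕 : Finset X, 𝓕 ⊆ Sc ρ S ∧ (∀ y ∈ 𝓕, ρ (gen p q 0) y ∈ 𝓕 ∧ ρ (gen p q 2) y ∈ 𝓕) ∧
      𝓕.card = 4 * V ∧ ∀ (z : X) (g : Tri p q), Pth ρ {y | y ∈ Sc ρ S} z g →
        Pth ρ {y | y ∈ Sc ρ S ∧ y ∉ 𝓕} z g := by
  obtain ⟨W, 𝓕, _, _, _, hF1, hF2, hF3, _, hF5⟩ := growth hyp hρ S hS x hx hc hbd V hV V le_rfl
  exact ⟨𝓕, hF1, hF2, hF3, fun z g h => Pth.replace hF5 h⟩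

end MPbcd198.G
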