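import Pool.Agent.Lib.MP_bcd198_co.G.RkP

/-!
# MP_bcd198_co, stream G, file `RkB` (job G_RkB)

[5.11] the spanning tree of the faces and the gauge.
-/

set_option autoImplicit false

namespace MPbcd198.G

open Equiv

variable {p q : ℕ} {X : Type}

/-- the orbit of `z` under `⟨A,B⟩` -/
private theorem rkb_orb (hyp : Hyp p q) {ρ : Tri p q →* Perm X} (hρ : IsMapHom ρ) (z : X) :
    ∃ O : Finset X, (∀ y, y ∈ O ↔ ∃ f ∈ fSub p q, ρ f z = y) ∧ O.card = 2 * p := by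
  have := finite_fSub hyp
  have hfin : (Set.range fun f : fSub p q => ρ f.1 z).Finite := Set.finite_range _
  have hinj : Function.Injective fun f : fSub p q => ρ f.1 z := by
    intro f f' h
    have h1 : ρ (f'.1⁻¹ * f.1) z = z := by
      rw [map_mul, Perm.mul_apply]
      show ρ f'.1⁻¹ (ρ f.1 z) = z
      have h2 : ρ f.1 z = ρ f'.1 z := h
      rw [h2, ← Perm.mul_apply, ← map_mul, inv_mul_cancel, map_one, Perm.one_apply]
    have h3 := free_f hyp hρ ((fSub p q).mul_mem ((fSub p q).inv_mem f'.2) f.2) z h1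
    exact Subtype.ext (inv_mul_eq_one.1 h3).symm
  refine ⟨hfin.toFinset, ?_, ?_⟩
  · intro y
    rw [Set.Finite.mem_toFinset]
    constructor
    · rintro ⟨f, rfl⟩
      exact ⟨f.1, f.2, rfl⟩
    · rintro ⟨f, hf, rfl⟩
      exact ⟨⟨f, hf⟩, rfl⟩
  · rw [← Set.ncard_eq_toFinset_card _ hfin, ← card_fSub hyp hρ z]
    rw [← Set.image_univ, Set.ncard_image_of_injective _ hinj, Set.ncard_univ]

/-- extension of a function to an orbit -/
private theorem rkb_ext (hyp : Hyp p q) {ρ : Tri p q →* Perm X} (hρ : IsMapHom ρ) (z : X)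
    (t : Tri p q) (u : X → Tri p q) :
    ∃ u' : X → Tri p q, (∀ f ∈ fSub p q, u' (ρ f z) = f * t) ∧
      ∀ w, (∀ f ∈ fSub p q, ρ f z ≠ w) → u' w = u w := by
  classical
  refine ⟨fun w => if h : ∃ f ∈ fSub p q, ρ f z = w then h.choose * t else u w, ?_, ?_⟩
  · intro f hf
    have h : ∃ f' ∈ fSub p q, ρ f' z = ρ f z := ⟨f, hf, rfl⟩
    show (if h : ∃ f' ∈ fSub p q, ρ f' z = ρ f z then h.choose * t else u (ρ f z)) = f * t
    rw [dif_pos h]
    have h1 := h.choose_spec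
    have h2 : ρ (f⁻¹ * h.choose) z = z := by
      rw [map_mul, Perm.mul_apply, h1.2, ← Perm.mul_apply, ← map_mul, inv_mul_cancel, map_one,
        Perm.one_apply]
    have h3 := free_f hyp hρ ((fSub p q).mul_mem ((fSub p q).inv_mem hf) h1.1) z h2
    rw [← inv_mul_eq_one.1 h3]
  · intro w hw
    have h : ¬ ∃ f ∈ fSub p q, ρ f z = w := by
      rintro ⟨f, hf, h⟩
      exact hw f hf h
    show (if h : ∃ f' ∈ fSub p q, ρ f' z = w then h.choose * t else u w) = u w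
    rw [dif_neg h]

/-- the first flag outside `S'` -/
private theorem rkb_cross {ρ : Tri p q →* Perm X} {S' : Finset X} (hS' : FaceSet ρ S')
    {𝓐 : Set X} {x : X} (hx : x ∈ S') {g : Tri p q} (h : Pth ρ 𝓐 x g) (hg : ρ g x ∉ S') :
    ∃ y ∈ S', y ∈ 𝓐 ∧ ρ (gen p q 2) y ∉ S' := by
  induction h with
  | one => exact absurd (by rwa [map_one, Perm.one_apply]) hg
  | a g _ ih =>
    by_cases h1 : ρ g x ∈ S'
    · exfalso
      apply hg
      rw [act_mul]
      exact (hS' _ h1).1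
    · exact ih h1
  | b g _ ih =>
    by_cases h1 : ρ g x ∈ S'
    · exfalso
      apply hg
      rw [act_mul]
      exact (hS' _ h1).2
    · exact ih h1
  | c g _ hc ih =>
    by_cases h1 : ρ g x ∈ S'
    · refine ⟨ρ g x, h1, hc, ?_⟩
      rw [← act_mul]
      exact hg
    · exact ih h1

/-- the invariant of the growth process -/
private structure RkbInv (ρ : Tri p q →* Perm X) (S : Finset X) (x : X) (𝓐 : Finset X) (k : ℕ)
    (S' 𝓣 : Finset X) (u : X → Tri p q) : Prop where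
  sub : S' ⊆ S
  mem : x ∈ S'
  face : FaceSet ρ S'
  card : S'.card = 2 * p * k
  tA : 𝓣 ⊆ 𝓐
  tS : 𝓣 ⊆ S'
  tc : ∀ y ∈ 𝓣, ρ (gen p q 0) y ∈ 𝓣 ∧ ρ (gen p q 2) y ∈ 𝓣
  tcard : 𝓣.card + 4 = 4 * k
  ux : u x = 1
  uab : ∀ y ∈ S', u (ρ (gen p q 0) y) = gen p q 0 * u y ∧
        u (ρ (gen p q 1) y) = gen p q 1 * u y
  uc : ∀ y ∈ 𝓣, u (ρ (gen p q 2) y) = gen p q 2 * u y

private theorem rkb_base (hyp : Hyp p q) {ρ : Tri p q →* Perm X} (hρ : IsMapHom ρ) (S : Finset X)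
    (hS : FaceSet ρ S) (x : X) (hx : x ∈ S) (𝓐 : Finset X) :
    ∃ (S' 𝓣 : Finset X) (u : X → Tri p q), RkbInv ρ S x 𝓐 1 S' 𝓣 u := by
  obtain ⟨O, hO, hOc⟩ := rkb_orb hyp hρ x
  obtain ⟨u, hu, -⟩ := rkb_ext hyp hρ x 1 (fun _ => 1)
  refine ⟨O, ∅, u, ?_, ?_, ?_, ?_, ?_, ?_, ?_, ?_, ?_, ?_, ?_⟩
  · intro y hy
    obtain ⟨f, hf, rfl⟩ := (hO y).1 hy
    exact face_closed hS hf hx
  · exact (hO x).2 ⟨1, (fSub p q).one_mem, by rw [map_one, Perm.one_apply]⟩
  · intro y hy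
    obtain ⟨f, hf, rfl⟩ := (hO y).1 hy
    exact ⟨(hO _).2 ⟨gen p q 0 * f, (fSub p q).mul_mem (A_mem_fSub p q) hf, act_mul _ _ _ _⟩,
      (hO _).2 ⟨gen p q 1 * f, (fSub p q).mul_mem (B_mem_fSub p q) hf, act_mul _ _ _ _⟩⟩
  · rw [hOc, mul_one]
  · exact Finset.empty_subset _
  · exact Finset.empty_subset _
  · intro y hy
    exact absurd hy (Finset.notMem_empty y)
  · simp
  · have := hu 1 (fSub p q).one_mem
    rwa [map_one, Perm.one_apply, mul_one] at this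
  · intro y hy
    obtain ⟨f, hf, rfl⟩ := (hO y).1 hy
    rw [← act_mul, ← act_mul, hu f hf, hu _ ((fSub p q).mul_mem (A_mem_fSub p q) hf),
      hu _ ((fSub p q).mul_mem (B_mem_fSub p q) hf)]
    exact ⟨mul_assoc _ _ _, mul_assoc _ _ _⟩
  · intro y hy
    exact absurd hy (Finset.notMem_empty y)

private theorem rkb_four {ρ : Tri p q →* Perm X} (hρ : IsMapHom ρ) (y : X) :
    ρ (gen p q 0) y ≠ y ∧ ρ (gen p q 2) y ≠ y ∧ ρ (gen p q 2) (ρ (gen p q 0) y) ≠ y := by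
  refine ⟨(hρ.pa y).1, (hρ.pc y).1, ?_⟩
  intro h
  have h1 := free_e hρ ((eSub p q).mul_mem (C_mem_eSub p q) (A_mem_eSub p q)) y
    (by rw [act_mul]; exact h)
  have h2 : ρ (gen p q 0) y = ρ (gen p q 2) y := by
    have h3 : gen p q 0 = gen p q 2 := by
      have h4 : gen p q 2 * (gen p q 2 * gen p q 0) = gen p q 2 * 1 := by rw [h1]
      rwa [← mul_assoc, gen_sq, one_mul, mul_one] at h4
    rw [h3]
  have h5 := hρ.ac y
  rw [Function.minimalPeriod_eq_one_iff_isFixedPt.2 ?_] at h5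
  · exact absurd h5 (by norm_num)
  · show (ρ (gen p q 0) * ρ (gen p q 2)) y = y
    rw [Perm.mul_apply, ← h2]
    exact act_gen_gen ρ 0 y

private theorem rkb_step (hyp : Hyp p q) {ρ : Tri p q →* Perm X} (hρ : IsMapHom ρ) (S : Finset X)
    (hS : FaceSet ρ S) (x : X) (𝓐 : Finset X) (hA : 𝓐 ⊆ Sc ρ S)
    (hAc : ∀ y ∈ 𝓐, ρ (gen p q 0) y ∈ 𝓐 ∧ ρ (gen p q 2) y ∈ 𝓐)
    (k : ℕ) (S' 𝓣 : Finset X) (u : X → Tri p q) (hI : RkbInv ρ S x 𝓐 k S' 𝓣 u)
    (y : X) (hy : y ∈ S') (hyA : y ∈ 𝓐) (hCy : ρ (gen p q 2) y ∉ S') :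
    ∃ (S'' 𝓣' : Finset X) (u' : X → Tri p q), RkbInv ρ S x 𝓐 (k + 1) S'' 𝓣' u' := by
  classical
  obtain ⟨O, hO, hOc⟩ := rkb_orb hyp hρ (ρ (gen p q 2) y)
  obtain ⟨u', hu', hu''⟩ := rkb_ext hyp hρ (ρ (gen p q 2) y) (gen p q 2 * u y) u
  have hCyS : ρ (gen p q 2) y ∈ S := by
    have := hA hyA
    unfold Sc at this
    rw [Finset.mem_filter] at this
    exact this.2
  have hOS' : ∀ w ∈ S', w ∉ O := by
    intro w hw hwO
    obtain ⟨f, hf, rfl⟩ := (hO w).1 hwO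
    exact hCy ((face_iff hI.face hf _).1 hw)
  have hdisj : Disjoint S' O := Finset.disjoint_left.2 hOS'
  have hout : ∀ w ∈ S', u' w = u w := by
    intro w hw
    apply hu''
    intro f hf h
    exact hOS' w hw ((hO w).2 ⟨f, hf, h⟩)
  have hAy : ρ (gen p q 0) y ∈ S' := (hI.face y hy).1
  have hCO : ρ (gen p q 2) y ∈ O :=
    (hO _).2 ⟨1, (fSub p q).one_mem, by rw [map_one, Perm.one_apply]⟩
  have hACO : ρ (gen p q 0) (ρ (gen p q 2) y) ∈ O :=
    (hO _).2 ⟨gen p q 0, A_mem_fSub p q, rfl⟩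
  have hac : ρ (gen p q 2) (ρ (gen p q 0) y) = ρ (gen p q 0) (ρ (gen p q 2) y) := (act_ac ρ y).symm
  have hcc : ρ (gen p q 2) (ρ (gen p q 2) y) = y := act_gen_gen ρ 2 y
  have haa : ρ (gen p q 0) (ρ (gen p q 0) y) = y := act_gen_gen ρ 0 y
  -- values
  have v1 : u' y = u y := hout y hy
  have v2 : u' (ρ (gen p q 2) y) = gen p q 2 * u y := by
    have := hu' 1 (fSub p q).one_mem
    rwa [map_one, Perm.one_apply, one_mul] at this
  have v3 : u' (ρ (gen p q 0) y) = gen p q 0 * u y := by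
    rw [hout _ hAy]
    exact (hI.uab y hy).1
  have v4 : u' (ρ (gen p q 0) (ρ (gen p q 2) y)) = gen p q 0 * (gen p q 2 * u y) :=
    hu' _ (A_mem_fSub p q)
  have hyT : y ∉ 𝓣 := fun h => hCy (hI.tS (hI.tc y h).2)
  have hAyT : ρ (gen p q 0) y ∉ 𝓣 := by
    intro h
    apply hyT
    have := (hI.tc _ h).1
    rwa [haa] at this
  have hCyT : ρ (gen p q 2) y ∉ 𝓣 := fun h => hCy (hI.tS h)
  have hACyT : ρ (gen p q 0) (ρ (gen p q 2) y) ∉ 𝓣 := fun h => hOS' _ (hI.tS h) hACO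
  have h4 := rkb_four hρ y
  have hd1 : ρ (gen p q 2) y ≠ y := h4.2.1
  have hne1 : y ≠ ρ (gen p q 0) y := h4.1.symm
  have hne2 : y ≠ ρ (gen p q 2) y := hd1.symm
  have hne3 : y ≠ ρ (gen p q 0) (ρ (gen p q 2) y) := by
    rw [← hac]
    exact h4.2.2.symm
  have hne4 : ρ (gen p q 0) y ≠ ρ (gen p q 2) y := fun h => hCy (h ▸ hAy)
  have hne5 : ρ (gen p q 0) y ≠ ρ (gen p q 0) (ρ (gen p q 2) y) := by
    intro h
    exact hne2 ((ρ (gen p q 0)).injective h)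
  have hne6 : ρ (gen p q 2) y ≠ ρ (gen p q 0) (ρ (gen p q 2) y) :=
    (hρ.pa _).1.symm
  set N : Finset X := {y, ρ (gen p q 0) y, ρ (gen p q 2) y, ρ (gen p q 0) (ρ (gen p q 2) y)} with hN
  have hNc : N.card = 4 := by
    rw [hN, Finset.card_insert_of_notMem, Finset.card_insert_of_notMem,
      Finset.card_insert_of_notMem, Finset.card_singleton]
    · simpa using hne6
    · simp only [Finset.mem_insert, Finset.mem_singleton, not_or]
      exact ⟨hne4, hne5⟩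
    · simp only [Finset.mem_insert, Finset.mem_singleton, not_or]
      exact ⟨hne1, hne2, hne3⟩
  have hNm : ∀ w, w ∈ N ↔ w = y ∨ w = ρ (gen p q 0) y ∨ w = ρ (gen p q 2) y ∨
      w = ρ (gen p q 0) (ρ (gen p q 2) y) := by
    intro w
    rw [hN]
    simp only [Finset.mem_insert, Finset.mem_singleton]
  have hTN : Disjoint 𝓣 N := by
    rw [Finset.disjoint_left]
    intro w hw hwN
    rcases (hNm w).1 hwN with rfl | rfl | rfl | rfl
    · exact hyT hw
    · exact hAyT hw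
    · exact hCyT hw
    · exact hACyT hw
  refine ⟨S' ∪ O, 𝓣 ∪ N, u', ?_, ?_, ?_, ?_, ?_, ?_, ?_, ?_, ?_, ?_, ?_⟩
  · apply Finset.union_subset hI.sub
    intro w hw
    obtain ⟨f, hf, rfl⟩ := (hO w).1 hw
    exact face_closed hS hf hCyS
  · exact Finset.mem_union_left _ hI.mem
  · intro w hw
    rcases Finset.mem_union.1 hw with hw | hw
    · exact ⟨Finset.mem_union_left _ (hI.face w hw).1, Finset.mem_union_left _ (hI.face w hw).2⟩
    · obtain ⟨f, hf, rfl⟩ := (hO w).1 hw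
      exact ⟨Finset.mem_union_right _ ((hO _).2 ⟨gen p q 0 * f,
          (fSub p q).mul_mem (A_mem_fSub p q) hf, act_mul _ _ _ _⟩),
        Finset.mem_union_right _ ((hO _).2 ⟨gen p q 1 * f,
          (fSub p q).mul_mem (B_mem_fSub p q) hf, act_mul _ _ _ _⟩)⟩
  · rw [Finset.card_union_of_disjoint hdisj, hI.card, hOc]
    ring
  · apply Finset.union_subset hI.tA
    intro w hw
    rcases (hNm w).1 hw with rfl | rfl | rfl | rfl
    · exact hyA
    · exact (hAc y hyA).1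
    · exact (hAc y hyA).2
    · exact (hAc _ (hAc y hyA).2).1
  · apply Finset.union_subset (fun w hw => Finset.mem_union_left _ (hI.tS hw))
    intro w hw
    rcases (hNm w).1 hw with rfl | rfl | rfl | rfl
    · exact Finset.mem_union_left _ hy
    · exact Finset.mem_union_left _ hAy
    · exact Finset.mem_union_right _ hCO
    · exact Finset.mem_union_right _ hACO
  · intro w hw
    rcases Finset.mem_union.1 hw with hw | hw
    · exact ⟨Finset.mem_union_left _ (hI.tc w hw).1, Finset.mem_union_left _ (hI.tc w hw).2⟩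
    · rcases (hNm w).1 hw with rfl | rfl | rfl | rfl
      · exact ⟨Finset.mem_union_right _ ((hNm _).2 (Or.inr (Or.inl rfl))),
          Finset.mem_union_right _ ((hNm _).2 (Or.inr (Or.inr (Or.inl rfl))))⟩
      · exact ⟨Finset.mem_union_right _ ((hNm _).2 (Or.inl haa)),
          Finset.mem_union_right _ ((hNm _).2 (Or.inr (Or.inr (Or.inr hac))))⟩
      · exact ⟨Finset.mem_union_right _ ((hNm _).2 (Or.inr (Or.inr (Or.inr rfl)))),
          Finset.mem_union_right _ ((hNm _).2 (Or.inl hcc))⟩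
      · refine ⟨Finset.mem_union_right _ ((hNm _).2 (Or.inr (Or.inr (Or.inl ?_)))),
          Finset.mem_union_right _ ((hNm _).2 (Or.inr (Or.inl ?_)))⟩
        · exact act_gen_gen ρ 0 _
        · rw [← act_ac, hcc]
  · rw [Finset.card_union_of_disjoint hTN, hNc]
    have := hI.tcard
    omega
  · rw [hout x hI.mem]
    exact hI.ux
  · intro w hw
    rcases Finset.mem_union.1 hw with hw | hw
    · rw [hout w hw, hout _ (hI.face w hw).1, hout _ (hI.face w hw).2]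
      exact hI.uab w hw
    · obtain ⟨f, hf, rfl⟩ := (hO w).1 hw
      rw [← act_mul ρ (gen p q 0) f, ← act_mul ρ (gen p q 1) f, hu' f hf,
        hu' _ ((fSub p q).mul_mem (A_mem_fSub p q) hf),
        hu' _ ((fSub p q).mul_mem (B_mem_fSub p q) hf)]
      exact ⟨mul_assoc _ _ _, mul_assoc _ _ _⟩
  · intro w hw
    rcases Finset.mem_union.1 hw with hw | hw
    · rw [hout w (hI.tS hw), hout _ (hI.tS (hI.tc w hw).2)]
      exact hI.uc w hw
    · rcases (hNm w).1 hw with rfl | rfl | rfl | rfl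
      · rw [v2, v1]
      · rw [hac, v4, v3, ← mul_assoc, ac_comm, mul_assoc]
      · rw [hcc, v1, v2, ← mul_assoc, gen_sq, one_mul]
      · have e : ρ (gen p q 2) (ρ (gen p q 0) (ρ (gen p q 2) y)) = ρ (gen p q 0) y := by
          rw [← act_ac, hcc]
        rw [e, v3, v4]
        have e2 : gen p q 0 * (gen p q 2 * u y) = gen p q 2 * (gen p q 0 * u y) := by
          rw [← mul_assoc, ac_comm, mul_assoc]
        rw [e2, ← mul_assoc (gen p q 2) (gen p q 2), gen_sq, one_mul]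

/-- GROWTH OF A TREE.  `𝓐 ⊆ S_c` closed under `A`, `C`, and every point of the face set `S` is
reached from `x` by a path with `C`-steps in `𝓐`.  Then there are `𝓣 ⊆ 𝓐`, closed under `A`, `C`,
with `|𝓣| = 4 (F - 1)`, and a gauge `u : X → Tri p q`, `u x = 1`, equivariant under `A`, `B` on `S`
and under `C` on `𝓣`.

PROOF.  Claim for `k = 1, …, F`: there are a face set `S' ⊆ S` containing `x` with `|S'| = 2pk`,
`𝓣 ⊆ 𝓐 ∩ S'` closed under `A`, `C`, `|𝓣| + 4 = 4k`, and `u` as above with `S'` instead of `S`.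
`k = 1`: `S' = ⟨A,B⟩ x`, `𝓣 = ∅`, `u (ρ f x) = f` for `f ∈ ⟨A,B⟩` (well defined by `free_f`).
Step: `|S'| < |S|`; choose a point of `S \ S'`, a path from `x` to it; by induction on `Pth` (the
first flag outside `S'`) there is `y ∈ S' ∩ 𝓐` with `C y ∉ S'` (`S'` is closed under `A`, `B`);
`Cy ∈ S` since `𝓐 ⊆ S_c`.  `O = ⟨A,B⟩ Cy` is disjoint from `S'`, `2p` flags, `⊆ S`.  Put
`u' (ρ f (Cy)) = f C u(y)` for `f ∈ ⟨A,B⟩`, `u' = u` outside `O`; `S'' = S' ∪ O`,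
`𝓣' = 𝓣 ∪ {y, Ay, Cy, CAy}` (four distinct flags; `𝓣` is closed under `C` and contained in `S'`, so
`y ∉ 𝓣`, and `Ay ∉ 𝓣`, `Cy, CAy ∉ S'`).  Check `u'(Cz) = C u'(z)` for the four new flags:
`z = y`: definition with `f = 1`; `z = Cy`: `u(y) = C C u(y)`; `z = Ay`: `CAy = A(Cy)`,
`u' = A C u(y) = C A u(y) = C u(Ay)`; `z = CAy`: `u(Ay) = A u(y) = C (A C u(y))`. -/
theorem tree (hyp : Hyp p q) {ρ : Tri p q →* Perm X} (hρ : IsMapHom ρ) (S : Finset X)
    (hS : FaceSet ρ S) (x : X) (hx : x ∈ S) (𝓐 : Finset X) (hA : 𝓐 ⊆ Sc ρ S)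
    (hAc : ∀ y ∈ 𝓐, ρ (gen p q 0) y ∈ 𝓐 ∧ ρ (gen p q 2) y ∈ 𝓐)
    (hconn : ∀ y ∈ S, ∃ g, Pth ρ {z | z ∈ 𝓐} x g ∧ ρ g x = y) (F : ℕ)
    (hF : S.card = 2 * p * F) :
    ∃ (𝓣 : Finset X) (u : X → Tri p q), 𝓣 ⊆ 𝓐 ∧
      (∀ y ∈ 𝓣, ρ (gen p q 0) y ∈ 𝓣 ∧ ρ (gen p q 2) y ∈ 𝓣) ∧ 𝓣.card + 4 = 4 * F ∧ u x = 1 ∧
      (∀ y ∈ S, u (ρ (gen p q 0) y) = gen p q 0 * u y ∧
        u (ρ (gen p q 1) y) = gen p q 1 * u y) ∧
      ∀ y ∈ 𝓣, u (ρ (gen p q 2) y) = gen p q 2 * u y := by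
  obtain ⟨hp0⟩ : Nonempty (0 < p) := ⟨by have := hyp.hp; omega⟩
  have hFpos : 1 ≤ F := by
    rcases Nat.eq_zero_or_pos F with h | h
    · exfalso
      rw [h, mul_zero] at hF
      rw [Finset.card_eq_zero] at hF
      rw [hF] at hx
      exact Finset.notMem_empty x hx
    · exact h
  have key : ∀ k, 1 ≤ k → k ≤ F →
      ∃ (S' 𝓣 : Finset X) (u : X → Tri p q), RkbInv ρ S x 𝓐 k S' 𝓣 u := by
    intro k hk
    induction k, hk using Nat.le_induction with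
    | base => intro _; exact rkb_base hyp hρ S hS x hx 𝓐
    | succ k hk ih =>
      intro hkF
      obtain ⟨S', 𝓣, u, hI⟩ := ih (by omega)
      have hlt : S'.card < S.card := by
        rw [hI.card, hF]
        exact Nat.mul_lt_mul_of_pos_left (by omega) (by omega)
      obtain ⟨y₀, hy₀, hy₀'⟩ := Finset.exists_mem_notMem_of_card_lt_card hlt
      obtain ⟨g, hg, hgx⟩ := hconn y₀ hy₀
      obtain ⟨y, hy, hyA, hCy⟩ := rkb_cross hI.face hI.mem hg (by rw [hgx]; exact hy₀')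
      exact rkb_step hyp hρ S hS x 𝓐 hA hAc k S' 𝓣 u hI y hy hyA hCy
  obtain ⟨S', 𝓣, u, hI⟩ := key F hFpos le_rfl
  have hSS : S' = S := Finset.eq_of_subset_of_card_le hI.sub (by rw [hI.card, hF])
  subst hSS
  exact ⟨𝓣, u, hI.tA, hI.tc, hI.tcard, hI.ux, hI.uab, hI.uc⟩

end MPbcd198.G
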