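import Pool.Agent.Lib.MP_bcd198_co.G.RkA
import Pool.Agent.Lib.MP_bcd198_co.G.RkB
import Pool.Agent.Lib.MP_bcd198_co.G.Euler

/-!
# MP_bcd198_co, stream G, file `RkC` (job G_RkC)

[5.11] the rank lemma.
-/

set_option autoImplicit false

namespace MPbcd198.G

open Equiv

variable {p q : ℕ} {X : Type}

/-- The defect `t(y) = u(Cy)⁻¹ C u(y)`; if all `t(y)`, `y ∈ 𝓐`, lie in the subgroup `Γ₀`, then
`u(ρ g x)⁻¹ g ∈ Γ₀` for every path.  Induction on `Pth`: steps `A`, `B`: `u` is equivariant on `S`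
(`Pth.mem`); step `C` at `y = ρ g x`: `u(Cy)⁻¹ C g = t(y) (u(y)⁻¹ g)`. -/
theorem gauge_path {ρ : Tri p q →* Perm X} (S : Finset X) (hS : FaceSet ρ S) (x : X)
    (hx : x ∈ S) (𝓐 : Finset X) (hA : 𝓐 ⊆ Sc ρ S) (u : X → Tri p q) (hu : u x = 1)
    (hab : ∀ y ∈ S, u (ρ (gen p q 0) y) = gen p q 0 * u y ∧
      u (ρ (gen p q 1) y) = gen p q 1 * u y)
    (Γ₀ : Subgroup (Tri p q)) (ht : ∀ y ∈ 𝓐, (u (ρ (gen p q 2) y))⁻¹ * gen p q 2 * u y ∈ Γ₀)
    (g : Tri p q) (hg : Pth ρ {z | z ∈ 𝓐} x g) : (u (ρ g x))⁻¹ * g ∈ Γ₀ := by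
  induction hg with
  | one =>
    rw [map_one, Perm.one_apply, hu]
    simp [Γ₀.one_mem]
  | a g hg ih =>
    have hm : ρ g x ∈ S := hg.mem hS (fun y hy => hA hy) hx
    rw [act_mul, (hab _ hm).1, mul_inv_rev, mul_assoc, inv_mul_cancel_left]
    exact ih
  | b g hg ih =>
    have hm : ρ g x ∈ S := hg.mem hS (fun y hy => hA hy) hx
    rw [act_mul, (hab _ hm).2, mul_inv_rev, mul_assoc, inv_mul_cancel_left]
    exact ih
  | c g hg hc ih =>
    have h1 := ht _ hc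
    rw [act_mul]
    have h2 : (u (ρ (gen p q 2) (ρ g x)))⁻¹ * (gen p q 2 * g) =
        ((u (ρ (gen p q 2) (ρ g x)))⁻¹ * gen p q 2 * u (ρ g x)) * ((u (ρ g x))⁻¹ * g) := by
      group
    rw [h2]
    exact Γ₀.mul_mem h1 ih

/-- case without boundary: `S_c = S_v = S`, `chiInt = - kap |S| / 2 < 0`, integer (`counts`) -/
theorem chi_closed (hyp : Hyp p q) {ρ : Tri p q →* Perm X} (hρ : IsMapHom ρ) (S : Finset X)
    (hS : FaceSet ρ S) (hne : S.Nonempty) (hbd : bd ρ S = ∅) : chiInt ρ S ≤ -1 := by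
  obtain ⟨F, E, V, -, -, -, hchi⟩ := counts hyp hρ S hS
  have h1 := euler_le hyp ρ S
  rw [hbd, Finset.card_empty, Nat.cast_zero, zero_mul, zero_sub] at h1
  have h2 : 0 < kap p q * (S.card : ℝ) / 2 := by
    have h3 := kap_pos hyp
    have h4 : (0 : ℝ) < S.card := by exact_mod_cast Finset.card_pos.2 hne
    positivity
  have h5 : chiInt ρ S < 0 := by linarith
  rw [hchi] at h5 ⊢
  have h6 : ((F : ℤ) - E + V : ℤ) < 0 := by exact_mod_cast h5
  have h7 : ((F : ℤ) - E + V : ℤ) ≤ -1 := by omega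
  exact_mod_cast h7

private theorem RkC_distinct {ρ : Tri p q →* Perm X} (hρ : IsMapHom ρ) (y : X) :
    y ≠ ρ (gen p q 0) y ∧ y ≠ ρ (gen p q 2) y ∧ y ≠ ρ (gen p q 2) (ρ (gen p q 0) y) ∧
      ρ (gen p q 0) y ≠ ρ (gen p q 2) y ∧
      ρ (gen p q 0) y ≠ ρ (gen p q 2) (ρ (gen p q 0) y) ∧
      ρ (gen p q 2) y ≠ ρ (gen p q 2) (ρ (gen p q 0) y) := by
  have hA : ∀ y, ρ (gen p q 0) y ≠ y := fun y => (hρ.pa y).1
  have hC : ∀ y, ρ (gen p q 2) y ≠ y := fun y => (hρ.pc y).1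
  have hAC : ∀ y, ρ (gen p q 0) (ρ (gen p q 2) y) ≠ y := by
    intro y h
    have h1 := hρ.ac y
    have h2 : Function.minimalPeriod (⇑(ρ (gen p q 0) * ρ (gen p q 2))) y = 1 := by
      rw [Function.minimalPeriod_eq_one_iff_isFixedPt]
      exact h
    rw [h2] at h1
    omega
  refine ⟨(hA y).symm, (hC y).symm, ?_, ?_, (hC _).symm, ?_⟩
  · intro h
    apply hAC y
    rw [act_ac]
    exact h.symm
  · intro h
    apply hAC y
    rw [← h, act_gen_gen]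
  · intro h
    exact (hA y).symm ((ρ (gen p q 2)).injective h)

/-- [5.11] RANK LEMMA.

PROOF.  If `bd S = ∅`: `chi_closed`.  Otherwise `F, E, V` from `counts`, `𝓕` from `forest`,
`𝓐 = S_c \ 𝓕` (`|𝓐| = 4E - 4V`, closed under `A, C`), connectivity by `Pth_of_SConn` and `forest`;
`𝓣, u` from `tree`, so `|𝓐 \ 𝓣| = 4 (E - V - F + 1) = 4 (1 - chiInt)`, in particular
`chiInt ≤ 1`.
If `chiInt = 1`: `𝓣 = 𝓐`, all defects are `1`; for `g ∈ piSet` `Pth_of_piSet`, `forest` and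
`gauge_path` (`Γ₀ = ⊥`) give `g = u x = 1`.
If `chiInt = 0`: `𝓐 \ 𝓣` has four elements, is closed under `A`, `C`, so it is
`{y₀, Ay₀, Cy₀, CAy₀}`; with `t₀ = t(y₀)`: `t(Ay₀) = t₀` (`u(CAy₀) = u(A C y₀) = A u(Cy₀)`),
`t(Cy₀) = t₀⁻¹ = t(CAy₀)`; so all defects are in `zpowers t₀`, and `piSet ⊆ zpowers t₀`. -/
theorem rank_lemma (hyp : Hyp p q) (ρ : Tri p q →* Perm X)
    (hρ : IsMapHom ρ) (S : Finset X) (hS : FaceSet ρ S) (x : X) (hx : x ∈ S)
    (hc : ∀ y ∈ S, SConn ρ S x y) :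
    ((∃ g ∈ piSet ρ S x, g ≠ 1) → chiInt ρ S ≤ 0) ∧
      (¬ InCyclic (piSet ρ S x) → chiInt ρ S ≤ -1) := by
  classical
  by_cases hbd : bd ρ S = ∅
  · have h := chi_closed hyp hρ S hS ⟨x, hx⟩ hbd
    exact ⟨fun _ => by linarith, fun _ => h⟩
  obtain ⟨F, E, V, hF, hE, hV, hchi⟩ := counts hyp hρ S hS
  obtain ⟨𝓕, hF1, hF2, hF3, hF4⟩ := forest hyp hρ S hS x hx hc
    (Finset.nonempty_iff_ne_empty.2 hbd) V hV
  set 𝓐 : Finset X := Sc ρ S \ 𝓕 with h𝓐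
  have hA : 𝓐 ⊆ Sc ρ S := Finset.sdiff_subset
  have hAc : ∀ y ∈ 𝓐, ρ (gen p q 0) y ∈ 𝓐 ∧ ρ (gen p q 2) y ∈ 𝓐 := by
    intro y hy
    rw [h𝓐, Finset.mem_sdiff] at hy
    refine ⟨Finset.mem_sdiff.2 ⟨(Sc_iff hS (A_mem_eSub p q) y).2 hy.1, fun h => hy.2 ?_⟩,
      Finset.mem_sdiff.2 ⟨(Sc_iff hS (C_mem_eSub p q) y).2 hy.1, fun h => hy.2 ?_⟩⟩
    · have h2 := (hF2 _ h).1
      rwa [act_gen_gen] at h2
    · have h2 := (hF2 _ h).2
      rwa [act_gen_gen] at h2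
  have hset : {y | y ∈ Sc ρ S ∧ y ∉ 𝓕} = {z | z ∈ 𝓐} := by
    ext y
    simp [h𝓐]
  have hconn : ∀ y ∈ S, ∃ g, Pth ρ {z | z ∈ 𝓐} x g ∧ ρ g x = y := by
    intro y hy
    obtain ⟨g, hg, hgx⟩ := Pth_of_SConn hS (hc y hy)
    refine ⟨g, ?_, hgx⟩
    rw [← hset]
    exact hF4 x g hg
  obtain ⟨𝓣, u, hT1, hT2, hT3, hux, hab, hTu⟩ := tree hyp hρ S hS x hx 𝓐 hA hAc hconn F hF
  have hcard1 : 𝓐.card + 4 * V = 4 * E := by
    rw [h𝓐, ← hF3, ← hE]
    exact Finset.card_sdiff_add_card_eq_card hF1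
  have hcard2 : (𝓐 \ 𝓣).card + 𝓣.card = 𝓐.card := Finset.card_sdiff_add_card_eq_card hT1
  have hpi : ∀ Γ₀ : Subgroup (Tri p q),
      (∀ y ∈ 𝓐, (u (ρ (gen p q 2) y))⁻¹ * gen p q 2 * u y ∈ Γ₀) →
      ∀ g ∈ piSet ρ S x, g ∈ Γ₀ := by
    intro Γ₀ ht g hg
    obtain ⟨h1, h2⟩ := Pth_of_piSet hS hg
    have h3 : Pth ρ {z | z ∈ 𝓐} x g := by
      rw [← hset]
      exact hF4 x g h1
    have h4 := gauge_path S hS x hx 𝓐 hA u hux hab Γ₀ ht g h3
    rw [h2, hux, inv_one, one_mul] at h4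
    exact h4
  have hdT : ∀ y ∈ 𝓣, (u (ρ (gen p q 2) y))⁻¹ * gen p q 2 * u y = 1 := by
    intro y hy
    rw [hTu y hy]
    group
  have hbot : 𝓐 \ 𝓣 = ∅ → ∀ g ∈ piSet ρ S x, g = 1 := by
    intro he g hg
    have h1 := hpi ⊥ (fun y hy => by
      have hyT : y ∈ 𝓣 := by
        by_contra hn
        have : y ∈ 𝓐 \ 𝓣 := Finset.mem_sdiff.2 ⟨hy, hn⟩
        rw [he] at this
        exact absurd this (Finset.notMem_empty _)
      rw [hdT y hyT]
      exact Subgroup.one_mem _) g hg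
    exact Subgroup.mem_bot.1 h1
  refine ⟨?_, ?_⟩
  · rintro ⟨g, hg, hg1⟩
    by_contra hcon
    push Not at hcon
    apply hg1
    apply hbot ?_ g hg
    rw [hchi] at hcon
    have h6 : (0 : ℤ) < (F : ℤ) - E + V := by exact_mod_cast hcon
    rw [← Finset.card_eq_zero]
    omega
  · intro hcyc
    by_contra hcon
    push Not at hcon
    rw [hchi] at hcon
    have h6 : (-1 : ℤ) < (F : ℤ) - E + V := by exact_mod_cast hcon
    apply hcyc
    by_cases he : 𝓐 \ 𝓣 = ∅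
    · refine ⟨1, fun g hg => ?_⟩
      rw [hbot he g hg]
      exact Subgroup.one_mem _
    · obtain ⟨y₀, hy₀⟩ := Finset.nonempty_iff_ne_empty.2 he
      have hclA : ∀ y ∈ 𝓐 \ 𝓣, ρ (gen p q 0) y ∈ 𝓐 \ 𝓣 := by
        intro y hy
        rw [Finset.mem_sdiff] at hy ⊢
        refine ⟨(hAc y hy.1).1, fun h => hy.2 ?_⟩
        have h2 := (hT2 _ h).1
        rwa [act_gen_gen] at h2
      have hclC : ∀ y ∈ 𝓐 \ 𝓣, ρ (gen p q 2) y ∈ 𝓐 \ 𝓣 := by
        intro y hy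
        rw [Finset.mem_sdiff] at hy ⊢
        refine ⟨(hAc y hy.1).2, fun h => hy.2 ?_⟩
        have h2 := (hT2 _ h).2
        rwa [act_gen_gen] at h2
      obtain ⟨d1, d2, d3, d4, d5, d6⟩ := RkC_distinct hρ y₀
      have hsub : ({y₀, ρ (gen p q 0) y₀, ρ (gen p q 2) y₀,
          ρ (gen p q 2) (ρ (gen p q 0) y₀)} : Finset X) ⊆ 𝓐 \ 𝓣 := by
        intro z hz
        simp only [Finset.mem_insert, Finset.mem_singleton] at hz
        rcases hz with rfl | rfl | rfl | rfl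
        · exact hy₀
        · exact hclA _ hy₀
        · exact hclC _ hy₀
        · exact hclC _ (hclA _ hy₀)
      have hfour : ({y₀, ρ (gen p q 0) y₀, ρ (gen p q 2) y₀,
          ρ (gen p q 2) (ρ (gen p q 0) y₀)} : Finset X).card = 4 := by
        rw [Finset.card_insert_of_notMem, Finset.card_insert_of_notMem,
          Finset.card_insert_of_notMem, Finset.card_singleton]
        · simpa using d6
        · simp only [Finset.mem_insert, Finset.mem_singleton, not_or]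
          exact ⟨d4, d5⟩
        · simp only [Finset.mem_insert, Finset.mem_singleton, not_or]
          exact ⟨d1, d2, d3⟩
      have heq := Finset.eq_of_subset_of_card_le hsub (by rw [hfour]; omega)
      -- the defects
      have tA : ∀ y ∈ Sc ρ S, (u (ρ (gen p q 2) (ρ (gen p q 0) y)))⁻¹ * gen p q 2 *
          u (ρ (gen p q 0) y) = (u (ρ (gen p q 2) y))⁻¹ * gen p q 2 * u y := by
        intro y hy
        have hyS : y ∈ S := Sc_subset ρ S hy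
        have hCy : ρ (gen p q 2) y ∈ S :=
          Sc_subset ρ S ((Sc_iff hS (C_mem_eSub p q) y).2 hy)
        rw [← act_ac, (hab _ hCy).1, (hab _ hyS).1, mul_inv_rev, gen_inv]
        have h7 : (u (ρ (gen p q 2) y))⁻¹ * gen p q 0 * gen p q 2 * (gen p q 0 * u y) =
            (u (ρ (gen p q 2) y))⁻¹ * (gen p q 0 * gen p q 2) * gen p q 0 * u y := by
          simp only [mul_assoc]
        rw [h7, ac_comm]
        have h8 : (u (ρ (gen p q 2) y))⁻¹ * (gen p q 2 * gen p q 0) * gen p q 0 * u y =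
            (u (ρ (gen p q 2) y))⁻¹ * gen p q 2 * (gen p q 0 * gen p q 0) * u y := by
          simp only [mul_assoc]
        rw [h8, gen_sq, mul_one]
      have tC : ∀ y, (u (ρ (gen p q 2) (ρ (gen p q 2) y)))⁻¹ * gen p q 2 *
          u (ρ (gen p q 2) y) = ((u (ρ (gen p q 2) y))⁻¹ * gen p q 2 * u y)⁻¹ := by
        intro y
        rw [act_gen_gen, mul_inv_rev, mul_inv_rev, gen_inv, inv_inv, mul_assoc]
      have hSc₀ : y₀ ∈ Sc ρ S := hA (Finset.mem_sdiff.1 hy₀).1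
      set t₀ := (u (ρ (gen p q 2) y₀))⁻¹ * gen p q 2 * u y₀ with ht₀
      refine ⟨t₀, fun g hg => hpi (Subgroup.zpowers t₀) ?_ g hg⟩
      intro y hy
      by_cases hyT : y ∈ 𝓣
      · rw [hdT y hyT]
        exact Subgroup.one_mem _
      · have hy2 : y ∈ 𝓐 \ 𝓣 := Finset.mem_sdiff.2 ⟨hy, hyT⟩
        rw [← heq] at hy2
        simp only [Finset.mem_insert, Finset.mem_singleton] at hy2
        rcases hy2 with rfl | rfl | rfl | rfl
        · exact Subgroup.mem_zpowers _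
        · rw [tA y₀ hSc₀]
          exact Subgroup.mem_zpowers _
        · rw [tC y₀]
          exact Subgroup.inv_mem _ (Subgroup.mem_zpowers _)
        · rw [tC, tA y₀ hSc₀]
          exact Subgroup.inv_mem _ (Subgroup.mem_zpowers _)

end MPbcd198.G
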