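import Pool.Agent.Lib.MP_bcd198_co.G.RkP

/-!
# MP_bcd198_co, stream G, file `RkG` (job G_RkG)

[5.11] one step of the growth of the forest.
-/

set_option autoImplicit false

namespace MPbcd198.G

open Equiv

variable {p q : ℕ} {X : Type}

private theorem RkG_exists {ρ : Tri p q →* Perm X} {S : Finset X} {x y : X}
    (h : SConn ρ S x y) : ∃ g, ρ g x = y := by
  unfold SConn at h
  induction h with
  | refl => exact ⟨1, by simp⟩
  | tail _ hs ih =>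
    obtain ⟨g, hg⟩ := ih
    obtain ⟨_, _, hi | hi | hi⟩ := hs
    · exact ⟨gen p q 0 * g, by rw [act_mul, hg]; exact hi.symm⟩
    · exact ⟨gen p q 1 * g, by rw [act_mul, hg]; exact hi.symm⟩
    · exact ⟨gen p q 2 * g, by rw [act_mul, hg]; exact hi.symm⟩

/-- One step of the growth: `W ⊆ S_v` closed under `B`, `C`, not all of `S_v`; then there is
`y ∈ S_v \ W` with `A y ∉ S_v \ W`.

PROOF.  Otherwise `U = S_v \ W` is closed under `A, B, C` and nonempty; for `u ∈ U` every `ρ g u` is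
in `U ⊆ S` (`tri_induction`); since `S` is connected, `SConn` from `x` (so from `u` by symmetry)
shows that every point of `S` is of the form `ρ g u`, so `S ⊆ U ⊆ S_v` and `bd S = ∅`. -/
theorem grow_step {ρ : Tri p q →* Perm X} (S : Finset X) (hS : FaceSet ρ S)
    (x : X) (hx : x ∈ S) (hc : ∀ y ∈ S, SConn ρ S x y) (hbd : (bd ρ S).Nonempty)
    (W : Finset X) (hW : W ⊆ Sv ρ S)
    (hWc : ∀ y ∈ W, ρ (gen p q 1) y ∈ W ∧ ρ (gen p q 2) y ∈ W) (hne : W ≠ Sv ρ S) :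
    ∃ y ∈ Sv ρ S, y ∉ W ∧ ¬ (ρ (gen p q 0) y ∈ Sv ρ S ∧ ρ (gen p q 0) y ∉ W) := by
  classical
  by_contra hcon
  push Not at hcon
  obtain ⟨u, hu, huW⟩ : ∃ u ∈ Sv ρ S, u ∉ W := by
    by_contra h
    push Not at h
    exact hne (Finset.Subset.antisymm hW h)
  have hA : ∀ y, y ∈ Sv ρ S ∧ y ∉ W →
      ρ (gen p q 0) y ∈ Sv ρ S ∧ ρ (gen p q 0) y ∉ W := fun y hy => hcon y hy.1 hy.2
  have hB : ∀ y, y ∈ Sv ρ S ∧ y ∉ W →
      ρ (gen p q 1) y ∈ Sv ρ S ∧ ρ (gen p q 1) y ∉ W := fun y hy =>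
    ⟨(Sv_iff (B_mem_vSub p q) y).2 hy.1, fun h => hy.2 (by
      have := (hWc _ h).1
      rwa [act_gen_gen] at this)⟩
  have hC : ∀ y, y ∈ Sv ρ S ∧ y ∉ W →
      ρ (gen p q 2) y ∈ Sv ρ S ∧ ρ (gen p q 2) y ∉ W := fun y hy =>
    ⟨(Sv_iff (C_mem_vSub p q) y).2 hy.1, fun h => hy.2 (by
      have := (hWc _ h).2
      rwa [act_gen_gen] at this)⟩
  have hall : ∀ g : Tri p q, ρ g u ∈ Sv ρ S ∧ ρ g u ∉ W := by
    refine tri_induction ?_ ?_
    · rw [map_one]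
      exact ⟨hu, huW⟩
    · intro i g hg
      rw [act_mul]
      fin_cases i
      · exact hA _ hg
      · exact hB _ hg
      · exact hC _ hg
  obtain ⟨z, hz⟩ := hbd
  have hz' : z ∈ S ∧ ρ (gen p q 2) z ∉ S := by
    unfold bd at hz
    rw [Finset.mem_filter] at hz
    exact hz
  have huS : u ∈ S := Sc_subset ρ S (Sv_subset_Sc ρ S hu)
  obtain ⟨g0, hg0⟩ := RkG_exists (hc u huS)
  obtain ⟨g1, hg1⟩ := RkG_exists (hc z hz'.1)
  have hzu : ρ (g1 * g0⁻¹) u = z := by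
    rw [← hg0, ← act_mul, mul_assoc, inv_mul_cancel, mul_one]
    exact hg1
  have hzv : z ∈ Sv ρ S := hzu ▸ (hall (g1 * g0⁻¹)).1
  unfold Sv at hzv
  rw [Finset.mem_filter] at hzv
  exact hz'.2 (hzv.2 _ (C_mem_vSub p q))

end MPbcd198.G
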