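import Pool.Agent.Lib.MP_bcd198_co.G.Fin3

/-!
# MP_bcd198_co, stream G, file `RkP` (job G_RkP)

[5.11] paths with restricted `C`-steps.
-/

set_option autoImplicit false

namespace MPbcd198.G

open Equiv

variable {p q : ℕ} {X : Type}

/-- `Pth ρ 𝓐 x g`: `g` is the product of a word all of whose `C`-steps (started at `x`) are made at
flags of `𝓐` -/
inductive Pth (ρ : Tri p q →* Perm X) (𝓐 : Set X) (x : X) : Tri p q → Prop
  | one : Pth ρ 𝓐 x 1
  | a (g : Tri p q) (h : Pth ρ 𝓐 x g) : Pth ρ 𝓐 x (gen p q 0 * g)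
  | b (g : Tri p q) (h : Pth ρ 𝓐 x g) : Pth ρ 𝓐 x (gen p q 1 * g)
  | c (g : Tri p q) (h : Pth ρ 𝓐 x g) (hc : ρ g x ∈ 𝓐) : Pth ρ 𝓐 x (gen p q 2 * g)

private theorem RkP_mem_Sc {ρ : Tri p q →* Perm X} {S : Finset X} {x : X} :
    x ∈ Sc ρ S ↔ x ∈ S ∧ ρ (gen p q 2) x ∈ S := by
  classical
  unfold Sc
  rw [Finset.mem_filter]

theorem Pth.mono {ρ : Tri p q →* Perm X} {𝓐 𝓑 : Set X} (hAB : 𝓐 ⊆ 𝓑) {x : X} {g : Tri p q}
    (h : Pth ρ 𝓐 x g) : Pth ρ 𝓑 x g := by
  induction h with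
  | one => exact Pth.one
  | a g _ ih => exact Pth.a g ih
  | b g _ ih => exact Pth.b g ih
  | c g _ hc ih => exact Pth.c g ih (hAB hc)

/-- composition, induction on the second path -/
theorem Pth.trans {ρ : Tri p q →* Perm X} {𝓐 : Set X} {x : X} {g h : Tri p q}
    (hg : Pth ρ 𝓐 x g) (hh : Pth ρ 𝓐 (ρ g x) h) : Pth ρ 𝓐 x (h * g) := by
  induction hh with
  | one => rw [one_mul]; exact hg
  | a h _ ih => rw [mul_assoc]; exact Pth.a _ ih
  | b h _ ih => rw [mul_assoc]; exact Pth.b _ ih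
  | c h _ hc ih =>
    rw [mul_assoc]
    refine Pth.c _ ih ?_
    rw [map_mul, Perm.mul_apply]
    exact hc

/-- `C`-steps at flags of `S_c` stay in `S` -/
theorem Pth.mem {ρ : Tri p q →* Perm X} {S : Finset X} (hS : FaceSet ρ S) {𝓐 : Set X}
    (hA : ∀ y ∈ 𝓐, y ∈ Sc ρ S) {x : X} (hx : x ∈ S) {g : Tri p q} (h : Pth ρ 𝓐 x g) :
    ρ g x ∈ S := by
  induction h with
  | one => rw [map_one]; exact hx
  | a g _ ih => rw [map_mul, Perm.mul_apply]; exact (hS _ ih).1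
  | b g _ ih => rw [map_mul, Perm.mul_apply]; exact (hS _ ih).2
  | c g _ hc ih =>
    rw [map_mul, Perm.mul_apply]
    exact (RkP_mem_Sc.mp (hA _ hc)).2

/-- a word staying in `S` makes its `C`-steps at flags of `S_c` -/
theorem Pth_of_piSet {ρ : Tri p q →* Perm X} {S : Finset X} (hS : FaceSet ρ S) {x : X}
    {g : Tri p q} (h : g ∈ piSet ρ S x) : Pth ρ {y | y ∈ Sc ρ S} x g ∧ ρ g x = x := by
  obtain ⟨w, hw, hwg, hgx⟩ := h
  refine ⟨?_, hgx⟩
  rw [← hwg]
  have key : ∀ w : List (Fin 3), StaysIn ρ S x w →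
      Pth ρ {y | y ∈ Sc ρ S} x (w.map (gen p q)).prod ∧ ρ (w.map (gen p q)).prod x ∈ S := by
    intro w
    induction w with
    | nil =>
      intro h
      refine ⟨Pth.one, ?_⟩
      rw [List.map_nil, List.prod_nil, map_one]
      exact h
    | cons s w ih =>
      intro h
      have h1 := ih h.1
      have h2 : ρ ((s :: w).map (gen p q)).prod x ∈ S := h.2
      refine ⟨?_, h2⟩
      rw [List.map_cons, List.prod_cons] at h2 ⊢
      rw [map_mul, Perm.mul_apply] at h2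
      fin_cases s
      · exact Pth.a _ h1.1
      · exact Pth.b _ h1.1
      · exact Pth.c _ h1.1 (RkP_mem_Sc.mpr ⟨h1.2, h2⟩)
  exact (key w hw).1

theorem Pth_of_SConn {ρ : Tri p q →* Perm X} {S : Finset X} (hS : FaceSet ρ S) {x y : X}
    (h : SConn ρ S x y) : ∃ g, Pth ρ {y | y ∈ Sc ρ S} x g ∧ ρ g x = y := by
  unfold SConn at h
  induction h with
  | refl => exact ⟨1, Pth.one, by rw [map_one]; rfl⟩
  | tail _ hst ih =>
    obtain ⟨g, hg, rfl⟩ := ih
    obtain ⟨h1, h2, h3 | h3 | h3⟩ := hst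
    · exact ⟨gen p q 0 * g, Pth.a g hg, by rw [h3, map_mul, Perm.mul_apply]⟩
    · exact ⟨gen p q 1 * g, Pth.b g hg, by rw [h3, map_mul, Perm.mul_apply]⟩
    · rw [h3] at h2
      exact ⟨gen p q 2 * g, Pth.c g hg (RkP_mem_Sc.mpr ⟨h1, h2⟩),
        by rw [h3, map_mul, Perm.mul_apply]⟩

/-- DETOUR around a vertex: `C = (B C)^{q-1} B` in `Tri p q` (because `(B C)^q = 1`), and the
`C`-steps of this word started at `y` are made at the flags `(B C)^j B y`, `j < q - 1`. -/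
theorem detour (hq : 0 < q) (ρ : Tri p q →* Perm X) (𝓐 : Set X) (y : X)
    (h : ∀ j < q - 1, ρ ((gen p q 1 * gen p q 2) ^ j * gen p q 1) y ∈ 𝓐) :
    Pth ρ 𝓐 y (gen p q 2) := by
  have key : ∀ n : ℕ, n ≤ q - 1 → Pth ρ 𝓐 y ((gen p q 1 * gen p q 2) ^ n * gen p q 1) := by
    intro n
    induction n with
    | zero =>
      intro _
      have h1 := Pth.b (ρ := ρ) (𝓐 := 𝓐) (x := y) 1 Pth.one
      rw [mul_one] at h1
      rw [pow_zero, one_mul]
      exact h1
    | succ n ih =>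
      intro hn
      have h1 := Pth.b _ (Pth.c _ (ih (by omega)) (h n (by omega)))
      rw [pow_succ', mul_assoc (gen p q 1 * gen p q 2), mul_assoc (gen p q 1)]
      exact h1
  have h1 := key (q - 1) le_rfl
  have h2 : (gen p q 1 * gen p q 2) ^ (q - 1) * gen p q 1 = gen p q 2 := by
    have h3 : (gen p q 1 * gen p q 2) ^ (q - 1) * gen p q 1 * gen p q 2 = 1 := by
      rw [mul_assoc, ← pow_succ, Nat.sub_add_cancel hq, bc_pow]
    have h4 := eq_inv_of_mul_eq_one_left h3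
    rw [h4, gen_inv]
  rw [h2] at h1
  exact h1

/-- If every single `C`-step at a flag of `𝓐` can be replaced by a path with `C`-steps in `𝓑`, then
every path can. -/
theorem Pth.replace {ρ : Tri p q →* Perm X} {𝓐 𝓑 : Set X}
    (h : ∀ y ∈ 𝓐, Pth ρ 𝓑 y (gen p q 2)) {x : X} {g : Tri p q} (hg : Pth ρ 𝓐 x g) :
    Pth ρ 𝓑 x g := by
  induction hg with
  | one => exact Pth.one
  | a g _ ih => exact Pth.a g ih
  | b g _ ih => exact Pth.b g ih
  | c g _ hc ih => exact Pth.trans ih (h _ hc)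

end MPbcd198.G
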