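import Pool.Agent.Lib.MP_bcd198_co.G.Fin3

/-!
# MP_bcd198_co, stream G, file `Sect` (job G_Sect)

Equivariant sections of `D → D/Γ`.
-/

set_option autoImplicit false

namespace MPbcd198.G

open Equiv

variable {p q : ℕ} {X : Type}

/-- If the subgroup `H` acts freely on `D/Γ` there is an `H`-equivariant section
`s : D/Γ → D`.

PROOF.  Choose in each `H`-orbit of `D/Γ` a representative `r`, and lifts `out r ∈ D`; for
`y = h r` (unique `h ∈ H` by freeness) put `s y = h * out r`.  (For instance: `r y :=` the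
`Quotient.out` of the class of `y` modulo the setoid of `H`-orbits; `y = h(y) • r y` by choice;
freeness gives `h(h' y) = h' h(y)`.) -/
theorem exists_section (Γ H : Subgroup (Tri p q))
    (hfree : ∀ g ∈ H, ∀ y : Tri p q ⧸ Γ, cosetHom Γ g y = y → g = 1) :
    ∃ s : Tri p q ⧸ Γ → Tri p q, (∀ y, (s y : Tri p q ⧸ Γ) = y) ∧
      ∀ g ∈ H, ∀ y, s (cosetHom Γ g y) = g * s y := by
  classical
  let st : Setoid (Tri p q ⧸ Γ) :=
    { r := fun y y' => ∃ h ∈ H, cosetHom Γ h y' = y
      iseqv :=
        { refl := fun y => ⟨1, H.one_mem, by rw [map_one]; rfl⟩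
          symm := by
            rintro y y' ⟨h, hh, rfl⟩
            refine ⟨h⁻¹, H.inv_mem hh, ?_⟩
            rw [← Perm.mul_apply, ← map_mul, inv_mul_cancel, map_one]
            rfl
          trans := by
            rintro y y' y'' ⟨h, hh, rfl⟩ ⟨h', hh', rfl⟩
            refine ⟨h * h', H.mul_mem hh hh', ?_⟩
            rw [map_mul]
            rfl } }
  let r : Tri p q ⧸ Γ → Tri p q ⧸ Γ := fun y => (Quotient.mk st y).out
  have hr : ∀ y, ∃ h ∈ H, cosetHom Γ h (r y) = y := by
    intro y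
    have h1 : Quotient.mk st (r y) = Quotient.mk st y := Quotient.out_eq _
    exact (Quotient.exact h1 |> Setoid.symm)
  choose hh hhH hhr using hr
  have hinv : ∀ g ∈ H, ∀ y, r (cosetHom Γ g y) = r y := by
    intro g hg y
    have h1 : Quotient.mk st (cosetHom Γ g y) = Quotient.mk st y :=
      Quotient.sound ⟨g, hg, rfl⟩
    show (Quotient.mk st (cosetHom Γ g y)).out = (Quotient.mk st y).out
    rw [h1]
  have hout : ∀ y : Tri p q ⧸ Γ, ((Quotient.out y : Tri p q) : Tri p q ⧸ Γ) = y := fun y =>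
    QuotientGroup.out_eq' y
  refine ⟨fun y => hh y * Quotient.out (r y), fun y => ?_, fun g hg y => ?_⟩
  · rw [← cosetHom_apply, hout, hhr]
  · have h1 : hh (cosetHom Γ g y) = g * hh y := by
      have h2 : cosetHom Γ ((g * hh y)⁻¹ * hh (cosetHom Γ g y)) (r y) = r y := by
        have h3 := hhr (cosetHom Γ g y)
        rw [hinv g hg y] at h3
        rw [map_mul, Perm.mul_apply, h3, map_inv, Perm.inv_eq_iff_eq, map_mul, Perm.mul_apply, hhr]
      have h4 := hfree _ (H.mul_mem (H.inv_mem (H.mul_mem hg (hhH y))) (hhH _)) _ h2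
      exact (inv_mul_eq_one.1 h4).symm
    simp only
    rw [h1, hinv g hg y, mul_assoc]

/-- elements with the same image in `D/⟨γ⟩` differ by a right power of `γ` -/
theorem exists_zpow (γ : Tri p q) (x y : Tri p q)
    (h : (x : Tri p q ⧸ Subgroup.zpowers γ) = (y : Tri p q ⧸ Subgroup.zpowers γ)) :
    ∃ k : ℤ, x = y * γ ^ k := by
  obtain ⟨k, hk⟩ := QuotientGroup.eq.1 h
  refine ⟨-k, ?_⟩
  simp only at hk
  rw [zpow_neg, hk, mul_inv_rev, inv_inv, mul_inv_cancel_left]

end MPbcd198.G
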