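import Pool.Agent.Lib.MP_bcd198_co.IfP
import Pool.Agent.Lib.MP_bcd198_co.G.Base

/-!
# MP_bcd198_co, stream G, file `SelfM` (job G_SelfM)
-/

set_option autoImplicit false

namespace MPbcd198.G

open Equiv

private theorem sNum_pos (r m : ℕ) (hr : 0 < r) : 0 < sNum r m := by
  unfold sNum
  have h1 : (0 : ℝ) < (m.factorial : ℝ) := by exact_mod_cast Nat.factorial_pos m
  have h2 : (0 : ℝ) < ((m / r).factorial : ℝ) := by exact_mod_cast Nat.factorial_pos _
  have h3 : (0 : ℝ) < (2 * r : ℝ) := by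
    have : (0 : ℝ) < (r : ℝ) := by exact_mod_cast hr
    linarith
  positivity

private theorem mapHom_gen {p q : ℕ} {Ω : Type} {a b c : Perm Ω} (h : IsMap p q a b c)
    (i : Fin 3) : mapHom h (gen p q i) = (![a, b, c] : Fin 3 → Perm Ω) i := by
  unfold mapHom gen
  exact PresentedGroup.toGroup.of _

private theorem isMapHom_mapHom {p q : ℕ} {Ω : Type} {a b c : Perm Ω} (h : IsMap p q a b c) :
    IsMapHom (mapHom h) := by
  unfold IsMapHom
  rw [mapHom_gen, mapHom_gen, mapHom_gen]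
  exact h

/-- [5.0] the triangle group acts on itself as a map (job G_Self).

PROOF.  `NMap_asymp hyp (1/2)` with `m = 2 p q k` large gives `NMap p q m > 0`, so there is a map
`M` on `Fin (2m)`, `2m > 0`; `isMapHom_of_equivariant (mapHom M) (selfHom p q) (g ↦ mapHom M g x₀)`.
(`mapHom M (gen p q i) = M.i`: `PresentedGroup.toGroup.of`.) -/
theorem self_map {p q : ℕ} (hyp : Hyp p q) : IsMapHom (selfHom p q) := by
  obtain ⟨m₀, hm₀⟩ := NMap_asymp hyp (1 / 2) (by norm_num)
  have hp : 0 < p := by have := hyp.hp; omega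
  have hq : 0 < q := by have := hyp.hq; omega
  set m : ℕ := 2 * p * q * (m₀ + 1) with hmdef
  have hpq : 0 < p * q := Nat.mul_pos hp hq
  have hm1 : m₀ + 1 ≤ m := by
    rw [hmdef]
    exact Nat.le_mul_of_pos_left _ (by positivity)
  have h := hm₀ m (by omega) ⟨2 * q * (m₀ + 1), by rw [hmdef]; ring⟩
    ⟨2 * p * (m₀ + 1), by rw [hmdef]; ring⟩ ⟨p * q * (m₀ + 1), by rw [hmdef]; ring⟩
  have hs : 0 < sNum p m * sNum q m * sNum 2 m :=
    mul_pos (mul_pos (sNum_pos p m hp) (sNum_pos q m hq)) (sNum_pos 2 m (by norm_num))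
  have hN : (0 : ℝ) < (NMap p q m : ℝ) := by
    have := (abs_le.mp h).1
    linarith
  have hN' : 0 < NMap p q m := by exact_mod_cast hN
  have hne : Nonempty (MapOn p q (Fin (2 * m))) := by
    unfold NMap at hN'
    exact (Nat.card_pos_iff.mp hN').1
  obtain ⟨M⟩ := hne
  have hmpos : 0 < 2 * m := by omega
  let x₀ : Fin (2 * m) := ⟨0, hmpos⟩
  exact isMapHom_of_equivariant (mapHom M.2) (selfHom p q) (fun g => mapHom M.2 g x₀)
    (fun g y => by
      simp only [selfHom_apply, map_mul, Perm.mul_apply]) (isMapHom_mapHom M.2)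

end MPbcd198.G
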