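import Pool.Agent.Lib.MP_bcd198_co.G.ShortD

/-!
# MP_bcd198_co, stream G, file `Short` (job G_Short)

[5.9] finiteness of the set of flags with short loops in a cyclic quotient.
-/

set_option autoImplicit false

namespace MPbcd198.G

open Equiv

variable {p q : ℕ}

/-- [5.9].  If `sgn γ = 1`: `short_dist` and `ballT_finite`.  In general let `Γ₂ = ⟨γ²⟩ ≤ Γ`
(`sgn γ² = 1`, `D/Γ₂` is a map by `isMapHom_of_equivariant` along `D/Γ₂ → D/Γ`); if `h` fixes `gΓ`,
`h g = g γ^k`, then `h² ≠ 1` fixes `gΓ₂` and has length `≤ 2l`; so the set is contained in the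
image of a finite set. -/
theorem finite_short (hyp : Hyp p q) (hmap : IsMapHom (selfHom p q)) (γ : Tri p q)
    (hγ : ∀ n : ℤ, n ≠ 0 → γ ^ n ≠ 1) (hm : IsMapHom (cosetHom (Subgroup.zpowers γ))) (l : ℕ) :
    {y : Tri p q ⧸ Subgroup.zpowers γ |
      ∃ h ∈ ballT p q l, h ≠ 1 ∧ cosetHom (Subgroup.zpowers γ) h y = y}.Finite := by
  have hδ : ∀ n : ℤ, n ≠ 0 → (γ ^ 2) ^ n ≠ 1 := by
    intro n hn h
    refine hγ (2 * n) (mul_ne_zero two_ne_zero hn) ?_
    rw [zpow_mul]
    exact_mod_cast h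
  have hle : Subgroup.zpowers (γ ^ 2) ≤ Subgroup.zpowers γ := by
    rw [Subgroup.zpowers_le]
    exact Subgroup.pow_mem _ (Subgroup.mem_zpowers γ) 2
  have hm2 : IsMapHom (cosetHom (Subgroup.zpowers (γ ^ 2))) := by
    refine isMapHom_of_equivariant (cosetHom (Subgroup.zpowers γ))
      (cosetHom (Subgroup.zpowers (γ ^ 2))) (Subgroup.quotientMapOfLE hle) ?_ hm
    intro g y
    induction y using QuotientGroup.induction_on with
    | H z => rfl
  have hs : sgn p q (γ ^ 2) = 1 := by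
    rw [map_pow]
    exact Int.units_sq _
  obtain ⟨L, hL⟩ := short_dist hyp hmap (γ ^ 2) hδ hm2 hs (l + l)
  refine ((ballT_finite p q L).image
    (fun u : Tri p q => (u : Tri p q ⧸ Subgroup.zpowers γ))).subset ?_
  rintro y ⟨h, hh, h1, hy⟩
  induction y using QuotientGroup.induction_on with
  | H g =>
    rw [cosetHom_apply, QuotientGroup.eq] at hy
    obtain ⟨k, hk⟩ := Subgroup.mem_zpowers_iff.1 hy
    -- `γ ^ k = (h g)⁻¹ g`, so `h = g γ^(-k) g⁻¹`
    have e1 : h = g * γ ^ (-k) * g⁻¹ := by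
      rw [zpow_neg, hk]
      group
    have e2 : h * h * g = g * (γ ^ 2) ^ (-k) := by
      rw [e1]
      have e3 : (γ ^ 2) ^ (-k) = γ ^ (-k) * γ ^ (-k) := by
        rw [← zpow_natCast, ← zpow_mul, ← zpow_add]
        congr 1
        push_cast
        ring
      rw [e3]
      group
    have h2 : h * h ≠ 1 := by
      intro h3
      have h4 : (γ ^ 2) ^ (-k) = 1 := by
        rw [h3, one_mul] at e2
        exact (mul_eq_left.1 e2.symm)
      by_cases hk0 : k = 0
      · rw [hk0] at e1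
        apply h1
        rw [e1]
        group
      · exact hδ (-k) (neg_ne_zero.2 hk0) h4
    have h5 : cosetHom (Subgroup.zpowers (γ ^ 2)) (h * h)
        (g : Tri p q ⧸ Subgroup.zpowers (γ ^ 2)) = (g : Tri p q ⧸ Subgroup.zpowers (γ ^ 2)) := by
      rw [cosetHom_apply, e2, QuotientGroup.eq]
      rw [mul_inv_rev, inv_mul_cancel_right]
      exact Subgroup.inv_mem _ (Subgroup.zpow_mem _ (Subgroup.mem_zpowers _) _)
    obtain ⟨u, hu, hgu⟩ := hL g (h * h) (ballT_mul hh hh) h2 h5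
    refine ⟨u, hu, ?_⟩
    have h6 := congrArg (Subgroup.quotientMapOfLE hle) hgu
    exact h6.symm

end MPbcd198.G
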