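import Pool.Agent.Lib.MP_bcd198_co.G.ChZ

/-!
# MP_bcd198_co, stream G, file `Spl` (job G_Spl)

[5.9] splitting of boundaries.
-/

set_option autoImplicit false

namespace MPbcd198.G

open Equiv

variable {p q : ℕ}

/-- If a face function `b` has boundary `w₁ - w₂` with `w₁`, `w₂` of disjoint supports (closed
under `C`), and no component of `supp b` meets both supports, then `w₁` itself is a boundary.

PROOF.  `b₁ = b` on the points of `supp b` which are `SConn`ed in `supp b` to a point of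
`supp b ∩ supp w₁`, `0` elsewhere; `b₁` is invariant under `A`, `B` and
`w₁ x = ε x (b₁ x - b₁ (Cx))`.  Case `x ∈ supp w₁`: then `Cx ∈ supp w₁`, `w₂ x = 0`; if `b x ≠ 0`
then `b₁ x = b x`, and the same for `Cx`.  Case `x ∈ supp w₂`: `w₁ x = 0`, and `b₁ x = b₁ (Cx) = 0`
by the hypothesis (`Cx ∈ supp w₂` too).  Otherwise `b x = b (Cx)`; if this is nonzero, `x` and `Cx`
are in the same component. -/
theorem split_bdry {X : Type} (ρ : Tri p q →* Perm X) (ε : X → ℤ)
    (b w₁ w₂ : X →₀ ℤ) (hε : ∀ y, ε y = 1 ∨ ε y = -1)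
    (hA : ∀ x, b (ρ (gen p q 0) x) = b x) (hB : ∀ x, b (ρ (gen p q 1) x) = b x)
    (hb : ∀ x, w₁ x - w₂ x = ε x * (b x - b (ρ (gen p q 2) x)))
    (h1 : ∀ x, w₁ (ρ (gen p q 2) x) = w₁ x) (h2 : ∀ x, w₂ (ρ (gen p q 2) x) = w₂ x)
    (hd : ∀ x, w₁ x = 0 ∨ w₂ x = 0)
    (hc : ∀ x y, b x ≠ 0 → b y ≠ 0 → w₁ x ≠ 0 → w₂ y ≠ 0 → ¬ SConn ρ b.support x y) :
    w₁ ∈ BdryZ ρ ε := by
  classical
  let Q : X → Prop := fun x => ∃ z, w₁ z ≠ 0 ∧ b z ≠ 0 ∧ SConn ρ b.support z x
  have hstep : ∀ (i : Fin 3) (x : X), b x ≠ 0 → b (ρ (gen p q i) x) ≠ 0 → Q x →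
      Q (ρ (gen p q i) x) := by
    rintro i x hx hy ⟨z, hz1, hz2, hz3⟩
    refine ⟨z, hz1, hz2, ?_⟩
    unfold SConn at hz3 ⊢
    refine hz3.tail ⟨Finsupp.mem_support_iff.2 hx, Finsupp.mem_support_iff.2 hy, ?_⟩
    fin_cases i
    · exact Or.inl rfl
    · exact Or.inr (Or.inl rfl)
    · exact Or.inr (Or.inr rfl)
  have hiff : ∀ (i : Fin 3) (x : X), b x ≠ 0 → b (ρ (gen p q i) x) ≠ 0 →
      (Q (ρ (gen p q i) x) ↔ Q x) := by
    intro i x hx hy
    refine ⟨fun h => ?_, hstep i x hx hy⟩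
    have := hstep i (ρ (gen p q i) x) hy (by rw [act_gen_gen]; exact hx) h
    rwa [act_gen_gen] at this
  have hval : ∀ x, (b.filter Q) x = if Q x then b x else 0 := fun x => Finsupp.filter_apply _ _ _
  have hinv : ∀ (i : Fin 3) (x : X), b (ρ (gen p q i) x) = b x →
      (b.filter Q) (ρ (gen p q i) x) = (b.filter Q) x := by
    intro i x hx
    rw [hval, hval, hx]
    by_cases h0 : b x = 0
    · simp [h0]
    · rw [if_congr (hiff i x h0 (by rw [hx]; exact h0)) rfl rfl]
  refine ⟨b.filter Q, fun x => hinv 0 x (hA x), fun x => hinv 1 x (hB x), fun x => ?_⟩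
  by_cases hw1 : w₁ x = 0
  · by_cases hw2 : w₂ x = 0
    · have h0 : b x = b (ρ (gen p q 2) x) := by
        have := hb x
        rw [hw1, hw2, sub_zero] at this
        have hne : ε x ≠ 0 := by rcases hε x with h | h <;> rw [h] <;> norm_num
        have h' : b x - b (ρ (gen p q 2) x) = 0 := by
          rcases mul_eq_zero.1 this.symm with h | h
          · exact absurd h hne
          · exact h
        linarith
      rw [hinv 2 x h0.symm, hw1]
      ring
    · have hz : ∀ y, w₂ y ≠ 0 → (b.filter Q) y = 0 := by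
        intro y hy
        rw [hval]
        split_ifs with hQ
        · obtain ⟨z, hz1, hz2, hz3⟩ := hQ
          by_contra hby
          exact hc z y hz2 hby hz1 hy hz3
        · rfl
      rw [hz x hw2, hz (ρ (gen p q 2) x) (by rw [h2]; exact hw2), hw1]
      ring
  · have hw2 : w₂ x = 0 := (hd x).resolve_left hw1
    have hz : ∀ y, w₁ y ≠ 0 → (b.filter Q) y = b y := by
      intro y hy
      rw [hval]
      by_cases hby : b y = 0
      · simp [hby]
      · rw [if_pos ⟨y, hy, hby, Relation.ReflTransGen.refl⟩]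
    rw [hz x hw1, hz (ρ (gen p q 2) x) (by rw [h1]; exact hw1), ← hb x, hw2]
    ring

end MPbcd198.G
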