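import Pool.Agent.Lib.MP_bcd198_co.G.TauS
import Pool.Agent.Lib.MP_bcd198_co.G.PsiZ
import Pool.Agent.Lib.MP_bcd198_co.G.ChR
import Pool.Agent.Lib.MP_bcd198_co.G.Reach
import Pool.Agent.Lib.MP_bcd198_co.G.Spl
import Pool.Agent.Lib.MP_bcd198_co.G.IsoQ

/-!
# MP_bcd198_co, stream G, file `ShortD` (job G_ShortD)

[5.9] main estimate.
-/

set_option autoImplicit false

namespace MPbcd198.G

open Equiv

variable {p q : ℕ}

private theorem ShortD_kap_pos (hyp : Hyp p q) : 0 < kap p q := by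
  obtain ⟨hp, hq, hk⟩ := hyp
  have hp' : (3 : ℝ) ≤ p := by exact_mod_cast hp
  have hq' : (3 : ℝ) ≤ q := by exact_mod_cast hq
  have hk' : (4 : ℝ) < ((p : ℝ) - 2) * ((q : ℝ) - 2) := by
    have h : ((4 : ℕ) : ℝ) < (((p - 2) * (q - 2) : ℕ) : ℝ) := by exact_mod_cast hk
    rw [Nat.cast_mul, Nat.cast_sub (by omega), Nat.cast_sub (by omega)] at h
    exact_mod_cast h
  have hpp : (0 : ℝ) < p := by linarith
  have hqq : (0 : ℝ) < q := by linarith
  have h1 : kap p q = ((p : ℝ) * q - 2 * q - 2 * p) / (2 * p * q) := by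
    unfold kap
    field_simp
  rw [h1]
  apply div_pos
  · nlinarith
  · positivity

private theorem ShortD_mem_bd {X : Type} (ρ : Tri p q →* Perm X) (S : Finset X) (x : X) :
    x ∈ bd ρ S ↔ x ∈ S ∧ ρ (gen p q 2) x ∉ S := by
  classical
  unfold bd
  rw [Finset.mem_filter]

private theorem ShortD_tau_zpow (γ : Tri p q) (τ : Tri p q → ℤ)
    (h1 : ∀ g, τ (g * γ) = τ g + 1) (g : Tri p q) (k : ℤ) : τ (g * γ ^ k) = τ g + k := by
  induction k using Int.induction_on with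
  | zero => simp
  | succ i ih =>
    rw [zpow_add, zpow_one, ← mul_assoc, h1, ih]
    ring
  | pred i ih =>
    have h2 := h1 (g * γ ^ (-(i : ℤ) - 1))
    rw [mul_assoc, ← zpow_add_one, sub_add_cancel, ih] at h2
    linarith

/-- Main estimate (case `sgn γ = 1`): a coset fixed by a nontrivial element of length `≤ l` is at
bounded distance from the base coset.

PROOF.  Fix a word `wγ` for `γ`.  Let `h ∈ ballT l`, word `w`, `h ≠ 1`, `h (gΓ) = gΓ`, so
`h g = g γ^k`, `k ≠ 0`.  `W = Wch (gΓ) w`, `W' = k • Wch Γ wγ`; `chain_rel`: `W - W' ∈ BdryZ`, with a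
face function `b`.  `ψ(W) = 4 (τ(h g) - τ g) = 4 (τ(g γ^k) - τ g) = 4k ≠ 0` (`psi_Wch`,
`exists_tau`, `exists_T`), so `W ∉ BdryZ` (`psi_bdry`).  If the supports of `W`, `W'` meet, the
distance is at most `l + |wγ| + 4` (`Wch_support`).  Otherwise by `split_bdry` there are
`x ∈ supp W`, `y ∈ supp W'` with `SConn (supp b) x y`; `supp b` is a face set with
`bd ⊆ supp W ∪ supp W'`, so `kap |supp b| ≤ 12 (l + |wγ|)` (`isoperimetry`, `Wch_card`), and
`reach_ball` bounds the distance between `x` and `y`. -/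
theorem short_dist (hyp : Hyp p q) (hmap : IsMapHom (selfHom p q)) (γ : Tri p q)
    (hγ : ∀ n : ℤ, n ≠ 0 → γ ^ n ≠ 1) (hm : IsMapHom (cosetHom (Subgroup.zpowers γ)))
    (hs : sgn p q γ = 1) (l : ℕ) : ∃ L : ℕ, ∀ g h : Tri p q, h ∈ ballT p q l → h ≠ 1 →
      cosetHom (Subgroup.zpowers γ) h (g : Tri p q ⧸ Subgroup.zpowers γ) =
        (g : Tri p q ⧸ Subgroup.zpowers γ) →
      ∃ u ∈ ballT p q L, (g : Tri p q ⧸ Subgroup.zpowers γ) =
        (u : Tri p q ⧸ Subgroup.zpowers γ) := by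
  classical
  set Γ := Subgroup.zpowers γ with hΓ
  obtain ⟨wγ, hwγ⟩ := exists_word γ
  obtain ⟨τ, ht1, ht2, ht3⟩ := exists_tau hyp γ hγ hm
  obtain ⟨T, hT, hTC, hTA, hTf⟩ := exists_T γ τ ht1 ht2 ht3
  obtain ⟨ε, hε1, hε2⟩ := exists_eps γ hs
  have hkap := ShortD_kap_pos hyp
  obtain ⟨M, hM⟩ := exists_nat_ge (12 * ((l : ℝ) + wγ.length) / kap p q)
  have hM' : 12 * ((l : ℝ) + wγ.length) ≤ M * kap p q := by
    rwa [div_le_iff₀ hkap] at hM
  refine ⟨(l + 2) + (M + (wγ.length + 2)), ?_⟩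
  intro g h hh hh1 hfix
  obtain ⟨w, hwl, hw⟩ := hh
  obtain ⟨k, hk⟩ := exists_zpow γ (h * g) g hfix
  have hk0 : k ≠ 0 := by
    rintro rfl
    apply hh1
    rw [zpow_zero, mul_one] at hk
    exact mul_eq_right.1 hk
  have hx0 : cosetHom Γ γ ((1 : Tri p q) : Tri p q ⧸ Γ) = ((1 : Tri p q) : Tri p q ⧸ Γ) := by
    rw [cosetHom_apply, mul_one]
    apply QuotientGroup.eq.2
    rw [mul_one]
    exact Γ.inv_mem (Subgroup.mem_zpowers γ)
  have hg0 : cosetHom Γ g ((1 : Tri p q) : Tri p q ⧸ Γ) = (g : Tri p q ⧸ Γ) := by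
    rw [cosetHom_apply, mul_one]
  have hrel := chain_rel hyp hm ε hε1 hε2 ((1 : Tri p q) : Tri p q ⧸ Γ) γ g h k hx0 hk w wγ hw hwγ
  rw [hg0] at hrel
  have hpsi := psi_Wch Γ τ T hT ht2 ht3 hTC hTA g w
  rw [hw, hk, ShortD_tau_zpow γ τ ht1] at hpsi
  have hWn : Wch (cosetHom Γ) (g : Tri p q ⧸ Γ) w ∉ BdryZ (cosetHom Γ) ε := by
    intro hW
    have h0 := psi_bdry hyp hm ε T hε2 hTC hTf _ hW
    rw [h0] at hpsi
    apply hk0
    linarith
  have hsupW : ∀ z, Wch (cosetHom Γ) (g : Tri p q ⧸ Γ) w z ≠ 0 →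
      ∃ a ∈ ballT p q (l + 2), z = cosetHom Γ a (g : Tri p q ⧸ Γ) := by
    intro z hz
    obtain ⟨a, ha, hza⟩ := Wch_support (cosetHom Γ) _ z w (Finsupp.mem_support_iff.2 hz)
    exact ⟨a, ballT_mono (by omega) ha, hza⟩
  have hsupG : ∀ z, Wch (cosetHom Γ) ((1 : Tri p q) : Tri p q ⧸ Γ) wγ z ≠ 0 →
      ∃ a ∈ ballT p q (wγ.length + 2), z = (a : Tri p q ⧸ Γ) := by
    intro z hz
    obtain ⟨a, ha, hza⟩ := Wch_support (cosetHom Γ) _ z wγ (Finsupp.mem_support_iff.2 hz)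
    exact ⟨a, ha, by rw [hza, cosetHom_apply, mul_one]⟩
  have hinv : ∀ (a : Tri p q) (y z : Tri p q ⧸ Γ), cosetHom Γ a y = z →
      y = cosetHom Γ a⁻¹ z := by
    intro a y z hyz
    rw [← hyz, ← act_mul, inv_mul_cancel, map_one]
    rfl
  by_cases hdis : ∀ z, Wch (cosetHom Γ) (g : Tri p q ⧸ Γ) w z = 0 ∨
      Wch (cosetHom Γ) ((1 : Tri p q) : Tri p q ⧸ Γ) wγ z = 0
  · obtain ⟨b, hbA, hbB, hb⟩ := hrel
    have hex : ∃ x y, b x ≠ 0 ∧ b y ≠ 0 ∧ Wch (cosetHom Γ) (g : Tri p q ⧸ Γ) w x ≠ 0 ∧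
        (k • Wch (cosetHom Γ) ((1 : Tri p q) : Tri p q ⧸ Γ) wγ) y ≠ 0 ∧
        SConn (cosetHom Γ) b.support x y := by
      by_contra hcon
      push Not at hcon
      apply hWn
      refine split_bdry (cosetHom Γ) ε b _ (k • Wch (cosetHom Γ) ((1 : Tri p q) : Tri p q ⧸ Γ) wγ)
        hε1 hbA hbB ?_ (fun x => Wch_C _ _ _ _) (fun x => ?_) (fun x => ?_) ?_
      · intro x
        have := hb x
        rwa [Finsupp.sub_apply] at this
      · rw [Finsupp.smul_apply, Finsupp.smul_apply, Wch_C]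
      · rcases hdis x with h0 | h0
        · exact Or.inl h0
        · right
          rw [Finsupp.smul_apply, h0, smul_zero]
      · intro x y hx hy hx' hy' hc
        exact hcon x y hx hy hx' hy' hc
    obtain ⟨x, y, hbx, hby, hx, hy, hc⟩ := hex
    have hy0 : Wch (cosetHom Γ) ((1 : Tri p q) : Tri p q ⧸ Γ) wγ y ≠ 0 := by
      intro h0
      apply hy
      rw [Finsupp.smul_apply, h0, smul_zero]
    have hface : FaceSet (cosetHom Γ) b.support := by
      intro z hz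
      rw [Finsupp.mem_support_iff] at hz
      exact ⟨by rw [Finsupp.mem_support_iff, hbA]; exact hz,
        by rw [Finsupp.mem_support_iff, hbB]; exact hz⟩
    have hbd : bd (cosetHom Γ) b.support ⊆
        (Wch (cosetHom Γ) (g : Tri p q ⧸ Γ) w).support ∪
        (Wch (cosetHom Γ) ((1 : Tri p q) : Tri p q ⧸ Γ) wγ).support := by
      intro z hz
      obtain ⟨hz1, hz2⟩ := (ShortD_mem_bd _ _ _).1 hz
      rw [Finsupp.mem_support_iff] at hz1
      rw [Finsupp.notMem_support_iff] at hz2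
      have h3 := hb z
      rw [hz2, sub_zero, Finsupp.sub_apply, Finsupp.smul_apply] at h3
      rw [Finset.mem_union, Finsupp.mem_support_iff, Finsupp.mem_support_iff]
      by_contra hcon
      push Not at hcon
      rw [hcon.1, hcon.2, smul_zero, sub_zero] at h3
      rcases hε1 z with h4 | h4 <;> rw [h4] at h3 <;> apply hz1 <;> linarith
    have hcard := isoperimetry hyp hmap γ hγ hm b.support hface
    have hc1 : (bd (cosetHom Γ) b.support).card ≤ 4 * l + 4 * wγ.length := by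
      refine (Finset.card_le_card hbd).trans ((Finset.card_union_le _ _).trans ?_)
      have h5 := Wch_card (cosetHom Γ) (g : Tri p q ⧸ Γ) w
      have h6 := Wch_card (cosetHom Γ) ((1 : Tri p q) : Tri p q ⧸ Γ) wγ
      omega
    have hc2 : b.support.card ≤ M := by
      have h7 : ((bd (cosetHom Γ) b.support).card : ℝ) ≤ 4 * l + 4 * wγ.length := by
        exact_mod_cast hc1
      have h8 : kap p q * b.support.card ≤ kap p q * M := by
        nlinarith
      have h9 : (b.support.card : ℝ) ≤ M := le_of_mul_le_mul_left h8 hkap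
      exact_mod_cast h9
    obtain ⟨c, hcb, hcx⟩ := reach_ball (cosetHom Γ) b.support x y hc
    obtain ⟨a, ha, hxa⟩ := hsupW x hx
    obtain ⟨a', ha', hya⟩ := hsupG y hy0
    refine ⟨a⁻¹ * (c⁻¹ * a'), ?_, ?_⟩
    · exact ballT_mul (ballT_inv ha) (ballT_mul (ballT_inv (ballT_mono hc2 hcb)) ha')
    · have h10 := hinv a _ _ hxa.symm
      have h11 := hinv c _ _ hcx
      rw [h10, h11, hya, cosetHom_apply, cosetHom_apply]
  · push Not at hdis
    obtain ⟨z, hz1, hz2⟩ := hdis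
    obtain ⟨a, ha, hza⟩ := hsupW z hz1
    obtain ⟨a', ha', hza'⟩ := hsupG z hz2
    refine ⟨a⁻¹ * (1 * a'), ?_, ?_⟩
    · exact ballT_mul (ballT_inv ha) (ballT_mul (ballT_one M) ha')
    · have h10 := hinv a _ _ hza.symm
      rw [h10, hza', cosetHom_apply, one_mul]

end MPbcd198.G
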