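import Pool.Agent.Lib.MP_bcd198_co.G.Sect

/-!
# MP_bcd198_co, stream G, file `TauS` (job G_TauS)

[5.9] the height function `τ` and the sign on the cyclic quotient `D/⟨γ⟩`.
-/

set_option autoImplicit false

namespace MPbcd198.G

open Equiv

variable {p q : ℕ}

private theorem TauS_inj {γ : Tri p q} (hγ : ∀ n : ℤ, n ≠ 0 → γ ^ n ≠ 1) {a b : ℤ}
    (h : γ ^ a = γ ^ b) : a = b := by
  by_contra hne
  refine hγ (a - b) (sub_ne_zero.2 hne) ?_
  rw [zpow_sub, h, mul_inv_cancel]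

/-- `τ(gγ) = τ(g) + 1`, `τ` constant on vertices.

PROOF.  `s` from `exists_section` for `H = vSub` (`free_v`).  By `exists_zpow`
`g = s(gΓ) γ^{τ(g)}`, where `τ(g)` is unique because `γ` has infinite order.
`gγ = s(gΓ) γ^{τ(g)+1}`; `B g = B s(gΓ) γ^{τ(g)} = s(BgΓ) γ^{τ(g)}`. -/
theorem exists_tau (hyp : Hyp p q) (γ : Tri p q) (hγ : ∀ n : ℤ, n ≠ 0 → γ ^ n ≠ 1)
    (hm : IsMapHom (cosetHom (Subgroup.zpowers γ))) :
    ∃ τ : Tri p q → ℤ, (∀ g, τ (g * γ) = τ g + 1) ∧ (∀ g, τ (gen p q 1 * g) = τ g) ∧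
      ∀ g, τ (gen p q 2 * g) = τ g := by
  obtain ⟨s, hs1, hs2⟩ := exists_section (Subgroup.zpowers γ) (vSub p q)
    (fun g hg y h => free_v hyp hm hg y h)
  have hex : ∀ g : Tri p q, ∃ k : ℤ, g = s (g : Tri p q ⧸ Subgroup.zpowers γ) * γ ^ k :=
    fun g => exists_zpow γ g _ (hs1 _).symm
  choose τ hτ using hex
  have hstep : ∀ (c g : Tri p q), c ∈ vSub p q → τ (c * g) = τ g := by
    intro c g hc
    have h1 := hτ (c * g)
    have h2 : ((c * g : Tri p q) : Tri p q ⧸ Subgroup.zpowers γ) =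
        cosetHom (Subgroup.zpowers γ) c (g : Tri p q ⧸ Subgroup.zpowers γ) := rfl
    rw [h2, hs2 c hc, mul_assoc] at h1
    have h3 := mul_left_cancel h1
    have h4 := hτ g
    apply TauS_inj hγ
    exact mul_left_cancel (h3.symm.trans h4)
  refine ⟨τ, ?_, fun g => hstep _ g (B_mem_vSub p q), fun g => hstep _ g (C_mem_vSub p q)⟩
  intro g
  have h1 := hτ (g * γ)
  have h2 : ((g * γ : Tri p q) : Tri p q ⧸ Subgroup.zpowers γ) = (g : Tri p q ⧸ Subgroup.zpowers γ) := by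
    symm
    rw [QuotientGroup.eq, inv_mul_cancel_left]
    exact Subgroup.mem_zpowers γ
  have h3 : g * γ = s (g : Tri p q ⧸ Subgroup.zpowers γ) * γ ^ (τ g + 1) := by
    rw [zpow_add, zpow_one, ← mul_assoc, ← hτ g]
  apply TauS_inj hγ
  rw [h2] at h1
  exact mul_left_cancel (h1.symm.trans h3)

private theorem TauS_zpow (γ : Tri p q) (τ : Tri p q → ℤ) (h1 : ∀ g, τ (g * γ) = τ g + 1) (k : ℤ) :
    ∀ g, τ (g * γ ^ k) = τ g + k := by
  induction k using Int.induction_on with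
  | zero => intro g; simp
  | succ n ih =>
    intro g
    rw [zpow_add, zpow_one, ← mul_assoc, h1, ih]
    ring
  | pred n ih =>
    intro g
    have h2 := h1 (g * γ ^ (-(n : ℤ) - 1))
    rw [mul_assoc, ← zpow_add_one, sub_add_cancel, ih] at h2
    linarith

/-- The increments `T(gΓ) = τ(Ag) - τ(g)` on the quotient; `T(Cy) = T(y)` (`τ(ACg) = τ(CAg)`),
`T(Ay) = -T(y)`, `Σ_{i<p} T((BA)^i y) = Σ τ((BA)^{i+1} g) - τ((BA)^i g) = 0` (`τ(A z) = τ(BA z)`). -/
theorem exists_T (γ : Tri p q) (τ : Tri p q → ℤ) (h1 : ∀ g, τ (g * γ) = τ g + 1)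
    (h2 : ∀ g, τ (gen p q 1 * g) = τ g) (h3 : ∀ g, τ (gen p q 2 * g) = τ g) :
    ∃ T : Tri p q ⧸ Subgroup.zpowers γ → ℤ,
      (∀ g : Tri p q, T (g : Tri p q ⧸ Subgroup.zpowers γ) = τ (gen p q 0 * g) - τ g) ∧
      (∀ y, T (cosetHom _ (gen p q 2) y) = T y) ∧ (∀ y, T (cosetHom _ (gen p q 0) y) = - T y) ∧
      ∀ y, ∑ i ∈ Finset.range p, T (cosetHom _ ((gen p q 1 * gen p q 0) ^ i) y) = 0 := by
  have hT : ∀ g : Tri p q, (fun y : Tri p q ⧸ Subgroup.zpowers γ => τ (gen p q 0 * y.out) - τ y.out)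
      (g : Tri p q ⧸ Subgroup.zpowers γ) = τ (gen p q 0 * g) - τ g := by
    intro g
    obtain ⟨⟨h, k, hk⟩, hh⟩ := QuotientGroup.mk_out_eq_mul (Subgroup.zpowers γ) g
    have hk' : h = γ ^ k := hk.symm
    simp only
    rw [hh]
    simp only [hk']
    rw [← mul_assoc, TauS_zpow γ τ h1, TauS_zpow γ τ h1]
    ring
  refine ⟨fun y => τ (gen p q 0 * y.out) - τ y.out, hT, ?_, ?_, ?_⟩
  · intro y
    obtain ⟨g, rfl⟩ := QuotientGroup.mk_surjective y
    have e : cosetHom (Subgroup.zpowers γ) (gen p q 2) (g : Tri p q ⧸ Subgroup.zpowers γ) =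
      ((gen p q 2 * g : Tri p q) : Tri p q ⧸ Subgroup.zpowers γ) := rfl
    rw [e]
    refine (hT _).trans (Eq.trans ?_ (hT g).symm)
    rw [← mul_assoc, ac_comm, mul_assoc, h3, h3]
  · intro y
    obtain ⟨g, rfl⟩ := QuotientGroup.mk_surjective y
    have e : cosetHom (Subgroup.zpowers γ) (gen p q 0) (g : Tri p q ⧸ Subgroup.zpowers γ) =
      ((gen p q 0 * g : Tri p q) : Tri p q ⧸ Subgroup.zpowers γ) := rfl
    rw [e]
    refine (hT _).trans (Eq.trans ?_ (congrArg (fun z => - z) (hT g).symm))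
    rw [← mul_assoc, gen_sq, one_mul]
    ring
  · intro y
    obtain ⟨g, rfl⟩ := QuotientGroup.mk_surjective y
    have e : ∀ i : ℕ, (fun y : Tri p q ⧸ Subgroup.zpowers γ => τ (gen p q 0 * y.out) - τ y.out)
        (cosetHom (Subgroup.zpowers γ) ((gen p q 1 * gen p q 0) ^ i) (g : Tri p q ⧸ Subgroup.zpowers γ)) =
        τ ((gen p q 1 * gen p q 0) ^ (i + 1) * g) - τ ((gen p q 1 * gen p q 0) ^ i * g) := by
      intro i
      have e1 : cosetHom (Subgroup.zpowers γ) ((gen p q 1 * gen p q 0) ^ i) (g : Tri p q ⧸ Subgroup.zpowers γ) =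
        (((gen p q 1 * gen p q 0) ^ i * g : Tri p q) : Tri p q ⧸ Subgroup.zpowers γ) := rfl
      rw [e1]
      refine (hT _).trans ?_
      rw [pow_succ', mul_assoc (gen p q 1 * gen p q 0), mul_assoc (gen p q 1), h2]
    have e2 : ∑ i ∈ Finset.range p, (fun y : Tri p q ⧸ Subgroup.zpowers γ => τ (gen p q 0 * y.out) - τ y.out)
        (cosetHom (Subgroup.zpowers γ) ((gen p q 1 * gen p q 0) ^ i) (g : Tri p q ⧸ Subgroup.zpowers γ)) = 0 := by
      rw [Finset.sum_congr rfl fun i _ => e i,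
        Finset.sum_range_sub (fun i => τ ((gen p q 1 * gen p q 0) ^ i * g)), ba_pow, pow_zero, sub_self]
    exact e2

/-- the sign on the quotient, when `sgn γ = 1` -/
theorem exists_eps (γ : Tri p q) (hs : sgn p q γ = 1) :
    ∃ ε : Tri p q ⧸ Subgroup.zpowers γ → ℤ, (∀ y, ε y = 1 ∨ ε y = -1) ∧
      ∀ (i : Fin 3) (y), ε (cosetHom _ (gen p q i) y) = - ε y := by
  have hE : ∀ g : Tri p q, (fun y : Tri p q ⧸ Subgroup.zpowers γ => ((sgn p q y.out : ℤˣ) : ℤ))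
      (g : Tri p q ⧸ Subgroup.zpowers γ) = ((sgn p q g : ℤˣ) : ℤ) := by
    intro g
    obtain ⟨⟨h, k, hk⟩, hh⟩ := QuotientGroup.mk_out_eq_mul (Subgroup.zpowers γ) g
    have hk' : h = γ ^ k := hk.symm
    simp only
    rw [hh]
    simp only [hk', map_mul, map_zpow, hs, one_zpow, mul_one]
  refine ⟨fun y => ((sgn p q y.out : ℤˣ) : ℤ), ?_, ?_⟩
  · intro y
    rcases Int.units_eq_one_or (sgn p q y.out) with h | h
    · left
      simp [h]
    · right
      simp [h]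
  · intro i y
    obtain ⟨g, rfl⟩ := QuotientGroup.mk_surjective y
    have e : cosetHom (Subgroup.zpowers γ) (gen p q i) (g : Tri p q ⧸ Subgroup.zpowers γ) =
      ((gen p q i * g : Tri p q) : Tri p q ⧸ Subgroup.zpowers γ) := rfl
    rw [e]
    refine (hE _).trans (Eq.trans ?_ (congrArg (fun z => - z) (hE g).symm))
    rw [map_mul, sgn_gen]
    simp

end MPbcd198.G
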